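import Pool.Agent.H41.TF.Dich

/-!
# The action of `T` on leaves and the invariant of an overgroup of `H₀`
-/

set_option autoImplicit false

namespace Pool.Agent.H41.TF

/-- The set of leaves. -/
abbrev Lf : Type := {D : Word // st D = St.g}

/-- The action on leaves (underlying function). -/
noncomputable def actLf (t : TT) (D : Lf) : Lf :=
  ⟨(leafAff_of_mem t.2 D.1 D.2).choose, (leafAff_of_mem t.2 D.1 D.2).choose_spec.1⟩

theorem actLf_maps (t : TT) (D : Lf) : Maps t.1 D.1 (actLf t D).1 :=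
  (leafAff_of_mem t.2 D.1 D.2).choose_spec.2

theorem actLf_eq {t : TT} {D E : Lf} (h : Maps t.1 D.1 E.1) : actLf t D = E :=
  Subtype.ext ((actLf_maps t D).unique h)

noncomputable instance instActLf : MulAction TT Lf where
  smul := actLf
  one_smul D := actLf_eq (Maps.one D.1)
  mul_smul s t D := actLf_eq ((actLf_maps t D).mul (actLf_maps s _))

theorem smul_maps (t : TT) (D : Lf) : Maps t.1 D.1 (t • D).1 := actLf_maps t D

theorem smul_eq {t : TT} {D E : Lf} (h : Maps t.1 D.1 E.1) : t • D = E := actLf_eq h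

/-- Restriction of a homeomorphism to the interval of a word. -/
theorem exists_restr {g : UI ≃o UI} {w : Word} (h0 : g (pt w 0) = pt w 0)
    (h1 : g (pt w 1) = pt w 1) : ∃ m : UI ≃o UI, ∀ x, g (pt w x) = pt w (m x) := by
  have key : ∀ g : UI ≃o UI, g (pt w 0) = pt w 0 → g (pt w 1) = pt w 1 →
      ∀ x, ∃ y, pt w y = g (pt w x) := fun g h0 h1 x =>
    exists_of_mem w _ (by rw [← h0]; exact g.monotone (pt_zero_le w x))
      (by rw [← h1]; exact g.monotone (pt_le_one w x))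
  have i0 : g⁻¹ (pt w 0) = pt w 0 := by
    conv_lhs => rw [← h0]
    exact RelIso.inv_apply_self _ _
  have i1 : g⁻¹ (pt w 1) = pt w 1 := by
    conv_lhs => rw [← h1]
    exact RelIso.inv_apply_self _ _
  choose φ hφ using key g h0 h1
  choose ψ hψ using key g⁻¹ i0 i1
  refine ⟨{ toFun := φ, invFun := ψ, left_inv := ?_, right_inv := ?_, map_rel_iff' := ?_ },
    fun x => (hφ x).symm⟩
  · intro x
    apply pt_injective w
    rw [hψ, hφ, RelIso.inv_apply_self]
  · intro x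
    apply pt_injective w
    rw [hφ, hψ, RelIso.apply_inv_self]
  · intro a b
    simp only [Equiv.coe_fn_mk]
    rw [← (pt_strictMono w).le_iff_le, hφ, hφ, g.le_iff_le, (pt_strictMono w).le_iff_le]

/-- The middle point. -/
noncomputable def mid : UI := half true 0

theorem mid_ne_zero : mid ≠ 0 := fun h => absurd (half_zero_eq h).1 (by decide)

theorem mid_ne_one : mid ≠ 1 := fun h => absurd (half_one_eq h).2 zero_ne_one'

theorem Comb.restr {g m : UI ≃o UI} {w : Word} (hg : Comb g)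
    (h : ∀ x, g (pt w x) = pt w (m x)) : Comb m := by
  obtain ⟨M, hM⟩ := hg
  refine ⟨M, fun u hu => ?_⟩
  obtain ⟨v, hv⟩ := hM (w ++ u) (by rw [List.length_append]; omega)
  have h1 : ∀ x, pt v x = pt w (m (pt u x)) := fun x => by rw [← hv x, pt_append, h]
  rcases common _ _ _ _ (h1 mid) with ⟨r, hr⟩ | ⟨r, hr⟩ | ⟨_, _, _, _, _, h2, _⟩ |
    ⟨_, _, _, _, _, h2, _⟩
  · -- `w = v ++ r`
    have e : v = w := by
      refine word_ext (le_antisymm ?_ ?_) (le_antisymm ?_ ?_)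
      · rw [← hr, pt_append]; exact pt_zero_le v _
      · rw [h1 0]; exact pt_zero_le w _
      · rw [h1 1]; exact pt_le_one w _
      · rw [← hr, pt_append]; exact pt_le_one v _
    refine ⟨[], fun x => pt_injective w ?_⟩
    rw [← h1 x, e]; rfl
  · refine ⟨r, fun x => pt_injective w ?_⟩
    rw [← h1 x, ← hr, pt_append]
  · exact absurd h2 mid_ne_one
  · exact absurd h2 mid_ne_zero

theorem parAt_restr {g m : UI ≃o UI} {w : Word} (hm : Comb m)
    (h : ∀ x, g (pt w x) = pt w (m x)) : parAt g w = parAt m [] := by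
  obtain ⟨a, b, h1⟩ := germD hm (D := []) (map_zero' m)
  rw [parAt_eq h1]
  refine parAt_eq fun x => ?_
  rw [pt_append, h, pt_append]
  congr 1
  exact h1 x

theorem inc_of_leaves {D E : Word} (hD : st D = .g) (hE : st E = .g) (h : D ≠ E) : Inc D E := by
  constructor
  · rintro ⟨u, rfl⟩
    rw [st_append, hD] at hE
    rw [go_g hE, List.append_nil] at h
    exact h rfl
  · rintro ⟨u, rfl⟩
    rw [st_append, hE] at hD
    rw [go_g hD, List.append_nil] at h
    exact h rfl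

theorem loc_leaf_mem_NN {D : Word} (hD : st D = .g) {m : UI ≃o UI} (hm : Comb m) :
    loc D m ∈ NN := by
  refine ⟨hm.locAt D, fun E hE => ?_⟩
  by_cases h : D = E
  · subst h
    rw [loc_pt, loc_pt, map_zero', map_one']
    exact ⟨rfl, rfl⟩
  · have hi := inc_of_leaves hD hE h
    rw [loc_fix_of_inc hi, loc_fix_of_inc hi]
    exact ⟨rfl, rfl⟩

theorem parAt_loc_same {D : Word} {m : UI ≃o UI} (hm : Comb m) :
    parAt (loc D m) D = parAt m [] :=
  parAt_restr hm fun x => loc_pt D m x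

theorem parAt_loc_ne {D E : Word} (hD : st D = .g) (hE : st E = .g) (h : D ≠ E)
    (m : UI ≃o UI) : parAt (loc D m) E = 0 :=
  parAt_of_fix (Maps.loc_inc (inc_of_leaves hD hE h) m)

theorem one_of_fix {n : UI ≃o UI} (hn : Comb n) (h : ∀ D, st D = .g → Maps n D D) : n = 1 := by
  obtain ⟨M, hM⟩ := hn
  refine ext_words M fun w hw x => ?_
  by_cases hi : Inn (st w)
  · obtain ⟨D, r, rfl, hD⟩ := exists_leaf hi
    exact ((h D hD).append r) x
  · obtain ⟨v, hv⟩ := hM w hw.ge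
    obtain ⟨u, hu⟩ := exists_l hi
    have h1 : st (w ++ (u ++ [true, false])) = .g := by
      rw [st_append, go_append, hu]; rfl
    have h2 := (hv.append (u ++ [true, false])).unique (h _ h1)
    have h3 : v = w := (List.append_inj' h2 rfl).1
    rw [hv x, h3]; rfl

/-- Elements of `N` with all parities zero lie in `H₀`. -/
theorem ker_le_H0_aux (S : Finset Word) : ∀ n : UI ≃o UI, n ∈ NN →
    (∀ D, st D = .g → D ∉ S → Maps n D D) → (∀ D, st D = .g → parAt n D = 0) → n ∈ H0 := by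
  classical
  induction S using Finset.induction_on with
  | empty =>
    intro n hn h _
    rw [one_of_fix hn.1 (fun D hD => h D hD (by simp))]
    exact H0.one_mem
  | insert D S _ ih =>
    intro n hn h hp
    by_cases hD : st D = .g
    · obtain ⟨m, hm⟩ := exists_restr (hn.2 D hD).1 (hn.2 D hD).2
      have hmc : Comb m := Comb.restr hn.1 hm
      have hmA : m ∈ A0 := ⟨hmc, by rw [← parAt_restr hmc hm, hp D hD]⟩
      have hl : loc D m ∈ NN := loc_leaf_mem_NN hD hmc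
      have hn' : (loc D m)⁻¹ * n ∈ NN := NN.mul_mem (NN.inv_mem hl) hn
      have h1 : (loc D m)⁻¹ * n ∈ H0 := by
        refine ih _ hn' (fun E hE hES => ?_) (fun E hE => ?_)
        · by_cases hDE : D = E
          · subst hDE
            intro x
            rw [RelIso.mul_apply, hm x, ← loc_inv, loc_pt, RelIso.inv_apply_self]
          · have h2 : Maps n E E := h E hE (by
              rw [Finset.mem_insert]; rintro (h3 | h3)
              · exact hDE h3.symm
              · exact hES h3)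
            exact h2.mul (Maps.loc_inc (inc_of_leaves hD hE hDE) m).inv
        · rw [parAt_mul (NN.inv_mem hl).1 hn.1 ((NN.inv_mem hl).2 E hE).1 (hn.2 E hE).1,
            parAt_inv hl.1 (hl.2 E hE).1, hp E hE, add_zero]
          by_cases hDE : D = E
          · subst hDE
            rw [parAt_loc_same hmc, hmA.2]
          · exact parAt_loc_ne hD hE hDE m
      have h2 : n = loc D m * ((loc D m)⁻¹ * n) := by group
      rw [h2]
      exact H0.mul_mem (loc_leaf_mem hD hmA) h1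
    · refine ih n hn (fun E hE hES => h E hE ?_) hp
      rw [Finset.mem_insert]
      rintro (h3 | h3)
      · rw [h3] at hE; exact hD hE
      · exact hES h3

theorem exists_finset_fix {n : UI ≃o UI} (hn : n ∈ NN) :
    ∃ S : Finset Word, ∀ D, st D = .g → D ∉ S → Maps n D D := by
  obtain ⟨M, hM⟩ := hn.1
  have hfin : {w : Word | w.length < M}.Finite := List.finite_length_lt Bool M
  refine ⟨hfin.toFinset, fun D hD hDS => ?_⟩
  rw [Set.Finite.mem_toFinset, Set.mem_ofPred_eq, not_lt] at hDS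
  obtain ⟨v, hv⟩ := hM D hDS
  have h1 := hn.2 D hD
  have h2 : v = D := word_ext (by rw [← hv 0, h1.1]) (by rw [← hv 1, h1.2])
  rwa [h2] at hv

theorem ker_le_H0 {n : UI ≃o UI} (hn : n ∈ NN) (h : ∀ D, st D = .g → parAt n D = 0) :
    n ∈ H0 := by
  obtain ⟨S, hS⟩ := exists_finset_fix hn
  exact ker_le_H0_aux S n hn hS h

/-- The parities of an element of `N`, as a finitely supported function. -/
noncomputable def phi (n : NN) : Lf →₀ ZMod 2 :=
  Finsupp.ofSupportFinite (fun D : Lf => parAt n.1 D.1) (by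
    obtain ⟨S, hS⟩ := exists_finset_fix n.2
    refine Set.Finite.subset (s := {D : Lf | D.1 ∈ S}) ?_ ?_
    · exact Set.Finite.preimage Subtype.val_injective.injOn S.finite_toSet
    · intro D hD
      by_contra h
      exact hD (parAt_of_fix (hS D.1 D.2 h)))

theorem phi_apply (n : NN) (D : Lf) : phi n D = parAt n.1 D.1 := rfl

theorem phi_mul (a b : NN) : phi (a * b) = phi a + phi b := by
  ext D
  rw [Finsupp.add_apply, phi_apply, phi_apply, phi_apply]
  exact parAt_mul a.2.1 b.2.1 (a.2.2 D.1 D.2).1 (b.2.2 D.1 D.2).1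

theorem phi_one : phi 1 = 0 := by
  ext D
  rw [phi_apply]
  exact parAt_one _

theorem phi_inv (a : NN) : phi a⁻¹ = phi a := by
  ext D
  rw [phi_apply, phi_apply]
  exact parAt_inv a.2.1 (a.2.2 D.1 D.2).1

/-- Conjugation by an element of `T`. -/
noncomputable def conjN (t : TT) (n : NN) : NN := ⟨t.1 * n.1 * t.1⁻¹, conj_mem_NN t.2 n.2⟩

/-- The action of `T` on finitely supported functions. -/
noncomputable def actM (t : TT) : (Lf →₀ ZMod 2) →+ (Lf →₀ ZMod 2) :=
  Finsupp.mapDomain.addMonoidHom (t • ·)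

theorem actM_apply (t : TT) (x : Lf →₀ ZMod 2) : actM t x = Finsupp.mapDomain (t • ·) x := rfl

theorem phi_conj (t : TT) (n : NN) : phi (conjN t n) = actM t (phi n) := by
  ext D
  have h1 : D = t • (t⁻¹ • D) := by rw [smul_inv_smul]
  rw [actM_apply]
  conv_rhs => rw [h1]
  rw [Finsupp.mapDomain_apply (MulAction.injective t), phi_apply, phi_apply]
  have h2 : Maps t.1 (t⁻¹ • D).1 D.1 := by
    have := smul_maps t (t⁻¹ • D)
    rwa [smul_inv_smul] at this
  exact parAt_conj n.2.1 h2 (n.2.2 _ (t⁻¹ • D).2).1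

theorem phi_loc (D : Lf) : phi ⟨loc D.1 rot, loc_leaf_mem_NN D.2 comb_rot⟩ =
    Finsupp.single D 1 := by
  classical
  ext E
  rw [phi_apply, Finsupp.single_apply]
  split_ifs with h
  · subst h
    rw [parAt_loc_same comb_rot]
    have := parAt_eq (g := rot) (D := []) (a := 2) (b := 1) rot_00
    rw [this]
    decide
  · exact parAt_loc_ne D.2 E.2 (fun h' => h (Subtype.ext h')) rot

/-- The invariant of a subgroup. -/
noncomputable def RK (K : Subgroup (UI ≃o UI)) : AddSubgroup (Lf →₀ ZMod 2) where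
  carrier := {x | ∃ n : NN, n.1 ∈ K ∧ phi n = x}
  zero_mem' := ⟨1, K.one_mem, phi_one⟩
  add_mem' := by
    rintro _ _ ⟨a, ha, rfl⟩ ⟨b, hb, rfl⟩
    exact ⟨a * b, K.mul_mem ha hb, phi_mul a b⟩
  neg_mem' := by
    rintro _ ⟨a, ha, rfl⟩
    refine ⟨a⁻¹, K.inv_mem ha, ?_⟩
    have h1 : phi a⁻¹ + phi a = 0 := by rw [← phi_mul, inv_mul_cancel, phi_one]
    exact eq_neg_of_add_eq_zero_left h1

/-- Invariant subgroups of the module. -/
def InvM (R : AddSubgroup (Lf →₀ ZMod 2)) : Prop := ∀ (t : TT), ∀ x ∈ R, actM t x ∈ R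

theorem invM_RK {K : Subgroup (UI ≃o UI)} (h0 : H0 ≤ K) : InvM (RK K) := by
  rintro t _ ⟨n, hn, rfl⟩
  have ht : t.1 ∈ K := h0 (TT_le_H0 t.2)
  exact ⟨conjN t n, K.mul_mem (K.mul_mem ht hn) (K.inv_mem ht), phi_conj t n⟩

theorem RK_le {K K' : Subgroup (UI ≃o UI)} (hF : K ≤ ThompsonF) (h0 : H0 ≤ K) (hb : bb ∉ K)
    (h0' : H0 ≤ K') (h : RK K ≤ RK K') : K ≤ K' := by
  intro k hk
  obtain ⟨t, ht, n, hn, rfl⟩ := (good_of_mem_K hF h0 hb hk).dec
  have htK : t ∈ K := h0 (TT_le_H0 ht)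
  have hnK : n ∈ K := by
    have := K.mul_mem (K.inv_mem htK) hk
    rwa [inv_mul_cancel_left] at this
  obtain ⟨n', hn', h1⟩ := h ⟨⟨n, hn⟩, hnK, rfl⟩
  have h2 : (n'⁻¹ * (⟨n, hn⟩ : NN)).1 ∈ H0 := by
    refine ker_le_H0 (n'⁻¹ * (⟨n, hn⟩ : NN)).2 fun D hD => ?_
    have h3 : phi (n'⁻¹ * (⟨n, hn⟩ : NN)) = 0 := by
      rw [phi_mul, phi_inv, h1, ← two_smul ℕ, ← Nat.cast_smul_eq_nsmul (ZMod 2)]
      have : ((2 : ℕ) : ZMod 2) = 0 := by decide
      rw [this, zero_smul]
    have h4 := DFunLike.congr_fun h3 (⟨D, hD⟩ : Lf)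
    rwa [phi_apply] at h4
  have h3 : n = n'.1 * (n'⁻¹ * (⟨n, hn⟩ : NN)).1 := by
    simp
  refine K'.mul_mem (h0' (TT_le_H0 ht)) ?_
  rw [h3]
  exact K'.mul_mem hn' (h0' h2)

theorem RK_injOn : Set.InjOn RK
    {K : Subgroup (UI ≃o UI) | K ≤ ThompsonF ∧ H0 ≤ K ∧ bb ∉ K} := by
  rintro K ⟨h1, h2, h3⟩ K' ⟨h1', h2', h3'⟩ h
  exact le_antisymm (RK_le h1 h2 h3 h2' h.le) (RK_le h1' h2' h3' h2 h.ge)

/-! ### The subgroup of an invariant submodule -/

/-- The subgroup of an invariant submodule. -/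
noncomputable def HR (R : AddSubgroup (Lf →₀ ZMod 2)) (hR : InvM R) : Subgroup (UI ≃o UI) where
  carrier := {k | ∃ (t : TT) (n : NN), phi n ∈ R ∧ k = t.1 * n.1}
  one_mem' := ⟨1, 1, by rw [phi_one]; exact R.zero_mem, by simp⟩
  mul_mem' := by
    rintro _ _ ⟨t, n, hn, rfl⟩ ⟨t', n', hn', rfl⟩
    refine ⟨t * t', conjN t'⁻¹ n * n', ?_, ?_⟩
    · rw [phi_mul, phi_conj]
      exact R.add_mem (hR _ _ hn) hn'
    · change t.1 * n.1 * (t'.1 * n'.1) = (t.1 * t'.1) * ((t'.1⁻¹ * n.1 * (t'.1⁻¹)⁻¹) * n'.1)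
      group
  inv_mem' := by
    rintro _ ⟨t, n, hn, rfl⟩
    refine ⟨t⁻¹, conjN t n⁻¹, ?_, ?_⟩
    · rw [phi_conj, phi_inv]
      exact hR _ _ hn
    · change (t.1 * n.1)⁻¹ = t.1⁻¹ * (t.1 * n.1⁻¹ * t.1⁻¹)
      group

theorem mem_HR {R : AddSubgroup (Lf →₀ ZMod 2)} {hR : InvM R} {k : UI ≃o UI} :
    k ∈ HR R hR ↔ ∃ (t : TT) (n : NN), phi n ∈ R ∧ k = t.1 * n.1 := Iff.rfl

theorem HR_le {R : AddSubgroup (Lf →₀ ZMod 2)} (hR : InvM R) : HR R hR ≤ ThompsonF := by
  rintro _ ⟨t, n, _, rfl⟩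
  exact ThompsonF.mul_mem (TT_le t.2) (NN_le n.2)

theorem HR_mono {R R' : AddSubgroup (Lf →₀ ZMod 2)} (hR : InvM R) (hR' : InvM R')
    (h : R ≤ R') : HR R hR ≤ HR R' hR' := by
  rintro _ ⟨t, n, hn, rfl⟩
  exact ⟨t, n, h hn, rfl⟩

theorem H0_le_HR {R : AddSubgroup (Lf →₀ ZMod 2)} (hR : InvM R) : H0 ≤ HR R hR := by
  refine sup_le ?_ ?_
  · intro t ht
    exact ⟨⟨t, ht⟩, 1, by rw [phi_one]; exact R.zero_mem, by simp⟩
  · rintro _ ⟨m, hm, rfl⟩
    refine ⟨1, ⟨loc (wd []) m, loc_leaf_mem_NN (st_wd []) hm.1⟩, ?_, by simp⟩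
    have : phi ⟨loc (wd []) m, loc_leaf_mem_NN (st_wd []) hm.1⟩ = 0 := by
      ext E
      rw [phi_apply]
      by_cases h : wd [] = E.1
      · rw [← h, parAt_loc_same hm.1, hm.2]; rfl
      · exact parAt_loc_ne (st_wd []) E.2 h m
    rw [this]
    exact R.zero_mem

theorem NN_leafPerm {n : UI ≃o UI} (hn : n ∈ NN) : LeafPerm n := fun D hD =>
  ⟨D, hD, (hn.2 D hD).1, (hn.2 D hD).2⟩

theorem bb_not_mem_HR {R : AddSubgroup (Lf →₀ ZMod 2)} (hR : InvM R) : bb ∉ HR R hR := by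
  rintro ⟨t, n, _, h⟩
  refine not_leafPerm_bb ?_
  rw [h]
  exact (leafAff_of_mem t.2).leafPerm.mul (NN_leafPerm n.2)

theorem phi_mem_of_HR {R : AddSubgroup (Lf →₀ ZMod 2)} (hR : InvM R) {n : NN}
    (h : n.1 ∈ HR R hR) : phi n ∈ R := by
  obtain ⟨t, n', hn', h1⟩ := h
  have h2 : t.1 = (n * n'⁻¹).1 := by
    change t.1 = n.1 * n'.1⁻¹
    rw [h1]; group
  have h3 : t.1 ∈ NN := by rw [h2]; exact (n * n'⁻¹).2
  have h4 : phi ⟨t.1, h3⟩ = 0 := by
    ext D
    rw [phi_apply]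
    refine parAt_of_fix ?_
    have h5 := smul_maps t D
    have h6 := h3.2 D.1 D.2
    have h7 : (t • D).1 = D.1 := word_ext (by rw [← h5 0, h6.1]) (by rw [← h5 1, h6.2])
    rw [h7] at h5
    exact h5
  have h5 : n = ⟨t.1, h3⟩ * n' := Subtype.ext h1
  rw [h5, phi_mul, h4, zero_add]
  exact hn'

end Pool.Agent.H41.TF
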