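import Pool.Agent.H41.TF.FGen

/-!
# The automaton, the element `f`, the typed rotation `yy` and the group `T`
-/

set_option autoImplicit false

namespace Pool.Agent.H41.TF

/-- States of the automaton. -/
inductive St
  | r | la | rh | l | q | p | g | i
  deriving DecidableEq

/-- Transitions. -/
def St.next : St → Bool → St
  | .r, false => .la
  | .r, true => .rh
  | .la, false => .la
  | .la, true => .l
  | .rh, false => .p
  | .rh, true => .rh
  | .l, false => .q
  | .l, true => .p
  | .q, false => .l
  | .q, true => .l
  | .p, false => .g
  | .p, true => .l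
  | .g, false => .i
  | .g, true => .i
  | .i, false => .i
  | .i, true => .i

/-- State reached from a state by a word. -/
def go (s : St) (w : Word) : St := w.foldl St.next s

@[simp] theorem go_nil (s : St) : go s [] = s := rfl
@[simp] theorem go_cons (s : St) (b : Bool) (w : Word) : go s (b :: w) = go (s.next b) w := rfl
theorem go_append (s : St) (w u : Word) : go s (w ++ u) = go (go s w) u := List.foldl_append

/-- State of a word. -/
def st (w : Word) : St := go .r w

theorem st_append (w u : Word) : st (w ++ u) = go (st w) u := go_append _ _ _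

/-- Inside (or equal to) a leaf. -/
def Inn (s : St) : Prop := s = .g ∨ s = .i

theorem inn_go {s : St} (h : Inn s) (w : Word) : Inn (go s w) := by
  induction w generalizing s with
  | nil => exact h
  | cons b w ih =>
    rw [go_cons]
    apply ih
    rcases h with rfl | rfl <;> cases b <;> exact Or.inr rfl

theorem go_i (w : Word) : go .i w = .i := by
  induction w with
  | nil => rfl
  | cons b w ih => cases b <;> exact ih

theorem go_g {w : Word} (h : go .g w = .g) : w = [] := by
  cases w with
  | nil => rfl
  | cons b w =>
    have : go .g (b :: w) = .i := by cases b <;> exact go_i w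
    rw [this] at h
    exact absurd h (by decide)

/-- Every word inside a leaf extends a leaf. -/
theorem exists_leaf : ∀ {w : Word}, Inn (st w) → ∃ D r, w = D ++ r ∧ st D = .g := by
  intro w
  induction w using List.reverseRecOn with
  | nil => intro h; rcases h with h | h <;> exact absurd h (by decide)
  | append_singleton w b ih =>
    intro h
    by_cases hg : st (w ++ [b]) = .g
    · exact ⟨_, [], by simp, hg⟩
    · have hi : st (w ++ [b]) = .i := h.resolve_left hg
      have hw : Inn (st w) := by
        rw [st_append] at hi
        revert hi
        cases st w <;> cases b <;> simp [St.next, Inn]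
      obtain ⟨D, r, h1, h2⟩ := ih hw
      exact ⟨D, r ++ [b], by rw [h1, List.append_assoc], h2⟩

/-- Words not inside a leaf extend to words of state `l`. -/
theorem exists_l {s : St} (h : ¬ Inn s) : ∃ u : Word, go s u = .l := by
  cases s
  · exact ⟨[false, true], rfl⟩
  · exact ⟨[true], rfl⟩
  · exact ⟨[false, true], rfl⟩
  · exact ⟨[], rfl⟩
  · exact ⟨[false], rfl⟩
  · exact ⟨[true], rfl⟩
  · exact absurd (Or.inl rfl) h
  · exact absurd (Or.inr rfl) h

theorem adj_aux (s : St) (a b : ℕ) : ¬ (go s (false :: List.replicate a true) = .g ∧
    go s (true :: List.replicate b false) = .g) := by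
  have h1 : ∀ (n : ℕ) (s : St), (s = .la ∨ s = .l ∨ s = .p ∨ s = .q ∨ s = .i) →
      go s (List.replicate n true) ≠ .g := by
    intro n
    induction n with
    | zero => rintro s (rfl | rfl | rfl | rfl | rfl) <;> decide
    | succ n ih =>
      intro s hs
      rw [List.replicate_succ, go_cons]
      apply ih
      rcases hs with rfl | rfl | rfl | rfl | rfl <;> simp [St.next]
  have h2 : ∀ (n : ℕ) (s : St), (s = .l ∨ s = .q) → go s (List.replicate n false) ≠ .g := by
    intro n
    induction n with
    | zero => rintro s (rfl | rfl) <;> decide
    | succ n ih =>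
      intro s hs
      rw [List.replicate_succ, go_cons]
      apply ih
      rcases hs with rfl | rfl <;> simp [St.next]
  rintro ⟨h3, h4⟩
  rw [go_cons] at h3 h4
  by_cases hs : s = .p
  · subst hs
    exact h2 b _ (Or.inl rfl) h4
  · refine h1 a _ ?_ h3
    cases s <;> simp [St.next] at hs ⊢

/-- Leaves with a common point are equal. -/
theorem leaf_disjoint {D E : Word} (hD : st D = .g) (hE : st E = .g) {x y : UI}
    (h : pt D x = pt E y) : D = E := by
  rcases common _ _ _ _ h with ⟨u, hu⟩ | ⟨u, hu⟩ | ⟨u, a, b, h1, h2, _⟩ | ⟨u, a, b, h1, h2, _⟩
  · rw [← hu, st_append, hD] at hE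
    rw [← hu, go_g hE, List.append_nil]
  · rw [← hu, st_append, hE] at hD
    rw [← hu, go_g hD, List.append_nil]
  · rw [h1, st_append] at hD
    rw [h2, st_append] at hE
    exact absurd ⟨hD, hE⟩ (adj_aux _ _ _)
  · rw [h1, st_append] at hE
    rw [h2, st_append] at hD
    exact absurd ⟨hE, hD⟩ (adj_aux _ _ _)

/-- Digits. -/
inductive Dg
  | a | b | d
  deriving DecidableEq

/-- Code of a digit. -/
def Dg.code : Dg → Word
  | .a => [false, false]
  | .b => [false, true]
  | .d => [true, true]

/-- Code of a list of digits. -/
def code (δ : List Dg) : Word := δ.flatMap Dg.code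

@[simp] theorem code_nil : code [] = [] := rfl
@[simp] theorem code_cons (x : Dg) (δ : List Dg) : code (x :: δ) = x.code ++ code δ := rfl
theorem code_append (δ η : List Dg) : code (δ ++ η) = code δ ++ code η := by
  simp [code]

theorem go_code (δ : List Dg) : go .l (code δ) = .l := by
  induction δ with
  | nil => rfl
  | cons x δ ih =>
    rw [code_cons, go_append]
    cases x <;> exact ih

/-- The base word. -/
def ob : Word := [false, true]

/-- Words of state `l` below the base word. -/
def wl (δ : List Dg) : Word := ob ++ code δ

/-- Leaves below the base word. -/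
def wd (δ : List Dg) : Word := wl δ ++ [true, false]

theorem st_ob : st ob = .l := rfl

theorem st_wl (δ : List Dg) : st (wl δ) = .l := by
  rw [wl, st_append, st_ob, go_code]

theorem st_wd (δ : List Dg) : st (wd δ) = .g := by
  rw [wd, st_append, st_wl]; rfl

theorem wl_append (δ η : List Dg) : wl (δ ++ η) = wl δ ++ code η := by
  rw [wl, wl, code_append, List.append_assoc]

theorem wd_append (δ η : List Dg) : wd (δ ++ η) = wl δ ++ (code η ++ [true, false]) := by
  rw [wd, wl_append, List.append_assoc]

/-- The typed rotation. -/
noncomputable def yy : UI ≃o UI :=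
  prog [([true, true], true), ([true], false), ([], false), ([], false)]

/-- The expanding element. -/
noncomputable def ff : UI ≃o UI :=
  prog [([false, true], true), ([false], false), ([false], false), ([], true)]

theorem y_aa : Maps yy [false, false, false, false] [false, false] := run_maps rfl
theorem y_ab : Maps yy [false, false, false, true] [false, true] := run_maps rfl
theorem y_ac : Maps yy [false, false, true, false] [true, false] := run_maps rfl
theorem y_ad : Maps yy [false, false, true, true] [true, true, false, false] := run_maps rfl
theorem y_b : Maps yy [false, true] [true, true, false, true] := run_maps rfl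
theorem y_c : Maps yy [true, false] [true, true, true, false] := run_maps rfl
theorem y_d : Maps yy [true, true] [true, true, true, true] := run_maps rfl

theorem f_000 : Maps ff [false, false, false] [false, false] := run_maps rfl
theorem f_001 : Maps ff [false, false, true] [false, true, false, false] := run_maps rfl
theorem f_01 : Maps ff [false, true] [false, true, false, true] := run_maps rfl
theorem f_100 : Maps ff [true, false, false] [false, true, true, false] := run_maps rfl
theorem f_101 : Maps ff [true, false, true] [false, true, true, true] := run_maps rfl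
theorem f_11 : Maps ff [true, true] [true] := run_maps rfl

theorem comb_y : Comb yy := comb_prog _
theorem comb_f : Comb ff := comb_prog _

/-- The generators of `T`. -/
def genT : Set (UI ≃o UI) :=
  {ff, loc (wl []) yy, loc (wl [.a]) yy, loc (wl [.d]) yy, loc (wl [.a, .d]) yy}

/-- The group `T`. -/
def TT : Subgroup (UI ≃o UI) := Subgroup.closure genT

theorem f_mem : ff ∈ TT := Subgroup.subset_closure (by simp [genT])

theorem TT_fg : TT.FG := by
  classical
  exact ⟨{ff, loc (wl []) yy, loc (wl [.a]) yy, loc (wl [.d]) yy, loc (wl [.a, .d]) yy}, by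
    rw [TT, genT]; simp⟩

theorem loc_y_mem : ∀ (n : ℕ) (δ : List Dg), δ.length = n → loc (wl δ) yy ∈ TT := by
  have g0 : loc (wl []) yy ∈ TT := Subgroup.subset_closure (by simp [genT])
  have g1 : loc (wl [.a]) yy ∈ TT := Subgroup.subset_closure (by simp [genT])
  have g2 : loc (wl [.d]) yy ∈ TT := Subgroup.subset_closure (by simp [genT])
  have g3 : loc (wl [.a, .d]) yy ∈ TT := Subgroup.subset_closure (by simp [genT])
  -- moves of `yy` placed at `wl δ`
  have maa : ∀ δ η : List Dg, Maps (loc (wl δ) yy) (wl (δ ++ .a :: .a :: η))
      (wl (δ ++ .a :: η)) := fun δ η => by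
    rw [wl_append, wl_append]; exact (y_aa.append (code η)).locAt (wl δ)
  have mab : ∀ δ η : List Dg, Maps (loc (wl δ) yy) (wl (δ ++ .a :: .b :: η))
      (wl (δ ++ .b :: η)) := fun δ η => by
    rw [wl_append, wl_append]; exact (y_ab.append (code η)).locAt (wl δ)
  have mad : ∀ δ η : List Dg, Maps (loc (wl δ) yy) (wl (δ ++ .a :: .d :: η))
      (wl (δ ++ .d :: .a :: η)) := fun δ η => by
    rw [wl_append, wl_append]; exact (y_ad.append (code η)).locAt (wl δ)
  have mb : ∀ δ η : List Dg, Maps (loc (wl δ) yy) (wl (δ ++ .b :: η))
      (wl (δ ++ .d :: .b :: η)) := fun δ η => by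
    rw [wl_append, wl_append]; exact (y_b.append (code η)).locAt (wl δ)
  have md : ∀ δ η : List Dg, Maps (loc (wl δ) yy) (wl (δ ++ .d :: η))
      (wl (δ ++ .d :: .d :: η)) := fun δ η => by
    rw [wl_append, wl_append]; exact (y_d.append (code η)).locAt (wl δ)
  intro n
  induction n using Nat.strong_induction_on with
  | _ n ih =>
    intro δ hδ
    match δ, hδ with
    | [], _ => exact g0
    | .b :: η, hw =>
      exact loc_mem_of_maps (TT.inv_mem f_mem) (f_01.append (code η)).inv
        (ih η.length (by simp at hw; omega) η rfl)
    | [.a], _ => exact g1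
    | [.d], _ => exact g2
    | .a :: .a :: η, hw =>
      exact loc_mem_of_maps g0 (maa [] η) (ih (η.length + 1) (by simp at hw; omega) _ (by simp))
    | .a :: .b :: η, hw =>
      exact loc_mem_of_maps g0 (mab [] η) (ih (η.length + 1) (by simp at hw; omega) _ (by simp))
    | [.a, .d], _ => exact g3
    | .a :: .d :: .a :: η, hw =>
      exact loc_mem_of_maps (TT.mul_mem g2 g0) ((mad [] (.a :: η)).mul (maa [.d] η))
        (ih (η.length + 2) (by simp at hw; omega) _ (by simp))
    | .a :: .d :: .b :: η, hw =>
      exact loc_mem_of_maps (TT.inv_mem g1) (mb [.a] η).inv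
        (ih (η.length + 2) (by simp at hw; omega) _ (by simp))
    | .a :: .d :: .d :: η, hw =>
      exact loc_mem_of_maps (TT.inv_mem g1) (md [.a] η).inv
        (ih (η.length + 2) (by simp at hw; omega) _ (by simp))
    | [.d, .a], _ =>
      exact loc_mem_of_maps (TT.inv_mem g0) (mad [] []).inv g3
    | .d :: .a :: .a :: η, hw =>
      exact loc_mem_of_maps g2 (maa [.d] η)
        (ih (η.length + 2) (by simp at hw; omega) _ (by simp))
    | .d :: .a :: .b :: η, hw =>
      exact loc_mem_of_maps g2 (mab [.d] η)
        (ih (η.length + 2) (by simp at hw; omega) _ (by simp))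
    | .d :: .a :: .d :: η, hw =>
      exact loc_mem_of_maps (TT.mul_mem (TT.inv_mem g1) (TT.inv_mem g0))
        ((mad [] (.d :: η)).inv.mul (md [.a] η).inv)
        (ih (η.length + 2) (by simp at hw; omega) _ (by simp))
    | .d :: .b :: η, hw =>
      exact loc_mem_of_maps (TT.inv_mem g0) (mb [] η).inv
        (ih (η.length + 1) (by simp at hw; omega) _ (by simp))
    | .d :: .d :: η, hw =>
      exact loc_mem_of_maps (TT.inv_mem g0) (md [] η).inv
        (ih (η.length + 1) (by simp at hw; omega) _ (by simp))

theorem y_mem (δ : List Dg) : loc (wl δ) yy ∈ TT := loc_y_mem _ δ rfl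

theorem TT_le : TT ≤ ThompsonF := by
  rw [TT, Subgroup.closure_le]
  rintro g hg
  rw [SetLike.mem_coe, mem_ThompsonF]
  simp only [genT, Set.mem_insert_iff, Set.mem_singleton_iff] at hg
  rcases hg with rfl | rfl | rfl | rfl | rfl
  · exact comb_f
  all_goals exact comb_y.locAt _

/-- Affine on leaves, and leaves go to leaves. -/
def LeafAff (t : UI ≃o UI) : Prop := ∀ D, st D = .g → ∃ E, st E = .g ∧ Maps t D E

theorem goMk {s : St} {t : UI ≃o UI} {D E : Word} (h : Maps t D E) (hE : go s E = .g) :
    ∃ E, go s E = .g ∧ Maps t D E := ⟨E, hE, h⟩

theorem leafAff_f : LeafAff ff := by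
  intro D hD
  match D, hD with
  | [], h => exact absurd h (by decide)
  | [false], h => exact absurd h (by decide)
  | [true], h => exact absurd h (by decide)
  | [false, false], h => exact absurd h (by decide)
  | [true, false], h => exact absurd h (by decide)
  | false :: false :: false :: r, h => exact goMk (f_000.append r) h
  | false :: false :: true :: r, h => exact goMk (f_001.append r) h
  | false :: true :: r, h => exact goMk (f_01.append r) h
  | true :: false :: false :: r, h => exact goMk (f_100.append r) h
  | true :: false :: true :: r, h => exact goMk (f_101.append r) h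
  | true :: true :: r, h => exact goMk (f_11.append r) h

theorem leafAff_f_inv : LeafAff ff⁻¹ := by
  intro D hD
  match D, hD with
  | [], h => exact absurd h (by decide)
  | [false], h => exact absurd h (by decide)
  | [false, true], h => exact absurd h (by decide)
  | [false, true, false], h => exact absurd h (by decide)
  | [false, true, true], h => exact absurd h (by decide)
  | false :: false :: r, h => exact goMk (f_000.append r).inv h
  | false :: true :: false :: false :: r, h => exact goMk (f_001.append r).inv h
  | false :: true :: false :: true :: r, h => exact goMk (f_01.append r).inv h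
  | false :: true :: true :: false :: r, h => exact goMk (f_100.append r).inv h
  | false :: true :: true :: true :: r, h => exact goMk (f_101.append r).inv h
  | true :: r, h => exact goMk (f_11.append r).inv h

theorem leafAff_loc {g : UI ≃o UI} {w : Word} (hw : st w = .l)
    (hg : ∀ r, go .l r = .g → ∃ r', go .l r' = .g ∧ Maps g r r') : LeafAff (loc w g) := by
  intro D hD
  by_cases h1 : w <+: D
  · obtain ⟨r, rfl⟩ := h1
    rw [st_append, hw] at hD
    obtain ⟨r', h2, h3⟩ := hg r hD
    exact ⟨w ++ r', by rw [st_append, hw, h2], h3.locAt w⟩
  · by_cases h2 : D <+: w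
    · obtain ⟨u, rfl⟩ := h2
      rw [st_append, hD] at hw
      rcases inn_go (Or.inl rfl) u with h | h
      · rw [h] at hw; exact absurd hw (by decide)
      · rw [h] at hw; exact absurd hw (by decide)
    · exact ⟨D, hD, Maps.loc_inc ⟨h1, h2⟩ g⟩

theorem leafAff_y (δ : List Dg) : LeafAff (loc (wl δ) yy) := by
  refine leafAff_loc (st_wl δ) fun r hr => ?_
  match r, hr with
  | [], h => exact absurd h (by decide)
  | [false], h => exact absurd h (by decide)
  | [true], h => exact absurd h (by decide)
  | [false, false], h => exact absurd h (by decide)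
  | [false, false, false], h => exact absurd h (by decide)
  | [false, false, true], h => exact absurd h (by decide)
  | false :: false :: false :: false :: r, h => exact goMk (y_aa.append r) h
  | false :: false :: false :: true :: r, h => exact goMk (y_ab.append r) h
  | false :: false :: true :: false :: r, h => exact goMk (y_ac.append r) h
  | false :: false :: true :: true :: r, h => exact goMk (y_ad.append r) h
  | false :: true :: r, h => exact goMk (y_b.append r) h
  | true :: false :: r, h => exact goMk (y_c.append r) h
  | true :: true :: r, h => exact goMk (y_d.append r) h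

theorem leafAff_y_inv (δ : List Dg) : LeafAff (loc (wl δ) yy)⁻¹ := by
  rw [← loc_inv]
  refine leafAff_loc (st_wl δ) fun r hr => ?_
  match r, hr with
  | [], h => exact absurd h (by decide)
  | [false], h => exact absurd h (by decide)
  | [true], h => exact absurd h (by decide)
  | [true, true], h => exact absurd h (by decide)
  | [true, true, false], h => exact absurd h (by decide)
  | [true, true, true], h => exact absurd h (by decide)
  | false :: false :: r, h => exact goMk (y_aa.append r).inv h
  | false :: true :: r, h => exact goMk (y_ab.append r).inv h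
  | true :: false :: r, h => exact goMk (y_ac.append r).inv h
  | true :: true :: false :: false :: r, h => exact goMk (y_ad.append r).inv h
  | true :: true :: false :: true :: r, h => exact goMk (y_b.append r).inv h
  | true :: true :: true :: false :: r, h => exact goMk (y_c.append r).inv h
  | true :: true :: true :: true :: r, h => exact goMk (y_d.append r).inv h

theorem LeafAff.mul {s t : UI ≃o UI} (hs : LeafAff s) (ht : LeafAff t) : LeafAff (s * t) := by
  intro D hD
  obtain ⟨E, hE, h1⟩ := ht D hD
  obtain ⟨E', hE', h2⟩ := hs E hE
  exact ⟨E', hE', h1.mul h2⟩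

/-- The group of homeomorphisms affine on leaves and permuting them. -/
def TL : Subgroup (UI ≃o UI) where
  carrier := {t | LeafAff t ∧ LeafAff t⁻¹}
  one_mem' := ⟨fun D hD => ⟨D, hD, Maps.one D⟩, fun D hD => ⟨D, hD, by
    rw [inv_one]; exact Maps.one D⟩⟩
  mul_mem' := fun {a b} ha hb => ⟨ha.1.mul hb.1, by rw [mul_inv_rev]; exact hb.2.mul ha.2⟩
  inv_mem' := fun {a} ha => ⟨ha.2, by rw [inv_inv]; exact ha.1⟩

theorem TT_le_TL : TT ≤ TL := by
  rw [TT, Subgroup.closure_le]
  rintro g hg
  simp only [genT, Set.mem_insert_iff, Set.mem_singleton_iff] at hg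
  rcases hg with rfl | rfl | rfl | rfl | rfl
  · exact ⟨leafAff_f, leafAff_f_inv⟩
  all_goals exact ⟨leafAff_y _, leafAff_y_inv _⟩

theorem leafAff_of_mem {t : UI ≃o UI} (ht : t ∈ TT) : LeafAff t := (TT_le_TL ht).1

end Pool.Agent.H41.TF
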