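import Pool.Agent.H41.TF.P3

/-!
# The relation `ab|c` on the neighbours of a vertex
-/

set_option autoImplicit false

namespace Pool.Agent.H41.TF

open Finset

variable {α : Type*} [Fintype α] [DecidableEq α] {A : α → α → Prop} [DecidableRel A]

theorem wd (h : Tfg A) {v z : α} (hv : A v z) {a b c : α} (hab : a ≠ b) (hac : a ≠ c)
    (hbc : b ≠ c) :
    ∀ m : ℕ, ∀ G0 : Finset α, Fintype.card α - G0.card = m → Ok A v G0 →
      ∀ G1 G2 : Finset α, G0 ⊆ G1 → G0 ⊆ G2 → Ok A v G1 → Ok A v G2 →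
      Qs A v G1 = {a, b, c} → Qs A v G2 = {a, b, c} → Pr A v G1 a b → Pr A v G2 a b := by
  intro m
  induction m using Nat.strong_induction_on with
  | _ m ih =>
    intro G0 hm hG0 G1 G2 h1 h2 hG1 hG2 hQ1 hQ2 hP
    by_cases hQ0 : Qs A v G0 = {a, b, c}
    · have hP0 : Pr A v G0 a b := hP.subset h1
      rcases p3_exists h hv hG2 hQ2 hab hac hbc with h3 | h3 | h3
      · exact h3
      · exact absurd (h3.subset h2) (fun h4 => p3_unique h hv hG0 hQ0 hP0 h4)
      · refine absurd (h3.subset h2) (fun h4 =>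
          p3_unique h hv hG0 (a := b) (b := a) (c := c) ?_ hP0.symm h4)
        rw [hQ0]
        ext x
        simp only [Finset.mem_insert, Finset.mem_singleton]
        tauto
    · have hsub : ({a, b, c} : Finset α) ⊆ Qs A v G0 := hQ1 ▸ Qs_anti h1
      obtain ⟨u0, hu0, hu0'⟩ : ∃ u0 ∈ Qs A v G0, u0 ∉ ({a, b, c} : Finset α) := by
        by_contra hcon
        push Not at hcon
        exact hQ0 (Finset.Subset.antisymm hcon hsub)
      have key : ∀ G : Finset α, G0 ⊆ G → Qs A v G = {a, b, c} → ∃ g ∈ G, A g u0 := by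
        intro G _ hQ
        by_contra hcon
        push Not at hcon
        apply hu0'
        rw [← hQ, mem_Qs]
        exact ⟨(mem_Qs.mp hu0).1, hcon⟩
      obtain ⟨g1, hg1, hg1u⟩ := key G1 h1 hQ1
      obtain ⟨g2, hg2, hg2u⟩ := key G2 h2 hQ2
      have e1 : El A v G0 g1 := hG1.el h hg1 h1
      have e2 : El A v G0 g2 := hG2.el h hg2 h2
      have n1 : g1 ∉ G0 := el_notMem h hu0 hg1u
      have n2 : g2 ∉ G0 := el_notMem h hu0 hg2u
      have hnon : ¬ A g1 g2 := nonadj_of_common h hg1u hg2u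
      have hok2 := ok_insert h hG0 e2
      have hok1 := ok_insert h hG0 e1
      have hok := ok_insert h hok2 (e1.insert (fun hh => hnon (h.symm _ _ hh)))
      have hsub' : ({a, b, c} : Finset α) ⊆ Qs A v (insert g1 (insert g2 G0)) := by
        intro x hx
        rw [mem_Qs_insert, mem_Qs_insert]
        refine ⟨⟨hsub hx, ?_⟩, ?_⟩
        · rw [← hQ2, mem_Qs] at hx
          exact hx.2 g2 hg2
        · rw [← hQ1, mem_Qs] at hx
          exact hx.2 g1 hg1
      obtain ⟨G3, hG3s, hG3, hQ3⟩ := exists_ext' h (Finset.insert_nonempty _ _) hok hsub'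
      have s1 : insert g1 G0 ⊆ G3 := by
        refine Finset.Subset.trans ?_ hG3s
        exact Finset.insert_subset_insert _ (Finset.subset_insert _ _)
      have s2 : insert g2 G0 ⊆ G3 := (Finset.subset_insert _ _).trans hG3s
      have card_lt : ∀ g, g ∉ G0 → Fintype.card α - (insert g G0).card < m := by
        intro g hg
        have hle : (insert g G0).card ≤ Fintype.card α := Finset.card_le_univ _
        rw [Finset.card_insert_of_notMem hg] at hle ⊢
        omega
      have hP3 := ih _ (card_lt g1 n1) (insert g1 G0) rfl hok1 G1 G3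
        (Finset.insert_subset hg1 h1) s1 hG1 hG3 hQ1 hQ3 hP
      exact ih _ (card_lt g2 n2) (insert g2 G0) rfl hok2 G3 G2 s2
        (Finset.insert_subset hg2 h2) hG3 hG2 hQ3 hQ2 hP3

/-- The relation `ab|c`. -/
def Ch (A : α → α → Prop) [DecidableRel A] (v a b c : α) : Prop :=
  ∃ G, Ok A v G ∧ Qs A v G = {a, b, c} ∧ Pr A v G a b

theorem ok_empty (v : α) : Ok A v ∅ :=
  ⟨fun x hx => absurd hx (Finset.notMem_empty x), Finset.notMem_empty v,
    fun x hx => absurd hx (Finset.notMem_empty x)⟩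

theorem mem_Qs_empty {v a : α} : a ∈ Qs A v ∅ ↔ A v a := by
  rw [mem_Qs]
  simp

theorem Ch.all (h : Tfg A) {v z : α} (hv : A v z) {a b c : α} (hab : a ≠ b) (hac : a ≠ c)
    (hbc : b ≠ c) (hc : Ch A v a b c) {G : Finset α} (hG : Ok A v G)
    (hQ : Qs A v G = {a, b, c}) : Pr A v G a b := by
  obtain ⟨G1, hG1, hQ1, hP⟩ := hc
  exact wd h hv hab hac hbc _ ∅ rfl (ok_empty v) G1 G (Finset.empty_subset _)
    (Finset.empty_subset _) hG1 hG hQ1 hQ hP

theorem perm1 (a b c : α) : ({a, b, c} : Finset α) = {b, a, c} := by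
  ext x; simp only [Finset.mem_insert, Finset.mem_singleton]; tauto

theorem perm2 (a b c : α) : ({a, b, c} : Finset α) = {b, c, a} := by
  ext x; simp only [Finset.mem_insert, Finset.mem_singleton]; tauto

theorem perm3 (a b c : α) : ({a, b, c} : Finset α) = {a, c, b} := by
  ext x; simp only [Finset.mem_insert, Finset.mem_singleton]; tauto

theorem Ch.symm {v a b c : α} (hc : Ch A v a b c) : Ch A v b a c := by
  obtain ⟨G, h1, h2, h3⟩ := hc
  exact ⟨G, h1, h2.trans (perm1 a b c), h3.symm⟩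

theorem ch_excl (h : Tfg A) {v z : α} (hv : A v z) {a b c : α} (hab : a ≠ b) (hac : a ≠ c)
    (hbc : b ≠ c) (h1 : Ch A v a b c) (h2 : Ch A v b c a) : False := by
  obtain ⟨G, hG, hQ, hP⟩ := h1
  have := h2.all h hv hbc hab.symm hac.symm hG (hQ.trans (perm2 a b c))
  exact p3_unique h hv hG hQ hP this

theorem ch_tri (h : Tfg A) {v : α} {a b c : α} (ha : A v a) (hb : A v b) (hc : A v c)
    (hab : a ≠ b) (hac : a ≠ c) (hbc : b ≠ c) :
    Ch A v a b c ∨ Ch A v b c a ∨ Ch A v a c b := by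
  obtain ⟨G, _, hG, hQ⟩ := exists_ext' h (S := {a, b, c}) (Finset.insert_nonempty _ _)
    (ok_empty v) (by
      intro x hx
      simp only [Finset.mem_insert, Finset.mem_singleton] at hx
      rw [mem_Qs_empty]
      rcases hx with rfl | rfl | rfl
      · exact ha
      · exact hb
      · exact hc)
  rcases p3_exists h ha hG hQ hab hac hbc with h1 | h1 | h1
  · exact Or.inl ⟨G, hG, hQ, h1⟩
  · exact Or.inr (Or.inl ⟨G, hG, hQ.trans (perm2 a b c), h1⟩)
  · exact Or.inr (Or.inr ⟨G, hG, hQ.trans (perm3 a b c), h1⟩)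

/-- Shrinking `Qs` from four to three elements. -/
theorem Qs_four (h : Tfg A) {v : α} {G : Finset α} {a b c d y : α}
    (hQ : Qs A v G = {a, b, c, d}) (hya : A y a) (hyb : ¬ A y b) (hyc : ¬ A y c)
    (hyd : ¬ A y d) : Qs A v (insert y G) = {b, c, d} := by
  ext x
  rw [mem_Qs_insert, hQ]
  simp only [Finset.mem_insert, Finset.mem_singleton]
  constructor
  · rintro ⟨rfl | rfl | rfl | rfl, h2⟩
    · exact absurd hya h2
    · exact Or.inl rfl
    · exact Or.inr (Or.inl rfl)
    · exact Or.inr (Or.inr rfl)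
  · rintro (rfl | rfl | rfl)
    · exact ⟨Or.inr (Or.inl rfl), hyb⟩
    · exact ⟨Or.inr (Or.inr (Or.inl rfl)), hyc⟩
    · exact ⟨Or.inr (Or.inr (Or.inr rfl)), hyd⟩

/-- A vertex adjacent to `a, b, c` but not `d` gives `ab|d`. -/
theorem ch_of_three (h : Tfg A) {v : α} {G : Finset α} (hG : Ok A v G) {a b c d u : α}
    (hQ : Qs A v G = {a, b, c, d}) (hac : a ≠ c) (hbc : b ≠ c) (hdc : d ≠ c)
    (hu : El A v G u) (hua : A u a) (hub : A u b) (huc : A u c) : Ch A v a b d := by
  have ha : a ∈ Qs A v G := by rw [hQ]; simp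
  have hb : b ∈ Qs A v G := by rw [hQ]; simp
  have hc : c ∈ Qs A v G := by rw [hQ]; simp
  have hd : d ∈ Qs A v G := by rw [hQ]; simp
  obtain ⟨y, hy, hyc, hy'⟩ := exists_single h hG hc ha hac.symm
  refine ⟨insert y G, ok_insert h hG hy, ?_, u, ?_, hua, hub⟩
  · apply Qs_four h (a := c) _ hyc (hy' a ha hac) (hy' b hb hbc) (hy' d hd hdc)
    rw [hQ]
    ext x
    simp only [Finset.mem_insert, Finset.mem_singleton]
    tauto
  · exact hu.insert (nonadj_of_common h hyc huc)

theorem trans_aux (h : Tfg A) {v z : α} (hv : A v z) {a b c d : α} (ha : A v a) (hb : A v b)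
    (hc : A v c) (hd : A v d) (hab : a ≠ b) (hac : a ≠ c) (had : a ≠ d) (hbc : b ≠ c)
    (hbd : b ≠ d) (hcd : c ≠ d) (h1 : Ch A v a b d) (h2 : Ch A v b c d)
    (h3 : ¬ Ch A v a c d) (h4 : Ch A v a d c) : False := by
  obtain ⟨G, _, hG, hQ⟩ := exists_ext' h (S := {a, b, c, d}) (Finset.insert_nonempty _ _)
    (ok_empty v) (by
      intro x hx
      simp only [Finset.mem_insert, Finset.mem_singleton] at hx
      rw [mem_Qs_empty]
      rcases hx with rfl | rfl | rfl | rfl
      · exact ha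
      · exact hb
      · exact hc
      · exact hd)
  have qa : a ∈ Qs A v G := by rw [hQ]; simp
  have qb : b ∈ Qs A v G := by rw [hQ]; simp
  have qc : c ∈ Qs A v G := by rw [hQ]; simp
  have qd : d ∈ Qs A v G := by rw [hQ]; simp
  -- no vertex of type `abc`
  have n1 : ∀ x, El A v G x → A x a → A x b → ¬ A x c := by
    intro x hx hxa hxb hxc
    apply h3
    refine ch_of_three h hG (a := a) (b := c) (c := b) (d := d) ?_ hab hbc.symm hbd.symm hx hxa
      hxc hxb
    rw [hQ]
    ext x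
    simp only [Finset.mem_insert, Finset.mem_singleton]
    tauto
  -- no vertex of type `abd`
  have n2 : ∀ x, El A v G x → A x a → A x b → ¬ A x d := by
    intro x hx hxa hxb hxd
    have h5 : Ch A v b d c := by
      refine ch_of_three h hG (a := b) (b := d) (c := a) (d := c) ?_ hab.symm had.symm
        hac.symm hx hxb hxd hxa
      rw [hQ]
      ext x
      simp only [Finset.mem_insert, Finset.mem_singleton]
      tauto
    exact ch_excl h hv hbc.symm hcd hbd h2.symm h5
  -- a vertex adjacent to `a` and `d`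
  obtain ⟨yb, hyb, hybb, hyb'⟩ := exists_single h hG qb qa hab.symm
  have Qb : Qs A v (insert yb G) = {a, c, d} := by
    apply Qs_four h (a := b) _ hybb (hyb' a qa hab) (hyb' c qc hbc.symm) (hyb' d qd hbd.symm)
    rw [hQ]
    ext x
    simp only [Finset.mem_insert, Finset.mem_singleton]
    tauto
  obtain ⟨u, hu, hua, hud⟩ := h4.all h hv had hac hcd.symm (ok_insert h hG hyb)
    (Qb.trans (perm3 a c d))
  have huG : El A v G u := hu.subset (Finset.subset_insert _ _)
  -- a vertex adjacent to `a` and `b`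
  obtain ⟨yc, hyc, hycc, hyc'⟩ := exists_single h hG qc qa hac.symm
  have Qc : ∀ y, A y c → ¬ A y a → ¬ A y b → ¬ A y d →
      Qs A v (insert y G) = {a, b, d} := by
    intro y hy1 hy2 hy3 hy4
    apply Qs_four h (a := c) _ hy1 hy2 hy3 hy4
    rw [hQ]
    ext x
    simp only [Finset.mem_insert, Finset.mem_singleton]
    tauto
  obtain ⟨x, hx, hxa, hxb⟩ := h1.all h hv hab had hbd (ok_insert h hG hyc)
    (Qc yc hycc (hyc' a qa hac) (hyc' b qb hbc) (hyc' d qd hcd.symm))
  have hxG : El A v G x := hx.subset (Finset.subset_insert _ _)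
  -- no vertex of type `ac`
  have n4 : ∀ w, El A v G w → A w a → ¬ A w c := by
    intro w hw hwa hwc
    obtain ⟨q, hq, hq1, hq2, hq3⟩ := f1_three h hv hG huG hxG hw
      (nonadj_of_common h hua hxa) (nonadj_of_common h hua hwa) (nonadj_of_common h hxa hwa)
    rw [hQ] at hq
    simp only [Finset.mem_insert, Finset.mem_singleton] at hq
    rcases hq with rfl | rfl | rfl | rfl
    · exact hq1 hua
    · exact hq2 hxb
    · exact hq3 hwc
    · exact hq1 hud
  -- `x_a`
  obtain ⟨xa, hxa1, hxaa, hxa'⟩ := exists_single h hG qa qb hab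
  have hokA := ok_insert h hG hxa1
  have QA : Qs A v (insert xa G) = {b, c, d} :=
    Qs_four h hQ hxaa (hxa' b qb hab.symm) (hxa' c qc hac.symm) (hxa' d qd had.symm)
  obtain ⟨xc, hxc1, hxcc, hxc'⟩ := exists_single h hokA (a := c) (b := b)
    (by rw [QA]; simp) (by rw [QA]; simp) hbc.symm
  have hxcG : El A v G xc := hxc1.subset (Finset.subset_insert _ _)
  have hxcb : ¬ A xc b := hxc' b (by rw [QA]; simp) hbc
  have hxcd : ¬ A xc d := hxc' d (by rw [QA]; simp) hcd.symm
  have hxca : ¬ A xc a := fun hh => n4 xc hxcG hh hxcc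
  -- `x` adjacent to `a`, `b`, not adjacent to `xc`
  obtain ⟨x2, hx2, hx2a, hx2b⟩ := h1.all h hv hab had hbd (ok_insert h hG hxcG)
    (Qc xc hxcc hxca hxcb hxcd)
  have hx2G : El A v G x2 := hx2.subset (Finset.subset_insert _ _)
  have hx2c : ¬ A x2 c := n1 x2 hx2G hx2a hx2b
  have hx2d : ¬ A x2 d := n2 x2 hx2G hx2a hx2b
  have hx2A : El A v (insert xa G) x2 := hx2G.insert (nonadj_of_common h hxaa hx2a)
  have hfin := p3_compl h hv hokA QA hbc hbd hcd
    (h2.all h hv hbc hbd hcd hokA QA) hx2A hxc1 hx2b hx2c hx2d hxcb hxcc hxcd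
  exact hx2.2.2 xc (Finset.mem_insert_self _ _) (h.symm _ _ hfin)

/-- Transitivity. -/
theorem ch_trans (h : Tfg A) {v : α} {a b c d : α} (ha : A v a) (hb : A v b)
    (hc : A v c) (hd : A v d) (hab : a ≠ b) (hac : a ≠ c) (had : a ≠ d) (hbc : b ≠ c)
    (hbd : b ≠ d) (hcd : c ≠ d) (h1 : Ch A v a b d) (h2 : Ch A v b c d) : Ch A v a c d := by
  by_contra h3
  rcases ch_tri h ha hc hd hac had hcd with h4 | h4 | h4
  · exact h3 h4
  · exact trans_aux h ha hc hb ha hd hbc.symm hac.symm hcd hab.symm hbd had h2.symm h1.symm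
      (fun h5 => h3 h5.symm) h4
  · exact trans_aux h ha ha hb hc hd hab hac had hbc hbd hcd h1 h2 h3 h4

/-- Every neighbour `a` of `v` has a partner `b` with no common neighbour besides `v`. -/
theorem root_pair (h : Tfg A) {v a b0 : α} (ha : A v a) (hb0 : A v b0) (hne : b0 ≠ a) :
    ∃ b, A v b ∧ b ≠ a ∧ ∀ x, A x a → A x b → x = v := by
  by_contra hcon
  push Not at hcon
  set G : Finset α := Finset.univ.filter (fun x => A x a ∧ x ≠ v) with hG
  have hmem : ∀ x, x ∈ G ↔ A x a ∧ x ≠ v := by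
    intro x; rw [hG, Finset.mem_filter]; simp
  have hok : Ok A v G := by
    refine ⟨?_, ?_, ?_⟩
    · intro x hx y hy
      rw [hmem] at hx hy
      exact nonadj_of_common h hx.1 hy.1
    · rw [hmem]
      exact fun hh => hh.2 rfl
    · intro g hg
      rw [hmem] at hg
      exact nonadj_of_common h hg.1 ha
  obtain ⟨q, hq⟩ := exists_Qs h ha hok
  rw [mem_Qs] at hq
  by_cases hqa : q = a
  · subst hqa
    obtain ⟨x, hxa, _, hxv⟩ := hcon b0 hb0 hne
    exact hq.2 x ((hmem x).mpr ⟨hxa, hxv⟩) hxa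
  · obtain ⟨x, hxa, hxq, hxv⟩ := hcon q hq.1 hqa
    exact hq.2 x ((hmem x).mpr ⟨hxa, hxv⟩) hxq

theorem root_not_ch (h : Tfg A) {v a b : α} (hroot : ∀ x, A x a → A x b → x = v) (c : α) :
    ¬ Ch A v a b c := by
  rintro ⟨G, hG, hQ, u, hu, hua, hub⟩
  exact hu.1 (hroot u hua hub)

end Pool.Agent.H41.TF
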