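import Pool.Agent.H41.TF.SMap

/-!
# Classification of the invariant submodules
-/

set_option autoImplicit false

namespace Pool.Agent.H41.TF

open Finsupp

/-- The module. -/
abbrev MM : Type := Lf →₀ ZMod 2

theorem actM_single (t : TT) (D : Lf) (a : ZMod 2) :
    actM t (single D a) = single (t • D) a := mapDomain_single

theorem actM_mul (s t : TT) (x : MM) : actM (s * t) x = actM s (actM t x) := by
  rw [actM_apply, actM_apply, actM_apply, ← mapDomain_comp]
  congr 1
  funext D
  exact mul_smul s t D

theorem actM_one (x : MM) : actM 1 x = x := by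
  rw [actM_apply]
  have : (fun D : Lf => (1 : TT) • D) = id := by funext D; exact one_smul _ D
  rw [this, mapDomain_id]

theorem InvM.iff {R : AddSubgroup MM} (hR : InvM R) (t : TT) (x : MM) :
    actM t x ∈ R ↔ x ∈ R := by
  constructor
  · intro h
    have := hR t⁻¹ _ h
    rwa [← actM_mul, inv_mul_cancel, actM_one] at this
  · exact hR t x

/-- Differences of leaves. -/
noncomputable def df (D E : Lf) : MM := single D 1 - single E 1

theorem actM_df (t : TT) (D E : Lf) : actM t (df D E) = df (t • D) (t • E) := by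
  rw [df, map_sub, actM_single, actM_single, df]

/-- All pairs `(wL δ, wL (δ ++ [d]))` are equivalent. -/
theorem pair_equiv (δ : List Dg) :
    ∃ t : TT, t • wL δ = wL [] ∧ t • wL (δ ++ [Dg.d]) = wL [Dg.d] := by
  induction δ using List.reverseRecOn with
  | nil => exact ⟨1, one_smul _ _, one_smul _ _⟩
  | append_singleton δ x ih =>
    obtain ⟨t, h1, h2⟩ := ih
    cases x
    · refine ⟨t * (yT (δ ++ [Dg.d]) * yT δ), ?_, ?_⟩
      · have e1 : yT δ • wL (δ ++ [Dg.a]) = wL δ := by
          rw [y_smul]; simp [xh]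
        have e2 : yT (δ ++ [Dg.d]) • wL δ = wL δ := by
          apply y_smul_fix
          intro h
          have := h.length_le
          simp at this
        rw [mul_smul, mul_smul, e1, e2, h1]
      · have e1 : yT δ • wL (δ ++ [Dg.a] ++ [Dg.d]) = wL (δ ++ [Dg.d] ++ [Dg.a]) := by
          rw [List.append_assoc, List.append_assoc, y_smul]; rfl
        have e2 : yT (δ ++ [Dg.d]) • wL (δ ++ [Dg.d] ++ [Dg.a]) = wL (δ ++ [Dg.d]) := by
          rw [y_smul]; simp [xh]
        rw [mul_smul, mul_smul, e1, e2, h2]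
    · obtain ⟨s, hs, h3⟩ := b_lemma δ
      refine ⟨⟨s, hs⟩, smul_eq (h3.append _), smul_eq ?_⟩
      change Maps s (wd (δ ++ [Dg.b] ++ [Dg.d])) (wd [Dg.d])
      rw [wd_append]
      exact h3.append _
    · refine ⟨t * (yT δ)⁻¹, ?_, ?_⟩
      · have e1 : wL (δ ++ [Dg.d]) = yT δ • wL δ := by
          have := y_smul δ []
          rw [List.append_nil] at this
          exact this.symm
        rw [mul_smul, e1, inv_smul_smul, h1]
      · have e1 : wL (δ ++ [Dg.d] ++ [Dg.d]) = yT δ • wL (δ ++ [Dg.d]) := by
          rw [y_smul, List.append_assoc]; rfl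
        rw [mul_smul, e1, inv_smul_smul, h2]

theorem df_symm {R : AddSubgroup MM} {D E : Lf} (h : df D E ∈ R) : df E D ∈ R := by
  have := R.neg_mem h
  rwa [df, neg_sub] at this

theorem df_trans {R : AddSubgroup MM} {D E F : Lf} (h : df D E ∈ R) (h' : df E F ∈ R) :
    df D F ∈ R := by
  have := R.add_mem h h'
  rwa [df, df, sub_add_sub_cancel] at this

theorem df_refl {R : AddSubgroup MM} (D : Lf) : df D D ∈ R := by
  rw [df, sub_self]; exact R.zero_mem

theorem df_all {R : AddSubgroup MM} (hR : InvM R) {δ : List Dg}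
    (h : df (wL δ) (wL (δ ++ [Dg.d])) ∈ R) (η : List Dg) :
    df (wL η) (wL (η ++ [Dg.d])) ∈ R := by
  obtain ⟨t, h1, h2⟩ := pair_equiv δ
  obtain ⟨s, h3, h4⟩ := pair_equiv η
  have h5 := hR t _ h
  rw [actM_df, h1, h2, ← h3, ← h4, ← actM_df] at h5
  exact (hR.iff s _).1 h5

theorem df_block {R : AddSubgroup MM} (hR : InvM R) {δ : List Dg}
    (h : df (wL δ) (wL (δ ++ [Dg.d])) ∈ R) (η : List Dg) :
    ∀ ε : List Dg, Dg.b ∉ ε → df (wL η) (wL (η ++ ε)) ∈ R := by
  intro ε
  induction ε generalizing η with
  | nil => intro _; rw [List.append_nil]; exact df_refl _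
  | cons x ε ih =>
    intro hε
    have hε' : Dg.b ∉ ε := fun h => hε (by simp [h])
    have e1 : η ++ x :: ε = (η ++ [x]) ++ ε := by simp
    rw [e1]
    refine df_trans ?_ (ih (η ++ [x]) hε')
    cases x
    · have h1 := df_all hR h η
      have e2 : wL (η ++ [Dg.d]) = yT η • wL η := by
        have := y_smul η []
        rw [List.append_nil] at this
        exact this.symm
      have e3 : wL η = yT η • wL (η ++ [Dg.a]) := by
        rw [y_smul]; simp [xh]
      rw [e2] at h1
      nth_rewrite 1 [e3] at h1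
      rw [← actM_df] at h1
      exact df_symm ((hR.iff _ _).1 h1)
    · exact absurd (by simp) hε
    · exact df_all hR h η

theorem s_forms (D : Lf) : ∃ j0, ∀ j, j0 ≤ j → ∃ δ ε, fT ^ j • D = wL (δ ++ Dg.b :: ε) ∧
    Dg.b ∉ ε := by
  obtain ⟨⟨j, δ, ε⟩, h1, h2⟩ := exists_s D
  refine ⟨j, fun k hk => ?_⟩
  obtain ⟨i, rfl⟩ := Nat.exists_eq_add_of_le hk
  refine ⟨List.replicate i Dg.b ++ δ, ε, ?_, h2⟩
  have h1' : fT ^ j • D = wL (δ ++ .b :: ε) := h1
  rw [add_comm j i, pow_add, mul_smul, h1', fpow_smul, List.append_assoc]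

theorem exists_m (S : Finset Lf) : ∃ m, ∀ D ∈ S, ∃ δ, fT ^ m • D = wL δ := by
  classical
  induction S using Finset.induction_on with
  | empty => exact ⟨0, by simp⟩
  | insert D S _ ih =>
    obtain ⟨m, hm⟩ := ih
    obtain ⟨j, δ, hj⟩ := exists_wL D
    refine ⟨j + m, fun E hE => ?_⟩
    rcases Finset.mem_insert.1 hE with rfl | hE
    · exact ⟨List.replicate m Dg.b ++ δ, by
        rw [add_comm, pow_add, mul_smul, hj, fpow_smul]⟩
    · obtain ⟨η, hη⟩ := hm E hE
      exact ⟨List.replicate j Dg.b ++ η, by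
        rw [pow_add, mul_smul, hη, fpow_smul]⟩

theorem zmod2_ne_zero {a : ZMod 2} (h : a ≠ 0) : a = 1 := by
  revert a; decide

/-- A non-zero invariant subgroup contains a difference `wL δ - wL (δ ++ [d])`. -/
theorem exists_df {R : AddSubgroup MM} (hR : InvM R) {x : MM} (hx : x ∈ R) (h0 : x ≠ 0) :
    ∃ δ, df (wL δ) (wL (δ ++ [Dg.d])) ∈ R := by
  classical
  obtain ⟨m, hm⟩ := exists_m x.support
  set y := actM (fT ^ m) x with hy
  have hyR : y ∈ R := hR _ _ hx
  have hy0 : y ≠ 0 := by
    intro h
    apply h0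
    have h1 := actM_mul (fT ^ m)⁻¹ (fT ^ m) x
    rw [inv_mul_cancel, actM_one, ← hy, h, map_zero] at h1
    exact h1
  have hsupp : ∀ E ∈ y.support, ∃ δ, E = wL δ := by
    intro E hE
    have h1 := mapDomain_support hE
    obtain ⟨D, hD, rfl⟩ := Finset.mem_image.1 h1
    exact hm D hD
  obtain ⟨D, hD, hmax⟩ := Finset.exists_max_image y.support (fun E : Lf => E.1.length)
    (support_nonempty_iff.2 hy0)
  obtain ⟨δ, rfl⟩ := hsupp D hD
  refine ⟨δ, ?_⟩
  have hyD : y (wL δ) = 1 := zmod2_ne_zero (mem_support_iff.1 hD)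
  have e1 : yT δ • wL δ = wL (δ ++ [Dg.d]) := by
    have := y_smul δ []
    rwa [List.append_nil] at this
  have e2 : actM (yT δ) (y.erase (wL δ)) = y.erase (wL δ) := by
    rw [actM_apply]
    conv_rhs => rw [← mapDomain_id (v := y.erase (wL δ))]
    refine mapDomain_congr fun E hE => ?_
    rw [support_erase, Finset.mem_erase] at hE
    obtain ⟨η, rfl⟩ := hsupp E hE.2
    refine y_smul_fix fun h => ?_
    have h1 := hmax _ hE.2
    have h2 : ∀ δ : List Dg, (wL δ).1.length = 2 * δ.length + 4 := by
      intro δ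
      change (wd δ).length = _
      have : (code δ).length = 2 * δ.length := by
        induction δ with
        | nil => rfl
        | cons x δ ih =>
          rw [code_cons, List.length_append, ih, List.length_cons]
          cases x <;> simp [Dg.code] <;> ring
      rw [wd, wl, List.length_append, List.length_append, this]
      simp [ob]; ring
    rw [h2, h2] at h1
    have h3 : δ = η := h.eq_of_length (le_antisymm h.length_le (by omega))
    exact hE.1 (by rw [h3]) 
  have e3 : y - actM (yT δ) y = df (wL δ) (wL (δ ++ [Dg.d])) := by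
    conv_lhs => rw [← single_add_erase (wL δ) y]
    rw [map_add, e2, actM_single, e1, hyD, df]
    abel
  rw [← e3]
  exact R.sub_mem hyR (hR _ _ hyR)

/-- (C1) A non-zero invariant subgroup contains all differences of leaves with the same image. -/
theorem df_mem {R : AddSubgroup MM} (hR : InvM R) {x : MM} (hx : x ∈ R) (h0 : x ≠ 0) {D E : Lf}
    (h : sM D = sM E) : df D E ∈ R := by
  obtain ⟨δ0, h1⟩ := exists_df hR hx h0
  obtain ⟨j1, hj1⟩ := s_forms D
  obtain ⟨j2, hj2⟩ := s_forms E
  obtain ⟨δ, ε, h2, h3⟩ := hj1 (max j1 j2) (le_max_left _ _)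
  obtain ⟨δ', ε', h4, h5⟩ := hj2 (max j1 j2) (le_max_right _ _)
  have h6 := sM_spec h2 h3
  have h7 := sM_spec h4 h5
  rw [h6, h7] at h
  have h8 : δ = δ' := wL_injective (MulAction.injective _ h)
  subst h8
  rw [← hR.iff (fT ^ max j1 j2), actM_df, h2, h4]
  have e1 : δ ++ Dg.b :: ε = (δ ++ [Dg.b]) ++ ε := by simp
  have e2 : δ ++ Dg.b :: ε' = (δ ++ [Dg.b]) ++ ε' := by simp
  rw [e1, e2]
  exact df_trans (df_symm (df_block hR h1 _ ε h3)) (df_block hR h1 _ ε' h5)

/-- The map induced by `s`. -/
noncomputable def SS : MM →+ MM := mapDomain.addMonoidHom sM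

theorem SS_single (D : Lf) (a : ZMod 2) : SS (single D a) = single (sM D) a := mapDomain_single

theorem SS_df (D E : Lf) : SS (df D E) = df (sM D) (sM E) := by
  rw [df, map_sub, SS_single, SS_single, df]

theorem SS_actM (t : TT) (x : MM) : SS (actM t x) = actM t (SS x) := by
  induction x using Finsupp.induction_linear with
  | zero => simp
  | add x y hx hy => rw [map_add, map_add, hx, hy, map_add, map_add]
  | single D a => rw [actM_single, SS_single, SS_single, actM_single, sM_smul]

/-- The iterates. -/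
noncomputable def SI (n : ℕ) (x : MM) : MM := SS^[n] x

theorem SI_zero (x : MM) : SI 0 x = x := rfl
theorem SI_succ (n : ℕ) (x : MM) : SI (n + 1) x = SI n (SS x) := Function.iterate_succ_apply _ _ _
theorem SI_succ' (n : ℕ) (x : MM) : SI (n + 1) x = SS (SI n x) :=
  Function.iterate_succ_apply' _ _ _

theorem SI_add (n : ℕ) (x y : MM) : SI n (x + y) = SI n x + SI n y := by
  induction n with
  | zero => rfl
  | succ n ih => rw [SI_succ', ih, map_add, SI_succ', SI_succ']

theorem SI_map_zero (n : ℕ) : SI n 0 = 0 := by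
  induction n with
  | zero => rfl
  | succ n ih => rw [SI_succ', ih, map_zero]

theorem SI_neg (n : ℕ) (x : MM) : SI n (-x) = -SI n x := by
  induction n with
  | zero => rfl
  | succ n ih => rw [SI_succ', ih, map_neg, SI_succ']

theorem SI_single (n : ℕ) (D : Lf) (a : ZMod 2) : SI n (single D a) = single (sM^[n] D) a := by
  induction n with
  | zero => rfl
  | succ n ih => rw [SI_succ', ih, SS_single, Function.iterate_succ_apply']

theorem SI_actM (n : ℕ) (t : TT) (x : MM) : SI n (actM t x) = actM t (SI n x) := by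
  induction n with
  | zero => rfl
  | succ n ih => rw [SI_succ', ih, SS_actM, SI_succ']

theorem SI_le {n m : ℕ} (h : n ≤ m) {x : MM} (hx : SI n x = 0) : SI m x = 0 := by
  induction m, h using Nat.le_induction with
  | base => exact hx
  | succ m _ ih => rw [SI_succ', ih, map_zero]

/-- The kernels of the iterates. -/
noncomputable def KerS (n : ℕ) : AddSubgroup MM where
  carrier := {x | SI n x = 0}
  zero_mem' := SI_map_zero n
  add_mem' := fun {x y} hx hy => by
    change SI n (x + y) = 0
    rw [SI_add, show SI n x = 0 from hx, show SI n y = 0 from hy, add_zero]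
  neg_mem' := fun {x} hx => by
    change SI n (-x) = 0
    rw [SI_neg, show SI n x = 0 from hx, neg_zero]

theorem mem_KerS {n : ℕ} {x : MM} : x ∈ KerS n ↔ SI n x = 0 := Iff.rfl

theorem invM_KerS (n : ℕ) : InvM (KerS n) := fun t x hx => by
  rw [mem_KerS] at hx ⊢
  rw [SI_actM, hx, map_zero]

/-- The union of the kernels. -/
noncomputable def KerInf : AddSubgroup MM where
  carrier := {x | ∃ n, SI n x = 0}
  zero_mem' := ⟨0, rfl⟩
  add_mem' := by
    rintro x y ⟨n, hn⟩ ⟨m, hm⟩
    refine ⟨max n m, ?_⟩
    rw [SI_add, SI_le (le_max_left _ _) hn, SI_le (le_max_right _ _) hm, add_zero]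
  neg_mem' := by
    rintro x ⟨n, hn⟩
    exact ⟨n, by rw [SI_neg, hn, neg_zero]⟩

theorem mem_KerInf {x : MM} : x ∈ KerInf ↔ ∃ n, SI n x = 0 := Iff.rfl

theorem invM_KerInf : InvM KerInf := by
  rintro t x ⟨n, hn⟩
  exact ⟨n, by rw [SI_actM, hn, map_zero]⟩

/-- A section of `s`. -/
noncomputable def sec : Lf → Lf := Function.surjInv sM_surjective

theorem sM_sec (D : Lf) : sM (sec D) = D := Function.surjInv_eq sM_surjective D

theorem sub_sec_mem {R : AddSubgroup MM} (h : ∀ D E, sM D = sM E → df D E ∈ R) (x : MM) :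
    x - mapDomain (fun D => sec (sM D)) x ∈ R := by
  induction x using Finsupp.induction_linear with
  | zero => simp
  | add x y hx hy =>
    have := R.add_mem hx hy
    rw [mapDomain_add]
    convert this using 1
    abel
  | single D a =>
    rw [mapDomain_single]
    by_cases ha : a = 0
    · rw [ha, single_zero, single_zero, sub_zero]; exact R.zero_mem
    · rw [zmod2_ne_zero ha]
      exact h _ _ (sM_sec _).symm

theorem mem_of_SS_zero {R : AddSubgroup MM} (h : ∀ D E, sM D = sM E → df D E ∈ R) {x : MM}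
    (hx : SS x = 0) : x ∈ R := by
  have h1 := sub_sec_mem h x
  have h2 : mapDomain (fun D => sec (sM D)) x = mapDomain sec (SS x) := by
    change _ = mapDomain sec (mapDomain sM x)
    rw [← mapDomain_comp]; rfl
  rwa [h2, hx, mapDomain_zero, sub_zero] at h1

theorem big_of_not_le (n : ℕ) : ∀ {R : AddSubgroup MM}, InvM R → (∃ x ∈ R, SI n x ≠ 0) →
    KerS (n + 1) ≤ R := by
  induction n with
  | zero =>
    rintro R hR ⟨x, hx, h0⟩ y hy
    exact mem_of_SS_zero (fun D E h => df_mem hR hx h0 h) hy
  | succ n ih =>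
    rintro R hR ⟨x, hx, h0⟩ y hy
    have hx0 : x ≠ 0 := by
      rintro rfl
      exact h0 (SI_map_zero _)
    have hmap : InvM (R.map SS) := by
      rintro t _ ⟨z, hz, rfl⟩
      exact ⟨actM t z, hR t z hz, SS_actM t z⟩
    have h1 : KerS (n + 1) ≤ R.map SS := ih hmap ⟨SS x, ⟨x, hx, rfl⟩, by
      rwa [← SI_succ]⟩
    have h2 : SS y ∈ R.map SS := h1 (by
      rw [mem_KerS, ← SI_succ]; exact hy)
    obtain ⟨r, hr, h3⟩ := h2
    have h4 : y - r ∈ R := mem_of_SS_zero (fun D E h => df_mem hR hx hx0 h) (by
      rw [map_sub, h3, sub_self])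
    have := R.add_mem h4 hr
    rwa [sub_add_cancel] at this

/-- The classification: an invariant subgroup is a kernel or contains all kernels. -/
theorem classify {R : AddSubgroup MM} (hR : InvM R) : (∃ n, R = KerS n) ∨ KerInf ≤ R := by
  classical
  by_cases h : ∃ n, ∀ x ∈ R, SI n x = 0
  · left
    refine ⟨Nat.find h, le_antisymm (fun x hx => Nat.find_spec h x hx) ?_⟩
    cases hn : Nat.find h with
    | zero =>
      intro x hx
      have : x = 0 := hx
      rw [this]; exact R.zero_mem
    | succ m =>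
      apply big_of_not_le m hR
      have := Nat.find_min h (m := m) (by omega)
      push Not at this
      exact this
  · right
    push Not at h
    rintro x ⟨n, hn⟩
    exact big_of_not_le n hR (h n) (SI_le (Nat.le_succ n) hn)

/-! ### Countability -/

/-- The standard leaves. -/
def oL (j : ℕ) : Lf := wL (List.replicate j Dg.b)

theorem f_oL (j : ℕ) : fT • oL j = oL (j + 1) := by
  rw [oL, f_smul, oL, List.replicate_succ]

open Polynomial in
/-- Polynomials as combinations of the standard leaves. -/
noncomputable def ev : (ZMod 2)[X] →ₗ[ZMod 2] MM :=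
  Polynomial.lsum fun j => Finsupp.lsingle (oL j)

open Polynomial in
theorem ev_monomial (j : ℕ) (a : ZMod 2) : ev (monomial j a) = single (oL j) a := by
  rw [ev, Polynomial.lsum_apply, Polynomial.sum_monomial_index]
  · rfl
  · simp

open Polynomial in
theorem ev_X_mul (p : (ZMod 2)[X]) : ev (X * p) = actM fT (ev p) := by
  induction p using Polynomial.induction_on' with
  | add p q hp hq => rw [mul_add, map_add, map_add, map_add, hp, hq]
  | monomial j a => rw [X_mul_monomial, ev_monomial, ev_monomial, actM_single, f_oL]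

open Polynomial in
/-- The ideal of an invariant subgroup. -/
noncomputable def idealOf (R : AddSubgroup MM) (hR : InvM R) : Ideal ((ZMod 2)[X]) where
  carrier := {p | ev p ∈ R}
  zero_mem' := by
    change ev 0 ∈ R
    rw [map_zero]; exact R.zero_mem
  add_mem' := fun {p q} hp hq => by
    change ev (p + q) ∈ R
    rw [map_add]; exact R.add_mem hp hq
  smul_mem' := by
    intro q p hp
    change ev (q * p) ∈ R
    have hX : ∀ (j : ℕ) (p : (ZMod 2)[X]), ev p ∈ R → ev (X ^ j * p) ∈ R := by
      intro j
      induction j with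
      | zero => intro p hp; simpa using hp
      | succ j ih =>
        intro p hp
        rw [pow_succ', mul_assoc, ev_X_mul]
        exact hR _ _ (ih p hp)
    induction q using Polynomial.induction_on' with
    | add q r hq hr => rw [add_mul, map_add]; exact R.add_mem hq hr
    | monomial j a =>
      by_cases ha : a = 0
      · rw [ha, monomial_zero_right, zero_mul, map_zero]; exact R.zero_mem
      · rw [zmod2_ne_zero ha, monomial_one_right_eq_X_pow]
        exact hX j p hp

theorem mem_idealOf {R : AddSubgroup MM} {hR : InvM R} {p : Polynomial (ZMod 2)} :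
    p ∈ idealOf R hR ↔ ev p ∈ R := Iff.rfl

/-- Modulo the union of the kernels, every element is eventually a polynomial. -/
theorem eventually_ev (x : MM) : ∃ m0, ∀ m, m0 ≤ m →
    ∃ p : Polynomial (ZMod 2), actM (fT ^ m) x - ev p ∈ KerInf := by
  induction x using Finsupp.induction_linear with
  | zero => exact ⟨0, fun m _ => ⟨0, by rw [map_zero, map_zero, sub_zero]; exact KerInf.zero_mem⟩⟩
  | add x y hx hy =>
    obtain ⟨m1, h1⟩ := hx
    obtain ⟨m2, h2⟩ := hy
    refine ⟨max m1 m2, fun m hm => ?_⟩
    obtain ⟨p, hp⟩ := h1 m ((le_max_left _ _).trans hm)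
    obtain ⟨q, hq⟩ := h2 m ((le_max_right _ _).trans hm)
    refine ⟨p + q, ?_⟩
    have := KerInf.add_mem hp hq
    rw [map_add, map_add]
    convert this using 1
    abel
  | single D a =>
    obtain ⟨m0, j, n, h⟩ := eventually_std D
    refine ⟨m0, fun m hm => ?_⟩
    obtain ⟨i, rfl⟩ := Nat.exists_eq_add_of_le hm
    refine ⟨Polynomial.monomial (i + j) a, n, ?_⟩
    have h1 : fT ^ (m0 + i) • D = fT ^ i • (fT ^ m0 • D) := by
      rw [smul_smul, ← pow_add, add_comm]
    have h2 : oL (i + j) = fT ^ i • oL j := by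
      rw [oL, oL, fpow_smul, List.replicate_append_replicate]
    have hit : ∀ (n : ℕ) (t : TT) (E : Lf), sM^[n] (t • E) = t • sM^[n] E := by
      intro n
      induction n with
      | zero => intro t E; rfl
      | succ n ih => intro t E; rw [Function.iterate_succ_apply, sM_smul, ih,
          Function.iterate_succ_apply]
    have h' : sM^[n] (fT ^ m0 • D) = sM^[n] (oL j) := h
    rw [sub_eq_add_neg, SI_add, SI_neg, ev_monomial, actM_single, SI_single, SI_single, h1, h2,
      hit n (fT ^ i) (fT ^ m0 • D), hit n (fT ^ i) (oL j), h']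
    exact add_neg_cancel _

theorem le_of_idealOf {R R' : AddSubgroup MM} (hR : InvM R) (hR' : InvM R') (h1 : KerInf ≤ R)
    (h1' : KerInf ≤ R') (h : idealOf R hR ≤ idealOf R' hR') : R ≤ R' := by
  intro x hx
  obtain ⟨m, hm⟩ := eventually_ev x
  obtain ⟨p, hp⟩ := hm m le_rfl
  have h2 : ev p ∈ R := by
    have h3 := R.sub_mem (hR (fT ^ m) x hx) (h1 hp)
    rwa [sub_sub_cancel] at h3
  have h3 : ev p ∈ R' := h h2
  have h4 : actM (fT ^ m) x ∈ R' := by
    have := R'.add_mem (h1' hp) h3
    rwa [sub_add_cancel] at this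
  exact (hR'.iff _ _).1 h4

theorem countable_ideals : Countable (Ideal (Polynomial (ZMod 2))) := by
  have h1 : Countable (Polynomial (ZMod 2)) := by
    have : Function.Injective
        (fun p : Polynomial (ZMod 2) => (p.toFinsupp.coeff : ℕ →₀ ZMod 2)) :=
      fun p q h => Polynomial.ext fun n => DFunLike.congr_fun h n
    exact this.countable
  have h2 : Function.Surjective (fun p : Polynomial (ZMod 2) =>
      (Ideal.span {p} : Ideal (Polynomial (ZMod 2)))) := by
    intro I
    obtain ⟨p, hp⟩ := (IsPrincipalIdealRing.principal I).principal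
    exact ⟨p, hp.symm⟩
  exact h2.countable

theorem countable_inv : {R : AddSubgroup MM | InvM R}.Countable := by
  have h1 : {R : AddSubgroup MM | InvM R} ⊆ Set.range KerS ∪ {R | InvM R ∧ KerInf ≤ R} := by
    intro R hR
    rcases classify hR with ⟨n, hn⟩ | h
    · exact Or.inl ⟨n, hn.symm⟩
    · exact Or.inr ⟨hR, h⟩
  refine Set.Countable.mono h1 ((Set.countable_range _).union ?_)
  have := countable_ideals
  classical
  refine Set.MapsTo.countable_of_injOn (t := Set.univ)
    (f := fun R : AddSubgroup MM => if h : InvM R then idealOf R h else ⊥)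
    (fun _ _ => Set.mem_univ _) ?_ Set.countable_univ
  rintro R ⟨hR, h⟩ R' ⟨hR', h'⟩ he
  simp only [dif_pos hR, dif_pos hR'] at he
  exact le_antisymm (le_of_idealOf hR hR' h h' he.le) (le_of_idealOf hR' hR h' h he.ge)

end Pool.Agent.H41.TF
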