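import Mathlib

/-!
# Ternary relations of rooted triples
-/

set_option autoImplicit false

namespace Pool.Agent.H41.TF

open Finset

variable {α : Type*} [DecidableEq α]

structure Tr (Q : Finset α) (R : α → α → α → Prop) : Prop where
  mem : ∀ a b c, R a b c → a ∈ Q ∧ b ∈ Q ∧ c ∈ Q ∧ a ≠ b ∧ a ≠ c ∧ b ≠ c
  symm : ∀ a b c, R a b c → R b a c
  tri : ∀ a b c, a ∈ Q → b ∈ Q → c ∈ Q → a ≠ b → a ≠ c → b ≠ c →
    R a b c ∨ R b c a ∨ R a c b
  excl : ∀ a b c, R a b c → ¬ R b c a
  trans : ∀ a b c d, R a b d → R b c d → a ≠ c → R a c d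

variable {Q : Finset α} {R : α → α → α → Prop}

theorem Tr.excl2 (h : Tr Q R) {a b c : α} (h1 : R a b c) (h2 : R a c b) : False :=
  h.excl b a c (h.symm _ _ _ h1) h2

theorem Tr.excl1 (h : Tr Q R) {a b c : α} (h1 : R a b c) (h2 : R b c a) : False :=
  h.excl a b c h1 h2

theorem bal_or_cyc (h : Tr Q R) {a b c e : α} (hce : c ≠ e) (h1 : R a c b) (h2 : R b e a) :
    (R a c e ∧ R b e c) ∨ (R b c e ∧ R a e c) := by
  obtain ⟨ha, hc, hb, hac, hab, hcb⟩ := h.mem _ _ _ h1
  obtain ⟨_, he, _, hbe, hba, hea⟩ := h.mem _ _ _ h2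
  have n1 : ¬ R c e b := by
    intro h3
    have h4 := h.trans a c e b h1 h3 hea.symm
    exact h.excl1 h2 (h.symm _ _ _ h4)
  have n2 : ¬ R c e a := by
    intro h3
    have h4 := h.trans b e c a h2 (h.symm _ _ _ h3) hcb.symm
    exact h.excl1 h4 (h.symm _ _ _ h1)
  rcases h.tri b c e hb hc he hcb.symm hbe hce with h3 | h3 | h3
  · rcases h.tri a c e ha hc he hac hea.symm hce with h4 | h4 | h4
    · exfalso
      have h5 := h.trans a c b e h4 (h.symm _ _ _ h3) hab
      exact h.excl1 h5 h2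
    · exact absurd h4 n2
    · exact Or.inr ⟨h3, h4⟩
  · exact absurd h3 n1
  · rcases h.tri a c e ha hc he hac hea.symm hce with h4 | h4 | h4
    · exact Or.inl ⟨h4, h3⟩
    · exact absurd h4 n2
    · exfalso
      have h5 := h.trans b e a c h3 (h.symm _ _ _ h4) hba
      exact h.excl1 h5 h1

theorem twin_c (h : Tr Q R) {a b c e x : α} (hcx : c ≠ x) (h1 : R a c b) (h2 : R b e a)
    (h3 : R a x b) (c1 : R b c e) (c2 : R a e c) (d1 : R b x e) (d2 : R a e x) :
    R c x a ∧ R c x b ∧ R c x e := by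
  have e1 : R c x b := h.trans c a x b (h.symm _ _ _ h1) h3 hcx
  have e2 : R c x e := h.trans c b x e (h.symm _ _ _ c1) d1 hcx
  obtain ⟨ha, hc, hb, hac, hab, hcb⟩ := h.mem _ _ _ h1
  obtain ⟨_, hx, _, hax, _, _⟩ := h.mem _ _ _ h3
  obtain ⟨_, he, _, _, _, hec⟩ := h.mem _ _ _ c2
  obtain ⟨_, _, _, _, _, hex⟩ := h.mem _ _ _ d2
  refine ⟨?_, e1, e2⟩
  rcases h.tri c x a hc hx ha hcx hac.symm hax.symm with h4 | h4 | h4
  · exact h4
  · exfalso
    have h5 := h.trans x a e c h4 c2 hex.symm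
    exact h.excl1 e2 h5
  · exfalso
    have h5 := h.trans c a e x h4 d2 hec.symm
    exact h.excl2 e2 h5

theorem twin_a (h : Tr Q R) {a b c e x : α} (hcx : c ≠ x) (h1 : R a c b) (h2 : R b e a)
    (h3 : R a x b) (c1 : R b c e) (c2 : R a e c) (d1 : R a x e) (d2 : R b e x) :
    R a x c := by
  obtain ⟨ha, hc, hb, hac, hab, hcb⟩ := h.mem _ _ _ h1
  obtain ⟨_, hx, _, hax, _, hxb⟩ := h.mem _ _ _ h3
  obtain ⟨_, he, _, hae, _, hec⟩ := h.mem _ _ _ c2
  obtain ⟨_, _, _, _, _, hxe⟩ := h.mem _ _ _ d1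
  have n1 : ¬ R c x e := by
    intro h4
    have h5 := h.trans a x c e d1 (h.symm _ _ _ h4) hac
    exact h.excl2 h5 c2
  have e1 : R c x b := h.trans c a x b (h.symm _ _ _ h1) h3 hcx
  rcases h.tri a x c ha hx hc hax hac hcx.symm with h4 | h4 | h4
  · exact h4
  · exfalso
    rcases h.tri c x e hc hx he hcx hec.symm hxe with h5 | h5 | h5
    · exact n1 h5
    · have h6 := h.trans x e a c h5 (h.symm _ _ _ c2) hax.symm
      exact h.excl1 (h.symm _ _ _ h6) h4
    · have h6 := h.trans c e b x h5 (h.symm _ _ _ d2) hcb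
      exact h.excl1 (h.symm _ _ _ h6) e1
  · exfalso
    rcases h.tri c x e hc hx he hcx hec.symm hxe with h5 | h5 | h5
    · exact n1 h5
    · have h6 := h.trans x e a c h5 (h.symm _ _ _ c2) hax.symm
      exact h.excl1 h6 h4
    · have h6 := h.trans a c e x h4 h5 hae
      exact h.excl2 h6 d1

/-- A nontrivial module of the relation. -/
def IsMod (Q : Finset α) (R : α → α → α → Prop) (U : Finset α) : Prop :=
  U ⊆ Q ∧ 2 ≤ U.card ∧ (∃ c ∈ Q, c ∉ U) ∧
    ∀ x ∈ U, ∀ y ∈ U, x ≠ y → ∀ z ∈ Q, z ∉ U → R x y z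

theorem isMod_of_star (h : Tr Q R) {U : Finset α} {p q c : α} (hUQ : U ⊆ Q) (hp : p ∈ U)
    (hq : q ∈ U) (hpq : p ≠ q) (hc : c ∈ Q) (hcU : c ∉ U)
    (hstar : ∀ x ∈ U, x ≠ p → ∀ z ∈ Q, z ∉ U → R p x z) : IsMod Q R U := by
  refine ⟨hUQ, ?_, ⟨c, hc, hcU⟩, ?_⟩
  · have : ({p, q} : Finset α) ⊆ U := by
      intro x hx
      simp only [Finset.mem_insert, Finset.mem_singleton] at hx
      rcases hx with rfl | rfl
      · exact hp
      · exact hq
    have h1 := Finset.card_le_card this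
    rwa [Finset.card_pair hpq] at h1
  · intro x hx y hy hxy z hz hzU
    by_cases h1 : x = p
    · subst h1
      exact hstar y hy hxy.symm z hz hzU
    · by_cases h2 : y = p
      · subst h2
        exact h.symm _ _ _ (hstar x hx h1 z hz hzU)
      · exact h.trans x p y z (h.symm _ _ _ (hstar x hx h1 z hz hzU))
          (hstar y hy h2 z hz hzU) hxy

theorem side (h : Tr Q R) {a b : α} (ha : a ∈ Q) (hb : b ∈ Q) (hab : a ≠ b)
    (hroot : ∀ c, ¬ R a b c) {x : α} (hx : x ∈ Q) (hxa : x ≠ a) (hxb : x ≠ b) :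
    R a x b ∨ R b x a := by
  rcases h.tri a b x ha hb hx hab hxa.symm hxb.symm with h1 | h1 | h1
  · exact absurd h1 (hroot x)
  · exact Or.inr h1
  · exact Or.inl h1

theorem mod_bin (h : Tr Q R) {a b : α} (ha : a ∈ Q) (hb : b ∈ Q) (hab : a ≠ b)
    (hroot : ∀ c, ¬ R a b c) {q : α} (hq : R a q b)
    (hno : ∀ c e, R a c b → R b e a → R a c e) : ∃ U, IsMod Q R U := by
  classical
  have hm := h.mem _ _ _ hq
  refine ⟨insert a (Q.filter (fun x => R a x b)), isMod_of_star h (p := a) (q := q) (c := b)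
    ?_ (Finset.mem_insert_self _ _) ?_ hm.2.2.2.1 hb ?_ ?_⟩
  · exact Finset.insert_subset ha (Finset.filter_subset _ _)
  · apply Finset.mem_insert_of_mem
    rw [Finset.mem_filter]
    exact ⟨hm.2.1, hq⟩
  · rw [Finset.mem_insert, Finset.mem_filter]
    rintro (h1 | h1)
    · exact hab h1.symm
    · exact (h.mem _ _ _ h1.2).2.2.2.2.2 rfl
  · intro x hx hxa z hz hzU
    rw [Finset.mem_insert, Finset.mem_filter] at hx hzU
    push Not at hzU
    obtain ⟨hza, hz'⟩ := hzU
    rcases hx with rfl | ⟨_, hx⟩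
    · exact absurd rfl hxa
    · by_cases hzb : z = b
      · subst hzb; exact hx
      · rcases side h ha hb hab hroot hz hza hzb with h1 | h1
        · exact absurd h1 (hz' hz)
        · exact hno x z hx h1

theorem mod_cyc (h : Tr Q R) {a b : α} (ha : a ∈ Q) (hb : b ∈ Q) (hab : a ≠ b)
    (hroot : ∀ c, ¬ R a b c) {c e g : α} (h1 : R a c b) (h2 : R b e a)
    (c1 : R b c e) (c2 : R a e c) (hg : R a g b) (hgc : g ≠ c) : ∃ U, IsMod Q R U := by
  classical
  have hsep : ∀ x y, R a x b → R b y a → x ≠ y := by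
    rintro x y hx hy rfl
    exact h.excl2 (h.symm _ _ _ hx) (h.symm _ _ _ hy)
  have hca := h.mem _ _ _ h1
  have hea := h.mem _ _ _ h2
  have hga := h.mem _ _ _ hg
  by_cases hgcyc : R b g e ∧ R a e g
  · -- the class of `c`
    refine ⟨Q.filter (fun x => R a x b ∧ R b x e ∧ R a e x), isMod_of_star h (p := c) (q := g)
      (c := a) (Finset.filter_subset _ _) ?_ ?_ hgc.symm ha ?_ ?_⟩
    · rw [Finset.mem_filter]
      exact ⟨hca.2.1, h1, c1, c2⟩
    · rw [Finset.mem_filter]
      exact ⟨hga.2.1, hg, hgcyc⟩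
    · rw [Finset.mem_filter]
      rintro ⟨_, h3, _⟩
      exact (h.mem _ _ _ h3).2.2.2.1 rfl
    · intro x hx hxc z hz hzU
      rw [Finset.mem_filter] at hx hzU
      obtain ⟨hxQ, x1, x2, x3⟩ := hx
      obtain ⟨t1, t2, t3⟩ := twin_c h hxc.symm h1 h2 x1 c1 c2 x2 x3
      have hzx : z ≠ x := by
        rintro rfl
        exact hzU ⟨hz, x1, x2, x3⟩
      have hzc : z ≠ c := by
        rintro rfl
        exact hzU ⟨hz, h1, c1, c2⟩
      by_cases hza : z = a
      · subst hza; exact t1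
      by_cases hzb : z = b
      · subst hzb; exact t2
      rcases side h ha hb hab hroot hz hza hzb with h3 | h3
      · -- `z` on the side of `a`
        rcases bal_or_cyc h (hsep z e h3 h2) h3 h2 with ⟨z1, z2⟩ | ⟨z1, z2⟩
        · have w1 := twin_a h hzc.symm h1 h2 h3 c1 c2 z1 z2
          have w2 := twin_a h hzx.symm x1 h2 h3 x2 x3 z1 z2
          rcases h.tri c x z hca.2.1 hxQ hz hxc.symm hzc.symm hzx.symm with h4 | h4 | h4
          · exact h4
          · exfalso
            have h5 := h.trans x z a c h4 (h.symm _ _ _ w1) (h.mem _ _ _ x1).2.2.2.1.symm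
            exact h.excl1 t1 h5
          · exfalso
            have h5 := h.trans c z a x h4 (h.symm _ _ _ w2) hca.2.2.2.1.symm
            exact h.excl2 t1 h5
        · exact absurd ⟨hz, h3, z1, z2⟩ hzU
      · by_cases hze : z = e
        · subst hze; exact t3
        have hcz := hsep c z h1 h3
        have hxz := hsep x z x1 h3
        rcases bal_or_cyc h hcz h1 h3 with ⟨z1, z2⟩ | ⟨z1, z2⟩
        · rcases bal_or_cyc h hxz x1 h3 with ⟨y1, y2⟩ | ⟨y1, y2⟩
          · exact h.trans c a x z (h.symm _ _ _ z1) y1 hxc.symm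
          · exfalso
            have h5 := twin_a h hxc x1 h3 h1 y1 y2 z1 z2
            exact h.excl1 (h.symm _ _ _ t1) (h.symm _ _ _ h5)
        · rcases bal_or_cyc h hxz x1 h3 with ⟨y1, y2⟩ | ⟨y1, y2⟩
          · exfalso
            have h5 := twin_a h hxc.symm h1 h3 x1 z1 z2 y1 y2
            exact h.excl1 t1 (h.symm _ _ _ h5)
          · exact (twin_c h hxc.symm h1 h3 x1 z1 z2 y1 y2).2.2
  · -- the class of `a`
    have hgbal : R a g e ∧ R b e g := by
      rcases bal_or_cyc h (hsep g e hg h2) hg h2 with h3 | h3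
      · exact h3
      · exact absurd h3 hgcyc
    refine ⟨insert a (Q.filter (fun x => R a x b ∧ R a x e ∧ R b e x)),
      isMod_of_star h (p := a) (q := g)
      (c := b) (Finset.insert_subset ha (Finset.filter_subset _ _))
      (Finset.mem_insert_self _ _) ?_ hga.2.2.2.1 hb ?_ ?_⟩
    · rw [Finset.mem_insert, Finset.mem_filter]
      exact Or.inr ⟨hga.2.1, hg, hgbal⟩
    · rw [Finset.mem_insert, Finset.mem_filter]
      rintro (h3 | ⟨_, h3, _⟩)
      · exact hab h3.symm
      · exact (h.mem _ _ _ h3).2.2.2.2.2 rfl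
    · intro x hx hxa z hz hzU
      rw [Finset.mem_insert, Finset.mem_filter] at hx hzU
      push Not at hzU
      obtain ⟨hza, hzU⟩ := hzU
      rcases hx with rfl | ⟨hxQ, x1, x2, x3⟩
      · exact absurd rfl hxa
      by_cases hzb : z = b
      · subst hzb; exact x1
      have hxc : x ≠ c := by
        rintro rfl
        exact h.excl2 x2 c2
      have hac : R a x c := twin_a h hxc.symm h1 h2 x1 c1 c2 x2 x3
      rcases side h ha hb hab hroot hz hza hzb with h3 | h3
      · have hzx : z ≠ x := by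
          rintro rfl
          exact hzU hz x1 x2 x3
        rcases bal_or_cyc h (hsep z e h3 h2) h3 h2 with ⟨z1, z2⟩ | ⟨z1, z2⟩
        · exact absurd z2 (hzU hz h3 z1)
        · exact twin_a h hzx h3 h2 x1 z1 z2 x2 x3
      · by_cases hze : z = e
        · subst hze; exact x2
        have hcz := hsep c z h1 h3
        have hxz := hsep x z x1 h3
        rcases bal_or_cyc h hxz x1 h3 with ⟨y1, y2⟩ | ⟨y1, y2⟩
        · exact y1
        · exfalso
          rcases bal_or_cyc h hcz h1 h3 with ⟨z1, z2⟩ | ⟨z1, z2⟩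
          · have h5 := twin_a h hxc x1 h3 h1 y1 y2 z1 z2
            exact h.excl2 hac h5
          · have h5 := (twin_c h hxc.symm h1 h3 x1 z1 z2 y1 y2).1
            exact h.excl1 hac (h.symm _ _ _ h5)

/-- With a root pair and at least five elements there is a nontrivial module. -/
theorem exists_mod (h : Tr Q R) {a b : α} (ha : a ∈ Q) (hb : b ∈ Q) (hab : a ≠ b)
    (hroot : ∀ c, ¬ R a b c) (hcard : 5 ≤ Q.card) : ∃ U, IsMod Q R U := by
  classical
  have hroot' : ∀ c, ¬ R b a c := fun c hc => hroot c (h.symm _ _ _ hc)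
  by_cases hcyc : ∃ c e, R a c b ∧ R b e a ∧ R b c e ∧ R a e c
  · obtain ⟨c, e, h1, h2, c1, c2⟩ := hcyc
    obtain ⟨g, hg, hga, hgb, hgc, hge⟩ : ∃ g ∈ Q, g ≠ a ∧ g ≠ b ∧ g ≠ c ∧ g ≠ e := by
      by_contra hcon
      push Not at hcon
      have hsub : Q ⊆ {a, b, c, e} := by
        intro x hx
        simp only [Finset.mem_insert, Finset.mem_singleton]
        by_cases e1 : x = a
        · exact Or.inl e1
        by_cases e2 : x = b
        · exact Or.inr (Or.inl e2)
        by_cases e3 : x = c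
        · exact Or.inr (Or.inr (Or.inl e3))
        exact Or.inr (Or.inr (Or.inr (hcon x hx e1 e2 e3)))
      have h4 := Finset.card_le_card hsub
      have h5 : ({a, b, c, e} : Finset α).card ≤ 4 := Finset.card_le_four
      omega
    rcases side h ha hb hab hroot hg hga hgb with h3 | h3
    · exact mod_cyc h ha hb hab hroot h1 h2 c1 c2 h3 hgc
    · exact mod_cyc h hb ha hab.symm hroot' h2 h1 c2 c1 h3 hge
  · push Not at hcyc
    have hno : ∀ c e, R a c b → R b e a → c ≠ e := by
      rintro c e hc he rfl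
      exact h.excl2 (h.symm _ _ _ hc) (h.symm _ _ _ he)
    obtain ⟨g, hg, hga, hgb⟩ : ∃ g ∈ Q, g ≠ a ∧ g ≠ b := by
      by_contra hcon
      push Not at hcon
      have hsub : Q ⊆ {a, b} := by
        intro x hx
        simp only [Finset.mem_insert, Finset.mem_singleton]
        by_cases e1 : x = a
        · exact Or.inl e1
        exact Or.inr (hcon x hx e1)
      have h4 := Finset.card_le_card hsub
      have h5 : ({a, b} : Finset α).card ≤ 2 := Finset.card_le_two
      omega
    rcases side h ha hb hab hroot hg hga hgb with h3 | h3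
    · refine mod_bin h ha hb hab hroot h3 ?_
      intro c e h1 h2
      rcases bal_or_cyc h (hno c e h1 h2) h1 h2 with h4 | h4
      · exact h4.1
      · exact absurd h4.2 (hcyc c e h1 h2 h4.1)
    · refine mod_bin h hb ha hab.symm hroot' h3 ?_
      intro e c h2 h1
      rcases bal_or_cyc h (hno c e h1 h2) h1 h2 with h4 | h4
      · exact h4.2
      · exact absurd h4.2 (hcyc c e h1 h2 h4.1)

end Pool.Agent.H41.TF
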