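import Pool.Agent.H41.TF.Mod
import Pool.Agent.H41.TF.Split

/-!
# The alternatives at a vertex
-/

set_option autoImplicit false

namespace Pool.Agent.H41.TF

open Finset

variable {α : Type*} [Fintype α] [DecidableEq α] {A : α → α → Prop} [DecidableRel A]

/-- The relation `ab|c` on the neighbours of `v`. -/
def Rel (A : α → α → Prop) [DecidableRel A] (v a b c : α) : Prop :=
  a ∈ Qs A v ∅ ∧ b ∈ Qs A v ∅ ∧ c ∈ Qs A v ∅ ∧ a ≠ b ∧ a ≠ c ∧ b ≠ c ∧ Ch A v a b c

theorem tr_rel (h : Tfg A) {v z : α} (hv : A v z) : Tr (Qs A v ∅) (Rel A v) where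
  mem := by
    rintro a b c ⟨h1, h2, h3, h4, h5, h6, _⟩
    exact ⟨h1, h2, h3, h4, h5, h6⟩
  symm := by
    rintro a b c ⟨h1, h2, h3, h4, h5, h6, h7⟩
    exact ⟨h2, h1, h3, h4.symm, h6, h5, h7.symm⟩
  tri := by
    intro a b c ha hb hc hab hac hbc
    rcases ch_tri h (mem_Qs_empty.mp ha) (mem_Qs_empty.mp hb) (mem_Qs_empty.mp hc) hab hac hbc
      with h1 | h1 | h1
    · exact Or.inl ⟨ha, hb, hc, hab, hac, hbc, h1⟩
    · exact Or.inr (Or.inl ⟨hb, hc, ha, hbc, hab.symm, hac.symm, h1⟩)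
    · exact Or.inr (Or.inr ⟨ha, hc, hb, hac, hab, hbc.symm, h1⟩)
  excl := by
    rintro a b c ⟨ha, hb, hc, hab, hac, hbc, h1⟩ ⟨_, _, _, _, _, _, h2⟩
    exact ch_excl h hv hab hac hbc h1 h2
  trans := by
    rintro a b c d ⟨ha, hb, hd, hab, had, hbd, h1⟩ ⟨_, hc, _, hbc, _, hcd, h2⟩ hac
    exact ⟨ha, hc, hd, hac, had, hcd, ch_trans h (mem_Qs_empty.mp ha) (mem_Qs_empty.mp hb)
      (mem_Qs_empty.mp hc) (mem_Qs_empty.mp hd) hab hac had hbc hbd hcd h1 h2⟩

/-- The conclusion of the second alternative. -/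
def Contr (A : α → α → Prop) [DecidableRel A] (v : α) (U : Finset α) : Prop :=
  U ⊆ Qs A v ∅ ∧ 2 ≤ U.card ∧
    (∀ σ : Finset α, (∀ x ∈ σ, ∀ y ∈ σ, ¬ A x y) → (∀ u ∈ U, ∃ g ∈ σ, A g u) →
      ∃ g ∈ σ, ∀ u ∈ U, A g u) ∧ ∃ x, x ≠ v ∧ ∀ u ∈ U, A x u

theorem contr_of_mod (h : Tfg A) {v z : α} (hv : A v z) {U : Finset α}
    (hU : IsMod (Qs A v ∅) (Rel A v) U) : Contr A v U := by
  obtain ⟨h1, h2, ⟨c, hc, hcU⟩, h3⟩ := hU
  have hmod : Module' A v U := by
    refine ⟨fun u hu => mem_Qs_empty.mp (h1 hu), ?_⟩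
    intro a ha b hb hab c hc hcU
    exact (h3 a ha b hb hab c (mem_Qs_empty.mpr hc) hcU).2.2.2.2.2.2
  have hne : U.Nonempty := by
    rw [← Finset.card_pos]; omega
  refine ⟨h1, h2, ?_, second_common h (mem_Qs_empty.mp hc) hmod hcU hne⟩
  intro σ hσ hdom
  exact contractible h hv hmod hσ hdom hne

theorem four_case (h : Tfg A) {v : α} {x y p q : α} (hQ : Qs A v ∅ = {x, y, p, q})
    (hxy : x ≠ y) (hxp : x ≠ p) (hxq : x ≠ q) (hyp : y ≠ p) (hyq : y ≠ q) (hpq : p ≠ q)
    (hch : Ch A v x y p) (hno : ¬ ∃ U, IsMod (Qs A v ∅) (Rel A v) U) :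
    ∀ s t, A s x → ¬ A s y → ¬ A s p → ¬ A s q → A t y → ¬ A t x → ¬ A t p → ¬ A t q →
      A s t := by
  intro s t hsx hsy hsp hsq hty htx htp htq
  by_contra hst
  have qx : x ∈ Qs A v ∅ := by rw [hQ]; simp
  have qy : y ∈ Qs A v ∅ := by rw [hQ]; simp
  have qp : p ∈ Qs A v ∅ := by rw [hQ]; simp
  have qq : q ∈ Qs A v ∅ := by rw [hQ]; simp
  have vx := mem_Qs_empty.mp qx
  have vy := mem_Qs_empty.mp qy
  have hs : El A v ∅ s := by
    refine ⟨?_, nonadj_of_common h vx hsx, fun g hg => absurd hg (Finset.notMem_empty g)⟩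
    rintro rfl
    exact hsy vy
  have ht : El A v ∅ t := by
    refine ⟨?_, nonadj_of_common h vy hty, fun g hg => absurd hg (Finset.notMem_empty g)⟩
    rintro rfl
    exact htx vx
  obtain ⟨G', _, hok, hQ', hc1⟩ := c1 h (ok_empty v) hs ht hst hxy qx qy qp hsx hty hxp.symm
    hyp.symm (by
      intro c hc hne
      rw [hQ] at hc
      simp only [Finset.mem_insert, Finset.mem_singleton] at hc
      rcases hc with rfl | rfl | rfl | rfl
      · exact absurd rfl hne
      · exact hsy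
      · exact hsp
      · exact hsq) (by
      intro c hc hne
      rw [hQ] at hc
      simp only [Finset.mem_insert, Finset.mem_singleton] at hc
      rcases hc with rfl | rfl | rfl | rfl
      · exact htx
      · exact absurd rfl hne
      · exact htp
      · exact htq)
  have hQ4 : Qs A v G' = {x, y, p, q} := hQ'.trans hQ
  have q1 : q ∈ Qs A v G' := by rw [hQ']; exact qq
  have q2 : x ∈ Qs A v G' := by rw [hQ']; exact qx
  obtain ⟨w, hw, hwq, hw'⟩ := exists_single h hok q1 q2 hxq.symm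
  have hQ3 : Qs A v (insert w G') = {x, y, p} := by
    apply Qs_four h (a := q) _ hwq (hw' x q2 hxq) (hw' y (by rw [hQ']; exact qy) hyq)
      (hw' p (by rw [hQ']; exact qp) hpq)
    rw [hQ4]
    ext c
    simp only [Finset.mem_insert, Finset.mem_singleton]
    tauto
  have hok3 := ok_insert h hok hw
  obtain ⟨u, hu, hux, huy⟩ := hch.all h vx hxy hxp hyp hok3 hQ3
  have huG : El A v G' u := hu.subset (Finset.subset_insert _ _)
  obtain ⟨c, hc, hcx, hcy, huc⟩ := hc1 u huG hux huy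
  rw [hQ] at hc
  simp only [Finset.mem_insert, Finset.mem_singleton] at hc
  rcases hc with rfl | rfl | rfl | rfl
  · exact hcx rfl
  · exact hcy rfl
  · obtain ⟨a, ha, hua⟩ := f1_single h vx hok3 hu
    rw [hQ3] at ha
    simp only [Finset.mem_insert, Finset.mem_singleton] at ha
    rcases ha with rfl | rfl | rfl
    · exact hua hux
    · exact hua huy
    · exact hua huc
  · -- `{x, y, c}` is a module
    apply hno
    refine ⟨{x, y, c}, isMod_of_star (tr_rel h vx) (p := x) (q := y) (c := p) ?_ (by simp)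
      (by simp) hxy qp ?_ ?_⟩
    · intro a ha
      simp only [Finset.mem_insert, Finset.mem_singleton] at ha
      rcases ha with rfl | rfl | rfl
      · exact qx
      · exact qy
      · exact qq
    · simp only [Finset.mem_insert, Finset.mem_singleton]
      rintro (rfl | rfl | rfl)
      · exact hxp rfl
      · exact hyp rfl
      · exact hpq rfl
    · intro a ha hax b hb hbU
      have hbp : b = p := by
        rw [hQ] at hb
        simp only [Finset.mem_insert, Finset.mem_singleton] at hb hbU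
        tauto
      subst hbp
      simp only [Finset.mem_insert, Finset.mem_singleton] at ha
      rcases ha with rfl | rfl | rfl
      · exact absurd rfl hax
      · exact ⟨qx, qy, qp, hxy, hxp, hyp, hch⟩
      · refine ⟨qx, qq, qp, hxq, hxp, hpq.symm, ?_⟩
        refine ch_of_three h hok (a := x) (b := a) (c := y) (d := b) ?_ hxy hyq.symm hyp.symm
          huG hux huc huy
        rw [hQ4]
        ext e
        simp only [Finset.mem_insert, Finset.mem_singleton]
        tauto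

/-- The conclusion of the third alternative. -/
def Four (A : α → α → Prop) [DecidableRel A] (v : α) : Prop :=
  ∃ x y p q : α, x ≠ y ∧ x ≠ p ∧ x ≠ q ∧ y ≠ p ∧ y ≠ q ∧ p ≠ q ∧ Qs A v ∅ = {x, y, p, q} ∧
    ∀ s t, A s x → ¬ A s y → ¬ A s p → ¬ A s q → A t y → ¬ A t x → ¬ A t p → ¬ A t q → A s t

theorem main_comb (h : Tfg A) {v z : α} (hv : A v z) :
    (Qs A v ∅).card ≤ 3 ∨ (∃ U, Contr A v U) ∨ Four A v := by
  by_cases h3 : (Qs A v ∅).card ≤ 3
  · exact Or.inl h3
  right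
  by_cases hmod : ∃ U, IsMod (Qs A v ∅) (Rel A v) U
  · obtain ⟨U, hU⟩ := hmod
    exact Or.inl ⟨U, contr_of_mod h hv hU⟩
  right
  by_cases h5 : 5 ≤ (Qs A v ∅).card
  · exfalso
    apply hmod
    have hzQ : z ∈ Qs A v ∅ := mem_Qs_empty.mpr hv
    obtain ⟨b0, hb0, hne⟩ : ∃ b0 ∈ Qs A v ∅, b0 ≠ z := by
      apply Finset.exists_mem_ne
      omega
    obtain ⟨b, hb, hbz, hroot⟩ := root_pair h hv (mem_Qs_empty.mp hb0) hne
    exact exists_mod (tr_rel h hv) hzQ (mem_Qs_empty.mpr hb) hbz.symm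
      (fun c hc => root_not_ch h hroot c hc.2.2.2.2.2.2) h5
  · have h4 : (Qs A v ∅).card = 4 := by omega
    obtain ⟨x, y, p, q, hxy, hxp, hxq, hyp, hyq, hpq, hQ⟩ := Finset.card_eq_four.mp h4
    have qx : x ∈ Qs A v ∅ := by rw [hQ]; simp
    have qy : y ∈ Qs A v ∅ := by rw [hQ]; simp
    have qp : p ∈ Qs A v ∅ := by rw [hQ]; simp
    rcases ch_tri h (mem_Qs_empty.mp qx) (mem_Qs_empty.mp qy) (mem_Qs_empty.mp qp) hxy hxp hyp
      with h1 | h1 | h1
    · exact ⟨x, y, p, q, hxy, hxp, hxq, hyp, hyq, hpq, hQ,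
        four_case h hQ hxy hxp hxq hyp hyq hpq h1 hmod⟩
    · have hQ' : Qs A v ∅ = {y, p, x, q} := by
        rw [hQ]; ext c; simp only [Finset.mem_insert, Finset.mem_singleton]; tauto
      exact ⟨y, p, x, q, hyp, hxy.symm, hyq, hxp.symm, hpq, hxq, hQ',
        four_case h hQ' hyp hxy.symm hyq hxp.symm hpq hxq h1 hmod⟩
    · have hQ' : Qs A v ∅ = {x, p, y, q} := by
        rw [hQ]; ext c; simp only [Finset.mem_insert, Finset.mem_singleton]; tauto
      exact ⟨x, p, y, q, hxp, hxy, hxq, hyp.symm, hpq, hyq, hQ',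
        four_case h hQ' hxp hxy hxq hyp.symm hpq hyq h1 hmod⟩

end Pool.Agent.H41.TF
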