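import Mathlib

/-!
# Triangle-free graphs in which no independent set dominates a vertex together with itself

`Tfg A` : the relation `A` is a triangle-free graph, and for every independent set `G` and every
vertex `x` outside the closed neighbourhood of `G` (with at least one neighbour) there is a
neighbour of `x` that has no neighbour in `G`.
-/

set_option autoImplicit false

namespace Pool.Agent.H41.TF

open Finset

variable {α : Type*} [Fintype α] [DecidableEq α]

structure Tfg (A : α → α → Prop) : Prop where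
  symm : ∀ x y, A x y → A y x
  tri : ∀ x y z, A x y → A y z → ¬ A x z
  w2 : ∀ G : Finset α, (∀ x ∈ G, ∀ y ∈ G, ¬ A x y) → ∀ x z, A x z → x ∉ G →
    (∀ g ∈ G, ¬ A g x) → ∃ y, A x y ∧ ∀ g ∈ G, ¬ A g y

variable {A : α → α → Prop}

theorem Tfg.irr (h : Tfg A) (x : α) : ¬ A x x := fun hx => h.tri x x x hx hx hx

/-- `G` is independent and `v` is not in its closed neighbourhood. -/
def Ok (A : α → α → Prop) (v : α) (G : Finset α) : Prop :=
  (∀ x ∈ G, ∀ y ∈ G, ¬ A x y) ∧ v ∉ G ∧ ∀ g ∈ G, ¬ A g v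

/-- `x` is outside the closed neighbourhood of `v` and has no neighbour in `G`. -/
def El (A : α → α → Prop) (v : α) (G : Finset α) (x : α) : Prop :=
  x ≠ v ∧ ¬ A v x ∧ ∀ g ∈ G, ¬ A g x

theorem ok_insert (h : Tfg A) {v : α} {G : Finset α} {x : α} (hG : Ok A v G) (hx : El A v G x) :
    Ok A v (insert x G) := by
  obtain ⟨h1, h2, h3⟩ := hG
  obtain ⟨hx1, hx2, hx3⟩ := hx
  refine ⟨?_, ?_, ?_⟩
  · intro a ha b hb
    rw [Finset.mem_insert] at ha hb
    rcases ha with rfl | ha
    · rcases hb with rfl | hb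
      · exact h.irr _
      · exact fun hab => hx3 b hb (h.symm _ _ hab)
    · rcases hb with rfl | hb
      · exact hx3 a ha
      · exact h1 a ha b hb
  · rw [Finset.mem_insert]
    rintro (rfl | hv)
    · exact hx1 rfl
    · exact h2 hv
  · intro g hg
    rw [Finset.mem_insert] at hg
    rcases hg with rfl | hg
    · exact fun hg => hx2 (h.symm _ _ hg)
    · exact h3 g hg

theorem Ok.subset {v : α} {G G' : Finset α} (hG : Ok A v G) (hs : G' ⊆ G) : Ok A v G' :=
  ⟨fun x hx y hy => hG.1 x (hs hx) y (hs hy), fun hv => hG.2.1 (hs hv),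
    fun g hg => hG.2.2 g (hs hg)⟩

theorem El.subset {v : α} {G G' : Finset α} {x : α} (hG : El A v G x) (hs : G' ⊆ G) :
    El A v G' x :=
  ⟨hG.1, hG.2.1, fun g hg => hG.2.2 g (hs hg)⟩

theorem El.insert {v : α} {G : Finset α} {x y : α} (hx : El A v G x)
    (hy : ¬ A y x) : El A v (insert y G) x := by
  refine ⟨hx.1, hx.2.1, ?_⟩
  intro g hg
  rw [Finset.mem_insert] at hg
  rcases hg with rfl | hg
  · exact hy
  · exact hx.2.2 g hg

theorem Ok.el (h : Tfg A) {v : α} {G : Finset α} (hG : Ok A v G) {x : α} (hx : x ∈ G)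
    {G' : Finset α} (hs : G' ⊆ G) : El A v G' x :=
  ⟨fun hxv => hG.2.1 (hxv ▸ hx), fun hvx => hG.2.2 x hx (h.symm _ _ hvx),
    fun g hg => hG.1 g (hs hg) x hx⟩

variable [DecidableRel A]

/-- The neighbours of `v` that have no neighbour in `G`. -/
def Qs (A : α → α → Prop) [DecidableRel A] (v : α) (G : Finset α) : Finset α :=
  Finset.univ.filter (fun a => A v a ∧ ∀ g ∈ G, ¬ A g a)

theorem mem_Qs {v : α} {G : Finset α} {a : α} :
    a ∈ Qs A v G ↔ A v a ∧ ∀ g ∈ G, ¬ A g a := by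
  unfold Qs
  rw [Finset.mem_filter]
  simp

theorem Qs_anti {v : α} {G G' : Finset α} (hs : G' ⊆ G) : Qs A v G ⊆ Qs A v G' := by
  intro a ha
  rw [mem_Qs] at ha ⊢
  exact ⟨ha.1, fun g hg => ha.2 g (hs hg)⟩

theorem mem_Qs_insert {v : α} {G : Finset α} {a x : α} :
    a ∈ Qs A v (insert x G) ↔ a ∈ Qs A v G ∧ ¬ A x a := by
  rw [mem_Qs, mem_Qs]
  constructor
  · rintro ⟨h1, h2⟩
    exact ⟨⟨h1, fun g hg => h2 g (Finset.mem_insert_of_mem hg)⟩,
      h2 x (Finset.mem_insert_self _ _)⟩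
  · rintro ⟨⟨h1, h2⟩, h3⟩
    refine ⟨h1, ?_⟩
    intro g hg
    rw [Finset.mem_insert] at hg
    rcases hg with rfl | hg
    · exact h3
    · exact h2 g hg

/-- `v` always keeps a neighbour. -/
theorem exists_Qs (h : Tfg A) {v z : α} (hv : A v z) {G : Finset α} (hG : Ok A v G) :
    ∃ a, a ∈ Qs A v G := by
  obtain ⟨y, hy, hy'⟩ := h.w2 G hG.1 v z hv hG.2.1 hG.2.2
  exact ⟨y, mem_Qs.mpr ⟨hy, hy'⟩⟩

theorem Qs_notMem (h : Tfg A) {v : α} {G : Finset α} (hG : Ok A v G) {a : α}
    (ha : a ∈ Qs A v G) : a ∉ G := by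
  intro hmem
  rw [mem_Qs] at ha
  exact hG.2.2 a hmem (h.symm _ _ ha.1)

theorem el_notMem (h : Tfg A) {v : α} {G : Finset α} {x a : α} (ha : a ∈ Qs A v G)
    (hx : A x a) : x ∉ G := by
  intro hmem
  rw [mem_Qs] at ha
  exact ha.2 x hmem hx

theorem nonadj_of_common (h : Tfg A) {x y a : α} (hx : A x a) (hy : A y a) : ¬ A x y := by
  intro hxy
  exact h.tri x y a hxy hy hx

/-- A vertex whose only neighbour in `Qs A v G` is `a`. -/
theorem exists_single (h : Tfg A) {v : α} {G : Finset α} (hG : Ok A v G) {a b : α}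
    (ha : a ∈ Qs A v G) (hb : b ∈ Qs A v G) (hab : a ≠ b) :
    ∃ x, El A v G x ∧ A x a ∧ ∀ c ∈ Qs A v G, c ≠ a → ¬ A x c := by
  have haQ := mem_Qs.mp ha
  have hbQ := mem_Qs.mp hb
  obtain ⟨y, hy, hy'⟩ := h.w2 (G ∪ (Qs A v G).erase a) (by
      intro x hx y hy
      rw [Finset.mem_union, Finset.mem_erase] at hx hy
      rcases hx with hx | ⟨_, hx⟩
      · rcases hy with hy | ⟨_, hy⟩
        · exact hG.1 x hx y hy
        · exact (mem_Qs.mp hy).2 x hx
      · rcases hy with hy | ⟨_, hy⟩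
        · exact fun hxy => (mem_Qs.mp hx).2 y hy (h.symm _ _ hxy)
        · exact nonadj_of_common h (h.symm _ _ (mem_Qs.mp hx).1) (h.symm _ _ (mem_Qs.mp hy).1))
    a v (h.symm _ _ haQ.1) (by
      rw [Finset.mem_union, Finset.mem_erase]
      rintro (hm | hm)
      · exact Qs_notMem h hG ha hm
      · exact hm.1 rfl) (by
      intro g hg
      rw [Finset.mem_union, Finset.mem_erase] at hg
      rcases hg with hg | ⟨_, hg⟩
      · exact haQ.2 g hg
      · exact nonadj_of_common h (h.symm _ _ (mem_Qs.mp hg).1) (h.symm _ _ haQ.1))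
  refine ⟨y, ⟨?_, ?_, ?_⟩, h.symm _ _ hy, ?_⟩
  · rintro rfl
    apply hy' b _ (h.symm _ _ hbQ.1)
    rw [Finset.mem_union, Finset.mem_erase]
    exact Or.inr ⟨hab.symm, hb⟩
  · intro hvy
    exact h.tri v a y haQ.1 hy hvy
  · intro g hg
    exact hy' g (Finset.mem_union_left _ hg)
  · intro c hc hca hyc
    apply hy' c _ (h.symm _ _ hyc)
    rw [Finset.mem_union, Finset.mem_erase]
    exact Or.inr ⟨hca, hc⟩

/-- One can shrink `Qs` to any nonempty subset. -/
theorem exists_ext (h : Tfg A) {v : α} (S : Finset α) (hS : S.Nonempty) :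
    ∀ m : ℕ, ∀ G : Finset α, Ok A v G → S ⊆ Qs A v G → (Qs A v G \ S).card = m →
      ∃ G', G ⊆ G' ∧ Ok A v G' ∧ Qs A v G' = S := by
  intro m
  induction m with
  | zero =>
    intro G hG hSG hc
    refine ⟨G, Finset.Subset.refl _, hG, ?_⟩
    rw [Finset.card_eq_zero, Finset.sdiff_eq_empty_iff_subset] at hc
    exact Finset.Subset.antisymm hc hSG
  | succ m ih =>
    intro G hG hSG hc
    have hne : (Qs A v G \ S).Nonempty := by
      rw [← Finset.card_pos]; omega
    obtain ⟨w, hw⟩ := hne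
    rw [Finset.mem_sdiff] at hw
    obtain ⟨b, hb⟩ := hS
    obtain ⟨x, hx, hxw, hx'⟩ := exists_single h hG hw.1 (hSG hb) (by
      rintro rfl; exact hw.2 hb)
    have hQ : Qs A v (insert x G) = (Qs A v G).erase w := by
      ext c
      rw [mem_Qs_insert, Finset.mem_erase]
      constructor
      · rintro ⟨h1, h2⟩
        refine ⟨?_, h1⟩
        rintro rfl
        exact h2 hxw
      · rintro ⟨h1, h2⟩
        exact ⟨h2, hx' c h2 h1⟩
    obtain ⟨G', hG', hok, hQ'⟩ := ih (insert x G) (ok_insert h hG hx) (by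
      rw [hQ]
      intro c hc
      rw [Finset.mem_erase]
      refine ⟨?_, hSG hc⟩
      rintro rfl
      exact hw.2 hc) (by
      rw [hQ, Finset.erase_sdiff_comm, Finset.card_erase_of_mem (Finset.mem_sdiff.mpr hw), hc]
      rfl)
    exact ⟨G', (Finset.subset_insert _ _).trans hG', hok, hQ'⟩

theorem exists_ext' (h : Tfg A) {v : α} {S : Finset α} (hS : S.Nonempty) {G : Finset α}
    (hG : Ok A v G) (hSG : S ⊆ Qs A v G) :
    ∃ G', G ⊆ G' ∧ Ok A v G' ∧ Qs A v G' = S :=
  exists_ext h S hS _ G hG hSG rfl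

/-- Two vertices without a common neighbour in `Qs` whose neighbourhoods cover `Qs`
are adjacent. -/
theorem f1 (h : Tfg A) {v z : α} (hv : A v z) {G : Finset α} (hG : Ok A v G) {x y : α}
    (hx : El A v G x) (hy : El A v G y) (hxy : ¬ A x y) :
    ∃ a, a ∈ Qs A v G ∧ ¬ A x a ∧ ¬ A y a := by
  have h1 := ok_insert h hG hy
  have h2 : El A v (insert y G) x := hx.insert (fun hyx => hxy (h.symm _ _ hyx))
  obtain ⟨a, ha⟩ := exists_Qs h hv (ok_insert h h1 h2)
  rw [mem_Qs_insert, mem_Qs_insert] at ha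
  exact ⟨a, ha.1.1, ha.2, ha.1.2⟩

theorem f1_single (h : Tfg A) {v z : α} (hv : A v z) {G : Finset α} (hG : Ok A v G) {x : α}
    (hx : El A v G x) : ∃ a, a ∈ Qs A v G ∧ ¬ A x a := by
  obtain ⟨a, ha⟩ := exists_Qs h hv (ok_insert h hG hx)
  rw [mem_Qs_insert] at ha
  exact ⟨a, ha⟩

theorem f1_three (h : Tfg A) {v z : α} (hv : A v z) {G : Finset α} (hG : Ok A v G) {x y w : α}
    (hx : El A v G x) (hy : El A v G y) (hw : El A v G w) (hxy : ¬ A x y) (hxw : ¬ A x w)
    (hyw : ¬ A y w) :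
    ∃ a, a ∈ Qs A v G ∧ ¬ A x a ∧ ¬ A y a ∧ ¬ A w a := by
  have h1 := ok_insert h hG hw
  have h2 : El A v (insert w G) x := hx.insert (fun hyx => hxw (h.symm _ _ hyx))
  have h3 : El A v (insert w G) y := hy.insert (fun hyx => hyw (h.symm _ _ hyx))
  obtain ⟨a, ha, ha2, ha3⟩ := f1 h hv h1 h2 h3 hxy
  rw [mem_Qs_insert] at ha
  exact ⟨a, ha.1, ha2, ha3, ha.2⟩

/-- Lemma C1: two nonadjacent vertices of types `{x}` and `{y}` force, after an extension of `G`
that does not change `Qs`, that there is no vertex of type `{x, y}`. -/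
theorem c1 (h : Tfg A) {v : α} {G : Finset α} (hG : Ok A v G) {s t x y z : α}
    (hs : El A v G s) (ht : El A v G t) (hst : ¬ A s t) (hxy : x ≠ y)
    (hx : x ∈ Qs A v G) (hy : y ∈ Qs A v G) (hz : z ∈ Qs A v G)
    (hsx : A s x) (hty : A t y) (hzx : z ≠ x) (hzy : z ≠ y)
    (hs' : ∀ c ∈ Qs A v G, c ≠ x → ¬ A s c) (ht' : ∀ c ∈ Qs A v G, c ≠ y → ¬ A t c) :
    ∃ G', G ⊆ G' ∧ Ok A v G' ∧ Qs A v G' = Qs A v G ∧
      ∀ u, El A v G' u → A u x → A u y → ∃ c ∈ Qs A v G, c ≠ x ∧ c ≠ y ∧ A u c := by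
  classical
  set F : Finset (Finset α) := Finset.univ.filter (fun G' => G ⊆ G' ∧ Ok A v G' ∧
    Qs A v G' = Qs A v G ∧ El A v G' s ∧ El A v G' t) with hF
  have hGF : G ∈ F := by
    rw [hF, Finset.mem_filter]
    exact ⟨Finset.mem_univ _, Finset.Subset.refl _, hG, rfl, hs, ht⟩
  obtain ⟨G', hG', hmax⟩ := F.exists_max_image Finset.card ⟨G, hGF⟩
  rw [hF, Finset.mem_filter] at hG'
  obtain ⟨_, hGG, hok, hQ, hsG, htG⟩ := hG'
  refine ⟨G', hGG, hok, hQ, ?_⟩
  intro u hu hux huy
  by_contra hcon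
  push Not at hcon
  have hus : ¬ A s u := nonadj_of_common h hsx hux
  have hut : ¬ A t u := nonadj_of_common h hty huy
  -- the big independent set
  set R : Finset α := (Qs A v G).filter (fun c => c ≠ x ∧ c ≠ y) with hR
  have hRmem : ∀ c, c ∈ R ↔ c ∈ Qs A v G ∧ c ≠ x ∧ c ≠ y := by
    intro c; rw [hR, Finset.mem_filter]
  have hok1 : Ok A v (insert s (insert t G')) :=
    ok_insert h (ok_insert h hok htG) (hsG.insert (fun hh => hst (h.symm _ _ hh)))
  have hu1 : El A v (insert s (insert t G')) u := (hu.insert hut).insert hus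
  obtain ⟨w, hw, hw'⟩ := h.w2 (insert s (insert t G') ∪ R) (by
      have key : ∀ a ∈ insert s (insert t G'), ∀ b ∈ R, ¬ A a b := by
        intro a ha b hb
        rw [hRmem] at hb
        rw [Finset.mem_insert, Finset.mem_insert] at ha
        rcases ha with rfl | rfl | ha
        · exact hs' b hb.1 hb.2.1
        · exact ht' b hb.1 hb.2.2
        · have := hb.1
          rw [← hQ, mem_Qs] at this
          exact this.2 a ha
      intro a ha b hb
      rw [Finset.mem_union] at ha hb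
      rcases ha with ha | ha
      · rcases hb with hb | hb
        · exact hok1.1 a ha b hb
        · exact key a ha b hb
      · rcases hb with hb | hb
        · exact fun hab => key b hb a ha (h.symm _ _ hab)
        · rw [hRmem] at ha hb
          exact nonadj_of_common h (h.symm _ _ (mem_Qs.mp ha.1).1)
            (h.symm _ _ (mem_Qs.mp hb.1).1))
    u x hux (by
      rw [Finset.mem_union]
      rintro (hm | hm)
      · rw [Finset.mem_insert, Finset.mem_insert] at hm
        rcases hm with rfl | rfl | hm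
        · exact hs' y hy hxy.symm huy
        · exact ht' x hx hxy hux
        · exact el_notMem h (hQ ▸ hx) hux hm
      · rw [hRmem] at hm
        exact hu.2.1 (mem_Qs.mp hm.1).1) (by
      intro g hg
      rw [Finset.mem_union] at hg
      rcases hg with hg | hg
      · exact hu1.2.2 g hg
      · rw [hRmem] at hg
        exact fun hgu => hcon g hg.1 hg.2.1 hg.2.2 (h.symm _ _ hgu))
  have hwG : ∀ g ∈ G', ¬ A g w := by
    intro g hg
    apply hw' g
    rw [Finset.mem_union, Finset.mem_insert, Finset.mem_insert]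
    exact Or.inl (Or.inr (Or.inr hg))
  have hws : ¬ A s w := by
    apply hw' s
    rw [Finset.mem_union, Finset.mem_insert]
    exact Or.inl (Or.inl rfl)
  have hwt : ¬ A t w := by
    apply hw' t
    rw [Finset.mem_union, Finset.mem_insert, Finset.mem_insert]
    exact Or.inl (Or.inr (Or.inl rfl))
  have hwR : ∀ c ∈ Qs A v G, c ≠ x → c ≠ y → ¬ A c w := by
    intro c hc hcx hcy
    apply hw' c
    rw [Finset.mem_union]
    exact Or.inr ((hRmem c).mpr ⟨hc, hcx, hcy⟩)
  have hwv : w ≠ v := by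
    rintro rfl
    exact hwR z hz hzx hzy (h.symm _ _ (mem_Qs.mp hz).1)
  have hvw : ¬ A v w := by
    intro hvw
    have hwQ : w ∈ Qs A v G := by
      rw [← hQ, mem_Qs]
      exact ⟨hvw, hwG⟩
    by_cases hwx : w = x
    · exact hws (hwx ▸ hsx)
    · by_cases hwy : w = y
      · exact hwt (hwy ▸ hty)
      · exact hcon w hwQ hwx hwy hw
  have hwel : El A v G' w := ⟨hwv, hvw, hwG⟩
  have hwQ' : ∀ c ∈ Qs A v G, ¬ A w c := by
    intro c hc hwc
    by_cases hcx : c = x
    · subst hcx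
      exact h.tri u w c hw hwc hux
    · by_cases hcy : c = y
      · subst hcy
        exact h.tri u w c hw hwc huy
      · exact hwR c hc hcx hcy (h.symm _ _ hwc)
  have hwmem : w ∉ G' := by
    intro hm
    exact hu.2.2 w hm (h.symm _ _ hw)
  have hnew : insert w G' ∈ F := by
    rw [hF, Finset.mem_filter]
    refine ⟨Finset.mem_univ _, hGG.trans (Finset.subset_insert _ _), ok_insert h hok hwel, ?_,
      hsG.insert (fun hh => hws (h.symm _ _ hh)), htG.insert (fun hh => hwt (h.symm _ _ hh))⟩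
    ext c
    rw [mem_Qs_insert, hQ]
    exact ⟨fun hc => hc.1, fun hc => ⟨hc, hwQ' c hc⟩⟩
  have := hmax _ hnew
  rw [Finset.card_insert_of_notMem hwmem] at this
  omega

end Pool.Agent.H41.TF
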