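import Pool.Agent.H41.CD.Ind2
import Pool.Agent.H41.CD.Bridge
import Pool.Agent.H41.TF.Graph

/-!
# Contractions of simplices and links in flag Eulerian complexes
-/

set_option autoImplicit false

namespace Pool.Agent.H41.TF

open Finset Pool.Agent.H41.CD

variable {n : ℕ}

/-- A nonempty pure flag Eulerian complex. -/
structure FE (Δ : Finset (Finset (Fin n))) (d : ℕ) : Prop extends FlagEulerian Δ d where
  ne : ∅ ∈ Δ
  pure : ∀ F ∈ Δ, F.card < d → ∃ v, v ∉ F ∧ insert v F ∈ Δ

/-- Two vertices that are not adjacent. -/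
def nonE (Δ : Finset (Finset (Fin n))) (x y : Fin n) : Prop :=
  ({x} : Finset (Fin n)) ∈ Δ ∧ ({y} : Finset (Fin n)) ∈ Δ ∧ ({x, y} : Finset (Fin n)) ∉ Δ

instance (Δ : Finset (Finset (Fin n))) : DecidableRel (nonE Δ) := fun x y =>
  inferInstanceAs (Decidable (({x} : Finset (Fin n)) ∈ Δ ∧ ({y} : Finset (Fin n)) ∈ Δ ∧
    ({x, y} : Finset (Fin n)) ∉ Δ))

/-- There are no three pairwise non-adjacent vertices. -/
def TriFree (Δ : Finset (Finset (Fin n))) : Prop :=
  ∀ x y z, nonE Δ x y → nonE Δ y z → ¬ nonE Δ x z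

theorem nonE_symm {Δ : Finset (Finset (Fin n))} {x y : Fin n} (h : nonE Δ x y) :
    nonE Δ y x := ⟨h.2.1, h.1, by rw [Finset.pair_comm]; exact h.2.2⟩

theorem face_of_indep {Δ : Finset (Finset (Fin n))} {d : ℕ} (hΔ : FlagEulerian Δ d)
    {G : Finset (Fin n)} (hv : ∀ x ∈ G, ({x} : Finset (Fin n)) ∈ Δ)
    (hG : ∀ x ∈ G, ∀ y ∈ G, ¬ nonE Δ x y) : G ∈ Δ := by
  apply hΔ.flag
  intro a ha b hb
  by_contra hab
  exact hG a ha b hb ⟨hv a ha, hv b hb, hab⟩

theorem indep_of_face {Δ : Finset (Finset (Fin n))} {d : ℕ} (hΔ : FlagEulerian Δ d)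
    {G : Finset (Fin n)} (hG : G ∈ Δ) : ∀ x ∈ G, ∀ y ∈ G, ¬ nonE Δ x y := by
  intro x hx y hy hxy
  exact hxy.2.2 (pair_mem hΔ hG hx hy)

theorem vert_of_face {Δ : Finset (Finset (Fin n))} {d : ℕ} (hΔ : FlagEulerian Δ d)
    {G : Finset (Fin n)} (hG : G ∈ Δ) {x : Fin n} (hx : x ∈ G) :
    ({x} : Finset (Fin n)) ∈ Δ := by
  apply hΔ.down _ hG
  intro z hz
  rw [Finset.mem_singleton] at hz
  rw [hz]; exact hx

theorem tfg_of {Δ : Finset (Finset (Fin n))} {d : ℕ} (hΔ : FlagEulerian Δ d)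
    (htri : TriFree Δ) : Tfg (nonE Δ) where
  symm := fun x y h => nonE_symm h
  tri := htri
  w2 := by
    intro G hG x z hxz hxG hx
    set G' : Finset (Fin n) := G.filter (fun g => ({g} : Finset (Fin n)) ∈ Δ) with hG'
    have hmem : ∀ g, g ∈ G' ↔ g ∈ G ∧ ({g} : Finset (Fin n)) ∈ Δ := by
      intro g; rw [hG', Finset.mem_filter]
    have hxG' : x ∉ G' := fun h => hxG ((hmem x).mp h).1
    have hins : insert x G' ∈ Δ := by
      apply face_of_indep hΔ
      · intro y hy
        rw [Finset.mem_insert] at hy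
        rcases hy with rfl | hy
        · exact hxz.1
        · exact ((hmem y).mp hy).2
      · intro a ha b hb
        rw [Finset.mem_insert] at ha hb
        rcases ha with rfl | ha
        · rcases hb with rfl | hb
          · intro hh
            apply hh.2.2
            simpa using hh.1
          · exact fun hh => hx b ((hmem b).mp hb).1 (nonE_symm hh)
        · rcases hb with rfl | hb
          · exact hx a ((hmem a).mp ha).1
          · exact hG a ((hmem a).mp ha).1 b ((hmem b).mp hb).1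
    obtain ⟨b, hb, hxb⟩ := exists_nonadj hΔ hxG' hins
    have hbv : ({b} : Finset (Fin n)) ∈ Δ := vert_of_face hΔ hb (Finset.mem_insert_self _ _)
    refine ⟨b, ⟨hxz.1, hbv, hxb⟩, ?_⟩
    intro g hg hgb
    apply hgb.2.2
    exact pair_mem hΔ hb (Finset.mem_insert_of_mem ((hmem g).mpr ⟨hg, hgb.1⟩))
      (Finset.mem_insert_self _ _)

/-- Inclusion-exclusion. -/
theorem incl_excl (Δ : Finset (Finset (Fin n))) (K U : Finset (Fin n))
    (f : Finset (Fin n) → ℚ) :
    ∑ G ∈ (Δ.filter (fun G => K ⊆ G)).filter (fun G => Disjoint G U), f G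
      = ∑ J ∈ U.powerset, (-1 : ℚ) ^ J.card * ∑ G ∈ Δ.filter (fun G => K ∪ J ⊆ G), f G := by
  classical
  have h1 : ∀ J ∈ U.powerset, (-1 : ℚ) ^ J.card * ∑ G ∈ Δ.filter (fun G => K ∪ J ⊆ G), f G
      = ∑ G ∈ Δ.filter (fun G => K ∪ J ⊆ G), (-1 : ℚ) ^ J.card * f G := by
    intro J _
    rw [Finset.mul_sum]
  rw [Finset.sum_congr rfl h1]
  have h2 : ∑ J ∈ U.powerset, ∑ G ∈ Δ.filter (fun G => K ∪ J ⊆ G), (-1 : ℚ) ^ J.card * f G
      = ∑ G ∈ Δ.filter (fun G => K ⊆ G), ∑ J ∈ (G ∩ U).powerset, (-1 : ℚ) ^ J.card * f G := by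
    apply Finset.sum_comm'
    intro J G
    simp only [Finset.mem_filter, Finset.mem_powerset]
    constructor
    · rintro ⟨hJ, hG, hKJ⟩
      exact ⟨Finset.subset_inter (Finset.union_subset_right hKJ) hJ, hG,
        Finset.union_subset_left hKJ⟩
    · rintro ⟨hJ, hG, hK⟩
      exact ⟨hJ.trans Finset.inter_subset_right, hG,
        Finset.union_subset hK (hJ.trans Finset.inter_subset_left)⟩
  rw [h2, Finset.sum_filter]
  refine Finset.sum_congr rfl (fun G _ => ?_)
  rw [← Finset.sum_mul, sum_signs]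
  by_cases hd : Disjoint G U
  · rw [if_pos hd, if_pos (Finset.disjoint_iff_inter_eq_empty.mp hd), one_mul]
  · rw [if_neg hd, if_neg (fun h => hd (Finset.disjoint_iff_inter_eq_empty.mpr h)), zero_mul]

/-- The faces disjoint from `U`. -/
def D0 (Δ : Finset (Finset (Fin n))) (U : Finset (Fin n)) : Finset (Finset (Fin n)) :=
  Δ.filter (fun G => Disjoint G U)

/-- The faces disjoint from `U` that can be extended by a vertex of `U`. -/
def D1 (Δ : Finset (Finset (Fin n))) (U : Finset (Fin n)) : Finset (Finset (Fin n)) :=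
  (D0 Δ U).filter (fun G => ∃ u ∈ U, insert u G ∈ Δ)

theorem mem_D0 {Δ : Finset (Finset (Fin n))} {U G : Finset (Fin n)} :
    G ∈ D0 Δ U ↔ G ∈ Δ ∧ Disjoint G U := by
  unfold D0; rw [Finset.mem_filter]

theorem mem_D1 {Δ : Finset (Finset (Fin n))} {U G : Finset (Fin n)} :
    G ∈ D1 Δ U ↔ (G ∈ Δ ∧ Disjoint G U) ∧ ∃ u ∈ U, insert u G ∈ Δ := by
  unfold D1; rw [Finset.mem_filter, mem_D0]

/-- The contraction of the simplex `U` to its vertex `u0`. -/
def con (Δ : Finset (Finset (Fin n))) (U : Finset (Fin n)) (u0 : Fin n) :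
    Finset (Finset (Fin n)) :=
  Finset.univ.filter (fun F => F ∩ U ⊆ {u0} ∧ F.erase u0 ∈ Δ ∧
    (u0 ∈ F → ∃ u ∈ U, insert u (F.erase u0) ∈ Δ))

theorem mem_con {Δ : Finset (Finset (Fin n))} {U : Finset (Fin n)} {u0 : Fin n}
    {F : Finset (Fin n)} : F ∈ con Δ U u0 ↔ F ∩ U ⊆ {u0} ∧ F.erase u0 ∈ Δ ∧
      (u0 ∈ F → ∃ u ∈ U, insert u (F.erase u0) ∈ Δ) := by
  unfold con
  rw [Finset.mem_filter]
  simp

theorem mem_con_of_notMem {Δ : Finset (Finset (Fin n))} {U : Finset (Fin n)} {u0 : Fin n}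
    {F : Finset (Fin n)} (hF : u0 ∉ F) : F ∈ con Δ U u0 ↔ F ∈ D0 Δ U := by
  rw [mem_con, mem_D0, Finset.erase_eq_of_notMem hF]
  constructor
  · rintro ⟨h1, h2, _⟩
    refine ⟨h2, ?_⟩
    rw [Finset.disjoint_left]
    intro x hx hxU
    have := h1 (Finset.mem_inter.mpr ⟨hx, hxU⟩)
    rw [Finset.mem_singleton] at this
    exact hF (this ▸ hx)
  · rintro ⟨h1, h2⟩
    refine ⟨?_, h1, fun h => absurd h hF⟩
    rw [Finset.disjoint_iff_inter_eq_empty.mp h2]
    exact Finset.empty_subset _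

theorem insert_mem_con {Δ : Finset (Finset (Fin n))} {U : Finset (Fin n)} {u0 : Fin n}
    {G : Finset (Fin n)} (hG : u0 ∉ G) (hu0 : u0 ∈ U) :
    insert u0 G ∈ con Δ U u0 ↔ G ∈ D1 Δ U := by
  rw [mem_con, mem_D1, Finset.erase_insert hG]
  constructor
  · rintro ⟨h1, h2, h3⟩
    refine ⟨⟨h2, ?_⟩, h3 (Finset.mem_insert_self _ _)⟩
    rw [Finset.disjoint_left]
    intro x hx hxU
    have := h1 (Finset.mem_inter.mpr ⟨Finset.mem_insert_of_mem hx, hxU⟩)
    rw [Finset.mem_singleton] at this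
    exact hG (this ▸ hx)
  · rintro ⟨⟨h1, h2⟩, h3⟩
    refine ⟨?_, h1, fun _ => h3⟩
    intro x hx
    rw [Finset.mem_inter, Finset.mem_insert] at hx
    rw [Finset.mem_singleton]
    rcases hx.1 with h4 | h4
    · exact h4
    · exact absurd hx.2 (Finset.disjoint_left.mp h2 h4)

theorem notMem_of_D0 {Δ : Finset (Finset (Fin n))} {U : Finset (Fin n)} {u0 : Fin n}
    {G : Finset (Fin n)} (hu0 : u0 ∈ U) (hG : G ∈ D0 Δ U) : u0 ∉ G := by
  rw [mem_D0] at hG
  intro h
  exact Finset.disjoint_left.mp hG.2 h hu0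

/-- Sums over the faces of the contraction containing `u0`. -/
theorem con_sum_mem {Δ : Finset (Finset (Fin n))} {U : Finset (Fin n)} {u0 : Fin n}
    (hu0 : u0 ∈ U) {K : Finset (Fin n)} (hK : u0 ∉ K) (f : ℕ → ℚ) :
    ∑ F ∈ (con Δ U u0).filter (fun F => insert u0 K ⊆ F), f F.card
      = ∑ G ∈ (D1 Δ U).filter (fun G => K ⊆ G), f (G.card + 1) := by
  refine Finset.sum_nbij' (fun F => F.erase u0) (fun G => insert u0 G) ?_ ?_ ?_ ?_ ?_
  · intro F hF
    rw [Finset.mem_filter] at hF ⊢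
    have huF : u0 ∈ F := hF.2 (Finset.mem_insert_self _ _)
    refine ⟨?_, ?_⟩
    · rw [← insert_mem_con (Finset.notMem_erase u0 F) hu0, Finset.insert_erase huF]
      exact hF.1
    · intro x hx
      rw [Finset.mem_erase]
      refine ⟨?_, hF.2 (Finset.mem_insert_of_mem hx)⟩
      rintro rfl
      exact hK hx
  · intro G hG
    rw [Finset.mem_filter] at hG ⊢
    have hD := hG.1
    rw [mem_D1] at hD
    have hn : u0 ∉ G := notMem_of_D0 hu0 (mem_D0.mpr hD.1)
    exact ⟨(insert_mem_con hn hu0).mpr hG.1, Finset.insert_subset_insert _ hG.2⟩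
  · intro F hF
    rw [Finset.mem_filter] at hF
    exact Finset.insert_erase (hF.2 (Finset.mem_insert_self _ _))
  · intro G hG
    rw [Finset.mem_filter] at hG
    have hD := hG.1
    rw [mem_D1] at hD
    exact Finset.erase_insert (notMem_of_D0 hu0 (mem_D0.mpr hD.1))
  · intro F hF
    rw [Finset.mem_filter] at hF
    have huF : u0 ∈ F := hF.2 (Finset.mem_insert_self _ _)
    rw [Finset.card_erase_of_mem huF]
    congr 1
    have : 0 < F.card := Finset.card_pos.mpr ⟨u0, huF⟩
    omega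

/-- Sums over the faces of the contraction. -/
theorem con_sum {Δ : Finset (Finset (Fin n))} {U : Finset (Fin n)} {u0 : Fin n}
    (hu0 : u0 ∈ U) {K : Finset (Fin n)} (hK : u0 ∉ K) (f : ℕ → ℚ) :
    ∑ F ∈ (con Δ U u0).filter (fun F => K ⊆ F), f F.card
      = ∑ G ∈ (D0 Δ U).filter (fun G => K ⊆ G), f G.card
        + ∑ G ∈ (D1 Δ U).filter (fun G => K ⊆ G), f (G.card + 1) := by
  rw [← con_sum_mem hu0 hK f,
    ← Finset.sum_filter_add_sum_filter_not ((con Δ U u0).filter (fun F => K ⊆ F))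
      (fun F => u0 ∈ F), add_comm]
  congr 1
  · apply Finset.sum_congr _ (fun _ _ => rfl)
    ext F
    simp only [Finset.mem_filter]
    constructor
    · rintro ⟨⟨h1, h2⟩, h3⟩
      exact ⟨(mem_con_of_notMem h3).mp h1, h2⟩
    · rintro ⟨h1, h2⟩
      have h3 := notMem_of_D0 hu0 h1
      exact ⟨⟨(mem_con_of_notMem h3).mpr h1, h2⟩, h3⟩
  · apply Finset.sum_congr _ (fun _ _ => rfl)
    ext F
    simp only [Finset.mem_filter]
    constructor
    · rintro ⟨⟨h1, h2⟩, h3⟩
      exact ⟨h1, Finset.insert_subset h3 h2⟩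
    · rintro ⟨h1, h2⟩
      exact ⟨⟨h1, (Finset.subset_insert _ _).trans h2⟩, h2 (Finset.mem_insert_self _ _)⟩

/-- The alternating sum over `D0` vanishes if `K` can be extended by a vertex of `U`. -/
theorem D0_sum_zero {Δ : Finset (Finset (Fin n))} {d : ℕ} (hΔ : FlagEulerian Δ d)
    {U : Finset (Fin n)} (hU : U ∈ Δ) {K : Finset (Fin n)} (hK : K ∈ Δ)
    (hex : ∃ u ∈ U, insert u K ∈ Δ) :
    ∑ G ∈ (D0 Δ U).filter (fun G => K ⊆ G), (-1 : ℚ) ^ G.card = 0 := by
  classical
  have h0 : (D0 Δ U).filter (fun G => K ⊆ G)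
      = (Δ.filter (fun G => K ⊆ G)).filter (fun G => Disjoint G U) := by
    ext G
    simp only [Finset.mem_filter, mem_D0]
    tauto
  rw [h0, incl_excl Δ K U (fun G => (-1 : ℚ) ^ G.card)]
  set V : Finset (Fin n) := U.filter (fun u => insert u K ∈ Δ) with hV
  have h1 : ∀ J ∈ U.powerset, (-1 : ℚ) ^ J.card
        * ∑ G ∈ Δ.filter (fun G => K ∪ J ⊆ G), (-1 : ℚ) ^ G.card
      = if J ∈ V.powerset then (-1 : ℚ) ^ J.card * (-1) ^ d else 0 := by
    intro J hJ
    rw [Finset.mem_powerset] at hJ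
    by_cases hJV : J ⊆ V
    · rw [if_pos (Finset.mem_powerset.mpr hJV), hΔ.euler]
      apply hΔ.flag
      intro a ha b hb
      rw [Finset.mem_union] at ha hb
      have hKJ : ∀ p ∈ K, ∀ q ∈ J, ({p, q} : Finset (Fin n)) ∈ Δ := by
        intro p hp q hq
        have hqV := hJV hq
        rw [hV, Finset.mem_filter] at hqV
        exact pair_mem hΔ hqV.2 (Finset.mem_insert_of_mem hp) (Finset.mem_insert_self _ _)
      rcases ha with ha | ha
      · rcases hb with hb | hb
        · exact pair_mem hΔ hK ha hb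
        · exact hKJ a ha b hb
      · rcases hb with hb | hb
        · rw [Finset.pair_comm]; exact hKJ b hb a ha
        · exact pair_mem hΔ hU (hJ ha) (hJ hb)
    · rw [if_neg (fun h => hJV (Finset.mem_powerset.mp h))]
      have hemp : Δ.filter (fun G => K ∪ J ⊆ G) = ∅ := by
        rw [Finset.filter_eq_empty_iff]
        intro G hG hsub
        apply hJV
        intro j hj
        rw [hV, Finset.mem_filter]
        refine ⟨hJ hj, hΔ.down G hG _ ?_⟩
        exact Finset.insert_subset (hsub (Finset.mem_union_right _ hj))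
          (Finset.union_subset_left hsub)
      rw [hemp, Finset.sum_empty, mul_zero]
  rw [Finset.sum_congr rfl h1, Finset.sum_ite_mem, Finset.inter_eq_right.mpr
    (Finset.powerset_mono.mpr (Finset.filter_subset _ _)), ← Finset.sum_mul, sum_signs]
  obtain ⟨u, hu, huK⟩ := hex
  have hne : V ≠ ∅ := by
    intro h
    have : u ∈ V := by rw [hV, Finset.mem_filter]; exact ⟨hu, huK⟩
    rw [h] at this
    exact absurd this (Finset.notMem_empty u)
  rw [if_neg hne, zero_mul]

/-- The alternating sums over `D0` and `D1`. -/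
theorem D0_sub_D1 {Δ : Finset (Finset (Fin n))} {d : ℕ} (hΔ : FlagEulerian Δ d)
    {U : Finset (Fin n)} (hU : U ∈ Δ) {K : Finset (Fin n)} (hK : K ∈ D0 Δ U) :
    ∑ G ∈ (D0 Δ U).filter (fun G => K ⊆ G), (-1 : ℚ) ^ G.card
      - ∑ G ∈ (D1 Δ U).filter (fun G => K ⊆ G), (-1 : ℚ) ^ G.card = (-1) ^ d := by
  classical
  rw [mem_D0] at hK
  rw [← hΔ.euler K hK.1]
  have hmap : ∀ H ∈ Δ.filter (fun G => K ⊆ G), H \ U ∈ (D0 Δ U).filter (fun G => K ⊆ G) := by
    intro H hH
    rw [Finset.mem_filter] at hH ⊢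
    rw [mem_D0]
    refine ⟨⟨hΔ.down H hH.1 _ Finset.sdiff_subset, Finset.sdiff_disjoint⟩, ?_⟩
    intro x hx
    rw [Finset.mem_sdiff]
    exact ⟨hH.2 hx, Finset.disjoint_left.mp hK.2 hx⟩
  rw [← Finset.sum_fiberwise_of_maps_to hmap (fun H => (-1 : ℚ) ^ H.card)]
  have hD1 : (D1 Δ U).filter (fun G => K ⊆ G)
      = ((D0 Δ U).filter (fun G => K ⊆ G)).filter (fun G => ∃ u ∈ U, insert u G ∈ Δ) := by
    ext G
    simp only [Finset.mem_filter, mem_D0, mem_D1]
    tauto
  rw [hD1, Finset.sum_filter (fun G => ∃ u ∈ U, insert u G ∈ Δ), ← Finset.sum_sub_distrib]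
  refine Finset.sum_congr rfl (fun G hG => ?_)
  rw [Finset.mem_filter, mem_D0] at hG
  set V : Finset (Fin n) := U.filter (fun u => insert u G ∈ Δ) with hV
  have hfib : ∑ H ∈ (Δ.filter (fun G => K ⊆ G)).filter (fun H => H \ U = G), (-1 : ℚ) ^ H.card
      = ∑ J ∈ V.powerset, (-1 : ℚ) ^ G.card * (-1) ^ J.card := by
    refine Finset.sum_nbij' (fun H => H ∩ U) (fun J => G ∪ J) ?_ ?_ ?_ ?_ ?_
    · intro H hH
      rw [Finset.mem_filter, Finset.mem_filter] at hH
      rw [Finset.mem_powerset]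
      intro x hx
      rw [Finset.mem_inter] at hx
      rw [hV, Finset.mem_filter]
      refine ⟨hx.2, hΔ.down H hH.1.1 _ ?_⟩
      apply Finset.insert_subset hx.1
      rw [← hH.2]
      exact Finset.sdiff_subset
    · intro J hJ
      rw [Finset.mem_powerset] at hJ
      have hJU : J ⊆ U := hJ.trans (Finset.filter_subset _ _)
      rw [Finset.mem_filter, Finset.mem_filter]
      refine ⟨⟨?_, hG.2.trans Finset.subset_union_left⟩, ?_⟩
      · apply hΔ.flag
        intro a ha b hb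
        rw [Finset.mem_union] at ha hb
        have hGJ : ∀ p ∈ G, ∀ q ∈ J, ({p, q} : Finset (Fin n)) ∈ Δ := by
          intro p hp q hq
          have hqV := hJ hq
          rw [hV, Finset.mem_filter] at hqV
          exact pair_mem hΔ hqV.2 (Finset.mem_insert_of_mem hp) (Finset.mem_insert_self _ _)
        rcases ha with ha | ha
        · rcases hb with hb | hb
          · exact pair_mem hΔ hG.1.1 ha hb
          · exact hGJ a ha b hb
        · rcases hb with hb | hb
          · rw [Finset.pair_comm]; exact hGJ b hb a ha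
          · exact pair_mem hΔ hU (hJU ha) (hJU hb)
      · ext x
        rw [Finset.mem_sdiff, Finset.mem_union]
        constructor
        · rintro ⟨h1 | h1, h2⟩
          · exact h1
          · exact absurd (hJU h1) h2
        · intro hx
          exact ⟨Or.inl hx, Finset.disjoint_left.mp hG.1.2 hx⟩
    · intro H hH
      rw [Finset.mem_filter] at hH
      have := hH.2
      rw [← this, Finset.sdiff_union_inter]
    · intro J hJ
      rw [Finset.mem_powerset] at hJ
      have hJU : J ⊆ U := hJ.trans (Finset.filter_subset _ _)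
      ext x
      rw [Finset.mem_inter, Finset.mem_union]
      constructor
      · rintro ⟨h1 | h1, h2⟩
        · exact absurd h2 (Finset.disjoint_left.mp hG.1.2 h1)
        · exact h1
      · intro hx
        exact ⟨Or.inr hx, hJU hx⟩
    · intro H hH
      rw [Finset.mem_filter] at hH
      rw [← pow_add]
      congr 1
      rw [← hH.2]
      have := Finset.card_sdiff_add_card_inter H U
      omega
  rw [hfib, ← Finset.mul_sum, sum_signs]
  by_cases hex : ∃ u ∈ U, insert u G ∈ Δ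
  · rw [if_pos hex]
    obtain ⟨u, hu, huG⟩ := hex
    have hne : V ≠ ∅ := by
      intro h
      have : u ∈ V := by rw [hV, Finset.mem_filter]; exact ⟨hu, huG⟩
      rw [h] at this
      exact absurd this (Finset.notMem_empty u)
    rw [if_neg hne]
    ring
  · rw [if_neg hex]
    have hVe : V = ∅ := by
      rw [hV, Finset.filter_eq_empty_iff]
      intro u hu huG
      exact hex ⟨u, hu, huG⟩
    rw [if_pos hVe]
    ring

/-- Hypotheses for the contraction of a simplex. -/
structure CS (Δ : Finset (Finset (Fin n))) (U : Finset (Fin n)) : Prop where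
  face : U ∈ Δ
  ext : ∀ F ∈ Δ, (∀ x ∈ F, ∃ u ∈ U, ({x, u} : Finset (Fin n)) ∈ Δ) →
    ∃ u ∈ U, insert u F ∈ Δ

theorem fe_con {Δ : Finset (Finset (Fin n))} {d : ℕ} (hΔ : FE Δ d) {U : Finset (Fin n)}
    {u0 : Fin n} (hU : CS Δ U) (hu0 : u0 ∈ U) : FE (con Δ U u0) d := by
  classical
  have hF := hΔ.toFlagEulerian
  have hu0v : ({u0} : Finset (Fin n)) ∈ Δ := vert_of_face hF hU.face hu0
  have hdisj : ∀ F ∈ con Δ U u0, ∀ u ∈ U, u ∉ F.erase u0 := by
    intro F hFc u hu huF
    rw [mem_con] at hFc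
    rw [Finset.mem_erase] at huF
    have := hFc.1 (Finset.mem_inter.mpr ⟨huF.2, hu⟩)
    rw [Finset.mem_singleton] at this
    exact huF.1 this
  refine ⟨⟨?_, ?_, ?_, ?_⟩, ?_, ?_⟩
  · -- down
    intro F hFc G hGF
    rw [mem_con] at hFc ⊢
    refine ⟨(Finset.inter_subset_inter_right hGF).trans hFc.1,
      hF.down _ hFc.2.1 _ (Finset.erase_subset_erase _ hGF), ?_⟩
    intro hu0G
    obtain ⟨u, hu, huF⟩ := hFc.2.2 (hGF hu0G)
    exact ⟨u, hu, hF.down _ huF _
      (Finset.insert_subset_insert _ (Finset.erase_subset_erase _ hGF))⟩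
  · -- flag
    intro S hS
    have hSU : S ∩ U ⊆ {u0} := by
      intro x hx
      rw [Finset.mem_inter] at hx
      have := hS x hx.1 x hx.1
      rw [mem_con] at this
      exact this.1 (Finset.mem_inter.mpr ⟨Finset.mem_insert_self _ _, hx.2⟩)
    have hSe : S.erase u0 ∈ Δ := by
      apply hF.flag
      intro a ha b hb
      rw [Finset.mem_erase] at ha hb
      have := hS a ha.2 b hb.2
      rw [mem_con] at this
      have h1 := this.2.1
      rwa [Finset.erase_eq_of_notMem (by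
        simp only [Finset.mem_insert, Finset.mem_singleton]
        rintro (h | h)
        · exact ha.1 h.symm
        · exact hb.1 h.symm)] at h1
    rw [mem_con]
    refine ⟨hSU, hSe, ?_⟩
    intro hu0S
    apply hU.ext _ hSe
    intro x hx
    rw [Finset.mem_erase] at hx
    have := hS u0 hu0S x hx.2
    rw [mem_con] at this
    obtain ⟨u, hu, hux⟩ := this.2.2 (Finset.mem_insert_self _ _)
    refine ⟨u, hu, ?_⟩
    rw [Finset.pair_comm]
    have he : ({u0, x} : Finset (Fin n)).erase u0 = {x} := by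
      apply Finset.erase_insert
      rw [Finset.mem_singleton]
      exact fun h => hx.1 h.symm
    rw [he] at hux
    exact hux
  · -- dim
    intro F hFc
    have hFc' := hFc
    rw [mem_con] at hFc
    by_cases hu : u0 ∈ F
    · obtain ⟨u, huU, huF⟩ := hFc.2.2 hu
      have h1 := hF.dim _ huF
      rw [Finset.card_insert_of_notMem (hdisj F hFc' u huU), Finset.card_erase_of_mem hu] at h1
      have : 0 < F.card := Finset.card_pos.mpr ⟨u0, hu⟩
      omega
    · have h1 := hF.dim _ hFc.2.1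
      rwa [Finset.erase_eq_of_notMem hu] at h1
  · -- euler
    intro F hFc
    by_cases hu : u0 ∈ F
    · set K : Finset (Fin n) := F.erase u0 with hK
      have hKn : u0 ∉ K := Finset.notMem_erase u0 F
      have hFK : F = insert u0 K := (Finset.insert_erase hu).symm
      rw [hFK] at hFc ⊢
      rw [insert_mem_con hKn hu0] at hFc
      have hKD := mem_D1.mp hFc
      rw [con_sum_mem hu0 hKn (fun m => (-1 : ℚ) ^ m)]
      have h1 := D0_sum_zero hF hU.face hKD.1.1 hKD.2
      have h2 := D0_sub_D1 hF hU.face (mem_D0.mpr hKD.1)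
      rw [h1] at h2
      have h3 : ∑ G ∈ (D1 Δ U).filter (fun G => K ⊆ G), (-1 : ℚ) ^ (G.card + 1)
          = - ∑ G ∈ (D1 Δ U).filter (fun G => K ⊆ G), (-1 : ℚ) ^ G.card := by
        rw [← Finset.sum_neg_distrib]
        refine Finset.sum_congr rfl (fun G _ => ?_)
        rw [pow_succ]; ring
      rw [h3]
      linarith
    · rw [mem_con_of_notMem hu] at hFc
      rw [con_sum hu0 hu (fun m => (-1 : ℚ) ^ m)]
      have h2 := D0_sub_D1 hF hU.face hFc
      have h3 : ∑ G ∈ (D1 Δ U).filter (fun G => F ⊆ G), (-1 : ℚ) ^ (G.card + 1)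
          = - ∑ G ∈ (D1 Δ U).filter (fun G => F ⊆ G), (-1 : ℚ) ^ G.card := by
        rw [← Finset.sum_neg_distrib]
        refine Finset.sum_congr rfl (fun G _ => ?_)
        rw [pow_succ]; ring
      rw [h3]
      linarith
  · -- nonempty
    rw [mem_con_of_notMem (Finset.notMem_empty _), mem_D0]
    exact ⟨hΔ.ne, Finset.disjoint_empty_left _⟩
  · -- pure
    intro F hFc hlt
    by_cases hu : u0 ∈ F
    · set K : Finset (Fin n) := F.erase u0 with hK
      have hKn : u0 ∉ K := Finset.notMem_erase u0 F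
      have hFK : F = insert u0 K := (Finset.insert_erase hu).symm
      have hcard : F.card = K.card + 1 := by
        rw [hFK, Finset.card_insert_of_notMem hKn]
      rw [hFK] at hFc
      rw [insert_mem_con hKn hu0] at hFc
      obtain ⟨⟨hKΔ, hKU⟩, u, huU, huK⟩ := mem_D1.mp hFc
      have huK' : u ∉ K := fun h => Finset.disjoint_left.mp hKU h huU
      obtain ⟨w, hw, hw'⟩ := hΔ.pure _ huK (by
        rw [Finset.card_insert_of_notMem huK']; omega)
      have hwK : w ∉ K := fun h => hw (Finset.mem_insert_of_mem h)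
      have hfin : ∀ y, y ∉ U → y ∉ K → insert y K ∈ Δ → (∃ u ∈ U, insert u (insert y K) ∈ Δ) →
          ∃ v, v ∉ F ∧ insert v F ∈ con Δ U u0 := by
        intro y hyU hyK hyK' hex
        have hyu : y ≠ u0 := fun h => hyU (h ▸ hu0)
        refine ⟨y, ?_, ?_⟩
        · rw [hFK, Finset.mem_insert]
          rintro (h | h)
          · exact hyu h
          · exact hyK h
        · rw [hFK, Finset.insert_comm, insert_mem_con _ hu0, mem_D1]
          · refine ⟨⟨hyK', ?_⟩, hex⟩
            rw [Finset.disjoint_insert_left]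
            exact ⟨hyU, hKU⟩
          · rw [Finset.mem_insert]
            rintro (h | h)
            · exact hyu h.symm
            · exact hKn h
      by_cases hwU : w ∈ U
      · -- use a vertex not adjacent to `u`
        have hwK' : insert w K ∈ Δ :=
          hF.down _ hw' _ (Finset.insert_subset_insert _ (Finset.subset_insert _ _))
        have hwu : u ≠ w := fun h => hw (h ▸ Finset.mem_insert_self _ _)
        obtain ⟨y, hy, hyu⟩ := exists_nonadj hF (G := insert w K) (a := u) (by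
          rw [Finset.mem_insert]
          rintro (h | h)
          · exact hwu h
          · exact huK' h) (by rw [Finset.insert_comm]; exact hw')
        have hyU : y ∉ U := fun h => hyu (pair_mem hF hU.face huU h)
        have hyK : y ∉ K := fun h => hyu (pair_mem hF huK (Finset.mem_insert_self _ _)
          (Finset.mem_insert_of_mem h))
        refine hfin y hyU hyK (hF.down _ hy _ (Finset.insert_subset_insert _
          (Finset.subset_insert _ _))) ⟨w, hwU, ?_⟩
        rw [Finset.insert_comm]; exact hy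
      · refine hfin w hwU hwK (hF.down _ hw' _ (Finset.insert_subset_insert _
          (Finset.subset_insert _ _))) ⟨u, huU, ?_⟩
        rw [Finset.insert_comm]; exact hw'
    · rw [mem_con_of_notMem hu, mem_D0] at hFc
      obtain ⟨w, hw, hw'⟩ := hΔ.pure _ hFc.1 hlt
      by_cases hwU : w ∈ U
      · refine ⟨u0, hu, ?_⟩
        rw [insert_mem_con hu hu0, mem_D1]
        exact ⟨hFc, w, hwU, hw'⟩
      · refine ⟨w, hw, ?_⟩
        rw [mem_con_of_notMem, mem_D0]
        · refine ⟨hw', ?_⟩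
          rw [Finset.disjoint_insert_left]
          exact ⟨hwU, hFc.2⟩
        · rw [Finset.mem_insert]
          rintro (h | h)
          · exact hwU (h ▸ hu0)
          · exact hu h

/-- Vertices of the contraction. -/
theorem vert_con {Δ : Finset (Finset (Fin n))} {d : ℕ} (hΔ : FlagEulerian Δ d)
    {U : Finset (Fin n)} {u0 : Fin n} (hU : CS Δ U) (hu0 : u0 ∈ U) {x : Fin n}
    (hx : ({x} : Finset (Fin n)) ∈ con Δ U u0) :
    ({x} : Finset (Fin n)) ∈ Δ ∧ (x ∈ U → x = u0) := by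
  by_cases h : x = u0
  · subst h
    exact ⟨vert_of_face hΔ hU.face hu0, fun _ => rfl⟩
  · rw [mem_con_of_notMem (by rw [Finset.mem_singleton]; exact fun h' => h h'.symm),
      mem_D0] at hx
    exact ⟨hx.1, fun hxU => absurd hxU
      (Finset.disjoint_left.mp hx.2 (Finset.mem_singleton_self x))⟩

theorem nonE_con {Δ : Finset (Finset (Fin n))} {d : ℕ} (hΔ : FlagEulerian Δ d)
    {U : Finset (Fin n)} {u0 : Fin n} (hU : CS Δ U) (hu0 : u0 ∈ U) {x y : Fin n}
    (hxy : nonE (con Δ U u0) x y) : nonE Δ x y := by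
  obtain ⟨h1, h2, h3⟩ := hxy
  obtain ⟨vx, ux⟩ := vert_con hΔ hU hu0 h1
  obtain ⟨vy, uy⟩ := vert_con hΔ hU hu0 h2
  refine ⟨vx, vy, fun hmem => h3 ?_⟩
  have hxy : x ≠ y := by
    rintro rfl
    exact h3 (by simpa using h1)
  have key : ∀ p q : Fin n, p ≠ q → p = u0 → ({q} : Finset (Fin n)) ∈ Δ →
      (q ∈ U → q = u0) → ({p, q} : Finset (Fin n)) ∈ Δ → ({p, q} : Finset (Fin n)) ∈ con Δ U u0 := by
    rintro p q hpq rfl vq uq hpq'
    rw [insert_mem_con (by rw [Finset.mem_singleton]; exact hpq) hu0, mem_D1]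
    refine ⟨⟨vq, ?_⟩, p, hu0, hpq'⟩
    rw [Finset.disjoint_singleton_left]
    exact fun hq => hpq (uq hq).symm
  by_cases hx : x = u0
  · exact key x y hxy hx vy uy hmem
  · by_cases hy : y = u0
    · rw [Finset.pair_comm]
      exact key y x hxy.symm hy vx ux (by rw [Finset.pair_comm]; exact hmem)
    · rw [mem_con_of_notMem, mem_D0]
      · refine ⟨hmem, ?_⟩
        rw [Finset.disjoint_insert_left, Finset.disjoint_singleton_left]
        exact ⟨fun h => hx (ux h), fun h => hy (uy h)⟩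
      · simp only [Finset.mem_insert, Finset.mem_singleton]
        rintro (h | h)
        · exact hx h.symm
        · exact hy h.symm

theorem triFree_con {Δ : Finset (Finset (Fin n))} {d : ℕ} (hΔ : FlagEulerian Δ d)
    {U : Finset (Fin n)} {u0 : Fin n} (hU : CS Δ U) (hu0 : u0 ∈ U) (htri : TriFree Δ) :
    TriFree (con Δ U u0) := by
  intro x y z hxy hyz hxz
  exact htri x y z (nonE_con hΔ hU hu0 hxy) (nonE_con hΔ hU hu0 hyz) (nonE_con hΔ hU hu0 hxz)

/-- The number of vertices. -/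
def nv (Δ : Finset (Finset (Fin n))) : ℕ :=
  (Finset.univ.filter (fun x : Fin n => ({x} : Finset (Fin n)) ∈ Δ)).card

theorem nv_con {Δ : Finset (Finset (Fin n))} {d : ℕ} (hΔ : FlagEulerian Δ d)
    {U : Finset (Fin n)} {u0 u1 : Fin n} (hU : CS Δ U) (hu0 : u0 ∈ U) (hu1 : u1 ∈ U)
    (hne : u1 ≠ u0) : nv (con Δ U u0) < nv Δ := by
  unfold nv
  apply Finset.card_lt_card
  rw [Finset.ssubset_iff_of_subset]
  · refine ⟨u1, ?_, ?_⟩
    · rw [Finset.mem_filter]
      exact ⟨Finset.mem_univ _, vert_of_face hΔ hU.face hu1⟩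
    · rw [Finset.mem_filter]
      rintro ⟨_, h⟩
      exact hne ((vert_con hΔ hU hu0 h).2 hu1)
  · intro x hx
    rw [Finset.mem_filter] at hx ⊢
    exact ⟨hx.1, (vert_con hΔ hU hu0 hx.2).1⟩

/-- The number of the contraction is the sum over the faces disjoint from `U`, and the sum over
`D1` vanishes. -/
theorem sF_con {Δ : Finset (Finset (Fin n))} {d : ℕ} (hΔ : FE Δ d) (hd : Even d)
    {U : Finset (Fin n)} {u0 : Fin n} (hU : CS Δ U) (hu0 : u0 ∈ U) :
    sF (con Δ U u0) ∅ = ∑ G ∈ D0 Δ U, (-1 / 2 : ℚ) ^ G.card ∧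
      ∑ G ∈ D1 Δ U, (-1 / 2 : ℚ) ^ G.card = 0 := by
  have hF := hΔ.toFlagEulerian
  have hcon := fe_con hΔ hU hu0
  have hu0c : insert u0 ∅ ∈ con Δ U u0 := by
    rw [insert_mem_con (Finset.notMem_empty _) hu0, mem_D1]
    refine ⟨⟨hΔ.ne, Finset.disjoint_empty_left _⟩, u0, hu0, ?_⟩
    exact vert_of_face hF hU.face hu0
  have h0 : sF (con Δ U u0) (insert u0 ∅) = 0 := by
    apply sF_eq_zero hcon.toFlagEulerian hu0c
    rw [Finset.card_insert_of_notMem (Finset.notMem_empty _), Finset.card_empty]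
    exact hd.add_one
  have h1 := con_sum_mem (Δ := Δ) hu0 (Finset.notMem_empty u0) (fun m => (-1 / 2 : ℚ) ^ m)
  have h2 := con_sum (Δ := Δ) hu0 (Finset.notMem_empty u0) (fun m => (-1 / 2 : ℚ) ^ m)
  have e0 : (D0 Δ U).filter (fun G => ∅ ⊆ G) = D0 Δ U :=
    Finset.filter_true_of_mem (fun G _ => Finset.empty_subset G)
  have e1 : (D1 Δ U).filter (fun G => ∅ ⊆ G) = D1 Δ U :=
    Finset.filter_true_of_mem (fun G _ => Finset.empty_subset G)
  rw [e1] at h1 h2
  rw [e0] at h2
  have h3 : ∑ G ∈ D1 Δ U, (-1 / 2 : ℚ) ^ (G.card + 1)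
      = (-1 / 2 : ℚ) * ∑ G ∈ D1 Δ U, (-1 / 2 : ℚ) ^ G.card := by
    rw [Finset.mul_sum]
    refine Finset.sum_congr rfl (fun G _ => ?_)
    rw [pow_succ]; ring
  have h4 : ∑ G ∈ D1 Δ U, (-1 / 2 : ℚ) ^ (G.card + 1) = 0 := by
    rw [← h1]; exact h0
  constructor
  · unfold sF
    rw [h2, h4, add_zero]
  · rw [h3] at h4
    linarith

/-- The common non-neighbours. -/
def cn (Δ : Finset (Finset (Fin n))) (U : Finset (Fin n)) : Finset (Fin n) :=
  Finset.univ.filter (fun x => ({x} : Finset (Fin n)) ∈ Δ ∧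
    ∀ u ∈ U, ({x, u} : Finset (Fin n)) ∉ Δ)

theorem mem_cn {Δ : Finset (Finset (Fin n))} {U : Finset (Fin n)} {x : Fin n} :
    x ∈ cn Δ U ↔ ({x} : Finset (Fin n)) ∈ Δ ∧ ∀ u ∈ U, ({x, u} : Finset (Fin n)) ∉ Δ := by
  unfold cn
  rw [Finset.mem_filter]
  simp

/-- The common non-neighbours of a contractible simplex form a contractible simplex. -/
theorem cs_cn {Δ : Finset (Finset (Fin n))} {d : ℕ} (hΔ : FE Δ d) (htri : TriFree Δ)
    {U : Finset (Fin n)} {u0 : Fin n} (hU : CS Δ U) (hu0 : u0 ∈ U) : CS Δ (cn Δ U) := by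
  classical
  have hF := hΔ.toFlagEulerian
  have hcon := fe_con hΔ hU hu0
  have hu0v : ({u0} : Finset (Fin n)) ∈ Δ := vert_of_face hF hU.face hu0
  have hCface : cn Δ U ∈ Δ := by
    apply face_of_indep hF
    · intro x hx
      exact (mem_cn.mp hx).1
    · intro x hx y hy hxy
      rw [mem_cn] at hx hy
      exact htri x y u0 hxy ⟨hy.1, hu0v, hy.2 u0 hu0⟩ ⟨hx.1, hu0v, hx.2 u0 hu0⟩
  refine ⟨hCface, ?_⟩
  intro F hFΔ hFC
  set F' : Finset (Fin n) := F \ cn Δ U with hF'
  have hF'Δ : F' ∈ Δ := hF.down _ hFΔ _ Finset.sdiff_subset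
  have hFU : ∀ x ∈ F, x ∉ U := by
    intro x hx hxU
    obtain ⟨c, hc, hxc⟩ := hFC x hx
    rw [mem_cn] at hc
    exact hc.2 x hxU (by rw [Finset.pair_comm]; exact hxc)
  have hF'U : Disjoint F' U := by
    rw [Finset.disjoint_left]
    intro x hx
    exact hFU x (Finset.sdiff_subset hx)
  have hu0F' : u0 ∉ F' := fun h => Finset.disjoint_left.mp hF'U h hu0
  have hext : ∃ u ∈ U, insert u F' ∈ Δ := by
    apply hU.ext _ hF'Δ
    intro x hx
    by_contra hcon'
    push Not at hcon'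
    rw [hF', Finset.mem_sdiff] at hx
    exact hx.2 (mem_cn.mpr ⟨vert_of_face hF hFΔ hx.1, hcon'⟩)
  have hins : insert u0 F' ∈ con Δ U u0 := by
    rw [insert_mem_con hu0F' hu0, mem_D1]
    exact ⟨⟨hF'Δ, hF'U⟩, hext⟩
  obtain ⟨b, hb, hub⟩ := exists_nonadj hcon.toFlagEulerian hu0F' hins
  have hbv := vert_of_face hcon.toFlagEulerian hb (Finset.mem_insert_self _ _)
  have hbu : u0 ≠ b := by
    rintro rfl
    exact hub (by simpa using hbv)
  have hbv' := vert_con hF hU hu0 hbv
  have hbU : b ∉ U := fun h => hbu (hbv'.2 h).symm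
  have hbC : b ∈ cn Δ U := by
    rw [mem_cn]
    refine ⟨hbv'.1, ?_⟩
    intro u hu hbu'
    apply hub
    rw [insert_mem_con (by rw [Finset.mem_singleton]; exact hbu) hu0, mem_D1]
    refine ⟨⟨hbv'.1, by rw [Finset.disjoint_singleton_left]; exact hbU⟩, u, hu, ?_⟩
    rw [Finset.pair_comm] at hbu'
    exact hbu'
  have hbF' : insert b F' ∈ Δ := by
    rw [mem_con_of_notMem, mem_D0] at hb
    · exact hb.1
    · rw [Finset.mem_insert]
      rintro (h | h)
      · exact hbu h
      · exact hu0F' h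
  refine ⟨b, hbC, ?_⟩
  apply hF.flag
  intro p hp q hq
  have key : ∀ q ∈ F, ({b, q} : Finset (Fin n)) ∈ Δ := by
    intro q hq
    by_cases hqC : q ∈ cn Δ U
    · exact pair_mem hF hCface hbC hqC
    · exact pair_mem hF hbF' (Finset.mem_insert_self _ _)
        (Finset.mem_insert_of_mem (Finset.mem_sdiff.mpr ⟨hq, hqC⟩))
  rw [Finset.mem_insert] at hp hq
  rcases hp with rfl | hp
  · rcases hq with rfl | hq
    · simpa using hbv'.1
    · exact key q hq
  · rcases hq with rfl | hq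
    · rw [Finset.pair_comm]; exact key p hp
    · exact pair_mem hF hFΔ hp hq

/-- The splitting formula. -/
theorem sF_split {Δ : Finset (Finset (Fin n))} {d : ℕ} (hΔ : FE Δ d) (hd : Even d)
    (htri : TriFree Δ) {U : Finset (Fin n)} {u0 c0 : Fin n} (hU : CS Δ U) (hu0 : u0 ∈ U)
    (hc0 : c0 ∈ cn Δ U) :
    sF Δ ∅ = sF (con Δ U u0) ∅ + sF (con Δ (cn Δ U) c0) ∅ := by
  classical
  have hF := hΔ.toFlagEulerian
  have hC := cs_cn hΔ htri hU hu0
  obtain ⟨h1, h2⟩ := sF_con hΔ hd hU hu0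
  obtain ⟨h3, _⟩ := sF_con hΔ hd hC hc0
  rw [h1, h3]
  have e0 : sF Δ ∅ = ∑ G ∈ Δ, (-1 / 2 : ℚ) ^ G.card := by
    unfold sF
    rw [Finset.filter_true_of_mem (fun G _ => Finset.empty_subset G)]
  rw [e0, ← Finset.sum_filter_add_sum_filter_not Δ (fun G => Disjoint G U)]
  congr 1
  -- the faces disjoint from `C` split according to whether they meet `U`
  have e1 : D0 Δ (cn Δ U) = Δ.filter (fun G => ¬ Disjoint G U) ∪ D1 Δ U := by
    ext G
    rw [Finset.mem_union, mem_D0, Finset.mem_filter, mem_D1]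
    constructor
    · rintro ⟨hG, hGC⟩
      by_cases hGU : Disjoint G U
      · right
        refine ⟨⟨hG, hGU⟩, hU.ext _ hG ?_⟩
        intro x hx
        by_contra hcon'
        push Not at hcon'
        exact Finset.disjoint_left.mp hGC hx (mem_cn.mpr ⟨vert_of_face hF hG hx, hcon'⟩)
      · exact Or.inl ⟨hG, hGU⟩
    · rintro (⟨hG, hGU⟩ | ⟨⟨hG, hGU⟩, u, hu, huG⟩)
      · refine ⟨hG, ?_⟩
        rw [Finset.disjoint_left]
        intro c hc hcC
        apply hGU
        rw [Finset.disjoint_left]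
        intro u huG huU
        exact (mem_cn.mp hcC).2 u huU (pair_mem hF hG hc huG)
      · refine ⟨hG, ?_⟩
        rw [Finset.disjoint_left]
        intro c hc hcC
        exact (mem_cn.mp hcC).2 u hu (pair_mem hF huG (Finset.mem_insert_of_mem hc)
          (Finset.mem_insert_self _ _))
  rw [e1, Finset.sum_union, h2, add_zero]
  rw [Finset.disjoint_left]
  intro G hG hG'
  rw [Finset.mem_filter] at hG
  exact hG.2 (mem_D1.mp hG').1.2

end Pool.Agent.H41.TF
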