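import Pool.Agent.H41.TF.Factor

/-!
# The finitely generated group `H₀` and the dichotomy for its overgroups
-/

set_option autoImplicit false

namespace Pool.Agent.H41.TF

/-! ### Parity of the slope exponent -/

open Classical in
/-- Parity of the logarithm of the slope at the left end of `D` (for maps preserving it). -/
noncomputable def parAt (g : UI ≃o UI) (D : Word) : ZMod 2 :=
  if h : ∃ p : ℕ × ℕ, Maps g (D ++ List.replicate p.1 false) (D ++ List.replicate p.2 false) then
    ((h.choose.1 : ZMod 2) + (h.choose.2 : ZMod 2)) else 0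

theorem maps_rep_append {g : UI ≃o UI} {D E : Word} {a b : ℕ}
    (h : Maps g (D ++ List.replicate a false) (E ++ List.replicate b false)) (c : ℕ) :
    Maps g (D ++ List.replicate (a + c) false) (E ++ List.replicate (b + c) false) := by
  have := h.append (List.replicate c false)
  rwa [List.append_assoc, List.append_assoc, List.replicate_append_replicate,
    List.replicate_append_replicate] at this

theorem par_unique {g : UI ≃o UI} {D : Word} {a a' b b' : ℕ}
    (h : Maps g (D ++ List.replicate a false) (D ++ List.replicate a' false))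
    (h' : Maps g (D ++ List.replicate b false) (D ++ List.replicate b' false)) :
    (a : ZMod 2) + a' = b + b' := by
  have h1 := maps_rep_append h b
  have h2 := maps_rep_append h' a
  rw [add_comm b a] at h2
  have h3 := h1.unique h2
  have h4 := congrArg List.length h3
  simp only [List.length_append, List.length_replicate] at h4
  have h5 : a' + b = b' + a := by omega
  have h6 : ((a' + b : ℕ) : ZMod 2) = ((b' + a : ℕ) : ZMod 2) := by rw [h5]
  push_cast at h6
  have h7 : ∀ x : ZMod 2, x + x = 0 := by decide
  linear_combination h6 + h7 a - h7 b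

theorem parAt_eq {g : UI ≃o UI} {D : Word} {a b : ℕ}
    (h : Maps g (D ++ List.replicate a false) (D ++ List.replicate b false)) :
    parAt g D = (a : ZMod 2) + b := by
  have h1 : ∃ p : ℕ × ℕ, Maps g (D ++ List.replicate p.1 false)
      (D ++ List.replicate p.2 false) := ⟨(a, b), h⟩
  rw [parAt, dif_pos h1]
  exact par_unique h1.choose_spec h

theorem parAt_of_fix {g : UI ≃o UI} {D : Word} (h : Maps g D D) : parAt g D = 0 := by
  have := parAt_eq (g := g) (D := D) (a := 0) (b := 0) (by simpa using h)
  rw [this]; simp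

/-- Germs at the left end. -/
theorem germD {g : UI ≃o UI} (hg : Comb g) {D : Word} (h : g (pt D 0) = pt D 0) :
    ∃ a b, Maps g (D ++ List.replicate a false) (D ++ List.replicate b false) := by
  obtain ⟨M, hM⟩ := hg
  obtain ⟨v, hv⟩ := hM (D ++ List.replicate M false) (by simp)
  have h1 := hv 0
  rw [pt_append, pt_replicate_false, h] at h1
  rcases same_left h1 with ⟨j, rfl⟩ | ⟨j, hj⟩
  · exact ⟨M, j, hv⟩
  · refine ⟨M + j, 0, ?_⟩
    have := hv.append (List.replicate j false)
    rw [List.append_assoc, List.replicate_append_replicate, ← hj] at this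
    simpa using this

theorem parAt_mul {g h : UI ≃o UI} (hg : Comb g) (hh : Comb h) {D : Word}
    (h1 : g (pt D 0) = pt D 0) (h2 : h (pt D 0) = pt D 0) :
    parAt (g * h) D = parAt g D + parAt h D := by
  obtain ⟨a, a', ha⟩ := germD hg h1
  obtain ⟨b, b', hb⟩ := germD hh h2
  rw [parAt_eq ha, parAt_eq hb]
  have h3 := maps_rep_append hb a
  have h4 := maps_rep_append ha b'
  rw [add_comm b' a] at h3
  rw [parAt_eq (h3.mul h4)]
  push_cast
  ring

theorem parAt_one (D : Word) : parAt 1 D = 0 := parAt_of_fix (Maps.one D)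

theorem parAt_inv {g : UI ≃o UI} (hg : Comb g) {D : Word} (h1 : g (pt D 0) = pt D 0) :
    parAt g⁻¹ D = parAt g D := by
  obtain ⟨a, b, h⟩ := germD hg h1
  rw [parAt_eq h, parAt_eq h.inv, add_comm]

theorem parAt_conj {g t : UI ≃o UI} (hg : Comb g) {D E : Word} (ht : Maps t D E)
    (h1 : g (pt D 0) = pt D 0) : parAt (t * g * t⁻¹) E = parAt g D := by
  obtain ⟨a, b, h⟩ := germD hg h1
  rw [parAt_eq h]
  exact parAt_eq (((ht.append _).inv.mul h).mul (ht.append _))

/-- The parity homomorphism at the left end of the interval. -/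
noncomputable def parHom : ThompsonF →* Multiplicative (ZMod 2) where
  toFun g := Multiplicative.ofAdd (parAt g.1 [])
  map_one' := by
    change Multiplicative.ofAdd (parAt 1 []) = 1
    rw [parAt_one]; rfl
  map_mul' := fun x y => by
    rw [← ofAdd_add]
    congr 1
    exact parAt_mul (mem_ThompsonF.1 x.2) (mem_ThompsonF.1 y.2) (map_zero' _) (map_zero' _)

/-- The elements of `F` whose slope at `0` is an even power of two. -/
def A0 : Subgroup (UI ≃o UI) where
  carrier := {g | Comb g ∧ parAt g [] = 0}
  one_mem' := ⟨Comb.one, parAt_one _⟩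
  mul_mem' := fun {a b} ha hb => ⟨ha.1.mul hb.1, by
    rw [parAt_mul ha.1 hb.1 (map_zero' _) (map_zero' _), ha.2, hb.2, add_zero]⟩
  inv_mem' := fun {a} ha => ⟨ha.1.inv, by rw [parAt_inv ha.1 (map_zero' _), ha.2]⟩

theorem A0_eq : A0 = parHom.ker.map ThompsonF.subtype := by
  ext g
  rw [Subgroup.mem_map]
  constructor
  · intro h
    refine ⟨⟨g, mem_ThompsonF.2 h.1⟩, ?_, rfl⟩
    rw [MonoidHom.mem_ker]
    change Multiplicative.ofAdd (parAt g []) = 1
    rw [h.2]; rfl
  · rintro ⟨x, hx, rfl⟩
    rw [MonoidHom.mem_ker] at hx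
    exact ⟨mem_ThompsonF.1 x.2, hx⟩

theorem fg_map {G H : Type} [Group G] [Group H] {P : Subgroup G} (h : P.FG) (e : G →* H) :
    (P.map e).FG := by
  classical
  obtain ⟨S, rfl⟩ := h
  exact ⟨S.image e, by rw [Finset.coe_image, MonoidHom.map_closure]⟩

theorem A0_fg : A0.FG := by
  rw [A0_eq]
  have h1 : Group.FG ThompsonF := (Group.fg_iff_subgroup_fg ThompsonF).2 ThompsonF_fg
  have : Finite (Multiplicative (ZMod 2)) := inferInstanceAs (Finite (ZMod 2))
  have h2 : parHom.ker.FiniteIndex := inferInstance
  have h3 : Group.FG parHom.ker := Subgroup.fg_of_index_ne_zero parHom.ker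
  exact fg_map ((Group.fg_iff_subgroup_fg _).1 h3) _

/-! ### Transitivity on leaves -/

theorem st_r {w : Word} (h : st w = .r) : w = [] := by
  induction w using List.reverseRecOn with
  | nil => rfl
  | append_singleton w b _ =>
    exfalso
    rw [st_append] at h
    revert h
    cases st w <;> cases b <;> simp [St.next]

theorem st_la {w : Word} (h : st w = .la) : ∃ m, w = List.replicate (m + 1) false := by
  induction w using List.reverseRecOn with
  | nil => exact absurd h (by decide)
  | append_singleton w b ih =>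
    rw [st_append] at h
    cases hs : st w <;> rw [hs] at h <;> cases b <;> simp [St.next] at h
    · rw [st_r hs]; exact ⟨0, rfl⟩
    · obtain ⟨m, rfl⟩ := ih hs
      exact ⟨m + 1, by rw [List.replicate_succ' (n := m + 1)]⟩

theorem st_rh {w : Word} (h : st w = .rh) : ∃ m, w = List.replicate (m + 1) true := by
  induction w using List.reverseRecOn with
  | nil => exact absurd h (by decide)
  | append_singleton w b ih =>
    rw [st_append] at h
    cases hs : st w <;> rw [hs] at h <;> cases b <;> simp [St.next] at h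
    · rw [st_r hs]; exact ⟨0, rfl⟩
    · obtain ⟨m, rfl⟩ := ih hs
      exact ⟨m + 1, by rw [List.replicate_succ' (n := m + 1)]⟩

theorem st_q {w : Word} (h : st w = .q) : ∃ v, w = v ++ [false] ∧ st v = .l := by
  rcases List.eq_nil_or_concat w with rfl | ⟨v, b, rfl⟩
  · exact absurd h (by decide)
  · rw [List.concat_eq_append, st_append] at h
    cases hs : st v <;> rw [hs] at h <;> cases b <;> simp [St.next] at h
    exact ⟨v, List.concat_eq_append, hs⟩

theorem st_p {w : Word} (h : st w = .p) :
    (∃ v, w = v ++ [true] ∧ st v = .l) ∨ ∃ m, w = List.replicate (m + 1) true ++ [false] := by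
  rcases List.eq_nil_or_concat w with rfl | ⟨v, b, rfl⟩
  · exact absurd h (by decide)
  · rw [List.concat_eq_append, st_append] at h
    cases hs : st v <;> rw [hs] at h <;> cases b <;> simp [St.next] at h
    · obtain ⟨m, rfl⟩ := st_rh hs
      exact Or.inr ⟨m, List.concat_eq_append⟩
    · exact Or.inl ⟨v, List.concat_eq_append, hs⟩

theorem to_base_l : ∀ (n : ℕ) (w : Word), w.length = n → st w = .l →
    ∃ j δ, Maps (ff ^ j) w (wl δ) := by
  intro n
  induction n using Nat.strong_induction_on with
  | _ n ih =>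
    intro w hn h
    rcases List.eq_nil_or_concat w with rfl | ⟨v, b, rfl⟩
    · exact absurd h (by decide)
    · rw [List.concat_eq_append] at hn h ⊢
      rw [List.length_append, List.length_singleton] at hn
      rw [st_append] at h
      cases hs : st v <;> rw [hs] at h <;> cases b <;> simp [St.next] at h
      · obtain ⟨m, rfl⟩ := st_la hs
        cases m with
        | zero => exact ⟨0, [], by rw [pow_zero]; exact Maps.one _⟩
        | succ m =>
          refine ⟨m + 1, [.a], ?_⟩
          have h1 := (f_pow_false m 0).append [true]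
          have e : 0 + 2 + m = m + 1 + 1 := by ring
          rw [e] at h1
          rw [pow_succ']
          exact h1.mul f_001
      · obtain ⟨u, rfl, hu⟩ := st_q hs
        rw [List.length_append, List.length_singleton] at hn
        obtain ⟨j, δ, h1⟩ := ih u.length (by omega) u rfl hu
        refine ⟨j, δ ++ [.a], ?_⟩
        rw [wl_append]
        have := h1.append [false, false]
        simpa [Dg.code] using this
      · obtain ⟨u, rfl, hu⟩ := st_q hs
        rw [List.length_append, List.length_singleton] at hn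
        obtain ⟨j, δ, h1⟩ := ih u.length (by omega) u rfl hu
        refine ⟨j, δ ++ [.b], ?_⟩
        rw [wl_append]
        have := h1.append [false, true]
        simpa [Dg.code] using this
      · rcases st_p hs with ⟨u, rfl, hu⟩ | ⟨m, rfl⟩
        · rw [List.length_append, List.length_singleton] at hn
          obtain ⟨j, δ, h1⟩ := ih u.length (by omega) u rfl hu
          refine ⟨j, δ ++ [.d], ?_⟩
          rw [wl_append]
          have := h1.append [true, true]
          simpa [Dg.code] using this
        · refine ⟨m + 1, [.d], ?_⟩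
          have h1 := (f_pow_true m 0).append [false, true]
          have e : 0 + 1 + m = m + 1 := by ring
          rw [e] at h1
          rw [pow_succ']
          have h2 := h1.mul f_101
          simpa [wl, ob, Dg.code] using h2

theorem to_base_g {D : Word} (h : st D = .g) : ∃ j δ, Maps (ff ^ j) D (wd δ) := by
  rcases List.eq_nil_or_concat D with rfl | ⟨v, b, rfl⟩
  · exact absurd h (by decide)
  · rw [List.concat_eq_append] at h ⊢
    rw [st_append] at h
    cases hs : st v <;> rw [hs] at h <;> cases b <;> simp [St.next] at h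
    rcases st_p hs with ⟨u, rfl, hu⟩ | ⟨m, rfl⟩
    · obtain ⟨j, δ, h1⟩ := to_base_l _ u rfl hu
      refine ⟨j, δ, ?_⟩
      have := h1.append [true, false]
      simpa [wd] using this
    · refine ⟨m + 1, [], ?_⟩
      have h1 := (f_pow_true m 0).append [false, false]
      have e : 0 + 1 + m = m + 1 := by ring
      rw [e] at h1
      rw [pow_succ']
      have h2 := h1.mul f_100
      simpa [wd, wl, ob] using h2

theorem y_snoc_aa (δ : List Dg) (u : Word) :
    Maps (loc (wl δ) yy) (wl δ ++ ([false, false, true, false] ++ u))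
      (wl δ ++ ([true, false] ++ u)) := (y_ac.append u).locAt _

theorem b_lemma (δ : List Dg) : ∃ t ∈ TT, Maps t (wl (δ ++ [.b])) (wl []) := by
  induction δ using List.reverseRecOn with
  | nil => exact ⟨ff⁻¹, TT.inv_mem f_mem, f_01.inv⟩
  | append_singleton δ x ih =>
    obtain ⟨t, ht, h⟩ := ih
    cases x
    · refine ⟨t * loc (wl δ) yy, TT.mul_mem ht (y_mem δ), ?_⟩
      have h1 : Maps (loc (wl δ) yy) (wl (δ ++ [.a] ++ [.b])) (wl (δ ++ [.b])) := by
        rw [List.append_assoc, wl_append, wl_append]
        exact y_ab.locAt (wl δ)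
      exact h1.mul h
    · refine ⟨ff⁻¹ * t, TT.mul_mem (TT.inv_mem f_mem) ht, ?_⟩
      have h1 : Maps t (wl (δ ++ [.b] ++ [.b])) (wl [] ++ code [.b]) := by
        rw [wl_append (δ ++ [Dg.b]) [Dg.b]]
        exact h.append _
      exact h1.mul f_01.inv
    · refine ⟨t * (loc (wl δ) yy)⁻¹, TT.mul_mem ht (TT.inv_mem (y_mem δ)), ?_⟩
      have h1 : Maps (loc (wl δ) yy)⁻¹ (wl (δ ++ [.d] ++ [.b])) (wl (δ ++ [.b])) := by
        rw [List.append_assoc, wl_append, wl_append]
        exact (y_b.locAt (wl δ)).inv
      exact h1.mul h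

theorem to_wd_nil (δ : List Dg) : ∃ t ∈ TT, Maps t (wd δ) (wd []) := by
  induction δ using List.reverseRecOn with
  | nil => exact ⟨1, TT.one_mem, Maps.one _⟩
  | append_singleton δ x ih =>
    obtain ⟨t, ht, h⟩ := ih
    cases x
    · refine ⟨t * loc (wl δ) yy, TT.mul_mem ht (y_mem δ), ?_⟩
      have h1 : Maps (loc (wl δ) yy) (wd (δ ++ [.a])) (wd δ) := by
        rw [wd_append, wd]
        exact y_ac.locAt (wl δ)
      exact h1.mul h
    · obtain ⟨s, hs, h1⟩ := b_lemma δ
      exact ⟨s, hs, h1.append _⟩
    · refine ⟨t * (loc (wl δ) yy)⁻¹, TT.mul_mem ht (TT.inv_mem (y_mem δ)), ?_⟩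
      have h1 : Maps (loc (wl δ) yy)⁻¹ (wd (δ ++ [.d])) (wd δ) := by
        rw [wd_append, wd]
        exact (y_c.locAt (wl δ)).inv
      exact h1.mul h

theorem leaf_transitive {D : Word} (h : st D = .g) : ∃ t ∈ TT, Maps t D (wd []) := by
  obtain ⟨j, δ, h1⟩ := to_base_g h
  obtain ⟨t, ht, h2⟩ := to_wd_nil δ
  exact ⟨t * ff ^ j, TT.mul_mem ht (TT.pow_mem f_mem j), h1.mul h2⟩

/-! ### The group `H₀` -/

/-- The finitely generated group `H₀`. -/
noncomputable def H0 : Subgroup (UI ≃o UI) := TT ⊔ A0.map (locHom (wd []))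

theorem H0_fg : H0.FG := by
  exact Subgroup.FG.sup TT_fg (fg_map A0_fg _)

theorem TT_le_H0 : TT ≤ H0 := le_sup_left

theorem loc_leaf_mem {D : Word} (hD : st D = .g) {m : UI ≃o UI} (hm : m ∈ A0) :
    loc D m ∈ H0 := by
  obtain ⟨t, ht, h⟩ := leaf_transitive hD
  exact loc_mem_of_maps (TT_le_H0 ht) h
    ((le_sup_right : _ ≤ H0) (Subgroup.mem_map.2 ⟨m, hm, rfl⟩))

theorem loc_mem_A0 {u : Word} {m : UI ≃o UI} (hm : Comb m) :
    loc (u ++ [false, true]) m ∈ A0 := by
  refine ⟨hm.locAt _, ?_⟩
  have key : Inc (u ++ [false, true]) (List.replicate (u ++ [false, true]).length false) := by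
    have hne : u ++ [false, true] ≠ List.replicate (u ++ [false, true]).length false := by
      intro h
      have h1 : true ∈ u ++ [false, true] := by simp
      rw [h] at h1
      exact absurd (List.eq_of_mem_replicate h1) (by decide)
    constructor
    · intro h; exact hne (h.eq_of_length (by simp))
    · intro h; exact hne (h.eq_of_length (by simp)).symm
  have := parAt_eq (g := loc (u ++ [false, true]) m) (D := [])
    (a := (u ++ [false, true]).length) (b := (u ++ [false, true]).length)
    (Maps.loc_inc key m)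
  rw [this]
  have h7 : ∀ x : ZMod 2, x + x = 0 := by decide
  exact h7 _

/-- The element excluded. -/
noncomputable def bb : UI ≃o UI := loc ob rot

theorem not_leafPerm_bb : ¬ LeafPerm bb := by
  intro h
  obtain ⟨E, hE, h1, h2⟩ := h (wd []) (st_wd [])
  have h3 : Maps bb (wd []) [false, true, true, true, false] := (rot_1.append [false]).locAt ob
  have h4 : [false, true, true, true, false] = E :=
    word_ext (by rw [← h3 0, h1]) (by rw [← h3 1, h2])
  rw [← h4] at hE
  exact absurd hE (by decide)

theorem inPres_of_mem {K : Subgroup (UI ≃o UI)} (h0 : H0 ≤ K)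
    (hb : bb ∉ K) {k : UI ≃o UI} (hk : k ∈ K) : InPres k := by
  intro w v h hw
  by_contra hv
  obtain ⟨u, hu⟩ := exists_l hv
  obtain ⟨D, r, rfl, hD⟩ := exists_leaf hw
  have hz : st (v ++ u) = .l := by rw [st_append, hu]
  have h1 : loc (D ++ (r ++ u ++ [false, true])) rot ∈ K := by
    rw [loc_append]
    exact h0 (loc_leaf_mem hD (loc_mem_A0 comb_rot))
  have h2 : Maps k (D ++ (r ++ u ++ [false, true])) ((v ++ u) ++ [false, true]) := by
    have := h.append (u ++ [false, true])
    simpa using this
  have h3 : loc ((v ++ u) ++ [false, true]) rot ∈ K := by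
    rw [← h2.loc_conj rot]
    exact K.mul_mem (K.mul_mem hk h1) (K.inv_mem hk)
  obtain ⟨j, δ, h4⟩ := to_base_l _ _ rfl hz
  obtain ⟨t, ht, h5⟩ := b_lemma δ
  have h6 : Maps (ff ^ j) ((v ++ u) ++ [false, true]) (wl (δ ++ [.b])) := by
    rw [wl_append]; exact h4.append _
  have h7 := h6.mul h5
  have h8 : t * ff ^ j ∈ K := h0 (TT_le_H0 (TT.mul_mem ht (TT.pow_mem f_mem j)))
  apply hb
  have h9 : loc (wl []) rot = t * ff ^ j * loc ((v ++ u) ++ [false, true]) rot *
    (t * ff ^ j)⁻¹ := (h7.loc_conj rot).symm
  have h10 : bb = loc (wl []) rot := by rw [bb, wl, code_nil, List.append_nil]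
  rw [h10, h9]
  exact K.mul_mem (K.mul_mem h8 h3) (K.inv_mem h8)

theorem good_of_mem_K {K : Subgroup (UI ≃o UI)} (hF : K ≤ ThompsonF) (h0 : H0 ≤ K)
    (hb : bb ∉ K) {k : UI ≃o UI} (hk : k ∈ K) : Good k :=
  good_of_inPres (mem_ThompsonF.1 (hF hk)) (inPres_of_mem h0 hb hk)
    (inPres_of_mem h0 hb (K.inv_mem hk))

end Pool.Agent.H41.TF
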