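import Pool.Agent.H41.TF.Tile

/-!
# Thompson's group `F` is finitely generated
-/

set_option autoImplicit false

namespace Pool.Agent.H41.TF

/-- Binary trees. -/
inductive BT
  | leaf : BT
  | node : BT → BT → BT

namespace BT

/-- The words of the leaves. -/
def lv : BT → List Word
  | leaf => [[]]
  | node a d => a.lv.map (false :: ·) ++ d.lv.map (true :: ·)

/-- Right combs. -/
def comb : ℕ → BT
  | 0 => leaf
  | n + 1 => node leaf (comb n)

/-- Full trees. -/
def full : ℕ → BT
  | 0 => leaf
  | n + 1 => node (full n) (full n)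

theorem length_full (n : ℕ) : ∀ w ∈ (full n).lv, w.length = n := by
  induction n with
  | zero => intro w hw; simp [full, lv] at hw; simp [hw]
  | succ n ih =>
    intro w hw
    rw [full, lv, List.mem_append, List.mem_map, List.mem_map] at hw
    rcases hw with ⟨v, hv, rfl⟩ | ⟨v, hv, rfl⟩ <;> simp [ih v hv]

theorem length_comb (n : ℕ) : (comb n).lv.length = n + 1 := by
  induction n with
  | zero => rfl
  | succ n ih => simp [comb, lv, ih]

theorem cover (τ : BT) : ∀ x : UI, ∃ w ∈ τ.lv, ∃ y, x = pt w y := by
  induction τ with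
  | leaf => intro x; exact ⟨[], by simp [lv], x, rfl⟩
  | node a d iha ihd =>
    intro x
    obtain ⟨b, y, rfl⟩ := exists_half x
    cases b
    · obtain ⟨w, hw, z, rfl⟩ := iha y
      exact ⟨false :: w, by simp [lv, hw], z, rfl⟩
    · obtain ⟨w, hw, z, rfl⟩ := ihd y
      exact ⟨true :: w, by simp [lv, hw], z, rfl⟩

theorem map_node (w : Word) (a d : BT) : (node a d).lv.map (w ++ ·) =
    a.lv.map ((w ++ [false]) ++ ·) ++ d.lv.map ((w ++ [true]) ++ ·) := by
  simp [lv, List.map_map, Function.comp_def]

theorem tiles (τ : BT) : ∀ w : Word, Tiles (pt w 0) (pt w 1) (τ.lv.map (w ++ ·)) := by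
  induction τ with
  | leaf => intro w; simp [lv, Tiles]
  | node a d iha ihd =>
    intro w
    rw [map_node, tiles_append]
    refine ⟨pt (w ++ [false]) 1, ?_, ?_⟩
    · have := iha (w ++ [false])
      rwa [pt_snoc_left] at this
    · have := ihd (w ++ [true])
      rwa [pt_snoc_right, ← pt_snoc_mid] at this

/-- Every tiling that begins like `w` and reaches the right end of `w` begins with a tree. -/
theorem exists_tree : ∀ (n : ℕ) (w : Word) (L : List Word) (y : UI),
    (∀ v ∈ L, v.length ≤ w.length + n) → Tiles (pt w 0) y L → pt w 1 ≤ y →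
    (∀ v ∈ L.head?, ∃ j, v = w ++ List.replicate j false) →
    ∃ (τ : BT) (L' : List Word), L = τ.lv.map (w ++ ·) ++ L' ∧ Tiles (pt w 1) y L' := by
  intro n
  induction n with
  | zero =>
    intro w L y hlen hT hy hhd
    cases L with
    | nil =>
      rw [tiles_nil] at hT
      rw [← hT] at hy
      exact absurd hy (not_le.2 (pt_zero_lt_pt_one w))
    | cons v L =>
      obtain ⟨j, hj⟩ := hhd v rfl
      have h1 := hlen v (by simp)
      rw [hj, List.length_append, List.length_replicate] at h1
      have : j = 0 := by omega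
      subst this
      rw [List.replicate_zero, List.append_nil] at hj
      subst hj
      exact ⟨leaf, L, by simp [lv], hT.2⟩
  | succ n ih =>
    intro w L y hlen hT hy hhd
    cases L with
    | nil =>
      rw [tiles_nil] at hT
      rw [← hT] at hy
      exact absurd hy (not_le.2 (pt_zero_lt_pt_one w))
    | cons v L =>
      obtain ⟨j, hj⟩ := hhd v rfl
      cases j with
      | zero =>
        rw [List.replicate_zero, List.append_nil] at hj
        subst hj
        exact ⟨leaf, L, by simp [lv], hT.2⟩
      | succ j =>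
        rw [replicate_append_false] at hj
        have hT' : Tiles (pt (w ++ [false]) 0) y (v :: L) := by rwa [pt_snoc_left]
        obtain ⟨a, L1, h1, h2⟩ := ih (w ++ [false]) (v :: L) y
          (fun u hu => (hlen u hu).trans (by simp; omega)) hT' ((pt_snoc_lt w).le.trans hy)
          (fun u hu => by
            simp only [List.head?_cons, Option.mem_def, Option.some.injEq] at hu
            exact ⟨j, by rw [← hu]; exact hj⟩)
        have h2' : Tiles (pt (w ++ [true]) 0) y L1 := by rwa [← pt_snoc_mid]
        obtain ⟨d, L2, h3, h4⟩ := ih (w ++ [true]) L1 y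
          (fun u hu => by
            have := hlen u (by rw [h1]; exact List.mem_append_right _ hu)
            refine this.trans (by simp; omega)) h2' (by rwa [pt_snoc_right])
          (fun u hu => by
            cases L1 with
            | nil => simp at hu
            | cons u' L1 =>
              simp only [List.head?_cons, Option.mem_def, Option.some.injEq] at hu
              subst hu
              exact same_left_true h2'.1.symm)
        refine ⟨node a d, L2, ?_, by rwa [pt_snoc_right] at h4⟩
        rw [h1, h3, map_node, List.append_assoc]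

end BT

/-- The generating set. -/
def genF : Set (UI ≃o UI) :=
  {loc [] rot, loc [false] rot, loc [true] rot, loc [false, true] rot}

/-- The subgroup generated by four rotations. -/
def F0 : Subgroup (UI ≃o UI) := Subgroup.closure genF

theorem loc_mem_of_maps {T : Subgroup (UI ≃o UI)} {t : UI ≃o UI} (ht : t ∈ T) {w v : Word}
    (h : Maps t w v) {m : UI ≃o UI} (hm : loc v m ∈ T) : loc w m ∈ T := by
  rw [h.loc_conj' m]
  exact T.mul_mem (T.mul_mem (T.inv_mem ht) hm) ht

theorem loc_rot_mem_F0 : ∀ (n : ℕ) (w : Word), w.length = n → loc w rot ∈ F0 := by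
  have g0 : loc [] rot ∈ F0 := Subgroup.subset_closure (by simp [genF])
  have g1 : loc [false] rot ∈ F0 := Subgroup.subset_closure (by simp [genF])
  have g2 : loc [true] rot ∈ F0 := Subgroup.subset_closure (by simp [genF])
  have g3 : loc [false, true] rot ∈ F0 := Subgroup.subset_closure (by simp [genF])
  have m0 : ∀ {u v : Word}, Maps rot u v → Maps (loc [] rot) u v := by
    intro u v h; rw [loc_nil]; exact h
  intro n
  induction n using Nat.strong_induction_on with
  | _ n ih =>
    intro w hw
    match w, hw with
    | [], _ => exact g0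
    | [false], _ => exact g1
    | [true], _ => exact g2
    | [false, true], _ => exact g3
    | false :: false :: r, hw =>
      exact loc_mem_of_maps g0 (m0 (rot_00.append r)) (ih (r.length + 1) (by
        simp at hw; omega) _ (by simp))
    | false :: true :: false :: r, hw =>
      have h1 : Maps (loc [] rot) (false :: true :: false :: r) (true :: false :: false :: r) :=
        m0 (rot_01.append (false :: r))
      have h2 : Maps (loc [true] rot) (true :: false :: false :: r) (true :: false :: r) :=
        (rot_00.append r).locAt [true]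
      exact loc_mem_of_maps (F0.mul_mem g2 g0) (h1.mul h2) (ih (r.length + 2) (by
        simp at hw; omega) _ (by simp))
    | false :: true :: true :: r, hw =>
      have h1 : Maps (loc [false] rot)⁻¹ (false :: true :: true :: r) (false :: true :: r) :=
        ((rot_1.append r).locAt [false]).inv
      exact loc_mem_of_maps (F0.inv_mem g1) h1 (ih (r.length + 2) (by
        simp at hw; omega) _ (by simp))
    | [true, false], _ =>
      exact loc_mem_of_maps (F0.inv_mem g0) (m0 rot_01).inv g3
    | true :: false :: false :: r, hw =>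
      have h1 : Maps (loc [true] rot) (true :: false :: false :: r) (true :: false :: r) :=
        (rot_00.append r).locAt [true]
      exact loc_mem_of_maps g2 h1 (ih (r.length + 2) (by
        simp at hw; omega) _ (by simp))
    | true :: false :: true :: r, hw =>
      have h1 : Maps (loc [] rot)⁻¹ (true :: false :: true :: r) (false :: true :: true :: r) :=
        (m0 (rot_01.append (true :: r))).inv
      have h2 : Maps (loc [false] rot)⁻¹ (false :: true :: true :: r) (false :: true :: r) :=
        ((rot_1.append r).locAt [false]).inv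
      exact loc_mem_of_maps (F0.mul_mem (F0.inv_mem g1) (F0.inv_mem g0)) (h1.mul h2)
        (ih (r.length + 2) (by simp at hw; omega) _ (by simp))
    | true :: true :: r, hw =>
      have h1 : Maps (loc [] rot)⁻¹ (true :: true :: r) (true :: r) :=
        (m0 (rot_1.append r)).inv
      exact loc_mem_of_maps (F0.inv_mem g0) h1 (ih (r.length + 1) (by
        simp at hw; omega) _ (by simp))

/-- The elements all of whose localisations lie in `F0`. -/
def F1 : Subgroup (UI ≃o UI) where
  carrier := {s | ∀ w : Word, loc w s ∈ F0}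
  one_mem' := fun w => by rw [loc_one]; exact F0.one_mem
  mul_mem' := fun ha hb w => by rw [loc_mul]; exact F0.mul_mem (ha w) (hb w)
  inv_mem' := fun ha w => by rw [loc_inv]; exact F0.inv_mem (ha w)

theorem loc_mem_F1 {s : UI ≃o UI} (h : s ∈ F1) (u : Word) : loc u s ∈ F1 := fun w => by
  rw [← loc_append]; exact h _

theorem rot_mem_F1 : rot ∈ F1 := fun w => loc_rot_mem_F0 _ w rfl

/-- Two trees related by an element of the group. -/
def BReal (τ τ' : BT) : Prop := ∃ s ∈ F1, List.Forall₂ (Maps s) τ.lv τ'.lv

theorem BReal.refl (τ : BT) : BReal τ τ :=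
  ⟨1, F1.one_mem, List.forall₂_same.2 fun w _ => Maps.one w⟩

theorem forall₂_trans' {α : Type} {R S U : α → α → Prop} (hRS : ∀ a b c, R a b → S b c → U a c) :
    ∀ {l1 l2 l3 : List α}, List.Forall₂ R l1 l2 → List.Forall₂ S l2 l3 → List.Forall₂ U l1 l3 := by
  intro l1 l2 l3 h1
  induction h1 generalizing l3 with
  | nil => intro h2; cases h2; exact List.Forall₂.nil
  | cons h _ ih =>
    intro h2
    cases h2 with
    | cons h3 h4 => exact List.Forall₂.cons (hRS _ _ _ h h3) (ih h4)

theorem BReal.trans {τ1 τ2 τ3 : BT} (h : BReal τ1 τ2) (h' : BReal τ2 τ3) : BReal τ1 τ3 := by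
  obtain ⟨s, hs, h1⟩ := h
  obtain ⟨t, ht, h2⟩ := h'
  exact ⟨t * s, F1.mul_mem ht hs, forall₂_trans' (fun _ _ _ a b => a.mul b) h1 h2⟩

theorem BReal.symm {τ1 τ2 : BT} (h : BReal τ1 τ2) : BReal τ2 τ1 := by
  obtain ⟨s, hs, h1⟩ := h
  exact ⟨s⁻¹, F1.inv_mem hs, h1.flip.imp fun _ _ h => Maps.inv h⟩

theorem BReal.node {a a' d d' : BT} (ha : BReal a a') (hd : BReal d d') :
    BReal (BT.node a d) (BT.node a' d') := by
  obtain ⟨s, hs, h1⟩ := ha
  obtain ⟨t, ht, h2⟩ := hd
  refine ⟨loc [false] s * loc [true] t, F1.mul_mem (loc_mem_F1 hs _) (loc_mem_F1 ht _), ?_⟩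
  rw [BT.lv, BT.lv]
  refine List.rel_append ?_ ?_
  · rw [List.forall₂_map_left_iff, List.forall₂_map_right_iff]
    refine h1.imp fun u v h => ?_
    exact (Maps.loc_inc (w := [true]) (v := false :: u) ⟨by simp, by simp⟩ t).mul (h.locAt [false])
  · rw [List.forall₂_map_left_iff, List.forall₂_map_right_iff]
    refine h2.imp fun u v h => ?_
    exact (h.locAt [true]).mul (Maps.loc_inc (w := [false]) (v := true :: v) ⟨by simp, by simp⟩ s)

theorem BReal.rotate (a d e : BT) :
    BReal (BT.node (BT.node a d) e) (BT.node a (BT.node d e)) := by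
  refine ⟨rot, rot_mem_F1, ?_⟩
  simp only [BT.lv, List.map_append, List.map_map, List.append_assoc]
  refine List.rel_append ?_ (List.rel_append ?_ ?_)
  · rw [List.forall₂_map_left_iff, List.forall₂_map_right_iff]
    exact List.forall₂_same.2 fun w _ => rot_00.append w
  · rw [List.forall₂_map_left_iff, List.forall₂_map_right_iff]
    exact List.forall₂_same.2 fun w _ => rot_01.append w
  · rw [List.forall₂_map_left_iff, List.forall₂_map_right_iff]
    exact List.forall₂_same.2 fun w _ => rot_1.append w

theorem BReal.join (p q : ℕ) : BReal (BT.node (BT.comb p) (BT.comb q)) (BT.comb (p + q + 1)) := by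
  induction p with
  | zero => rw [Nat.zero_add]; exact BReal.refl _
  | succ p ih =>
    have h1 : BReal (BT.node (BT.node BT.leaf (BT.comb p)) (BT.comb q))
        (BT.node BT.leaf (BT.node (BT.comb p) (BT.comb q))) := BReal.rotate _ _ _
    have h2 := (BReal.refl BT.leaf).node ih
    have h3 := h1.trans h2
    have e : p + 1 + q + 1 = (p + q + 1) + 1 := by ring
    rw [e]
    exact h3

theorem BReal.comb (τ : BT) : ∃ n, BReal τ (BT.comb n) := by
  induction τ with
  | leaf => exact ⟨0, BReal.refl _⟩
  | node a d iha ihd =>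
    obtain ⟨p, hp⟩ := iha
    obtain ⟨q, hq⟩ := ihd
    exact ⟨p + q + 1, (hp.node hq).trans (BReal.join p q)⟩

theorem BReal.of_length {τ τ' : BT} (h : τ.lv.length = τ'.lv.length) : BReal τ τ' := by
  obtain ⟨p, hp⟩ := BReal.comb τ
  obtain ⟨q, hq⟩ := BReal.comb τ'
  have h1 : τ.lv.length = (BT.comb p).lv.length := by
    obtain ⟨s, _, h⟩ := hp; exact h.length_eq
  have h2 : τ'.lv.length = (BT.comb q).lv.length := by
    obtain ⟨s, _, h⟩ := hq; exact h.length_eq
  rw [BT.length_comb] at h1 h2
  have : p = q := by omega
  subst this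
  exact hp.trans hq.symm

theorem comb_mem_F0 {g : UI ≃o UI} (hg : Comb g) : g ∈ F0 := by
  obtain ⟨M, hM⟩ := hg
  obtain ⟨L', hL'⟩ := forall₂_of_forall_exists (R := Maps g) (L := (BT.full M).lv)
    (fun w hw => hM w (BT.length_full M w hw).ge)
  obtain ⟨n, hn⟩ := exists_length_bound L'
  have hT : Tiles (g 0) (g 1) L' := by
    refine Tiles.map (hL'.imp fun w v h => ⟨h 0, h 1⟩) ?_
    have := BT.tiles (BT.full M) []
    simpa using this
  rw [map_zero', map_one'] at hT
  obtain ⟨τ', L'', h1, h2⟩ := BT.exists_tree n [] L' 1 (fun v hv => by simpa using hn v hv)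
    (by simpa using hT) (le_one _) (fun v hv => by
      cases L' with
      | nil => simp at hv
      | cons u L' =>
        simp only [List.head?_cons, Option.mem_def, Option.some.injEq] at hv
        subst hv
        refine ⟨u.length, ?_⟩
        rw [List.nil_append]
        exact (pt_eq_zero hT.1.symm).1)
  have h3 : L'' = [] := by
    rw [pt_nil] at h2
    exact h2.eq_nil
  rw [h3, List.append_nil] at h1
  have h4 : τ'.lv.map (([] : Word) ++ ·) = τ'.lv := by simp
  rw [h4] at h1
  obtain ⟨s, hs, h5⟩ := BReal.of_length (τ := BT.full M) (τ' := τ') (by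
    rw [← h1]; exact hL'.length_eq)
  rw [← h1] at h5
  have hgs : g = s := by
    refine DFunLike.ext _ _ fun x => ?_
    obtain ⟨w, hw, y, rfl⟩ := BT.cover (BT.full M) x
    obtain ⟨v, _, h6, h7⟩ := forall₂_both hL' h5 w hw
    rw [h6 y, h7 y]
  rw [hgs]
  have := hs []
  rwa [loc_nil] at this

theorem F0_le : F0 ≤ ThompsonF := by
  rw [F0, Subgroup.closure_le]
  rintro g hg
  rw [SetLike.mem_coe, mem_ThompsonF]
  simp only [genF, Set.mem_insert_iff, Set.mem_singleton_iff] at hg
  rcases hg with rfl | rfl | rfl | rfl <;> exact comb_rot.locAt _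

theorem ThompsonF_eq : ThompsonF = F0 :=
  le_antisymm (fun _ hg => comb_mem_F0 (mem_ThompsonF.1 hg)) F0_le

/-- Thompson's group `F` is finitely generated. -/
theorem ThompsonF_fg : ThompsonF.FG := by
  rw [ThompsonF_eq]
  classical
  exact ⟨{loc [] rot, loc [false] rot, loc [true] rot, loc [false, true] rot}, by
    rw [F0, genF]; simp⟩

end Pool.Agent.H41.TF
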