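import Pool.Agent.H41.TF.Tree

/-!
# Homeomorphisms permuting the leaf intervals factor through `T`
-/

set_option autoImplicit false

namespace Pool.Agent.H41.TF

/-- `k` maps leaf intervals onto leaf intervals. -/
def LeafPerm (k : UI ≃o UI) : Prop :=
  ∀ D, st D = .g → ∃ E, st E = .g ∧ k (pt D 0) = pt E 0 ∧ k (pt D 1) = pt E 1

theorem LeafAff.leafPerm {t : UI ≃o UI} (h : LeafAff t) : LeafPerm t := fun D hD => by
  obtain ⟨E, hE, h1⟩ := h D hD
  exact ⟨E, hE, h1 0, h1 1⟩

theorem LeafPerm.mul {s t : UI ≃o UI} (hs : LeafPerm s) (ht : LeafPerm t) :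
    LeafPerm (s * t) := fun D hD => by
  obtain ⟨E, hE, h1, h2⟩ := ht D hD
  obtain ⟨E', hE', h3, h4⟩ := hs E hE
  exact ⟨E', hE', by rw [RelIso.mul_apply, h1, h3], by rw [RelIso.mul_apply, h2, h4]⟩

/-- The elements fixing every leaf interval. -/
def NN : Subgroup (UI ≃o UI) where
  carrier := {n | Comb n ∧ ∀ D, st D = .g → n (pt D 0) = pt D 0 ∧ n (pt D 1) = pt D 1}
  one_mem' := ⟨Comb.one, fun _ _ => ⟨rfl, rfl⟩⟩
  mul_mem' := fun {a b} ha hb => ⟨ha.1.mul hb.1, fun D hD => by
    rw [RelIso.mul_apply, RelIso.mul_apply, (hb.2 D hD).1, (hb.2 D hD).2]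
    exact ha.2 D hD⟩
  inv_mem' := fun {a} ha => ⟨ha.1.inv, fun D hD => by
    have h := ha.2 D hD
    constructor
    · conv_lhs => rw [← h.1]
      exact RelIso.inv_apply_self _ _
    · conv_lhs => rw [← h.2]
      exact RelIso.inv_apply_self _ _⟩

theorem mem_NN {n : UI ≃o UI} : n ∈ NN ↔
    Comb n ∧ ∀ D, st D = .g → n (pt D 0) = pt D 0 ∧ n (pt D 1) = pt D 1 := Iff.rfl

theorem NN_le : NN ≤ ThompsonF := fun _ h => mem_ThompsonF.2 h.1

theorem comb_of_mem {t : UI ≃o UI} (ht : t ∈ TT) : Comb t := mem_ThompsonF.1 (TT_le ht)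

theorem conj_mem_NN {t n : UI ≃o UI} (ht : t ∈ TT) (hn : n ∈ NN) : t * n * t⁻¹ ∈ NN := by
  refine ⟨((comb_of_mem ht).mul hn.1).mul (comb_of_mem ht).inv, fun D hD => ?_⟩
  obtain ⟨E, hE, h1⟩ := leafAff_of_mem (TT.inv_mem ht) D hD
  have h2 : Maps t E D := h1.of_inv
  rw [RelIso.mul_apply, RelIso.mul_apply, RelIso.mul_apply, RelIso.mul_apply, h1 0, h1 1,
    (hn.2 E hE).1, (hn.2 E hE).2]
  exact ⟨h2 0, h2 1⟩

theorem conj_mem_NN' {t n : UI ≃o UI} (ht : t ∈ TT) (hn : n ∈ NN) : t⁻¹ * n * t ∈ NN := by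
  have := conj_mem_NN (TT.inv_mem ht) hn
  rwa [inv_inv] at this

/-- Products of an element of `T` and one of `N`. -/
def Dec (k : UI ≃o UI) : Prop := ∃ t ∈ TT, ∃ n ∈ NN, k = t * n

theorem Dec.inv {k : UI ≃o UI} (h : Dec k) : Dec k⁻¹ := by
  obtain ⟨t, ht, n, hn, rfl⟩ := h
  exact ⟨t⁻¹, TT.inv_mem ht, t * n⁻¹ * t⁻¹, conj_mem_NN ht (NN.inv_mem hn), by group⟩

theorem Dec.of_inv {k : UI ≃o UI} (h : Dec k⁻¹) : Dec k := by
  have := h.inv
  rwa [inv_inv] at this

theorem Dec.left {k t : UI ≃o UI} (h : Dec k) (ht : t ∈ TT) : Dec (t * k) := by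
  obtain ⟨s, hs, n, hn, rfl⟩ := h
  exact ⟨t * s, TT.mul_mem ht hs, n, hn, by group⟩

theorem Dec.right {k t : UI ≃o UI} (h : Dec k) (ht : t ∈ TT) : Dec (k * t) := by
  obtain ⟨s, hs, n, hn, rfl⟩ := h
  exact ⟨s * t, TT.mul_mem hs ht, t⁻¹ * n * t, conj_mem_NN' ht hn, by group⟩

/-- Elements of `F` permuting the leaf intervals. -/
def Good (k : UI ≃o UI) : Prop := Comb k ∧ LeafPerm k ∧ LeafPerm k⁻¹

theorem Good.inv {k : UI ≃o UI} (h : Good k) : Good k⁻¹ :=
  ⟨h.1.inv, h.2.2, by rw [inv_inv]; exact h.2.1⟩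

theorem good_of_mem {t : UI ≃o UI} (ht : t ∈ TT) : Good t :=
  ⟨comb_of_mem ht, (leafAff_of_mem ht).leafPerm, (leafAff_of_mem (TT.inv_mem ht)).leafPerm⟩

theorem Good.mul {s t : UI ≃o UI} (hs : Good s) (ht : Good t) : Good (s * t) :=
  ⟨hs.1.mul ht.1, hs.2.1.mul ht.2.1, by rw [mul_inv_rev]; exact ht.2.2.mul hs.2.2⟩

theorem state_of_10 {s : St} (h : go s [true, false] = .g) : s = .l := by
  cases s <;> simp [St.next] at h ⊢

theorem st_image {k : UI ≃o UI} (hk : LeafPerm k) {w v : Word} (hw : st w = .l)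
    (h : Maps k w v) : st v = .l := by
  obtain ⟨E, hE, h1, h2⟩ := hk (w ++ [true, false]) (by rw [st_append, hw]; rfl)
  have h3 := h.append [true, false]
  have h4 : v ++ [true, false] = E := word_ext (by rw [← h3 0, h1]) (by rw [← h3 1, h2])
  rw [← h4, st_append] at hE
  exact state_of_10 hE

/-- Leaves below the base word versus typed trees. -/
theorem Tr.cover_leaf (τ : Tr) : ∀ r : Word, go .l r = .g →
    ∃ w ∈ τ.lv, (go .l w = .l ∧ ∃ u, r = w ++ u) ∨ w = r := by
  induction τ with
  | leaf => intro r _; exact ⟨[], by simp [Tr.lv], Or.inl ⟨rfl, r, rfl⟩⟩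
  | node a b d iha ihb ihd =>
    intro r hr
    match r, hr with
    | [], h => exact absurd h (by decide)
    | [false], h => exact absurd h (by decide)
    | [true], h => exact absurd h (by decide)
    | false :: false :: r, h =>
      obtain ⟨w, hw, h1⟩ := iha r h
      refine ⟨[false, false] ++ w, by simp [Tr.lv, hw], ?_⟩
      rcases h1 with ⟨h1, u, rfl⟩ | rfl
      · exact Or.inl ⟨h1, u, rfl⟩
      · exact Or.inr rfl
    | false :: true :: r, h =>
      obtain ⟨w, hw, h1⟩ := ihb r h
      refine ⟨[false, true] ++ w, by simp [Tr.lv, hw], ?_⟩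
      rcases h1 with ⟨h1, u, rfl⟩ | rfl
      · exact Or.inl ⟨h1, u, rfl⟩
      · exact Or.inr rfl
    | true :: false :: r, h =>
      have : r = [] := go_g h
      subst this
      exact ⟨[true, false], by simp [Tr.lv], Or.inr rfl⟩
    | true :: true :: r, h =>
      obtain ⟨w, hw, h1⟩ := ihd r h
      refine ⟨[true, true] ++ w, by simp [Tr.lv, hw], ?_⟩
      rcases h1 with ⟨h1, u, rfl⟩ | rfl
      · exact Or.inl ⟨h1, u, rfl⟩
      · exact Or.inr rfl

theorem map_types {k : UI ≃o UI} {L L' : List Word}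
    (h : List.Forall₂ (fun w v => st (ob ++ w) = st v ∧ k (pt (ob ++ w) 0) = pt v 0 ∧
      k (pt (ob ++ w) 1) = pt v 1 ∧ (st v = .l → Maps k (ob ++ w) v)) L L') :
    L'.map (fun v => decide (st v = .g)) =
      (L.map (ob ++ ·)).map (fun v => decide (st v = .g)) := by
  induction h with
  | nil => rfl
  | cons h1 _ ih => rw [List.map_cons, List.map_cons, List.map_cons, ih, h1.1]

theorem leaf_cases {E : Word} (hE : st E = .g) :
    (∃ r, E = [false, false] ++ r) ∨ (∃ r, E = [true] ++ r) ∨ (∃ r, E = ob ++ r) := by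
  match E, hE with
  | [], h => exact absurd h (by decide)
  | [false], h => exact absurd h (by decide)
  | false :: false :: r, _ => exact Or.inl ⟨r, rfl⟩
  | false :: true :: r, _ => exact Or.inr (Or.inr ⟨r, rfl⟩)
  | true :: r, _ => exact Or.inr (Or.inl ⟨r, rfl⟩)

/-- The core case. -/
theorem core {k : UI ≃o UI} (hk : Good k) {e : ℕ} (h00 : Maps k [false, false] [false, false])
    (h1 : Maps k [true] (true :: List.replicate e true)) : Dec k := by
  obtain ⟨M, hM⟩ := hk.1
  obtain ⟨L', hL'⟩ := forall₂_of_forall_exists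
    (R := fun w v => st (ob ++ w) = st v ∧ k (pt (ob ++ w) 0) = pt v 0 ∧
      k (pt (ob ++ w) 1) = pt v 1 ∧ (st v = .l → Maps k (ob ++ w) v)) (L := (Tr.full M).lv)
    (fun w hw => by
      rcases Tr.state_lv _ w hw with hl | hg
      · have hs : st (ob ++ w) = .l := by rw [st_append, st_ob, hl]
        obtain ⟨v, hv⟩ := hM (ob ++ w) (by
          have := Tr.length_full M w hw hl
          rw [List.length_append]; omega)
        exact ⟨v, by rw [hs, st_image hk.2.1 hs hv], hv 0, hv 1, fun _ => hv⟩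
      · have hs : st (ob ++ w) = .g := by rw [st_append, st_ob, hg]
        obtain ⟨E, hE, h2, h3⟩ := hk.2.1 _ hs
        exact ⟨E, by rw [hs, hE], h2, h3, fun h => absurd (hE.symm.trans h) (by decide)⟩)
  obtain ⟨n, hn⟩ := exists_length_bound L'
  have p0 : pt ob 0 = pt [false, false] 1 := (pt_snoc_mid [false]).symm
  have p1 : pt ob 1 = pt [true] 0 := by
    have h2 := pt_snoc_right [false]
    have h3 := pt_snoc_mid []
    exact h2.trans h3
  have k0 : k (pt ob 0) = pt ob 0 := by rw [p0, h00 1]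
  have k1 : k (pt ob 1) = pt (true :: List.replicate e true) 0 := by rw [p1, h1 0]
  have hT : Tiles (pt ob 0) (pt (true :: List.replicate e true) 0) L' := by
    rw [← k1]
    conv in pt ob 0 => rw [← k0]
    refine Tiles.map (L := (Tr.full M).lv.map (ob ++ ·)) ?_ (Tr.tiles _ _)
    rw [List.forall₂_map_left_iff]
    exact hL'.imp fun w v h => ⟨h.2.1, h.2.2.1⟩
  have hy : pt ob 1 ≤ pt (true :: List.replicate e true) 0 := by
    rw [p1]
    exact pt_zero_le [true] (pt (List.replicate e true) 0)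
  have hst : ∀ v ∈ L', st v = .l ∨ st v = .g := by
    intro v hv
    have : ∀ {L L' : List Word}, List.Forall₂ (fun w v => st (ob ++ w) = st v ∧
        k (pt (ob ++ w) 0) = pt v 0 ∧ k (pt (ob ++ w) 1) = pt v 1 ∧
        (st v = .l → Maps k (ob ++ w) v)) L L' → (∀ w ∈ L, go .l w = .l ∨ go .l w = .g) →
        ∀ v ∈ L', st v = .l ∨ st v = .g := by
      intro L L' h
      induction h with
      | nil => intro _ v hv; simp at hv
      | cons h2 _ ih =>
        intro h3 v hv
        rcases List.mem_cons.1 hv with rfl | hv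
        · rw [← h2.1, st_append, st_ob]
          exact h3 _ (by simp)
        · exact ih (fun w hw => h3 w (by simp [hw])) v hv
    exact this hL' (Tr.state_lv _) v hv
  obtain ⟨τ', L'', e1, e2⟩ := Tr.exists_tree n ob L' _ st_ob hst
    (fun v hv => (hn v hv).trans (by omega)) hT hy (fun v hv => by
      obtain ⟨u, L1, rfl, hu, _⟩ := Tr.not_nil_of_lt hT
        ((pt_zero_lt_pt_one ob).trans_le hy)
      simp only [List.head?_cons, Option.mem_def, Option.some.injEq] at hv
      rw [← hv]
      exact same_left_true (w := [false]) hu)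
  have hseq : (Tr.full M).seq = τ'.seq ++ L''.map (fun v => decide (st v = .g)) := by
    rw [← Tr.seq_eq (Tr.full M) ob st_ob, ← Tr.seq_eq τ' ob st_ob, ← List.map_append, ← e1,
      map_types hL']
  -- nothing remains to the right
  have e3 : L'' = [] := by
    cases L'' with
    | nil => rfl
    | cons v L1 =>
      exfalso
      have hv0 : pt v 0 = pt ([] ++ [true]) 0 := by
        rw [← e2.1, p1]; rfl
      obtain ⟨j, hj⟩ := same_left_true hv0
      have hv : st v = .l ∨ st v = .g := hst v (by rw [e1]; simp)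
      have hg : st v = .g := by
        match j, hj with
        | 0, hj => rw [hj] at hv; rcases hv with h | h <;> exact absurd h (by decide)
        | 1, hj => rw [hj] at hv; rcases hv with h | h <;> exact absurd h (by decide)
        | 2, hj => rw [hj]; rfl
        | j + 3, hj =>
          exfalso
          have : st v = .i := by
            rw [hj, List.replicate_succ, List.replicate_succ, List.replicate_succ]
            exact go_i _
          rw [this] at hv
          rcases hv with h | h <;> exact absurd h (by decide)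
      rw [List.map_cons, hg] at hseq
      exact Tr.no_continue hseq
  subst e3
  rw [List.map_nil, List.append_nil] at hseq
  rw [List.append_nil] at e1
  obtain ⟨s, hs, h2⟩ := Real.of_seq hseq
  have ht : loc ob s ∈ TT := by
    have := hs []
    rwa [wl, code_nil, List.append_nil] at this
  rw [tiles_nil] at e2
  have e0 : e = 0 := by
    rw [p1, pt_cons, pt_cons, pt_nil] at e2
    have h3 := (half_strictMono true).injective e2
    have h4 := (pt_eq_zero h3.symm).1
    rw [List.length_replicate] at h4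
    cases e with
    | zero => rfl
    | succ e =>
      rw [List.replicate_succ, List.replicate_succ] at h4
      exact absurd (List.cons.inj h4).1 (by decide)
  subst e0
  refine ⟨loc ob s, ht, (loc ob s)⁻¹ * k, ⟨(comb_of_mem ht).inv.mul hk.1, fun E hE => ?_⟩, by
    group⟩
  rw [e1, List.forall₂_map_right_iff] at hL'
  -- it suffices that `k` and `loc ob s` agree at the endpoints
  suffices hh : k (pt E 0) = loc ob s (pt E 0) ∧ k (pt E 1) = loc ob s (pt E 1) by
    rw [RelIso.mul_apply, RelIso.mul_apply, hh.1, hh.2, RelIso.inv_apply_self,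
      RelIso.inv_apply_self]
    exact ⟨rfl, rfl⟩
  rcases leaf_cases hE with ⟨r, rfl⟩ | ⟨r, rfl⟩ | ⟨r, rfl⟩
  · have h3 := h00.append r
    have h4 : Inc ob ([false, false] ++ r) := ⟨by simp [ob], by simp [ob]⟩
    rw [h3 0, h3 1, loc_fix_of_inc h4, loc_fix_of_inc h4]
    exact ⟨rfl, rfl⟩
  · have h3 := h1.append r
    have h4 : Inc ob ([true] ++ r) := ⟨by simp [ob], by simp [ob]⟩
    have h5 : (true :: List.replicate 0 true) ++ r = [true] ++ r := rfl
    rw [h5] at h3
    rw [h3 0, h3 1, loc_fix_of_inc h4, loc_fix_of_inc h4]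
    exact ⟨rfl, rfl⟩
  · rw [st_append, st_ob] at hE
    obtain ⟨w, hw, h3⟩ := Tr.cover_leaf (Tr.full M) r hE
    obtain ⟨v, _, h4, h5⟩ := forall₂_both hL' h2 w hw
    have h6 : Maps (loc ob s) (ob ++ w) (ob ++ v) := h5.locAt ob
    rcases h3 with ⟨h7, u, rfl⟩ | rfl
    · have h8 : Maps k (ob ++ w) (ob ++ v) := h4.2.2.2 (by
        rw [← h4.1, st_append, st_ob, h7])
      have h9 := h8.append u
      have h10 := h6.append u
      rw [List.append_assoc, List.append_assoc] at h9 h10
      rw [h9 0, h9 1, h10 0, h10 1]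
      exact ⟨rfl, rfl⟩
    · rw [h4.2.1, h4.2.2.1, h6 0, h6 1]
      exact ⟨rfl, rfl⟩

theorem f_pow_false (j : ℕ) : ∀ m : ℕ, Maps (ff ^ j) (List.replicate (m + 2 + j) false)
    (List.replicate (m + 2) false) := by
  induction j with
  | zero => intro m; rw [pow_zero]; exact Maps.one _
  | succ j ih =>
    intro m
    rw [pow_succ']
    have h1 : Maps (ff ^ j) (List.replicate (m + 1 + 2 + j) false)
        (List.replicate (m + 1 + 2) false) := ih (m + 1)
    have h2 : Maps ff (List.replicate (m + 1 + 2) false) (List.replicate (m + 2) false) :=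
      f_000.append (List.replicate m false)
    have h3 := h1.mul h2
    have e : m + 1 + 2 + j = m + 2 + (j + 1) := by ring
    rwa [e] at h3

theorem f_pow_true (j : ℕ) : ∀ m : ℕ, Maps (ff ^ j) (List.replicate (m + 1 + j) true)
    (List.replicate (m + 1) true) := by
  induction j with
  | zero => intro m; rw [pow_zero]; exact Maps.one _
  | succ j ih =>
    intro m
    rw [pow_succ']
    have h1 : Maps (ff ^ j) (List.replicate (m + 1 + 1 + j) true)
        (List.replicate (m + 1 + 1) true) := ih (m + 1)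
    have h2 : Maps ff (List.replicate (m + 1 + 1) true) (List.replicate (m + 1) true) :=
      f_11.append (List.replicate m true)
    have h3 := h1.mul h2
    have e : m + 1 + 1 + j = m + 1 + (j + 1) := by ring
    rwa [e] at h3

theorem Maps.replicate {k : UI ≃o UI} {a b : ℕ} {x : Bool} (h : Maps k (List.replicate a x)
    (List.replicate b x)) (c : ℕ) : Maps k (List.replicate (a + c) x)
      (List.replicate (b + c) x) := by
  have := h.append (List.replicate c x)
  rwa [List.replicate_append_replicate, List.replicate_append_replicate] at this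

theorem lemA {k : UI ≃o UI} (hk : Good k) {M L e : ℕ}
    (h0 : Maps k (List.replicate M false) (List.replicate M false))
    (h1 : Maps k (List.replicate L true) (List.replicate (L + e) true)) : Dec k := by
  have hf : ∀ j, ff ^ j ∈ TT := fun j => TT.pow_mem f_mem j
  have key : Dec (ff ^ (M + L) * k * (ff ^ (M + L))⁻¹) := by
    refine core (e := e) (((good_of_mem (hf _)).mul hk).mul (good_of_mem (TT.inv_mem (hf _)))) ?_ ?_
    · have a1 : Maps (ff ^ (M + L))⁻¹ [false, false] (List.replicate (0 + 2 + (M + L)) false) :=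
        (f_pow_false (M + L) 0).inv
      have a2 := h0.replicate (2 + L)
      have e1 : M + (2 + L) = 0 + 2 + (M + L) := by ring
      rw [e1] at a2
      exact a1.mul (a2.mul (f_pow_false (M + L) 0))
    · have a1 : Maps (ff ^ (M + L))⁻¹ [true] (List.replicate (0 + 1 + (M + L)) true) :=
        (f_pow_true (M + L) 0).inv
      have a2 := h1.replicate (1 + M)
      have e1 : L + (1 + M) = 0 + 1 + (M + L) := by ring
      have e2 : L + e + (1 + M) = e + 1 + (M + L) := by ring
      rw [e1, e2] at a2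
      exact a1.mul (a2.mul (f_pow_true (M + L) e))
  have h2 := (key.left (TT.inv_mem (hf (M + L)))).right (hf (M + L))
  have h3 : (ff ^ (M + L))⁻¹ * (ff ^ (M + L) * k * (ff ^ (M + L))⁻¹) * ff ^ (M + L) = k := by
    group
  rwa [h3] at h2

theorem germ0 {k : UI ≃o UI} (hk : Comb k) : ∃ M M', Maps k (List.replicate (M + 2) false)
    (List.replicate (M' + 2) false) := by
  obtain ⟨M, hM⟩ := hk
  obtain ⟨v, hv⟩ := hM (List.replicate M false) (by simp)
  have h1 := hv 0
  rw [pt_replicate_false, map_zero'] at h1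
  have h2 := (pt_eq_zero h1.symm).1
  rw [h2] at hv
  exact ⟨M, v.length, hv.replicate 2⟩

theorem germ1 {k : UI ≃o UI} (hk : Comb k) : ∃ M M', Maps k (List.replicate M true)
    (List.replicate M' true) := by
  obtain ⟨M, hM⟩ := hk
  obtain ⟨v, hv⟩ := hM (List.replicate M true) (by simp)
  have h1 := hv 1
  rw [pt_replicate_true, map_one'] at h1
  have h2 := (pt_eq_one h1.symm).1
  rw [h2] at hv
  exact ⟨M, v.length, hv⟩

theorem lemB {k : UI ≃o UI} (hk : Good k) {M : ℕ}
    (h0 : Maps k (List.replicate M false) (List.replicate M false)) : Dec k := by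
  obtain ⟨L, L', h1⟩ := germ1 hk.1
  rcases le_total L L' with h | h
  · obtain ⟨e, rfl⟩ := Nat.exists_eq_add_of_le h
    exact lemA hk h0 h1
  · obtain ⟨e, rfl⟩ := Nat.exists_eq_add_of_le h
    exact (lemA hk.inv h0.inv h1.inv).of_inv

theorem lemC {k : UI ≃o UI} (hk : Good k) {M j : ℕ}
    (h0 : Maps k (List.replicate (M + 2) false) (List.replicate (M + 2 + j) false)) : Dec k := by
  have hf : ff ^ j ∈ TT := TT.pow_mem f_mem j
  have h1 : Dec (ff ^ j * k) := lemB ((good_of_mem hf).mul hk) (h0.mul (f_pow_false j M))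
  have h2 := h1.left (TT.inv_mem hf)
  rwa [inv_mul_cancel_left] at h2

/-- Elements of `F` permuting the leaf intervals are products `t * n`. -/
theorem Good.dec {k : UI ≃o UI} (hk : Good k) : Dec k := by
  obtain ⟨M, M', h0⟩ := germ0 hk.1
  rcases le_total M M' with h | h
  · obtain ⟨j, rfl⟩ := Nat.exists_eq_add_of_le h
    have e : M + j + 2 = M + 2 + j := by ring
    rw [e] at h0
    exact lemC hk h0
  · obtain ⟨j, rfl⟩ := Nat.exists_eq_add_of_le h
    have e : M' + j + 2 = M' + 2 + j := by ring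
    rw [e] at h0
    exact (lemC hk.inv h0.inv).of_inv

/-- Words inside leaves are mapped inside leaves. -/
def InPres (k : UI ≃o UI) : Prop := ∀ w v, Maps k w v → Inn (st w) → Inn (st v)

theorem leaf_into {k : UI ≃o UI} (hk : Comb k) (hp : InPres k) {D : Word} (hD : st D = .g) :
    ∃ E, st E = .g ∧ (∃ a, k (pt D 0) = pt E a) ∧ ∃ b, k (pt D 1) = pt E b := by
  obtain ⟨M, hM⟩ := hk
  have key : ∀ (n : ℕ) (u : Word), M ≤ (D ++ u).length + n →
      ∃ E, st E = .g ∧ (∃ a, k (pt (D ++ u) 0) = pt E a) ∧ ∃ b, k (pt (D ++ u) 1) = pt E b := by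
    intro n
    induction n with
    | zero =>
      intro u hu
      obtain ⟨v, hv⟩ := hM (D ++ u) hu
      have h1 : Inn (st (D ++ u)) := by
        rw [st_append, hD]; exact inn_go (Or.inl rfl) u
      obtain ⟨E, r, rfl, hE⟩ := exists_leaf (hp _ _ hv h1)
      exact ⟨E, hE, ⟨pt r 0, by rw [hv 0, pt_append]⟩, ⟨pt r 1, by rw [hv 1, pt_append]⟩⟩
    | succ n ih =>
      intro u hu
      obtain ⟨E, hE, ⟨a, ha⟩, b, hb⟩ := ih (u ++ [false]) (by
        simp only [List.length_append, List.length_cons, List.length_nil] at hu ⊢; omega)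
      obtain ⟨E', hE', ⟨a', ha'⟩, b', hb'⟩ := ih (u ++ [true]) (by
        simp only [List.length_append, List.length_cons, List.length_nil] at hu ⊢; omega)
      rw [← List.append_assoc] at ha hb ha' hb'
      have h1 : pt E b = pt E' a' := by rw [← hb, ← ha', pt_snoc_mid]
      have h2 := leaf_disjoint hE hE' h1
      subst h2
      rw [pt_snoc_left] at ha
      rw [pt_snoc_right] at hb'
      exact ⟨E, hE, ⟨a, ha⟩, b', hb'⟩
  have := key M [] (by omega)
  rwa [List.append_nil] at this

theorem leafPerm_of_inPres {k : UI ≃o UI} (hk : Comb k) (h1 : InPres k) (h2 : InPres k⁻¹) :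
    LeafPerm k := by
  intro D hD
  obtain ⟨E, hE, ⟨a, ha⟩, b, hb⟩ := leaf_into hk h1 hD
  obtain ⟨E', hE', ⟨a', ha'⟩, b', hb'⟩ := leaf_into hk.inv h2 hE
  -- `k⁻¹ [E] ⊆ [E']`
  have hmono := k.monotone
  have hmono' := (k⁻¹).monotone
  have c1 : k (pt E' a') = pt E 0 := by rw [← ha', RelIso.apply_inv_self]
  have c2 : k (pt E' b') = pt E 1 := by rw [← hb', RelIso.apply_inv_self]
  have c3 : pt E' a' ≤ pt D 0 := by
    have : k (pt E' a') ≤ k (pt D 0) := by rw [c1, ha]; exact pt_zero_le E a
    exact k.le_iff_le.1 this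
  have c4 : pt D 1 ≤ pt E' b' := by
    have : k (pt D 1) ≤ k (pt E' b') := by rw [c2, hb]; exact pt_le_one E b
    exact k.le_iff_le.1 this
  obtain ⟨z, hz⟩ := exists_of_mem E' (pt D 0) ((pt_zero_le E' a').trans c3)
    (((pt_zero_lt_pt_one D).le.trans c4).trans (pt_le_one E' b'))
  have h3 : E' = D := leaf_disjoint hE' hD hz
  subst h3
  refine ⟨E, hE, le_antisymm ?_ ?_, le_antisymm ?_ ?_⟩
  · rw [← c1]; exact hmono (pt_zero_le E' a')
  · rw [ha]; exact pt_zero_le E a
  · rw [hb]; exact pt_le_one E b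
  · rw [← c2]; exact hmono (pt_le_one E' b')

theorem good_of_inPres {k : UI ≃o UI} (hk : Comb k) (h1 : InPres k) (h2 : InPres k⁻¹) :
    Good k :=
  ⟨hk, leafPerm_of_inPres hk h1 h2, leafPerm_of_inPres hk.inv h2 (by rwa [inv_inv])⟩

end Pool.Agent.H41.TF
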