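import Pool.Agent.H41.TF.Classify

/-!
# The infinitely generated subgroup outside the perfect kernel
-/

set_option autoImplicit false

namespace Pool.Agent.H41.TF

open Finsupp

/-- The infinitely generated group. -/
noncomputable def HInf : Subgroup (UI ≃o UI) := HR KerInf invM_KerInf

theorem KerS_mono {n m : ℕ} (h : n ≤ m) : KerS n ≤ KerS m := fun _ hx => SI_le h hx

theorem exists_common (S : Finset (UI ≃o UI))
    (h : ∀ s ∈ S, s ∈ HInf) : ∃ N, ∀ s ∈ S, s ∈ HR (KerS N) (invM_KerS N) := by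
  classical
  induction S using Finset.induction_on with
  | empty => exact ⟨0, by simp⟩
  | insert s S _ ih =>
    obtain ⟨N, hN⟩ := ih (fun t ht => h t (Finset.mem_insert_of_mem ht))
    obtain ⟨t, n, ⟨M, hM⟩, hs⟩ := h s (Finset.mem_insert_self _ _)
    refine ⟨max M N, fun u hu => ?_⟩
    rcases Finset.mem_insert.1 hu with rfl | hu
    · exact ⟨t, n, KerS_mono (le_max_left M N) hM, hs⟩
    · exact HR_mono _ _ (KerS_mono (le_max_right M N)) (hN u hu)

theorem HInf_not_fg : ¬ HInf.FG := by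
  rintro ⟨S, hS⟩
  obtain ⟨N, hN⟩ := exists_common S (fun s hs => by
    rw [← hS]; exact Subgroup.subset_closure hs)
  have hle : HInf ≤ HR (KerS N) (invM_KerS N) := by
    rw [← hS, Subgroup.closure_le]
    exact fun s hs => hN s hs
  obtain ⟨D, hD⟩ := (sM_surjective.iterate N) (wL [])
  obtain ⟨E, hE⟩ := (sM_surjective.iterate N) (wL [Dg.d])
  have hne : wL [] ≠ wL [Dg.d] := fun h => by simpa using wL_injective h
  have hs : sM (wL [Dg.d]) = sM (wL []) := sM_no_b (by simp)
  set n : NN := ⟨loc D.1 rot, loc_leaf_mem_NN D.2 comb_rot⟩ *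
    ⟨loc E.1 rot, loc_leaf_mem_NN E.2 comb_rot⟩ with hn
  have hphi : phi n = single D 1 + single E 1 := by
    rw [hn, phi_mul, phi_loc, phi_loc]
  have h1 : SI (N + 1) (phi n) = 0 := by
    rw [hphi, SI_add, SI_single, SI_single, Function.iterate_succ_apply',
      Function.iterate_succ_apply', hD, hE, hs, ← single_add]
    have : (1 + 1 : ZMod 2) = 0 := by decide
    rw [this, single_zero]
  have h2 : n.1 ∈ HInf := ⟨1, n, ⟨N + 1, h1⟩, by simp⟩
  have h3 := phi_mem_of_HR _ (hle h2)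
  rw [mem_KerS, hphi, SI_add, SI_single, SI_single, hD, hE] at h3
  have h4 := DFunLike.congr_fun h3 (wL [])
  rw [Finsupp.add_apply, single_eq_same, single_eq_of_ne hne] at h4
  simp at h4

/-- The main theorem, for the subgroup `ThompsonF`. -/
theorem main : ∃ H : Subgroup (UI ≃o UI), H ≤ ThompsonF ∧ ¬ H.FG ∧
    ∃ A : Finset (UI ≃o UI), (∀ a ∈ A, a ∈ H) ∧
    ∃ b ∈ ThompsonF, b ∉ H ∧
      {K : Subgroup (UI ≃o UI) | K ≤ ThompsonF ∧ (∀ a ∈ A, a ∈ K) ∧ b ∉ K}.Countable := by
  obtain ⟨A, hA⟩ := H0_fg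
  refine ⟨HInf, HR_le _, HInf_not_fg, A, fun a ha => ?_, bb, ?_, bb_not_mem_HR _, ?_⟩
  · exact H0_le_HR _ (by rw [← hA]; exact Subgroup.subset_closure ha)
  · exact mem_ThompsonF.2 (comb_rot.locAt ob)
  · refine Set.MapsTo.countable_of_injOn (t := {R : AddSubgroup MM | InvM R}) (f := RK) ?_ ?_
      countable_inv
    · rintro K ⟨_, hK, _⟩
      refine invM_RK ?_
      rw [← hA, Subgroup.closure_le]
      exact fun a ha => hK a ha
    · refine RK_injOn.mono ?_
      rintro K ⟨h1, h2, h3⟩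
      refine ⟨h1, ?_, h3⟩
      rw [← hA, Subgroup.closure_le]
      exact fun a ha => h2 a ha

end Pool.Agent.H41.TF
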