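import Pool.Agent.H41.TF.Contraction
import Pool.Agent.H41.TF.Comb

/-!
# The Charney-Davis inequality for complexes without three pairwise non-adjacent vertices
-/

set_option autoImplicit false

namespace Pool.Agent.H41.TF

open Finset Pool.Agent.H41.CD

variable {n : ℕ}

theorem mem_lkF {Δ : Finset (Finset (Fin n))} {F G : Finset (Fin n)} :
    G ∈ lkF Δ F ↔ G ∈ Δ ∧ G ∩ F = ∅ ∧ G ∪ F ∈ Δ := by
  unfold lkF; rw [Finset.mem_filter]

theorem link_sum {Δ : Finset (Finset (Fin n))}
    (hdown : ∀ F ∈ Δ, ∀ G : Finset (Fin n), G ⊆ F → G ∈ Δ) {F K : Finset (Fin n)}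
    (hKF : K ∩ F = ∅) (f : Finset (Fin n) → ℚ) :
    ∑ G ∈ (lkF Δ F).filter (fun G => K ⊆ G), f (G ∪ F)
      = ∑ G ∈ Δ.filter (fun G => K ∪ F ⊆ G), f G := by
  classical
  refine Finset.sum_nbij' (fun G => G ∪ F) (fun G => G \ F) ?_ ?_ ?_ ?_ ?_
  · intro G hG
    rw [Finset.mem_filter, mem_lkF] at hG
    rw [Finset.mem_filter]
    exact ⟨hG.1.2.2, Finset.union_subset_union_left hG.2⟩
  · intro G hG
    rw [Finset.mem_filter] at hG
    rw [Finset.mem_filter, mem_lkF]
    have hFG : F ⊆ G := Finset.union_subset_right hG.2
    refine ⟨⟨hdown G hG.1 _ Finset.sdiff_subset, ?_, ?_⟩, ?_⟩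
    · rw [Finset.inter_comm]; exact Finset.inter_sdiff_self F G
    · rw [Finset.sdiff_union_of_subset hFG]; exact hG.1
    · intro x hx
      rw [Finset.mem_sdiff]
      refine ⟨hG.2 (Finset.mem_union_left _ hx), ?_⟩
      intro hxF
      have : x ∈ K ∩ F := Finset.mem_inter.mpr ⟨hx, hxF⟩
      rw [hKF] at this
      exact absurd this (Finset.notMem_empty x)
  · intro G hG
    rw [Finset.mem_filter, mem_lkF] at hG
    exact Finset.union_sdiff_cancel_right (Finset.disjoint_iff_inter_eq_empty.mpr hG.1.2.1)
  · intro G hG
    rw [Finset.mem_filter] at hG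
    exact Finset.sdiff_union_of_subset (Finset.union_subset_right hG.2)
  · intro G _
    rfl

theorem sF_link {Δ : Finset (Finset (Fin n))}
    (hdown : ∀ F ∈ Δ, ∀ G : Finset (Fin n), G ⊆ F → G ∈ Δ) {F K : Finset (Fin n)}
    (hKF : K ∩ F = ∅) :
    sF Δ (K ∪ F) = (-1 / 2 : ℚ) ^ F.card * sF (lkF Δ F) K := by
  unfold sF
  rw [← link_sum hdown hKF (fun G => (-1 / 2 : ℚ) ^ G.card), Finset.mul_sum]
  refine Finset.sum_congr rfl (fun G hG => ?_)
  rw [Finset.mem_filter] at hG
  rw [card_link hG.1, pow_add, mul_comm]

theorem fe_link {Δ : Finset (Finset (Fin n))} {d : ℕ} (hΔ : FE Δ d) {F : Finset (Fin n)}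
    (hF : F ∈ Δ) : FE (lkF Δ F) (d - F.card) := by
  classical
  have h := hΔ.toFlagEulerian
  refine ⟨⟨?_, ?_, ?_, ?_⟩, ?_, ?_⟩
  · intro G hG H hHG
    rw [mem_lkF] at hG ⊢
    refine ⟨h.down _ hG.1 _ hHG, ?_, h.down _ hG.2.2 _ (Finset.union_subset_union_left hHG)⟩
    rw [← Finset.subset_empty, ← hG.2.1]
    exact Finset.inter_subset_inter_right hHG
  · intro S hS
    rw [mem_lkF]
    have hSF : ∀ a ∈ S, a ∉ F := by
      intro a ha haF
      have := hS a ha a ha
      rw [mem_lkF] at this
      have h2 : a ∈ ({a, a} : Finset (Fin n)) ∩ F :=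
        Finset.mem_inter.mpr ⟨Finset.mem_insert_self _ _, haF⟩
      rw [this.2.1] at h2
      exact absurd h2 (Finset.notMem_empty a)
    have hU : S ∪ F ∈ Δ := by
      apply h.flag
      intro a ha b hb
      rw [Finset.mem_union] at ha hb
      have key : ∀ a ∈ S, ∀ b ∈ F, ({a, b} : Finset (Fin n)) ∈ Δ := by
        intro a ha b hb
        have := hS a ha a ha
        rw [mem_lkF] at this
        exact pair_mem h this.2.2 (Finset.mem_union_left _ (Finset.mem_insert_self _ _))
          (Finset.mem_union_right _ hb)
      rcases ha with ha | ha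
      · rcases hb with hb | hb
        · exact (mem_lkF.mp (hS a ha b hb)).1
        · exact key a ha b hb
      · rcases hb with hb | hb
        · rw [Finset.pair_comm]; exact key b hb a ha
        · exact pair_mem h hF ha hb
    refine ⟨h.down _ hU _ Finset.subset_union_left, ?_, hU⟩
    rw [← Finset.disjoint_iff_inter_eq_empty, Finset.disjoint_left]
    exact hSF
  · intro G hG
    have h1 := card_link hG
    have h2 := h.dim _ (mem_lkF.mp hG).2.2
    omega
  · intro G hG
    have hG' := mem_lkF.mp hG
    have h1 := link_sum (F := F) h.down hG'.2.1 (fun H => (-1 : ℚ) ^ H.card)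
    rw [h.euler _ hG'.2.2] at h1
    have h2 : ∑ H ∈ (lkF Δ F).filter (fun H => G ⊆ H), (-1 : ℚ) ^ (H ∪ F).card
        = (-1) ^ F.card * ∑ H ∈ (lkF Δ F).filter (fun H => G ⊆ H), (-1 : ℚ) ^ H.card := by
      rw [Finset.mul_sum]
      refine Finset.sum_congr rfl (fun H hH => ?_)
      rw [Finset.mem_filter] at hH
      rw [card_link hH.1, pow_add, mul_comm]
    rw [h2] at h1
    have hle := h.dim F hF
    have h3 : (-1 : ℚ) ^ d = (-1) ^ F.card * (-1) ^ (d - F.card) := by
      rw [← pow_add]; congr 1; omega
    rw [h3] at h1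
    have h4 : (-1 : ℚ) ^ F.card ≠ 0 := pow_ne_zero _ (by norm_num)
    exact mul_left_cancel₀ h4 h1
  · rw [mem_lkF]
    exact ⟨hΔ.ne, Finset.empty_inter _, by rw [Finset.empty_union]; exact hF⟩
  · intro G hG hlt
    have hG' := mem_lkF.mp hG
    have hc := card_link hG
    obtain ⟨v, hv, hv'⟩ := hΔ.pure _ hG'.2.2 (by omega)
    rw [Finset.mem_union] at hv
    push Not at hv
    refine ⟨v, hv.1, ?_⟩
    rw [mem_lkF, Finset.insert_union]
    refine ⟨h.down _ hv' _ (Finset.insert_subset_insert _ Finset.subset_union_left), ?_, hv'⟩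
    rw [Finset.insert_inter_of_notMem hv.2]
    exact hG'.2.1

theorem nonE_link {Δ : Finset (Finset (Fin n))} {d : ℕ} (hΔ : FlagEulerian Δ d)
    {F : Finset (Fin n)} (hF : F ∈ Δ) {x y : Fin n} (hxy : nonE (lkF Δ F) x y) :
    nonE Δ x y := by
  obtain ⟨h1, h2, h3⟩ := hxy
  have h1' := mem_lkF.mp h1
  have h2' := mem_lkF.mp h2
  refine ⟨h1'.1, h2'.1, fun hmem => h3 ?_⟩
  have hx : x ∉ F := by
    intro hx
    have : x ∈ ({x} : Finset (Fin n)) ∩ F :=
      Finset.mem_inter.mpr ⟨Finset.mem_singleton_self x, hx⟩
    rw [h1'.2.1] at this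
    exact absurd this (Finset.notMem_empty x)
  have hy : y ∉ F := by
    intro hy
    have : y ∈ ({y} : Finset (Fin n)) ∩ F :=
      Finset.mem_inter.mpr ⟨Finset.mem_singleton_self y, hy⟩
    rw [h2'.2.1] at this
    exact absurd this (Finset.notMem_empty y)
  rw [mem_lkF]
  refine ⟨hmem, ?_, ?_⟩
  · rw [Finset.insert_inter_of_notMem hx]
    exact h2'.2.1
  · have key : ∀ a ∈ ({x, y} : Finset (Fin n)), ∀ b ∈ F, ({a, b} : Finset (Fin n)) ∈ Δ := by
      intro a ha b hb
      simp only [Finset.mem_insert, Finset.mem_singleton] at ha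
      rcases ha with h | h
      · rw [h]
        exact pair_mem hΔ h1'.2.2 (Finset.mem_union_left _ (Finset.mem_singleton_self _))
          (Finset.mem_union_right _ hb)
      · rw [h]
        exact pair_mem hΔ h2'.2.2 (Finset.mem_union_left _ (Finset.mem_singleton_self _))
          (Finset.mem_union_right _ hb)
    apply hΔ.flag
    intro a ha b hb
    rw [Finset.mem_union] at ha hb
    rcases ha with ha | ha
    · rcases hb with hb | hb
      · exact pair_mem hΔ hmem ha hb
      · exact key a ha b hb
    · rcases hb with hb | hb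
      · rw [Finset.pair_comm]; exact key b hb a ha
      · exact pair_mem hΔ hF ha hb

theorem triFree_link {Δ : Finset (Finset (Fin n))} {d : ℕ} (hΔ : FlagEulerian Δ d)
    {F : Finset (Fin n)} (hF : F ∈ Δ) (htri : TriFree Δ) : TriFree (lkF Δ F) := by
  intro x y z hxy hyz hxz
  exact htri x y z (nonE_link hΔ hF hxy) (nonE_link hΔ hF hyz) (nonE_link hΔ hF hxz)

theorem nv_link {Δ : Finset (Finset (Fin n))} {d : ℕ} (hΔ : FlagEulerian Δ d)
    {F : Finset (Fin n)} (hF : F ∈ Δ) (hne : F.Nonempty) : nv (lkF Δ F) < nv Δ := by
  obtain ⟨f, hf⟩ := hne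
  unfold nv
  apply Finset.card_lt_card
  rw [Finset.ssubset_iff_of_subset]
  · refine ⟨f, ?_, ?_⟩
    · rw [Finset.mem_filter]
      exact ⟨Finset.mem_univ _, vert_of_face hΔ hF hf⟩
    · rw [Finset.mem_filter, mem_lkF]
      rintro ⟨_, _, h, _⟩
      have : f ∈ ({f} : Finset (Fin n)) ∩ F :=
        Finset.mem_inter.mpr ⟨Finset.mem_singleton_self f, hf⟩
      rw [h] at this
      exact absurd this (Finset.notMem_empty f)
  · intro x hx
    rw [Finset.mem_filter] at hx ⊢
    exact ⟨hx.1, (mem_lkF.mp hx.2).1⟩

/-- A contractible set of neighbours of `v` in the graph of non-adjacent pairs. -/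
theorem cs_of_contr {Δ : Finset (Finset (Fin n))} {d : ℕ} (hΔ : FlagEulerian Δ d)
    (htri : TriFree Δ) {v : Fin n} {U : Finset (Fin n)} (hU : Contr (nonE Δ) v U) :
    CS Δ U := by
  obtain ⟨h1, _, h3, _⟩ := hU
  have hvU : ∀ u ∈ U, nonE Δ v u := fun u hu => mem_Qs_empty.mp (h1 hu)
  refine ⟨?_, ?_⟩
  · apply face_of_indep hΔ (fun x hx => (hvU x hx).2.1)
    intro x hx y hy hxy
    exact htri x y v hxy (nonE_symm (hvU y hy)) (nonE_symm (hvU x hx))
  · intro F hF hFU
    by_contra hcon
    push Not at hcon
    obtain ⟨g, hg, hgU⟩ := h3 F (indep_of_face hΔ hF) (by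
      intro u hu
      by_contra hno
      push Not at hno
      apply hcon u hu
      apply face_of_indep hΔ
      · intro x hx
        rw [Finset.mem_insert] at hx
        rcases hx with rfl | hx
        · exact (hvU _ hu).2.1
        · exact vert_of_face hΔ hF hx
      · intro x hx y hy hxy
        rw [Finset.mem_insert] at hx hy
        rcases hx with rfl | hx
        · rcases hy with rfl | hy
          · exact hxy.2.2 (by simpa using hxy.1)
          · exact hno y hy (nonE_symm hxy)
        · rcases hy with rfl | hy
          · exact hno x hx hxy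
          · exact hxy.2.2 (pair_mem hΔ hF hx hy))
    obtain ⟨u, hu, hgu⟩ := hFU g hg
    exact (hgU u hu).2.2 hgu

theorem cd_nonneg :
    ∀ m : ℕ, ∀ (Δ : Finset (Finset (Fin n))) (d e : ℕ), nv Δ = m → FE Δ d → d = 2 * e →
      TriFree Δ → 0 ≤ (-1 : ℚ) ^ e * sF Δ ∅ := by
  classical
  intro m
  induction m using Nat.strong_induction_on with
  | _ m ih =>
    intro Δ d e hm hΔ hde htri
    have hF := hΔ.toFlagEulerian
    rcases Nat.eq_zero_or_pos e with rfl | hpos
    · rw [pow_zero, one_mul]
      unfold sF
      apply Finset.sum_nonneg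
      intro G hG
      rw [Finset.mem_filter] at hG
      have h1 := hF.dim G hG.1
      have h2 : G.card = 0 := by omega
      rw [h2, pow_zero]
      norm_num
    obtain ⟨e', rfl⟩ : ∃ e', e = e' + 1 := ⟨e - 1, by omega⟩
    have hd : Even d := ⟨e' + 1, by omega⟩
    obtain ⟨v, hv0, hv⟩ := hΔ.pure ∅ hΔ.ne (by rw [Finset.card_empty]; omega)
    obtain ⟨z, hz, hvz⟩ := exists_nonadj hF hv0 hv
    have hvv : ({v} : Finset (Fin n)) ∈ Δ := vert_of_face hF hv (Finset.mem_insert_self _ _)
    have hzz : ({z} : Finset (Fin n)) ∈ Δ := vert_of_face hF hz (Finset.mem_insert_self _ _)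
    have hvz' : nonE Δ v z := ⟨hvv, hzz, hvz⟩
    have htf := tfg_of hF htri
    have hev : Even (d + (∅ : Finset (Fin n)).card) := by rw [Finset.card_empty]; simpa using hd
    -- the pairs
    have hpair : ∀ J ∈ Δ, J.card = 2 → 0 ≤ (-1 : ℚ) ^ e' * sF Δ J := by
      intro J hJ hJ2
      have hne : J.Nonempty := by rw [← Finset.card_pos]; omega
      have h1 := ih _ (hm ▸ nv_link hF hJ hne) (lkF Δ J) (d - J.card) e' rfl
        (fe_link hΔ hJ) (by omega) (triFree_link hF hJ htri)
      have h2 := sF_link hF.down (F := J) (K := ∅) (Finset.empty_inter _)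
      rw [Finset.empty_union, hJ2] at h2
      rw [h2]
      have h3 : (-1 : ℚ) ^ e' * ((-1 / 2 : ℚ) ^ 2 * sF (lkF Δ J) ∅)
          = (1 / 4 : ℚ) * ((-1) ^ e' * sF (lkF Δ J) ∅) := by ring
      rw [h3]
      exact mul_nonneg (by norm_num) h1
    have hQmem : ∀ J ∈ (far Δ ∅ v).erase ∅, J ⊆ Qs (nonE Δ) v ∅ ∧ J ∈ Δ ∧ J ≠ ∅ := by
      intro J hJ
      rw [Finset.mem_erase, mem_far hF, Finset.empty_union] at hJ
      refine ⟨?_, hJ.2.1, hJ.1⟩
      intro a ha
      rw [mem_Qs_empty]
      exact ⟨hvv, vert_of_face hF hJ.2.1 ha, hJ.2.2 a ha⟩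
    have hterm : ∀ J ∈ (far Δ ∅ v).erase ∅, J.card ≤ 3 →
        0 ≤ -((-1 : ℚ) ^ (e' + 1) * ((-1 : ℚ) ^ J.card * sF Δ (∅ ∪ J))) := by
      intro J hJ hJ3
      obtain ⟨_, hJΔ, hJne⟩ := hQmem J hJ
      have hJpos : 0 < J.card := Finset.card_pos.mpr (Finset.nonempty_iff_ne_empty.mpr hJne)
      rcases Nat.even_or_odd J.card with hJe | hJo
      · obtain ⟨j, hj⟩ := hJe
        have hJ2 : J.card = 2 := by omega
        rw [term_two e' hJ2, Finset.empty_union]
        exact hpair J hJΔ hJ2
      · rw [term_odd hF hv hev (e' + 1) (Finset.mem_of_mem_erase hJ) hJo]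
    rcases main_comb htf hvz' with hcard | ⟨U, hU⟩ | hfour
    · -- at most three non-neighbours
      rw [expand hF hv hv0 hev (e' + 1)]
      apply Finset.sum_nonneg
      intro J hJ
      apply hterm J hJ
      have := Finset.card_le_card (hQmem J hJ).1
      omega
    · -- contraction
      have hcs := cs_of_contr hF htri hU
      obtain ⟨h1, h2, h3, x, hxv, hxU⟩ := hU
      obtain ⟨u0, hu0, u1, hu1, hne⟩ := Finset.one_lt_card.mp (show 1 < U.card by omega)
      have hvU : ∀ u ∈ U, nonE Δ v u := fun u hu => mem_Qs_empty.mp (h1 hu)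
      have hvc : v ∈ cn Δ U := mem_cn.mpr ⟨hvv, fun u hu => (hvU u hu).2.2⟩
      have hxc : x ∈ cn Δ U := mem_cn.mpr ⟨(hxU u0 hu0).1, fun u hu => (hxU u hu).2.2⟩
      have hcs' := cs_cn hΔ htri hcs hu0
      rw [sF_split hΔ hd htri hcs hu0 hvc, mul_add]
      apply add_nonneg
      · exact ih _ (hm ▸ nv_con hF hcs hu0 hu1 hne.symm) (con Δ U u0) d (e' + 1) rfl
          (fe_con hΔ hcs hu0) hde (triFree_con hF hcs hu0 htri)
      · exact ih _ (hm ▸ nv_con hF hcs' hvc hxc hxv) (con Δ (cn Δ U) v) d (e' + 1) rfl
          (fe_con hΔ hcs' hvc) hde (triFree_con hF hcs' hvc htri)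
    · -- four non-neighbours
      obtain ⟨x, y, p, q, hxy, hxp, hxq, hyp, hyq, hpq, hQ, hst⟩ := hfour
      have qm : ∀ a, a ∈ ({x, y, p, q} : Finset (Fin n)) → nonE Δ v a := by
        intro a ha
        rw [← hQ] at ha
        exact mem_Qs_empty.mp ha
      have qx := qm x (by simp)
      have qy := qm y (by simp)
      have qp := qm p (by simp)
      have qq := qm q (by simp)
      have hadj : ∀ a b, nonE Δ v a → nonE Δ v b → ({a, b} : Finset (Fin n)) ∈ Δ := by
        intro a b ha hb
        by_contra hab
        exact htri a b v ⟨ha.2.1, hb.2.1, hab⟩ (nonE_symm hb) (nonE_symm ha)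
      have hQface : ({x, y, p, q} : Finset (Fin n)) ∈ Δ := by
        apply hF.flag
        intro a ha b hb
        exact hadj a b (qm a ha) (qm b hb)
      have hQcard : ({x, y, p, q} : Finset (Fin n)).card = 4 := by
        rw [Finset.card_insert_of_notMem, Finset.card_insert_of_notMem, Finset.card_pair hpq]
        · simp only [Finset.mem_insert, Finset.mem_singleton]
          tauto
        · simp only [Finset.mem_insert, Finset.mem_singleton]
          tauto
      have hd4 : 4 ≤ d := by
        have := hF.dim _ hQface
        omega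
      have hP : ({p, q} : Finset (Fin n)) ∈ Δ := hadj p q qp qq
      have hPcard : ({p, q} : Finset (Fin n)).card = 2 := Finset.card_pair hpq
      set L := lkF Δ ({p, q} : Finset (Fin n)) with hL
      have hLfe : FE L (d - 2) := by
        have := fe_link hΔ hP
        rw [hPcard] at this
        exact this
      have hLF := hLfe.toFlagEulerian
      have hXY : ({x, y} : Finset (Fin n)) ∩ {p, q} = ∅ := by
        rw [← Finset.disjoint_iff_inter_eq_empty, Finset.disjoint_left]
        intro a ha hb
        simp only [Finset.mem_insert, Finset.mem_singleton] at ha hb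
        rcases ha with rfl | rfl
        · rcases hb with h | h
          · exact hxp h
          · exact hxq h
        · rcases hb with h | h
          · exact hyp h
          · exact hyq h
      have hXYU : ({x, y} : Finset (Fin n)) ∪ {p, q} = {x, y, p, q} := by
        ext a
        simp only [Finset.mem_union, Finset.mem_insert, Finset.mem_singleton]
        tauto
      have hXYL : ({x, y} : Finset (Fin n)) ∈ L := by
        rw [hL, mem_lkF, hXYU]
        exact ⟨hadj x y qx qy, hXY, hQface⟩
      -- the simplex `{x, y}` is contractible in the link of `{p, q}`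
      have hcs : CS L {x, y} := by
        refine ⟨hXYL, ?_⟩
        intro F hFL hFU
        have hFL' := mem_lkF.mp (hL ▸ hFL)
        by_contra hcon
        push Not at hcon
        have key : ∀ a, a ∈ ({x, y} : Finset (Fin n)) → ∃ s ∈ F, nonE Δ s a := by
          intro a ha
          have haQ : nonE Δ v a := qm a (by
            simp only [Finset.mem_insert, Finset.mem_singleton] at ha ⊢
            tauto)
          have hapq : a ∉ ({p, q} : Finset (Fin n)) := by
            intro hh
            have : a ∈ ({x, y} : Finset (Fin n)) ∩ {p, q} := Finset.mem_inter.mpr ⟨ha, hh⟩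
            rw [hXY] at this
            exact absurd this (Finset.notMem_empty a)
          by_contra hno
          push Not at hno
          apply hcon a ha
          have hbig : insert a F ∪ {p, q} ∈ Δ := by
            rw [Finset.insert_union]
            apply face_of_indep hF
            · intro w hw
              rw [Finset.mem_insert] at hw
              rcases hw with rfl | hw
              · exact haQ.2.1
              · exact vert_of_face hF hFL'.2.2 hw
            · have hone : ∀ w ∈ F ∪ {p, q}, ¬ nonE Δ w a := by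
                intro w hw hwa
                rw [Finset.mem_union] at hw
                rcases hw with hw | hw
                · exact hno w hw hwa
                · have hwQ : nonE Δ v w := qm w (by
                    simp only [Finset.mem_insert, Finset.mem_singleton] at hw ⊢
                    tauto)
                  exact hwa.2.2 (hadj w a hwQ haQ)
              intro w hw w' hw' hww
              rw [Finset.mem_insert] at hw hw'
              rcases hw with rfl | hw
              · rcases hw' with rfl | hw'
                · exact hww.2.2 (by simpa using hww.1)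
                · exact hone w' hw' (nonE_symm hww)
              · rcases hw' with rfl | hw'
                · exact hone w hw hww
                · exact hww.2.2 (pair_mem hF hFL'.2.2 hw hw')
          rw [hL, mem_lkF]
          refine ⟨hF.down _ hbig _ Finset.subset_union_left, ?_, hbig⟩
          rw [Finset.insert_inter_of_notMem hapq]
          exact hFL'.2.1
        obtain ⟨s, hs, hsx⟩ := key x (Finset.mem_insert_self _ _)
        obtain ⟨t, ht, hty⟩ := key y (Finset.mem_insert_of_mem (Finset.mem_singleton_self _))
        have hsy : ¬ nonE Δ s y := by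
          intro hsy
          obtain ⟨u, hu, hsu⟩ := hFU s hs
          have hsu' := (mem_lkF.mp (hL ▸ hsu)).1
          simp only [Finset.mem_insert, Finset.mem_singleton] at hu
          rcases hu with rfl | rfl
          · exact hsx.2.2 hsu'
          · exact hsy.2.2 hsu'
        have htx : ¬ nonE Δ t x := by
          intro htx
          obtain ⟨u, hu, htu⟩ := hFU t ht
          have htu' := (mem_lkF.mp (hL ▸ htu)).1
          simp only [Finset.mem_insert, Finset.mem_singleton] at hu
          rcases hu with rfl | rfl
          · exact htx.2.2 htu'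
          · exact hty.2.2 htu'
        have hpq' : ∀ w ∈ F, ∀ r ∈ ({p, q} : Finset (Fin n)), ¬ nonE Δ w r := by
          intro w hw r hr hwr
          exact hwr.2.2 (pair_mem hF hFL'.2.2 (Finset.mem_union_left _ hw)
            (Finset.mem_union_right _ hr))
        have hfin := hst s t hsx hsy (hpq' s hs p (by simp)) (hpq' s hs q (by simp)) hty htx
          (hpq' t ht p (by simp)) (hpq' t ht q (by simp))
        exact hfin.2.2 (pair_mem hF hFL'.1 hs ht)
      have hxin : x ∈ ({x, y} : Finset (Fin n)) := Finset.mem_insert_self _ _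
      have hyin : y ∈ ({x, y} : Finset (Fin n)) :=
        Finset.mem_insert_of_mem (Finset.mem_singleton_self _)
      have hLnv : nv (con L {x, y} x) < m := by
        have h1 := nv_con hLF hcs hxin hyin hxy.symm
        have h2 : nv L < nv Δ := nv_link hF hP ⟨p, by simp⟩
        omega
      have hd2 : Even (d - 2) := ⟨e', by omega⟩
      have hLtri : TriFree L := triFree_link hF hP htri
      have h1 := ih _ hLnv (con L {x, y} x) (d - 2) e' rfl (fe_con hLfe hcs hxin) (by omega)
        (triFree_con hLF hcs hxin hLtri)
      rw [(sF_con hLfe hd2 hcs hxin).1] at h1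
      -- inclusion-exclusion
      have h2 : ∑ G ∈ D0 L {x, y}, (-1 / 2 : ℚ) ^ G.card = sF L ∅ + sF L {x, y} := by
        have h3 := incl_excl L ∅ {x, y} (fun G => (-1 / 2 : ℚ) ^ G.card)
        have h4 : (L.filter (fun G => ∅ ⊆ G)).filter (fun G => Disjoint G {x, y})
            = D0 L {x, y} := by
          rw [Finset.filter_true_of_mem (s := L) (fun G _ => Finset.empty_subset G)]
          rfl
        rw [h4] at h3
        rw [h3, Finset.powerset_insert, Finset.sum_union]
        · have hsing : ∀ a, a ∈ ({x, y} : Finset (Fin n)) → sF L {a} = 0 := by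
            intro a ha
            apply sF_eq_zero hLF
            · exact vert_of_face hLF hXYL ha
            · rw [Finset.card_singleton]
              exact hd2.add_one
          rw [Finset.sum_image]
          · have e1 : ({y} : Finset (Fin n)).powerset = {∅, {y}} := by
              ext a
              rw [Finset.mem_powerset, Finset.subset_singleton_iff, Finset.mem_insert,
                Finset.mem_singleton]
            have hne : (∅ : Finset (Fin n)) ≠ {y} := (Finset.singleton_ne_empty y).symm
            rw [e1, Finset.sum_pair hne, Finset.sum_pair hne]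
            have s1 := hsing x hxin
            have s2 := hsing y hyin
            have e2 : insert x (∅ : Finset (Fin n)) = {x} := insert_empty_eq x
            unfold sF at s1 s2 ⊢
            rw [e2, Finset.empty_union, Finset.empty_union, Finset.empty_union,
              Finset.empty_union, Finset.card_empty, Finset.card_singleton,
              Finset.card_singleton, s1, s2, Finset.card_pair hxy]
            ring
          · intro a ha b hb hab
            rw [Finset.mem_coe, Finset.mem_powerset, Finset.subset_singleton_iff] at ha hb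
            have hxa : x ∉ a := by
              rcases ha with rfl | rfl
              · exact Finset.notMem_empty x
              · rw [Finset.mem_singleton]; exact hxy
            have hxb : x ∉ b := by
              rcases hb with rfl | rfl
              · exact Finset.notMem_empty x
              · rw [Finset.mem_singleton]; exact hxy
            have := congrArg (fun s => Finset.erase s x) hab
            simp only [Finset.erase_insert hxa, Finset.erase_insert hxb] at this
            exact this
        · rw [Finset.disjoint_left]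
          intro a ha hb
          rw [Finset.mem_powerset, Finset.subset_singleton_iff] at ha
          rw [Finset.mem_image] at hb
          obtain ⟨b, _, rfl⟩ := hb
          have hx1 : x ∈ insert x b := Finset.mem_insert_self _ _
          rcases ha with h | h
          · rw [h] at hx1; exact absurd hx1 (Finset.notMem_empty x)
          · rw [h, Finset.mem_singleton] at hx1; exact hxy hx1
      rw [h2] at h1
      have h5 : sF Δ {p, q} = (1 / 4 : ℚ) * sF L ∅ := by
        have := sF_link hF.down (F := {p, q}) (K := ∅) (Finset.empty_inter _)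
        rw [Finset.empty_union, hPcard, ← hL] at this
        rw [this]; ring
      have h6 : sF Δ {x, y, p, q} = (1 / 4 : ℚ) * sF L {x, y} := by
        have := sF_link hF.down (F := {p, q}) (K := {x, y}) hXY
        rw [hXYU, hPcard, ← hL] at this
        rw [this]; ring
      have h7 : 0 ≤ (-1 : ℚ) ^ e' * (sF Δ {p, q} + sF Δ {x, y, p, q}) := by
        rw [h5, h6]
        have : (-1 : ℚ) ^ e' * ((1 / 4 : ℚ) * sF L ∅ + (1 / 4 : ℚ) * sF L {x, y})
            = (1 / 4 : ℚ) * ((-1) ^ e' * (sF L ∅ + sF L {x, y})) := by ring
        rw [this]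
        exact mul_nonneg (by norm_num) h1
      -- the sum
      have hfarmem : ∀ J, J ∈ Δ → J ⊆ ({x, y, p, q} : Finset (Fin n)) → J ≠ ∅ →
          J ∈ (far Δ ∅ v).erase ∅ := by
        intro J hJ hJQ hne
        rw [Finset.mem_erase, mem_far hF, Finset.empty_union]
        exact ⟨hne, hJ, fun a ha => (qm a (hJQ ha)).2.2⟩
      have hm1 : ({p, q} : Finset (Fin n)) ∈ (far Δ ∅ v).erase ∅ := by
        apply hfarmem _ hP
        · intro a ha
          simp only [Finset.mem_insert, Finset.mem_singleton] at ha ⊢
          tauto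
        · exact Finset.insert_ne_empty _ _
      have hm2 : ({x, y, p, q} : Finset (Fin n)) ∈ ((far Δ ∅ v).erase ∅).erase {p, q} := by
        rw [Finset.mem_erase]
        refine ⟨?_, hfarmem _ hQface (Finset.Subset.refl _) (Finset.insert_ne_empty _ _)⟩
        intro h
        have := congrArg Finset.card h
        rw [hQcard, hPcard] at this
        omega
      rw [expand hF hv hv0 hev (e' + 1), ← Finset.add_sum_erase _ _ hm1,
        ← Finset.add_sum_erase _ _ hm2, ← add_assoc]
      apply add_nonneg
      · rw [hPcard, hQcard, Finset.empty_union, Finset.empty_union]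
        have h8 : -((-1 : ℚ) ^ (e' + 1) * ((-1) ^ 2 * sF Δ {p, q}))
              + -((-1 : ℚ) ^ (e' + 1) * ((-1) ^ 4 * sF Δ {x, y, p, q}))
            = (-1 : ℚ) ^ e' * (sF Δ {p, q} + sF Δ {x, y, p, q}) := by
          rw [pow_succ]; ring
        rw [h8]
        exact h7
      · apply Finset.sum_nonneg
        intro J hJ
        rw [Finset.mem_erase, Finset.mem_erase] at hJ
        obtain ⟨hJ1, _, hJ2⟩ := hJ
        apply hterm J hJ2
        have hsub := (hQmem J hJ2).1
        rw [hQ] at hsub
        have hle := Finset.card_le_card hsub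
        rw [hQcard] at hle
        by_contra hgt
        apply hJ1
        apply Finset.eq_of_subset_of_card_le hsub
        omega

end Pool.Agent.H41.TF
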