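import Pool.Agent.H41.TF.Thompson

/-!
# Localised homeomorphisms and the basic rotation
-/

set_option autoImplicit false

namespace Pool.Agent.H41.TF

open Classical in
/-- `g` copied to the interval of `w`, identity elsewhere (underlying function). -/
noncomputable def locFun (w : Word) (g : UI ≃o UI) (x : UI) : UI :=
  if h : ∃ y, pt w y = x then pt w (g h.choose) else x

theorem locFun_pt (w : Word) (g : UI ≃o UI) (y : UI) : locFun w g (pt w y) = pt w (g y) := by
  have h : ∃ z, pt w z = pt w y := ⟨y, rfl⟩
  rw [locFun, dif_pos h, pt_injective w h.choose_spec]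

theorem locFun_out (w : Word) (g : UI ≃o UI) (x : UI) (h : ¬ ∃ y, pt w y = x) :
    locFun w g x = x := by
  rw [locFun, dif_neg h]

theorem locFun_mono (w : Word) (g : UI ≃o UI) : Monotone (locFun w g) := by
  intro x y hxy
  by_cases hx : ∃ a, pt w a = x
  · obtain ⟨a, rfl⟩ := hx
    by_cases hy : ∃ b, pt w b = y
    · obtain ⟨b, rfl⟩ := hy
      rw [locFun_pt, locFun_pt]
      exact (pt_strictMono w).monotone (g.monotone ((pt_strictMono w).le_iff_le.1 hxy))
    · rw [locFun_pt, locFun_out w g y hy]
      by_contra hlt
      rw [not_le] at hlt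
      exact hy (exists_of_mem w y ((pt_zero_le w a).trans hxy) (hlt.le.trans (pt_le_one w _)))
  · rw [locFun_out w g x hx]
    by_cases hy : ∃ b, pt w b = y
    · obtain ⟨b, rfl⟩ := hy
      rw [locFun_pt]
      by_contra hlt
      rw [not_le] at hlt
      exact hx (exists_of_mem w x ((pt_zero_le w _).trans hlt.le) (hxy.trans (pt_le_one w b)))
    · rw [locFun_out w g y hy]; exact hxy

theorem locFun_comp (w : Word) (g h : UI ≃o UI) (x : UI) :
    locFun w g (locFun w h x) = locFun w (g * h) x := by
  by_cases hx : ∃ a, pt w a = x
  · obtain ⟨a, rfl⟩ := hx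
    rw [locFun_pt, locFun_pt, locFun_pt, RelIso.mul_apply]
  · rw [locFun_out w h x hx, locFun_out w g x hx, locFun_out w _ x hx]

theorem locFun_one (w : Word) (x : UI) : locFun w 1 x = x := by
  by_cases hx : ∃ a, pt w a = x
  · obtain ⟨a, rfl⟩ := hx
    rw [locFun_pt]; rfl
  · rw [locFun_out w _ x hx]

/-- `g` copied to the interval of `w`, identity elsewhere. -/
noncomputable def loc (w : Word) (g : UI ≃o UI) : UI ≃o UI where
  toFun := locFun w g
  invFun := locFun w g⁻¹
  left_inv x := by rw [locFun_comp, inv_mul_cancel, locFun_one]
  right_inv x := by rw [locFun_comp, mul_inv_cancel, locFun_one]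
  map_rel_iff' {a b} := by
    constructor
    · intro h
      have h' := locFun_mono w g⁻¹ h
      simp only [Equiv.coe_fn_mk] at h'
      rwa [locFun_comp, locFun_comp, inv_mul_cancel, locFun_one, locFun_one] at h'
    · intro h; exact locFun_mono w g h

theorem loc_pt (w : Word) (g : UI ≃o UI) (y : UI) : loc w g (pt w y) = pt w (g y) :=
  locFun_pt w g y

theorem loc_out (w : Word) (g : UI ≃o UI) (x : UI) (h : ¬ ∃ y, pt w y = x) : loc w g x = x :=
  locFun_out w g x h

theorem loc_mul (w : Word) (g h : UI ≃o UI) : loc w (g * h) = loc w g * loc w h := by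
  refine DFunLike.ext _ _ fun x => ?_
  rw [RelIso.mul_apply]
  exact (locFun_comp w g h x).symm

theorem loc_one (w : Word) : loc w 1 = 1 := by
  refine DFunLike.ext _ _ fun x => ?_
  exact locFun_one w x

theorem loc_inv (w : Word) (g : UI ≃o UI) : loc w g⁻¹ = (loc w g)⁻¹ := by
  rw [eq_inv_iff_mul_eq_one, ← loc_mul, inv_mul_cancel, loc_one]

/-- `loc w` as a homomorphism. -/
noncomputable def locHom (w : Word) : (UI ≃o UI) →* (UI ≃o UI) where
  toFun := loc w
  map_one' := loc_one w
  map_mul' := loc_mul w

@[simp] theorem locHom_apply (w : Word) (g : UI ≃o UI) : locHom w g = loc w g := rfl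

theorem loc_nil (g : UI ≃o UI) : loc [] g = g := by
  refine DFunLike.ext _ _ fun x => ?_
  exact loc_pt [] g x

theorem loc_append (w u : Word) (g : UI ≃o UI) : loc (w ++ u) g = loc w (loc u g) := by
  refine DFunLike.ext _ _ fun x => ?_
  by_cases hx : ∃ a, pt w a = x
  · obtain ⟨a, rfl⟩ := hx
    rw [loc_pt]
    by_cases ha : ∃ b, pt u b = a
    · obtain ⟨b, rfl⟩ := ha
      rw [loc_pt, ← pt_append, loc_pt, pt_append]
    · rw [loc_out u g a ha, loc_out]
      rintro ⟨b, hb⟩
      rw [pt_append] at hb
      exact ha ⟨b, pt_injective w hb⟩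
  · rw [loc_out w _ x hx, loc_out]
    rintro ⟨b, hb⟩
    rw [pt_append] at hb
    exact hx ⟨_, hb⟩

theorem Maps.loc_conj {t : UI ≃o UI} {w v : Word} (h : Maps t w v) (m : UI ≃o UI) :
    t * loc w m * t⁻¹ = loc v m := by
  refine DFunLike.ext _ _ fun x => ?_
  rw [RelIso.mul_apply, RelIso.mul_apply]
  by_cases hx : ∃ a, pt v a = x
  · obtain ⟨a, rfl⟩ := hx
    rw [h.inv a, loc_pt, h, loc_pt]
  · rw [loc_out v m x hx, loc_out, RelIso.apply_inv_self]
    rintro ⟨b, hb⟩
    apply hx
    refine ⟨b, ?_⟩
    rw [← h b, hb, RelIso.apply_inv_self]

theorem Maps.loc_conj' {t : UI ≃o UI} {w v : Word} (h : Maps t w v) (m : UI ≃o UI) :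
    loc w m = t⁻¹ * loc v m * t := by
  rw [← h.loc_conj m]; group

theorem Maps.locAt {g : UI ≃o UI} {u v : Word} (h : Maps g u v) (w : Word) :
    Maps (loc w g) (w ++ u) (w ++ v) := fun x => by
  rw [pt_append, loc_pt, h, pt_append]

/-- Incomparable words. -/
def Inc (w v : Word) : Prop := ¬ w <+: v ∧ ¬ v <+: w

theorem loc_fix_of_inc {w v : Word} (h : Inc w v) (g : UI ≃o UI) (x : UI) :
    loc w g (pt v x) = pt v x := by
  by_cases hx : ∃ a, pt w a = pt v x
  · obtain ⟨a, ha⟩ := hx
    rcases common w v a x ha with h1 | h1 | ⟨_, _, _, _, _, h1, _⟩ | ⟨_, _, _, _, _, h1, _⟩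
    · exact absurd h1 h.1
    · exact absurd h1 h.2
    · rw [← ha, h1, loc_pt, map_one']
    · rw [← ha, h1, loc_pt, map_zero']
  · exact loc_out w g _ hx

theorem Maps.loc_inc {w v : Word} (h : Inc w v) (g : UI ≃o UI) : Maps (loc w g) v v :=
  fun x => loc_fix_of_inc h g x

theorem Comb.locAt {g : UI ≃o UI} (hg : Comb g) (w : Word) : Comb (loc w g) := by
  obtain ⟨M, hM⟩ := hg
  refine ⟨w.length + M, fun v hv => ?_⟩
  by_cases h1 : w <+: v
  · obtain ⟨u, rfl⟩ := h1
    rw [List.length_append] at hv
    obtain ⟨u', hu'⟩ := hM u (by omega)
    exact ⟨w ++ u', hu'.locAt w⟩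
  · refine ⟨v, Maps.loc_inc ⟨h1, fun h2 => h1 ?_⟩ g⟩
    have := h2.eq_of_length (le_antisymm h2.length_le (by omega))
    rw [this]

/-- The basic element of Thompson's group: `00 ↦ 0`, `01 ↦ 10`, `1 ↦ 11`. -/
noncomputable def rot : UI ≃o UI where
  toFun t := ⟨min (2 * t.1) (min (t.1 + 1 / 4) ((t.1 + 1) / 2)), by
    have h0 := t.2.1
    have h1 := t.2.2
    constructor
    · exact le_min (by linarith) (le_min (by linarith) (by linarith))
    · exact (min_le_right _ _).trans ((min_le_right _ _).trans (by linarith))⟩
  invFun t := ⟨max (t.1 / 2) (max (t.1 - 1 / 4) (2 * t.1 - 1)), by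
    have h0 := t.2.1
    have h1 := t.2.2
    constructor
    · exact le_max_of_le_left (by linarith)
    · exact max_le (by linarith) (max_le (by linarith) (by linarith))⟩
  left_inv t := by
    have h0 := t.2.1
    have h1 := t.2.2
    apply Subtype.ext
    simp only
    rcases le_total t.1 (1 / 4) with h | h
    · rw [min_eq_left (le_min (by linarith) (by linarith)),
        max_eq_left (max_le (by linarith) (by linarith))]
      ring
    · rcases le_total t.1 (1 / 2) with h' | h'
      · rw [min_eq_right (min_le_of_left_le (by linarith)), min_eq_left (by linarith),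
          max_eq_right (le_max_of_le_left (by linarith)), max_eq_left (by linarith)]
        ring
      · rw [min_eq_right (min_le_of_left_le (by linarith)), min_eq_right (by linarith),
          max_eq_right (le_max_of_le_left (by linarith)), max_eq_right (by linarith)]
        ring
  right_inv t := by
    have h0 := t.2.1
    have h1 := t.2.2
    apply Subtype.ext
    simp only
    rcases le_total t.1 (1 / 2) with h | h
    · rw [max_eq_left (max_le (by linarith) (by linarith)),
        min_eq_left (le_min (by linarith) (by linarith))]
      ring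
    · rcases le_total t.1 (3 / 4) with h' | h'
      · rw [max_eq_right (le_max_of_le_left (by linarith)), max_eq_left (by linarith),
          min_eq_right (min_le_of_left_le (by linarith)), min_eq_left (by linarith)]
        ring
      · rw [max_eq_right (le_max_of_le_left (by linarith)), max_eq_right (by linarith),
          min_eq_right (min_le_of_left_le (by linarith)), min_eq_right (by linarith)]
        ring
  map_rel_iff' {a b} := by
    change min (2 * a.1) (min (a.1 + 1 / 4) ((a.1 + 1) / 2)) ≤
      min (2 * b.1) (min (b.1 + 1 / 4) ((b.1 + 1) / 2)) ↔ a.1 ≤ b.1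
    constructor
    · intro h
      by_contra hlt
      rw [not_le] at hlt
      have : min (2 * b.1) (min (b.1 + 1 / 4) ((b.1 + 1) / 2)) <
          min (2 * a.1) (min (a.1 + 1 / 4) ((a.1 + 1) / 2)) := by
        refine lt_min ?_ (lt_min ?_ ?_)
        · exact (min_le_left _ _).trans_lt (by linarith)
        · exact (min_le_right _ _).trans_lt ((min_le_left _ _).trans_lt (by linarith))
        · exact (min_le_right _ _).trans_lt ((min_le_right _ _).trans_lt (by linarith))
      exact absurd h (not_le.2 this)
    · intro h
      exact min_le_min (by linarith) (min_le_min (by linarith) (by linarith))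

theorem rot_val (t : UI) :
    ((rot t : UI) : ℝ) = min (2 * t.1) (min (t.1 + 1 / 4) ((t.1 + 1) / 2)) := rfl

theorem rot_00 : Maps rot [false, false] [false] := fun x => by
  have h0 := x.2.1
  have h1 := x.2.2
  apply Subtype.ext
  rw [rot_val]
  simp only [pt_cons, pt_nil, half_false]
  rw [min_eq_left (le_min (by linarith) (by linarith))]
  ring

theorem rot_01 : Maps rot [false, true] [true, false] := fun x => by
  have h0 := x.2.1
  have h1 := x.2.2
  apply Subtype.ext
  rw [rot_val]
  simp only [pt_cons, pt_nil, half_false, half_true]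
  rw [min_eq_right (min_le_of_left_le (by linarith)), min_eq_left (by linarith)]
  ring

theorem rot_1 : Maps rot [true] [true, true] := fun x => by
  have h0 := x.2.1
  have h1 := x.2.2
  apply Subtype.ext
  rw [rot_val]
  simp only [pt_cons, pt_nil, half_true]
  rw [min_eq_right (min_le_of_left_le (by linarith)), min_eq_right (by linarith)]
  ring

theorem comb_rot : Comb rot := by
  refine ⟨2, fun w hw => ?_⟩
  match w, hw with
  | false :: false :: w, _ => exact ⟨_, rot_00.append w⟩
  | false :: true :: w, _ => exact ⟨_, rot_01.append w⟩
  | true :: b :: w, _ => exact ⟨_, rot_1.append (b :: w)⟩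

/-- Strip a word from the front. -/
def strip : Word → Word → Option Word
  | [], v => some v
  | _ :: _, [] => none
  | b :: w, c :: v => if b = c then strip w v else none

theorem strip_some : ∀ {w v r : Word}, strip w v = some r → v = w ++ r := by
  intro w
  induction w with
  | nil => intro v r h; simp only [strip, Option.some.injEq] at h; rw [h]; rfl
  | cons b w ih =>
    intro v r h
    cases v with
    | nil => simp [strip] at h
    | cons c v =>
      simp only [strip] at h
      split_ifs at h with hb
      rw [hb, ih h]; rfl

theorem strip_none : ∀ {w v : Word}, strip w v = none → ¬ w <+: v := by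
  intro w
  induction w with
  | nil => intro v h; simp [strip] at h
  | cons b w ih =>
    intro v h hp
    cases v with
    | nil => simp at hp
    | cons c v =>
      simp only [strip] at h
      rw [List.cons_prefix_cons] at hp
      rw [if_pos hp.1] at h
      exact ih h hp.2

/-- The action of `rot` at the root on words. -/
def rw0 : Word → Option Word
  | false :: false :: r => some (false :: r)
  | false :: true :: r => some (true :: false :: r)
  | true :: r => some (true :: true :: r)
  | _ => none

/-- The action of `rot⁻¹` at the root on words. -/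
def rw1 : Word → Option Word
  | false :: r => some (false :: false :: r)
  | true :: false :: r => some (false :: true :: r)
  | true :: true :: r => some (true :: r)
  | _ => none

theorem rw0_maps : ∀ {w v : Word}, rw0 w = some v → Maps rot w v
  | [], v, h => by simp [rw0] at h
  | [false], v, h => by simp [rw0] at h
  | false :: false :: r, v, h => by
    simp only [rw0, Option.some.injEq] at h; subst h; exact rot_00.append r
  | false :: true :: r, v, h => by
    simp only [rw0, Option.some.injEq] at h; subst h; exact rot_01.append r
  | true :: r, v, h => by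
    simp only [rw0, Option.some.injEq] at h; subst h; exact rot_1.append r

theorem rw1_maps : ∀ {w v : Word}, rw1 w = some v → Maps rot⁻¹ w v
  | [], v, h => by simp [rw1] at h
  | [true], v, h => by simp [rw1] at h
  | false :: r, v, h => by
    simp only [rw1, Option.some.injEq] at h; subst h; exact rot_00.inv.append r
  | true :: false :: r, v, h => by
    simp only [rw1, Option.some.injEq] at h; subst h; exact rot_01.inv.append r
  | true :: true :: r, v, h => by
    simp only [rw1, Option.some.injEq] at h; subst h; exact rot_1.inv.append r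

/-- One instruction: `rot` (`false`) or its inverse (`true`), placed at a word. -/
noncomputable def instr (p : Word × Bool) : UI ≃o UI := loc p.1 (if p.2 then rot⁻¹ else rot)

/-- The action of an instruction on words. -/
def step (p : Word × Bool) (w : Word) : Option Word :=
  match strip p.1 w with
  | some r => ((if p.2 then rw1 else rw0) r).map (p.1 ++ ·)
  | none => match strip w p.1 with
    | some _ => none
    | none => some w

theorem step_maps {p : Word × Bool} {w v : Word} (h : step p w = some v) :
    Maps (instr p) w v := by
  rcases p with ⟨u, s⟩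
  rw [step] at h
  cases hs : strip u w with
  | some r =>
    simp only [hs] at h
    have hw := strip_some hs
    subst hw
    rw [Option.map_eq_some_iff] at h
    obtain ⟨r', hr', rfl⟩ := h
    rw [instr]
    cases s
    · simp only [Bool.false_eq_true, if_false] at hr' ⊢
      exact (rw0_maps hr').locAt u
    · simp only [if_true] at hr' ⊢
      exact (rw1_maps hr').locAt u
  | none =>
    simp only [hs] at h
    cases hs' : strip w u with
    | some r => simp [hs'] at h
    | none =>
      simp only [hs', Option.some.injEq] at h
      subst h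
      exact Maps.loc_inc ⟨strip_none hs, strip_none hs'⟩ _

/-- Product of instructions, the head acting last. -/
noncomputable def prog : List (Word × Bool) → (UI ≃o UI)
  | [] => 1
  | p :: l => instr p * prog l

/-- The action of a product of instructions on words. -/
def run : List (Word × Bool) → Word → Option Word
  | [], w => some w
  | p :: l, w => (run l w).bind (step p)

theorem run_maps : ∀ {l : List (Word × Bool)} {w v : Word}, run l w = some v →
    Maps (prog l) w v
  | [], w, v, h => by
    simp only [run, Option.some.injEq] at h; subst h; exact Maps.one w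
  | p :: l, w, v, h => by
    rw [run, Option.bind_eq_some_iff] at h
    obtain ⟨u, hu, hv⟩ := h
    exact (run_maps hu).mul (step_maps hv)

theorem comb_instr (p : Word × Bool) : Comb (instr p) := by
  rcases p with ⟨u, s⟩
  cases s
  · exact comb_rot.locAt u
  · exact comb_rot.inv.locAt u

theorem comb_prog : ∀ l : List (Word × Bool), Comb (prog l)
  | [] => Comb.one
  | p :: l => (comb_instr p).mul (comb_prog l)

/-- Equality of homeomorphisms from equality on a cover by words. -/
theorem ext_words {g h : UI ≃o UI} (n : ℕ)
    (H : ∀ w : Word, w.length = n → ∀ x, g (pt w x) = h (pt w x)) : g = h := by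
  refine DFunLike.ext _ _ fun x => ?_
  obtain ⟨w, hw, y, rfl⟩ := exists_pt n x
  exact H w hw y

theorem eq_of_maps {g h : UI ≃o UI} (n : ℕ)
    (H : ∀ w : Word, w.length = n → ∃ v, Maps g w v ∧ Maps h w v) : g = h :=
  ext_words n fun w hw x => by
    obtain ⟨v, h1, h2⟩ := H w hw
    rw [h1 x, h2 x]

end Pool.Agent.H41.TF
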