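import Pool.Agent.H41.TF.Ch

/-!
# Modules are contractible
-/

set_option autoImplicit false

namespace Pool.Agent.H41.TF

open Finset

variable {α : Type*} [Fintype α] [DecidableEq α] {A : α → α → Prop} [DecidableRel A]

/-- A set `U` of neighbours of `v` such that `ab|c` for all `a, b` in `U` and `c` not in `U`. -/
def Module' (A : α → α → Prop) [DecidableRel A] (v : α) (U : Finset α) : Prop :=
  (∀ u ∈ U, A v u) ∧ ∀ a ∈ U, ∀ b ∈ U, a ≠ b → ∀ c, A v c → c ∉ U → Ch A v a b c

/-- A bad pair at `G`. -/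
def Bad (A : α → α → Prop) [DecidableRel A] (v : α) (U G : Finset α) (s t : α) : Prop :=
  El A v G s ∧ El A v G t ∧ ¬ A s t ∧ (∀ u ∈ U, u ∈ Qs A v G → A s u ∨ A t u) ∧
    (∃ u ∈ U, u ∈ Qs A v G ∧ ¬ A s u) ∧ (∃ u ∈ U, u ∈ Qs A v G ∧ ¬ A t u)

theorem Bad.swap (h : Tfg A) {v : α} {U G : Finset α} {s t : α} (hb : Bad A v U G s t) :
    Bad A v U G t s :=
  ⟨hb.2.1, hb.1, fun hh => hb.2.2.1 (h.symm _ _ hh),
    fun u hu hq => (hb.2.2.2.1 u hu hq).symm, hb.2.2.2.2.2, hb.2.2.2.2.1⟩

theorem bad_star (h : Tfg A) {v : α} {U G : Finset α}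
    (ih : ∀ y, y ∉ G → Ok A v (insert y G) → ∀ s t, ¬ Bad A v U (insert y G) s t)
    (hG : Ok A v G) {s t : α} (hb : Bad A v U G s t) {y : α} (hy : El A v G y) (hyG : y ∉ G)
    (hys : ¬ A y s) (hyt : ¬ A y t) :
    (∀ u ∈ U, u ∈ Qs A v G → ¬ A s u → A y u) ∨ (∀ u ∈ U, u ∈ Qs A v G → ¬ A t u → A y u) := by
  by_contra hcon
  push Not at hcon
  obtain ⟨⟨u1, hu1, hq1, hs1, hy1⟩, ⟨u2, hu2, hq2, ht2, hy2⟩⟩ := hcon
  refine ih y hyG (ok_insert h hG hy) s t ⟨hb.1.insert hys, hb.2.1.insert hyt, hb.2.2.1, ?_,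
    ⟨u1, hu1, mem_Qs_insert.mpr ⟨hq1, hy1⟩, hs1⟩, ⟨u2, hu2, mem_Qs_insert.mpr ⟨hq2, hy2⟩, ht2⟩⟩
  intro u hu hq
  rw [mem_Qs_insert] at hq
  exact hb.2.2.2.1 u hu hq.1

theorem bad_disj (h : Tfg A) {v z : α} (hv : A v z) {U G : Finset α}
    (ih : ∀ y, y ∉ G → Ok A v (insert y G) → ∀ s t, ¬ Bad A v U (insert y G) s t)
    (hG : Ok A v G) {s t : α} (hb : Bad A v U G s t) {w : α} (hw : w ∈ Qs A v G)
    (hsw : A s w) (htw : A t w) : False := by
  obtain ⟨c, hc, hsc, htc⟩ := f1 h hv hG hb.1 hb.2.1 hb.2.2.1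
  have hcw : c ≠ w := by
    rintro rfl
    exact hsc hsw
  obtain ⟨y, hy, hyw, hy'⟩ := exists_single h hG hw hc hcw.symm
  rcases bad_star h ih hG hb hy (el_notMem h hw hyw) (nonadj_of_common h hyw hsw)
    (nonadj_of_common h hyw htw) with h1 | h1
  · obtain ⟨u, hu, hq, hsu⟩ := hb.2.2.2.2.1
    have hyu := h1 u hu hq hsu
    by_cases huw : u = w
    · subst huw; exact hsu hsw
    · exact hy' u hq huw hyu
  · obtain ⟨u, hu, hq, htu⟩ := hb.2.2.2.2.2
    have hyu := h1 u hu hq htu
    by_cases huw : u = w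
    · subst huw; exact htu htw
    · exact hy' u hq huw hyu

theorem bad_single (h : Tfg A) {v z : α} (hv : A v z) {U G : Finset α}
    (ih : ∀ y, y ∉ G → Ok A v (insert y G) → ∀ s t, ¬ Bad A v U (insert y G) s t)
    (hG : Ok A v G) {s t : α} (hb : Bad A v U G s t) {q u : α} (hq : q ∈ Qs A v G)
    (hsq : A s q) (hu : u ∈ U) (huQ : u ∈ Qs A v G) (htu : ¬ A t u) : u = q := by
  by_contra hne
  obtain ⟨c, hc, hsc, htc⟩ := f1 h hv hG hb.1 hb.2.1 hb.2.2.1
  have hcq : q ≠ c := by
    rintro rfl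
    exact hsc hsq
  have htq : ¬ A t q := fun htq => bad_disj h hv ih hG hb hq hsq htq
  have hok := ok_insert h hG hb.2.1
  obtain ⟨y, hy, hyq, hy'⟩ := exists_single h hok (mem_Qs_insert.mpr ⟨hq, htq⟩)
    (mem_Qs_insert.mpr ⟨hc, htc⟩) hcq
  have hyG : El A v G y := hy.subset (Finset.subset_insert _ _)
  have hty : ¬ A t y := hy.2.2 t (Finset.mem_insert_self _ _)
  have hys : ¬ A y s := nonadj_of_common h hyq hsq
  have hyu : ¬ A y u := hy' u (mem_Qs_insert.mpr ⟨huQ, htu⟩) hne
  rcases bad_star h ih hG hb hyG (el_notMem h hq hyq) hys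
    (fun hh => hty (h.symm _ _ hh)) with h1 | h1
  · refine bad_disj h hv ih hG (s := s) (t := y) ⟨hb.1, hyG, fun hh => hys (h.symm _ _ hh), ?_,
      hb.2.2.2.2.1, ⟨u, hu, huQ, hyu⟩⟩ hq hsq hyq
    intro u' hu' hq'
    by_cases hsu : A s u'
    · exact Or.inl hsu
    · exact Or.inr (h1 u' hu' hq' hsu)
  · exact hyu (h1 u hu huQ htu)

theorem no_bad (h : Tfg A) {v z : α} (hv : A v z) {U : Finset α} (hU : Module' A v U) :
    ∀ m : ℕ, ∀ G : Finset α, Fintype.card α - G.card = m → Ok A v G →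
      ∀ s t, ¬ Bad A v U G s t := by
  intro m
  induction m using Nat.strong_induction_on with
  | _ m ihm =>
    intro G hm hG s t hb
    have ih : ∀ y, y ∉ G → Ok A v (insert y G) → ∀ s t, ¬ Bad A v U (insert y G) s t := by
      intro y hyG hok s t
      refine ihm _ ?_ (insert y G) rfl hok s t
      have hle : (insert y G).card ≤ Fintype.card α := Finset.card_le_univ _
      rw [Finset.card_insert_of_notMem hyG] at hle ⊢
      omega
    obtain ⟨b, hbU, hbQ, hsb⟩ := hb.2.2.2.2.1
    obtain ⟨a, haU, haQ, hta⟩ := hb.2.2.2.2.2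
    have hsa : A s a := by
      rcases hb.2.2.2.1 a haU haQ with h1 | h1
      · exact h1
      · exact absurd h1 hta
    have htb : A t b := by
      rcases hb.2.2.2.1 b hbU hbQ with h1 | h1
      · exact absurd h1 hsb
      · exact h1
    have hab : a ≠ b := by
      rintro rfl; exact hsb hsa
    -- the type of `s` is `{a}`, the type of `t` is `{b}`
    have hsty : ∀ q ∈ Qs A v G, q ≠ a → ¬ A s q := by
      intro q hq hqa hsq
      exact hqa (bad_single h hv ih hG hb hq hsq haU haQ hta).symm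
    have htty : ∀ q ∈ Qs A v G, q ≠ b → ¬ A t q := by
      intro q hq hqb htq
      exact hqb (bad_single h hv ih hG (hb.swap h) hq htq hbU hbQ hsb).symm
    have hUab : ∀ u ∈ U, u ∈ Qs A v G → u = a ∨ u = b := by
      intro u hu hq
      by_contra hcon
      push Not at hcon
      rcases hb.2.2.2.1 u hu hq with h1 | h1
      · exact hsty u hq hcon.1 h1
      · exact htty u hq hcon.2 h1
    obtain ⟨c, hc, hsc, htc⟩ := f1 h hv hG hb.1 hb.2.1 hb.2.2.1
    have hca : c ≠ a := by rintro rfl; exact hsc hsa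
    have hcb : c ≠ b := by rintro rfl; exact htc htb
    have hcU : c ∉ U := by
      intro hcU
      rcases hUab c hcU hc with h1 | h1
      · exact hca h1
      · exact hcb h1
    have hch := hU.2 a haU b hbU hab c (mem_Qs.mp hc).1 hcU
    by_cases hthree : Qs A v G = {a, b, c}
    · exact hb.2.2.1 (p3_compl h hv hG hthree hab hca.symm hcb.symm
        (hch.all h hv hab hca.symm hcb.symm hG hthree) hb.1 hb.2.1 hsa hsb hsc hta htb htc)
    · -- at least two elements outside `{a, b}`
      obtain ⟨c', hc', hca', hcb', hcc'⟩ : ∃ c' ∈ Qs A v G, c' ≠ a ∧ c' ≠ b ∧ c' ≠ c := by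
        by_contra hcon
        push Not at hcon
        apply hthree
        ext x
        simp only [Finset.mem_insert, Finset.mem_singleton]
        constructor
        · intro hx
          by_cases h1 : x = a
          · exact Or.inl h1
          · by_cases h2 : x = b
            · exact Or.inr (Or.inl h2)
            · exact Or.inr (Or.inr (hcon x hx h1 h2))
        · rintro (rfl | rfl | rfl)
          · exact haQ
          · exact hbQ
          · exact hc
      have hok2 : Ok A v (insert s (insert t G)) :=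
        ok_insert h (ok_insert h hG hb.2.1) (hb.1.insert (fun hh => hb.2.2.1 (h.symm _ _ hh)))
      have hmem2 : ∀ q ∈ Qs A v G, q ≠ a → q ≠ b → q ∈ Qs A v (insert s (insert t G)) := by
        intro q hq h1 h2
        rw [mem_Qs_insert, mem_Qs_insert]
        exact ⟨⟨hq, htty q hq h2⟩, hsty q hq h1⟩
      have key : ∀ q ∈ Qs A v G, q ≠ a → q ≠ b → ∃ y, El A v G y ∧ A y q ∧ A y a ∧ A y b := by
        intro q hq hqa hqb
        obtain ⟨q', hq', hqa', hqb', hne⟩ : ∃ q' ∈ Qs A v G, q' ≠ a ∧ q' ≠ b ∧ q ≠ q' := by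
          by_cases h1 : q = c
          · exact ⟨c', hc', hca', hcb', by rw [h1]; exact hcc'.symm⟩
          · exact ⟨c, hc, hca, hcb, h1⟩
        obtain ⟨y, hy, hyq, hy'⟩ := exists_single h hok2 (hmem2 q hq hqa hqb)
          (hmem2 q' hq' hqa' hqb') hne
        have hyG : El A v G y := hy.subset
          ((Finset.subset_insert _ _).trans (Finset.subset_insert _ _))
        have hsy : ¬ A y s := fun hh => hy.2.2 s (Finset.mem_insert_self _ _) (h.symm _ _ hh)
        have hty : ¬ A y t := fun hh => hy.2.2 t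
          (Finset.mem_insert_of_mem (Finset.mem_insert_self _ _)) (h.symm _ _ hh)
        refine ⟨y, hyG, hyq, ?_⟩
        have hor : A y a ∨ A y b := by
          rcases bad_star h ih hG hb hyG (el_notMem h hq hyq) hsy hty with h1 | h1
          · exact Or.inr (h1 b hbU hbQ hsb)
          · exact Or.inl (h1 a haU haQ hta)
        by_contra hcon
        have hcon' : ¬ A y a ∨ ¬ A y b := by tauto
        rcases hcon' with h1 | h1
        · have hyb : A y b := by tauto
          -- the pair `(y, s)` is bad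
          have hb' : Bad A v U G y s := by
            refine ⟨hyG, hb.1, hsy, ?_, ⟨a, haU, haQ, h1⟩, ⟨b, hbU, hbQ, hsb⟩⟩
            intro u hu huq
            rcases hUab u hu huq with rfl | rfl
            · exact Or.inr hsa
            · exact Or.inl hyb
          exact hqb (bad_single h hv ih hG hb' hq hyq hbU hbQ hsb).symm
        · have hya : A y a := by tauto
          have hb' : Bad A v U G y t := by
            refine ⟨hyG, hb.2.1, hty, ?_, ⟨b, hbU, hbQ, h1⟩, ⟨a, haU, haQ, hta⟩⟩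
            intro u hu huq
            rcases hUab u hu huq with rfl | rfl
            · exact Or.inl hya
            · exact Or.inr htb
          exact hqa (bad_single h hv ih hG hb' hq hyq haU haQ hta).symm
      -- the big independent set
      set K : Finset α := Finset.univ.filter (fun y => A y a ∧ A y b ∧ y ≠ v ∧ ∀ g ∈ G, ¬ A g y)
        with hK
      have hKmem : ∀ y, y ∈ K ↔ A y a ∧ A y b ∧ y ≠ v ∧ ∀ g ∈ G, ¬ A g y := by
        intro y; rw [hK, Finset.mem_filter]; simp
      have hva := (mem_Qs.mp haQ).1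
      have hokK : Ok A v (G ∪ K) := by
        refine ⟨?_, ?_, ?_⟩
        · intro x hx y hy
          rw [Finset.mem_union] at hx hy
          rcases hx with hx | hx
          · rcases hy with hy | hy
            · exact hG.1 x hx y hy
            · exact ((hKmem y).mp hy).2.2.2 x hx
          · rcases hy with hy | hy
            · exact fun hh => ((hKmem x).mp hx).2.2.2 y hy (h.symm _ _ hh)
            · exact nonadj_of_common h ((hKmem x).mp hx).1 ((hKmem y).mp hy).1
        · rw [Finset.mem_union]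
          rintro (hh | hh)
          · exact hG.2.1 hh
          · exact ((hKmem v).mp hh).2.2.1 rfl
        · intro g hg
          rw [Finset.mem_union] at hg
          rcases hg with hg | hg
          · exact hG.2.2 g hg
          · exact nonadj_of_common h ((hKmem g).mp hg).1 hva
      obtain ⟨q, hq⟩ := exists_Qs h hv hokK
      rw [mem_Qs] at hq
      have hqG : q ∈ Qs A v G :=
        mem_Qs.mpr ⟨hq.1, fun g hg => hq.2 g (Finset.mem_union_left _ hg)⟩
      have hmemK : ∀ y, El A v G y → A y a → A y b → y ∈ G ∪ K := by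
        intro y hy h1 h2
        exact Finset.mem_union_right _ ((hKmem y).mpr ⟨h1, h2, hy.1, hy.2.2⟩)
      by_cases hqa : q = a
      · subst hqa
        obtain ⟨y, hy, _, hya, hyb⟩ := key c hc hca hcb
        exact hq.2 y (hmemK y hy hya hyb) hya
      · by_cases hqb : q = b
        · subst hqb
          obtain ⟨y, hy, _, hya, hyb⟩ := key c hc hca hcb
          exact hq.2 y (hmemK y hy hya hyb) hyb
        · obtain ⟨y, hy, hyq, hya, hyb⟩ := key q hqG hqa hqb
          exact hq.2 y (hmemK y hy hya hyb) hyq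

/-- A module is contractible. -/
theorem contractible (h : Tfg A) {v z : α} (hv : A v z) {U : Finset α} (hU : Module' A v U)
    {σ : Finset α} (hσ : ∀ x ∈ σ, ∀ y ∈ σ, ¬ A x y)
    (hdom : ∀ u ∈ U, ∃ g ∈ σ, A g u) (hne : U.Nonempty) : ∃ g ∈ σ, ∀ u ∈ U, A g u := by
  classical
  by_cases hvσ : v ∈ σ
  · exact ⟨v, hvσ, hU.1⟩
  · -- remove the neighbours of `v`
    set σ' : Finset α := σ.filter (fun g => ¬ A v g) with hσ'
    have hdom' : ∀ u ∈ U, ∃ g ∈ σ', A g u := by
      intro u hu
      obtain ⟨g, hg, hgu⟩ := hdom u hu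
      refine ⟨g, ?_, hgu⟩
      rw [hσ', Finset.mem_filter]
      exact ⟨hg, fun hvg => h.tri v g u hvg hgu (hU.1 u hu)⟩
    set F : Finset (Finset α) := σ'.powerset.filter (fun G => ∀ u ∈ U, ∃ g ∈ G, A g u) with hF
    have hmemF : σ' ∈ F := by
      rw [hF, Finset.mem_filter, Finset.mem_powerset]
      exact ⟨Finset.Subset.refl _, hdom'⟩
    obtain ⟨G, hG, hmin⟩ := F.exists_min_image Finset.card ⟨σ', hmemF⟩
    rw [hF, Finset.mem_filter, Finset.mem_powerset] at hG
    obtain ⟨hGσ, hGdom⟩ := hG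
    have hGσ2 : G ⊆ σ := hGσ.trans (Finset.filter_subset _ _)
    have hokG : Ok A v G := by
      refine ⟨fun x hx y hy => hσ x (hGσ2 hx) y (hGσ2 hy), fun hvG => hvσ (hGσ2 hvG), ?_⟩
      intro g hg hgv
      have := hGσ hg
      rw [hσ', Finset.mem_filter] at this
      exact this.2 (h.symm _ _ hgv)
    by_contra hcon
    push Not at hcon
    obtain ⟨u0, hu0⟩ := hne
    obtain ⟨s, hs, _⟩ := hGdom u0 hu0
    obtain ⟨u1, hu1, hsu1⟩ := hcon s (hGσ2 hs)
    obtain ⟨t, ht, htu1⟩ := hGdom u1 hu1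
    have hst : s ≠ t := by
      rintro rfl
      exact hsu1 htu1
    have hmin' : ∀ g ∈ G, ∃ u ∈ U, ∀ g' ∈ G.erase g, ¬ A g' u := by
      intro g hg
      by_contra hc
      push Not at hc
      have hm : G.erase g ∈ F := by
        rw [hF, Finset.mem_filter, Finset.mem_powerset]
        refine ⟨(Finset.erase_subset _ _).trans hGσ, ?_⟩
        intro u hu
        obtain ⟨g', hg', hgu⟩ := hc u hu
        exact ⟨g', hg', hgu⟩
      have h1 := hmin _ hm
      rw [Finset.card_erase_of_mem hg] at h1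
      have h2 : 0 < G.card := Finset.card_pos.mpr ⟨g, hg⟩
      omega
    set G0 : Finset α := (G.erase s).erase t with hG0
    have hsub : G0 ⊆ G := (Finset.erase_subset _ _).trans (Finset.erase_subset _ _)
    have hok0 : Ok A v G0 := hokG.subset hsub
    have hQ0 : ∀ u, A v u → (∀ g ∈ G, g ≠ s → g ≠ t → ¬ A g u) → u ∈ Qs A v G0 := by
      intro u hvu hu
      rw [mem_Qs]
      refine ⟨hvu, ?_⟩
      intro g hg
      rw [hG0, Finset.mem_erase, Finset.mem_erase] at hg
      exact hu g hg.2.2 hg.2.1 hg.1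
    refine no_bad h hv hU _ G0 rfl hok0 s t ⟨hokG.el h hs hsub, hokG.el h ht hsub,
      hokG.1 s hs t ht, ?_, ?_, ?_⟩
    · intro u hu huQ
      obtain ⟨g, hg, hgu⟩ := hGdom u hu
      by_cases h1 : g = s
      · exact Or.inl (h1 ▸ hgu)
      · by_cases h2 : g = t
        · exact Or.inr (h2 ▸ hgu)
        · exfalso
          rw [mem_Qs] at huQ
          apply huQ.2 g _ hgu
          rw [hG0, Finset.mem_erase, Finset.mem_erase]
          exact ⟨h2, h1, hg⟩
    · obtain ⟨u, hu, hu'⟩ := hmin' t ht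
      refine ⟨u, hu, hQ0 u (hU.1 u hu) ?_, ?_⟩
      · intro g hg _ h2
        exact hu' g (Finset.mem_erase.mpr ⟨h2, hg⟩)
      · exact hu' s (Finset.mem_erase.mpr ⟨hst, hs⟩)
    · obtain ⟨u, hu, hu'⟩ := hmin' s hs
      refine ⟨u, hu, hQ0 u (hU.1 u hu) ?_, ?_⟩
      · intro g hg h1 _
        exact hu' g (Finset.mem_erase.mpr ⟨h1, hg⟩)
      · exact hu' t (Finset.mem_erase.mpr ⟨hst.symm, ht⟩)

/-- A proper module has a second common neighbour. -/
theorem second_common (h : Tfg A) {v c : α} (hc : A v c) {U : Finset α}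
    (hU : Module' A v U) (hcU : c ∉ U) (hne : U.Nonempty) : ∃ x, x ≠ v ∧ ∀ u ∈ U, A x u := by
  obtain ⟨G, _, hG, hQ⟩ := exists_ext' h (S := {c}) (Finset.singleton_nonempty c) (ok_empty v)
    (by
      intro x hx
      rw [Finset.mem_singleton] at hx
      subst hx
      exact mem_Qs_empty.mpr hc)
  obtain ⟨g, hg, hgU⟩ := contractible h hc hU hG.1 (by
    intro u hu
    by_contra hcon
    push Not at hcon
    have huQ : u ∈ Qs A v G := mem_Qs.mpr ⟨hU.1 u hu, hcon⟩
    rw [hQ, Finset.mem_singleton] at huQ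
    exact hcU (huQ ▸ hu)) hne
  exact ⟨g, fun hgv => hG.2.1 (hgv ▸ hg), hgU⟩

end Pool.Agent.H41.TF
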