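import Pool.Agent.H41.TF.Graph

/-!
# Three remaining neighbours
-/

set_option autoImplicit false

namespace Pool.Agent.H41.TF

open Finset

variable {α : Type*} [Fintype α] [DecidableEq α] {A : α → α → Prop} [DecidableRel A]

theorem exists_maximal_same (h : Tfg A) {v : α} {G : Finset α} (hG : Ok A v G) :
    ∃ G', G ⊆ G' ∧ Ok A v G' ∧ Qs A v G' = Qs A v G ∧
      ∀ w, El A v G' w → (∀ c ∈ Qs A v G, ¬ A w c) → w ∈ G' := by
  classical
  set F : Finset (Finset α) := Finset.univ.filter (fun G' => G ⊆ G' ∧ Ok A v G' ∧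
    Qs A v G' = Qs A v G) with hF
  have hGF : G ∈ F := by
    rw [hF, Finset.mem_filter]
    exact ⟨Finset.mem_univ _, Finset.Subset.refl _, hG, rfl⟩
  obtain ⟨G', hG', hmax⟩ := F.exists_max_image Finset.card ⟨G, hGF⟩
  rw [hF, Finset.mem_filter] at hG'
  obtain ⟨_, hGG, hok, hQ⟩ := hG'
  refine ⟨G', hGG, hok, hQ, ?_⟩
  intro w hw hwQ
  by_contra hwmem
  have hnew : insert w G' ∈ F := by
    rw [hF, Finset.mem_filter]
    refine ⟨Finset.mem_univ _, hGG.trans (Finset.subset_insert _ _), ok_insert h hok hw, ?_⟩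
    ext c
    rw [mem_Qs_insert, hQ]
    exact ⟨fun hc => hc.1, fun hc => ⟨hc, hwQ c hc⟩⟩
  have := hmax _ hnew
  rw [Finset.card_insert_of_notMem hwmem] at this
  omega

theorem single_unique (h : Tfg A) {v : α} {G : Finset α} (hG : Ok A v G)
    (hmax : ∀ w, El A v G w → (∀ c ∈ Qs A v G, ¬ A w c) → w ∈ G)
    {a b x x' : α} (ha : a ∈ Qs A v G) (hb : b ∈ Qs A v G) (hab : b ≠ a)
    (hx : El A v G x) (hx' : El A v G x') (hxa : A x a) (hxa' : A x' a)
    (hxQ : ∀ c ∈ Qs A v G, c ≠ a → ¬ A x c) (hxQ' : ∀ c ∈ Qs A v G, c ≠ a → ¬ A x' c) :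
    x = x' := by
  by_contra hne
  have haQ := mem_Qs.mp ha
  obtain ⟨w, hw, hw'⟩ := h.w2 (insert x G ∪ (Qs A v G).erase a) (by
      have hok := ok_insert h hG hx
      have key : ∀ p ∈ insert x G, ∀ q ∈ (Qs A v G).erase a, ¬ A p q := by
        intro p hp q hq
        rw [Finset.mem_erase] at hq
        rw [Finset.mem_insert] at hp
        rcases hp with rfl | hp
        · exact hxQ q hq.2 hq.1
        · exact (mem_Qs.mp hq.2).2 p hp
      intro p hp q hq
      rw [Finset.mem_union] at hp hq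
      rcases hp with hp | hp
      · rcases hq with hq | hq
        · exact hok.1 p hp q hq
        · exact key p hp q hq
      · rcases hq with hq | hq
        · exact fun hpq => key q hq p hp (h.symm _ _ hpq)
        · rw [Finset.mem_erase] at hp hq
          exact nonadj_of_common h (h.symm _ _ (mem_Qs.mp hp.2).1)
            (h.symm _ _ (mem_Qs.mp hq.2).1))
    x' a hxa' (by
      rw [Finset.mem_union, Finset.mem_insert, Finset.mem_erase]
      rintro ((hm | hm) | hm)
      · exact hne hm.symm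
      · exact el_notMem h ha hxa' hm
      · exact hx'.2.1 (mem_Qs.mp hm.2).1) (by
      intro g hg
      rw [Finset.mem_union, Finset.mem_insert, Finset.mem_erase] at hg
      rcases hg with (rfl | hg) | hg
      · exact nonadj_of_common h hxa hxa'
      · exact hx'.2.2 g hg
      · exact fun hh => hxQ' g hg.2 hg.1 (h.symm _ _ hh))
  have hwG : ∀ g ∈ G, ¬ A g w := by
    intro g hg
    apply hw' g
    rw [Finset.mem_union, Finset.mem_insert]
    exact Or.inl (Or.inr hg)
  have hwx : ¬ A x w := by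
    apply hw' x
    rw [Finset.mem_union, Finset.mem_insert]
    exact Or.inl (Or.inl rfl)
  have hwR : ∀ c ∈ Qs A v G, c ≠ a → ¬ A c w := by
    intro c hc hca
    apply hw' c
    rw [Finset.mem_union, Finset.mem_erase]
    exact Or.inr ⟨hca, hc⟩
  have hwv : w ≠ v := by
    rintro rfl
    exact hwR b hb hab (h.symm _ _ (mem_Qs.mp hb).1)
  have hvw : ¬ A v w := by
    intro hvw
    have hwQ : w ∈ Qs A v G := mem_Qs.mpr ⟨hvw, hwG⟩
    by_cases hwa : w = a
    · exact hwx (hwa ▸ hxa)
    · exact hxQ' w hwQ hwa hw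
  have hwel : El A v G w := ⟨hwv, hvw, hwG⟩
  have hwm : w ∈ G := by
    apply hmax w hwel
    intro c hc hwc
    by_cases hca : c = a
    · subst hca
      exact h.tri x' w c hw hwc hxa'
    · exact hwR c hc hca (h.symm _ _ hwc)
  exact hx'.2.2 w hwm (h.symm _ _ hw)

theorem nb_away (h : Tfg A) {v : α} {G : Finset α} (hG : Ok A v G) {r z : α}
    (hr : El A v G r) (hrG : r ∉ G) (hrz : A r z) :
    ∃ w, A r w ∧ El A v G w ∧ w ∉ G := by
  obtain ⟨w, hw, hw'⟩ := h.w2 (insert v G) (by
      intro p hp q hq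
      rw [Finset.mem_insert] at hp hq
      rcases hp with rfl | hp
      · rcases hq with rfl | hq
        · exact h.irr _
        · exact fun hpq => hG.2.2 q hq (h.symm _ _ hpq)
      · rcases hq with rfl | hq
        · exact hG.2.2 p hp
        · exact hG.1 p hp q hq)
    r z hrz (by
      rw [Finset.mem_insert]
      rintro (hm | hm)
      · exact hr.1 hm
      · exact hrG hm) (by
      intro g hg
      rw [Finset.mem_insert] at hg
      rcases hg with rfl | hg
      · exact hr.2.1
      · exact hr.2.2 g hg)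
  refine ⟨w, hw, ⟨?_, hw' v (Finset.mem_insert_self _ _),
    fun g hg => hw' g (Finset.mem_insert_of_mem hg)⟩, ?_⟩
  · rintro rfl
    exact hr.2.1 (h.symm _ _ hw)
  · intro hm
    exact hr.2.2 w hm (h.symm _ _ hw)

theorem no_three (h : Tfg A) {v : α} {G : Finset α} (hG : Ok A v G) {p q r z : α}
    (hkey : ∀ w, El A v G w → w ∉ G → w = p ∨ w = q ∨ w = r)
    (hq : El A v G q) (hr : El A v G r) (hrG : r ∉ G) (hqr : q ≠ r) (hrz : A r z)
    (hpq : A p q) (hpr : A p r) : False := by
  have hqr' : ¬ A q r := nonadj_of_common h (h.symm _ _ hpq) (h.symm _ _ hpr)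
  have hok := ok_insert h hG hq
  obtain ⟨w, hw, hwel, hwG⟩ := nb_away h hok (hr.insert hqr') (by
    rw [Finset.mem_insert]
    rintro (hm | hm)
    · exact hqr hm.symm
    · exact hrG hm) hrz
  have hwG' : w ∉ G := fun hm => hwG (Finset.mem_insert_of_mem hm)
  have hqw : ¬ A q w := hwel.2.2 q (Finset.mem_insert_self _ _)
  rcases hkey w (hwel.subset (Finset.subset_insert _ _)) hwG' with rfl | rfl | rfl
  · exact hqw (h.symm _ _ hpq)
  · exact hqr' (h.symm _ _ hw)
  · exact h.irr _ hw

/-- There is a vertex with both `a` and `b` as neighbours, away from `v` and `G`. -/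
def Pr (A : α → α → Prop) (v : α) (G : Finset α) (a b : α) : Prop :=
  ∃ u, El A v G u ∧ A u a ∧ A u b

theorem Pr.symm {v : α} {G : Finset α} {a b : α} (hp : Pr A v G a b) : Pr A v G b a := by
  obtain ⟨u, h1, h2, h3⟩ := hp
  exact ⟨u, h1, h3, h2⟩

theorem Pr.subset {v : α} {G G' : Finset α} {a b : α} (hp : Pr A v G a b) (hs : G' ⊆ G) :
    Pr A v G' a b := by
  obtain ⟨u, h1, h2, h3⟩ := hp
  exact ⟨u, h1.subset hs, h2, h3⟩

theorem p3_unique (h : Tfg A) {v z : α} (hv : A v z) {G : Finset α} (hG : Ok A v G)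
    {a b c : α} (hQ : Qs A v G = {a, b, c}) (h1 : Pr A v G a b) (h2 : Pr A v G b c) :
    False := by
  obtain ⟨u, hu, hua, hub⟩ := h1
  obtain ⟨w, hw, hwb, hwc⟩ := h2
  obtain ⟨q, hq, hq1, hq2⟩ := f1 h hv hG hu hw (nonadj_of_common h hub hwb)
  rw [hQ] at hq
  simp only [Finset.mem_insert, Finset.mem_singleton] at hq
  rcases hq with rfl | rfl | rfl
  · exact hq1 hua
  · exact hq1 hub
  · exact hq2 hwc

theorem p3_exists (h : Tfg A) {v z : α} (hv : A v z) {G : Finset α} (hG : Ok A v G)
    {a b c : α} (hQ : Qs A v G = {a, b, c}) (hab : a ≠ b) (hac : a ≠ c) (hbc : b ≠ c) :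
    Pr A v G a b ∨ Pr A v G b c ∨ Pr A v G a c := by
  by_contra hcon
  push Not at hcon
  obtain ⟨hn1, hn2, hn3⟩ := hcon
  obtain ⟨G', hGG, hok, hQ', hmax⟩ := exists_maximal_same h hG
  rw [← hQ'] at hmax
  rw [hQ] at hQ'
  have ha : a ∈ Qs A v G' := by rw [hQ']; simp
  have hb : b ∈ Qs A v G' := by rw [hQ']; simp
  have hc : c ∈ Qs A v G' := by rw [hQ']; simp
  obtain ⟨xa, hxa, hxaa, hxa'⟩ := exists_single h hok ha hb hab
  obtain ⟨xb, hxb, hxbb, hxb'⟩ := exists_single h hok hb ha hab.symm
  obtain ⟨xc, hxc, hxcc, hxc'⟩ := exists_single h hok hc ha hac.symm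
  have hm : ∀ w, El A v G' w → ¬ (A w a ∧ A w b) ∧ ¬ (A w b ∧ A w c) ∧ ¬ (A w a ∧ A w c) := by
    intro w hw
    refine ⟨?_, ?_, ?_⟩
    · rintro ⟨h1, h2⟩
      exact hn1 ⟨w, hw.subset hGG, h1, h2⟩
    · rintro ⟨h1, h2⟩
      exact hn2 ⟨w, hw.subset hGG, h1, h2⟩
    · rintro ⟨h1, h2⟩
      exact hn3 ⟨w, hw.subset hGG, h1, h2⟩
  have hkey : ∀ w, El A v G' w → w ∉ G' → w = xa ∨ w = xb ∨ w = xc := by
    intro w hw hwG
    obtain ⟨m1, m2, m3⟩ := hm w hw
    by_cases hwa : A w a
    · left
      refine single_unique h hok hmax ha hb hab.symm hw hxa hwa hxaa ?_ hxa'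
      intro c' hc' hne hwc'
      rw [hQ'] at hc'
      simp only [Finset.mem_insert, Finset.mem_singleton] at hc'
      rcases hc' with rfl | rfl | rfl
      · exact hne rfl
      · exact m1 ⟨hwa, hwc'⟩
      · exact m3 ⟨hwa, hwc'⟩
    · by_cases hwb : A w b
      · right; left
        refine single_unique h hok hmax hb ha hab hw hxb hwb hxbb ?_ hxb'
        intro c' hc' hne hwc'
        rw [hQ'] at hc'
        simp only [Finset.mem_insert, Finset.mem_singleton] at hc'
        rcases hc' with rfl | rfl | rfl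
        · exact hwa hwc'
        · exact hne rfl
        · exact m2 ⟨hwb, hwc'⟩
      · by_cases hwc : A w c
        · right; right
          refine single_unique h hok hmax hc ha hac hw hxc hwc hxcc ?_ hxc'
          intro c' hc' hne hwc'
          rw [hQ'] at hc'
          simp only [Finset.mem_insert, Finset.mem_singleton] at hc'
          rcases hc' with rfl | rfl | rfl
          · exact hwa hwc'
          · exact hwb hwc'
          · exact hne rfl
        · exfalso
          apply hwG
          apply hmax w hw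
          intro c' hc'
          rw [hQ'] at hc'
          simp only [Finset.mem_insert, Finset.mem_singleton] at hc'
          rcases hc' with rfl | rfl | rfl
          · exact hwa
          · exact hwb
          · exact hwc
  have gxa : xa ∉ G' := el_notMem h ha hxaa
  have gxb : xb ∉ G' := el_notMem h hb hxbb
  have gxc : xc ∉ G' := el_notMem h hc hxcc
  have nab : xa ≠ xb := by
    intro he
    exact hxa' b hb hab.symm (he ▸ hxbb)
  have nac : xa ≠ xc := by
    intro he
    exact hxa' c hc hac.symm (he ▸ hxcc)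
  have nbc : xb ≠ xc := by
    intro he
    exact hxb' c hc hbc.symm (he ▸ hxcc)
  obtain ⟨wa, hwa, hwa1, hwa2⟩ := nb_away h hok hxa gxa hxaa
  obtain ⟨wb, hwb, hwb1, hwb2⟩ := nb_away h hok hxb gxb hxbb
  obtain ⟨wc, hwc, hwc1, hwc2⟩ := nb_away h hok hxc gxc hxcc
  have ea : A xa xb ∨ A xa xc := by
    rcases hkey wa hwa1 hwa2 with rfl | rfl | rfl
    · exact absurd hwa (h.irr _)
    · exact Or.inl hwa
    · exact Or.inr hwa
  have eb : A xa xb ∨ A xb xc := by
    rcases hkey wb hwb1 hwb2 with rfl | rfl | rfl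
    · exact Or.inl (h.symm _ _ hwb)
    · exact absurd hwb (h.irr _)
    · exact Or.inr hwb
  have ec : A xa xc ∨ A xb xc := by
    rcases hkey wc hwc1 hwc2 with rfl | rfl | rfl
    · exact Or.inl (h.symm _ _ hwc)
    · exact Or.inr (h.symm _ _ hwc)
    · exact absurd hwc (h.irr _)
  have c1 : A xa xb → A xa xc → False := by
    intro e1 e2
    exact no_three h hok (p := xa) (q := xb) (r := xc) hkey hxb hxc gxc nbc hxcc e1 e2
  have c2 : A xa xb → A xb xc → False := by
    intro e1 e2
    exact no_three h hok (p := xb) (q := xa) (r := xc)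
      (fun w h1 h2 => by rcases hkey w h1 h2 with e | e | e <;> tauto)
      hxa hxc gxc nac hxcc (h.symm _ _ e1) e2
  have c3 : A xa xc → A xb xc → False := by
    intro e1 e2
    exact no_three h hok (p := xc) (q := xa) (r := xb)
      (fun w h1 h2 => by rcases hkey w h1 h2 with e | e | e <;> tauto)
      hxa hxb gxb nab hxbb (h.symm _ _ e1) (h.symm _ _ e2)
  tauto

/-- If `{a, b}` is the pair, then vertices of types `{a}` and `{b}` are adjacent. -/
theorem p3_compl (h : Tfg A) {v z : α} (hv : A v z) {G : Finset α} (hG : Ok A v G)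
    {a b c : α} (hQ : Qs A v G = {a, b, c}) (hab : a ≠ b) (hac : a ≠ c) (hbc : b ≠ c)
    (hp : Pr A v G a b) {s t : α} (hs : El A v G s) (ht : El A v G t)
    (hsa : A s a) (hsb : ¬ A s b) (hsc : ¬ A s c) (hta : ¬ A t a) (htb : A t b)
    (htc : ¬ A t c) : A s t := by
  by_contra hst
  have ha : a ∈ Qs A v G := by rw [hQ]; simp
  have hb : b ∈ Qs A v G := by rw [hQ]; simp
  have hc : c ∈ Qs A v G := by rw [hQ]; simp
  obtain ⟨G', hGG, hok, hQ', hno⟩ := c1 h hG hs ht hst hab ha hb hc hsa htb hac.symm hbc.symm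
    (by
      intro c' hc' hne
      rw [hQ] at hc'
      simp only [Finset.mem_insert, Finset.mem_singleton] at hc'
      rcases hc' with rfl | rfl | rfl
      · exact absurd rfl hne
      · exact hsb
      · exact hsc)
    (by
      intro c' hc' hne
      rw [hQ] at hc'
      simp only [Finset.mem_insert, Finset.mem_singleton] at hc'
      rcases hc' with rfl | rfl | rfl
      · exact hta
      · exact absurd rfl hne
      · exact htc)
  rcases p3_exists h hv hok (hQ'.trans hQ) hab hac hbc with h1 | h1 | h1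
  · obtain ⟨u, hu, hua, hub⟩ := h1
    obtain ⟨c', hc', hne1, hne2, huc⟩ := hno u hu hua hub
    rw [hQ] at hc'
    simp only [Finset.mem_insert, Finset.mem_singleton] at hc'
    rcases hc' with rfl | rfl | rfl
    · exact hne1 rfl
    · exact hne2 rfl
    · exact p3_unique h hv hok (hQ'.trans hQ) ⟨u, hu, hua, hub⟩ ⟨u, hu, hub, huc⟩
  · exact p3_unique h hv hG hQ hp (h1.subset hGG)
  · refine p3_unique h hv hG (a := b) (b := a) (c := c) ?_ hp.symm (h1.subset hGG)
    rw [hQ]
    ext x
    simp only [Finset.mem_insert, Finset.mem_singleton]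
    tauto

end Pool.Agent.H41.TF
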