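import Pool.Agent.H41.TF.Act

/-!
# The equivariant surjection `s` on the set of leaves
-/

set_option autoImplicit false

namespace Pool.Agent.H41.TF

/-- The leaf below the base word with digits `δ`. -/
def wL (δ : List Dg) : Lf := ⟨wd δ, st_wd δ⟩

/-- `ff` as an element of `T`. -/
noncomputable def fT : TT := ⟨ff, f_mem⟩

/-- The rotation at `wl δ` as an element of `T`. -/
noncomputable def yT (δ : List Dg) : TT := ⟨loc (wl δ) yy, y_mem δ⟩

theorem code_injective : Function.Injective code := by
  intro δ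
  induction δ with
  | nil =>
    intro η h
    cases η with
    | nil => rfl
    | cons x η => cases x <;> simp [Dg.code] at h
  | cons x δ ih =>
    intro η h
    cases η with
    | nil => cases x <;> simp [Dg.code] at h
    | cons y η =>
      cases x <;> cases y <;>
        simp only [code_cons, Dg.code, List.cons_append, List.nil_append, List.cons.injEq,
          true_and, reduceCtorEq, false_and, and_false] at h
      all_goals rw [ih h]

theorem wL_injective : Function.Injective wL := by
  intro δ η h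
  have h1 : wd δ = wd η := congrArg Subtype.val h
  rw [wd, wd, wl, wl] at h1
  exact code_injective (List.append_cancel_left (List.append_cancel_right h1))

theorem f_smul (δ : List Dg) : fT • wL δ = wL (.b :: δ) :=
  smul_eq (f_01.append (code δ ++ [true, false]))

theorem fpow_smul (j : ℕ) (δ : List Dg) : fT ^ j • wL δ = wL (List.replicate j .b ++ δ) := by
  induction j with
  | zero => rw [pow_zero, one_smul]; rfl
  | succ j ih =>
    rw [pow_succ', mul_smul, ih, f_smul, List.replicate_succ]; rfl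

/-- The action of the rotation on digits. -/
def xh : List Dg → List Dg
  | [] => [.d]
  | [.a] => []
  | .a :: .a :: η => .a :: η
  | .a :: .b :: η => .b :: η
  | .a :: .d :: η => .d :: .a :: η
  | .b :: η => .d :: .b :: η
  | .d :: η => .d :: .d :: η

theorem y_smul (v η : List Dg) : yT v • wL (v ++ η) = wL (v ++ xh η) := by
  apply smul_eq
  change Maps (loc (wl v) yy) (wd (v ++ η)) (wd (v ++ xh η))
  rw [wd_append, wd_append]
  refine Maps.locAt ?_ (wl v)
  match η with
  | [] => exact y_c
  | [.a] => exact y_ac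
  | .a :: .a :: η => exact y_aa.append (code η ++ [true, false])
  | .a :: .b :: η => exact y_ab.append (code η ++ [true, false])
  | .a :: .d :: η => exact y_ad.append (code η ++ [true, false])
  | .b :: η => exact y_b.append (code η ++ [true, false])
  | .d :: η => exact y_d.append (code η ++ [true, false])

theorem code_prefix {v : List Dg} : ∀ {η : List Dg}, code v <+: code η ++ [true, false] →
    v <+: η := by
  induction v with
  | nil => intro η _; exact List.nil_prefix
  | cons x v ih =>
    intro η h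
    cases η with
    | nil =>
      exfalso
      cases x <;> simp [Dg.code, List.cons_prefix_cons] at h
    | cons y η =>
      cases x <;> cases y <;>
        simp only [code_cons, Dg.code, List.cons_append, List.nil_append, List.cons_prefix_cons,
          true_and, reduceCtorEq, false_and, and_false] at h
      all_goals
        rw [List.cons_prefix_cons]
        exact ⟨rfl, ih h⟩

theorem code_prefix' {η : List Dg} : ∀ {v : List Dg}, ¬ code η ++ [true, false] <+: code v := by
  induction η with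
  | nil =>
    intro v h
    cases v with
    | nil => simp at h
    | cons y v => cases y <;> simp [Dg.code, List.cons_prefix_cons] at h
  | cons x η ih =>
    intro v h
    cases v with
    | nil => cases x <;> simp [Dg.code] at h
    | cons y v =>
      cases x <;> cases y <;>
        simp only [code_cons, Dg.code, List.cons_append, List.nil_append, List.cons_prefix_cons,
          true_and, reduceCtorEq, false_and, and_false] at h
      all_goals exact ih h

theorem y_smul_fix {v η : List Dg} (h : ¬ v <+: η) : yT v • wL η = wL η := by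
  apply smul_eq
  refine Maps.loc_inc ⟨?_, ?_⟩ yy
  · intro h1
    change ob ++ code v <+: ob ++ code η ++ [true, false] at h1
    rw [List.append_assoc, List.prefix_append_right_inj] at h1
    exact h (code_prefix h1)
  · intro h1
    change ob ++ code η ++ [true, false] <+: ob ++ code v at h1
    rw [List.append_assoc, List.prefix_append_right_inj] at h1
    exact code_prefix' h1

theorem exists_wL (D : Lf) : ∃ j δ, fT ^ j • D = wL δ := by
  obtain ⟨j, δ, h⟩ := to_base_g D.2
  exact ⟨j, δ, smul_eq h⟩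

/-- Decomposition at the last `b`. -/
theorem last_b : ∀ {η : List Dg}, Dg.b ∈ η → ∃ δ ε, η = δ ++ .b :: ε ∧ Dg.b ∉ ε := by
  intro η
  induction η with
  | nil => intro h; simp at h
  | cons x η ih =>
    intro h
    by_cases h1 : Dg.b ∈ η
    · obtain ⟨δ, ε, rfl, h2⟩ := ih h1
      exact ⟨x :: δ, ε, rfl, h2⟩
    · rcases List.mem_cons.1 h with rfl | h
      · exact ⟨[], η, rfl, h1⟩
      · exact absurd h h1

theorem last_b_unique : ∀ {δ ε δ' ε' : List Dg}, Dg.b ∉ ε → Dg.b ∉ ε' →
    δ ++ .b :: ε = δ' ++ .b :: ε' → δ = δ' ∧ ε = ε' := by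
  intro δ
  induction δ with
  | nil =>
    intro ε δ' ε' h h' e
    cases δ' with
    | nil => simpa using e
    | cons x δ' =>
      simp only [List.nil_append, List.cons_append, List.cons.injEq] at e
      exact absurd (by rw [e.2]; simp) h
  | cons y δ ih =>
    intro ε δ' ε' h h' e
    cases δ' with
    | nil =>
      simp only [List.nil_append, List.cons_append, List.cons.injEq] at e
      exact absurd (by rw [← e.2]; simp) h'
    | cons x δ' =>
      simp only [List.cons_append, List.cons.injEq] at e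
      obtain ⟨h1, h2⟩ := ih h h' e.2
      exact ⟨by rw [e.1, h1], h2⟩

theorem exists_s (D : Lf) : ∃ p : ℕ × List Dg × List Dg,
    fT ^ p.1 • D = wL (p.2.1 ++ .b :: p.2.2) ∧ Dg.b ∉ p.2.2 := by
  obtain ⟨j, δ, h⟩ := exists_wL D
  obtain ⟨η, ε, h1, h2⟩ := last_b (η := .b :: δ) (by simp)
  refine ⟨(j + 1, η, ε), ?_, h2⟩
  rw [pow_succ', mul_smul, h, f_smul, h1]

/-- The map `s` on leaves. -/
noncomputable def sM (D : Lf) : Lf := (fT ^ (exists_s D).choose.1)⁻¹ • wL (exists_s D).choose.2.1

theorem sM_unique {D : Lf} {j i : ℕ} {δ ε δ' ε' : List Dg}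
    (h : fT ^ j • D = wL (δ ++ .b :: ε)) (hε : Dg.b ∉ ε)
    (h' : fT ^ (j + i) • D = wL (δ' ++ .b :: ε')) (hε' : Dg.b ∉ ε') :
    (fT ^ (j + i))⁻¹ • wL δ' = (fT ^ j)⁻¹ • wL δ := by
  have h1 : wL (δ' ++ .b :: ε') = wL ((List.replicate i .b ++ δ) ++ .b :: ε) := by
    rw [← h', add_comm j i, pow_add, mul_smul, h, fpow_smul, List.append_assoc]
  obtain ⟨h2, _⟩ := last_b_unique hε' hε (wL_injective h1)
  rw [h2, ← fpow_smul, smul_smul, add_comm j i, pow_add]
  congr 1
  group

theorem sM_spec {D : Lf} {j : ℕ} {δ ε : List Dg}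
    (h : fT ^ j • D = wL (δ ++ .b :: ε)) (hε : Dg.b ∉ ε) : sM D = (fT ^ j)⁻¹ • wL δ := by
  have h1 := (exists_s D).choose_spec
  rw [sM]
  rcases le_total j (exists_s D).choose.1 with hle | hle
  · obtain ⟨i, hi⟩ := Nat.exists_eq_add_of_le hle
    have h2 := h1.1
    rw [hi] at h2 ⊢
    exact sM_unique h hε h2 h1.2
  · obtain ⟨i, hi⟩ := Nat.exists_eq_add_of_le hle
    rw [hi] at h ⊢
    exact (sM_unique h1.1 h1.2 h hε).symm

theorem sM_wL (δ ε : List Dg) (hε : Dg.b ∉ ε) : sM (wL (δ ++ .b :: ε)) = wL δ := by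
  have := sM_spec (D := wL (δ ++ .b :: ε)) (j := 0) (δ := δ) (ε := ε)
    (by rw [pow_zero, one_smul]) hε
  rw [this, pow_zero, inv_one, one_smul]

theorem sM_f (D : Lf) : sM (fT • D) = fT • sM D := by
  obtain ⟨⟨j, δ, ε⟩, h1, h2⟩ := exists_s D
  have h3 : fT ^ j • (fT • D) = wL ((.b :: δ) ++ .b :: ε) := by
    have h4 : fT ^ j • (fT • D) = fT • (fT ^ j • D) := by
      rw [smul_smul, smul_smul, ← pow_succ, ← pow_succ']
    have h1' : fT ^ j • D = wL (δ ++ .b :: ε) := h1
    rw [h4, h1', f_smul]; rfl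
  rw [sM_spec h3 h2, sM_spec h1 h2, ← f_smul, smul_smul, smul_smul]
  congr 1
  change (fT ^ j)⁻¹ * fT = fT * (fT ^ j)⁻¹
  group

theorem xh_append (η ε : List Dg) : xh (η ++ .b :: ε) = xh η ++ .b :: ε := by
  match η with
  | [] => rfl
  | [.a] => rfl
  | .a :: .a :: η => rfl
  | .a :: .b :: η => rfl
  | .a :: .d :: η => rfl
  | .b :: η => rfl
  | .d :: η => rfl

theorem xh_no_b {ε : List Dg} (h : Dg.b ∉ ε) : Dg.b ∉ xh ε := by
  match ε, h with
  | [], _ => simp [xh]
  | [.a], _ => simp [xh]
  | .a :: .a :: η, h => simpa [xh] using h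
  | .a :: .b :: η, h => simp at h
  | .a :: .d :: η, h => simpa [xh] using h
  | .b :: η, h => simp at h
  | .d :: η, h => simpa [xh] using h

theorem fpow_conj_y (j : ℕ) (v : List Dg) :
    fT ^ j * yT v = yT (List.replicate j .b ++ v) * fT ^ j := by
  have h1 : Maps (ff ^ j) (wl v) (wl (List.replicate j .b ++ v)) := by
    induction j with
    | zero => rw [pow_zero]; exact Maps.one _
    | succ j ih =>
      rw [pow_succ', List.replicate_succ]
      exact ih.mul (f_01.append _)
  have h2 := h1.loc_conj yy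
  rw [mul_inv_eq_iff_eq_mul] at h2
  apply Subtype.ext
  have e1 : (fT ^ j * yT v : TT).1 = ff ^ j * loc (wl v) yy := by
    rw [Subgroup.coe_mul, Subgroup.coe_pow]; rfl
  have e2 : (yT (List.replicate j .b ++ v) * fT ^ j : TT).1 =
      loc (wl (List.replicate j .b ++ v)) yy * ff ^ j := by
    rw [Subgroup.coe_mul, Subgroup.coe_pow]; rfl
  rw [e1, e2, h2]

/-- Comparison of a word with `δ ++ b :: ε`. -/
theorem prefix_cases {v δ ε : List Dg} :
    (∃ η, δ = v ++ η) ∨ (∃ ε1 ε2, v = δ ++ .b :: ε1 ∧ ε = ε1 ++ ε2 ∧ ¬ v <+: δ) ∨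
      (¬ v <+: δ ++ .b :: ε ∧ ¬ v <+: δ) := by
  by_cases h1 : v <+: δ
  · obtain ⟨η, hη⟩ := h1
    exact Or.inl ⟨η, hη.symm⟩
  · by_cases h2 : v <+: δ ++ .b :: ε
    · obtain ⟨r, hr⟩ := h2
      rcases List.append_eq_append_iff.1 hr with ⟨c, h3, h4⟩ | ⟨c, h3, h4⟩
      · exact absurd ⟨c, h3.symm⟩ h1
      · cases c with
        | nil =>
          rw [List.append_nil] at h3
          exact absurd ⟨[], by rw [h3, List.append_nil]⟩ h1
        | cons x c =>
          simp only [List.cons_append, List.cons.injEq] at h4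
          right; left
          refine ⟨c, r, ?_, h4.2, h1⟩
          rw [h3, ← h4.1]
    · exact Or.inr (Or.inr ⟨h2, h1⟩)

theorem sM_y (v : List Dg) (D : Lf) : sM (yT v • D) = yT v • sM D := by
  obtain ⟨⟨j, δ, ε⟩, h1, h2⟩ := exists_s D
  have h1' : fT ^ j • D = wL (δ ++ .b :: ε) := h1
  have h2' : Dg.b ∉ ε := h2
  set V := List.replicate j Dg.b ++ v with hV
  have h3 : fT ^ j • (yT v • D) = yT V • wL (δ ++ .b :: ε) := by
    rw [smul_smul, fpow_conj_y, mul_smul, h1']
  have h4 : yT v • sM D = (fT ^ j)⁻¹ • (yT V • wL δ) := by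
    rw [sM_spec h1' h2', smul_smul, smul_smul]
    congr 1
    have := fpow_conj_y j v
    rw [← hV] at this
    rw [eq_inv_mul_iff_mul_eq, ← mul_assoc, this]
    group
  rw [h4]
  rcases prefix_cases (v := V) (δ := δ) (ε := ε) with ⟨η, h5⟩ | ⟨ε1, ε2, h5, h6, h7⟩ | ⟨h5, h6⟩
  · have h6 : fT ^ j • (yT v • D) = wL ((V ++ xh η) ++ .b :: ε) := by
      rw [h3, h5, List.append_assoc V η, y_smul, xh_append, ← List.append_assoc]
    rw [sM_spec h6 h2', h5, y_smul]
  · have h8 : Dg.b ∉ ε2 := fun h => h2' (by rw [h6]; simp [h])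
    have h9 : Dg.b ∉ ε1 := fun h => h2' (by rw [h6]; simp [h])
    have h10 : fT ^ j • (yT v • D) = wL (δ ++ .b :: (ε1 ++ xh ε2)) := by
      have e1 : δ ++ .b :: ε = V ++ ε2 := by rw [h5, h6]; simp
      have e2 : δ ++ .b :: (ε1 ++ xh ε2) = V ++ xh ε2 := by rw [h5]; simp
      rw [h3, e1, e2, y_smul]
    have h11 : Dg.b ∉ ε1 ++ xh ε2 := by
      rw [List.mem_append]
      rintro (h | h)
      · exact h9 h
      · exact xh_no_b h8 h
    rw [sM_spec h10 h11, y_smul_fix h7]
  · have h10 : fT ^ j • (yT v • D) = wL (δ ++ .b :: ε) := by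
      rw [h3, y_smul_fix h5]
    rw [sM_spec h10 h2', y_smul_fix h6]

theorem sM_smul (t : TT) (D : Lf) : sM (t • D) = t • sM D := by
  obtain ⟨t, ht⟩ := t
  revert D
  induction ht using Subgroup.closure_induction with
  | mem x hx =>
    intro D
    simp only [genT, Set.mem_insert_iff, Set.mem_singleton_iff] at hx
    rcases hx with rfl | rfl | rfl | rfl | rfl
    · exact sM_f D
    · exact sM_y [] D
    · exact sM_y [.a] D
    · exact sM_y [.d] D
    · exact sM_y [.a, .d] D
  | one =>
    intro D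
    change sM ((1 : TT) • D) = (1 : TT) • sM D
    rw [one_smul, one_smul]
  | mul x y hx hy ihx ihy =>
    intro D
    change sM (((⟨x, hx⟩ : TT) * (⟨y, hy⟩ : TT)) • D) = ((⟨x, hx⟩ : TT) * (⟨y, hy⟩ : TT)) • sM D
    rw [mul_smul, mul_smul, ihx, ihy]
  | inv x hx ih =>
    intro D
    change sM ((⟨x, hx⟩ : TT)⁻¹ • D) = (⟨x, hx⟩ : TT)⁻¹ • sM D
    rw [eq_inv_smul_iff, ← ih, smul_inv_smul]

theorem sM_surjective : Function.Surjective sM := by
  intro D
  obtain ⟨j, δ, h⟩ := exists_wL D
  refine ⟨(fT ^ j)⁻¹ • wL (δ ++ [.b]), ?_⟩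
  rw [sM_smul, sM_wL δ [] (by simp), ← h, inv_smul_smul]

/-- Leaves and powers of `s`. -/
theorem sM_no_b {ε : List Dg} (h : Dg.b ∉ ε) : sM (wL ε) = sM (wL []) := by
  have h1 : fT • sM (wL ε) = fT • sM (wL []) := by
    rw [← sM_smul, ← sM_smul, f_smul, f_smul]
    have e1 := sM_wL [] ε h
    have e2 := sM_wL [] [] (by simp)
    rw [List.nil_append] at e1 e2
    rw [e1, e2]
  exact MulAction.injective fT h1

theorem sM_iter : ∀ (n : ℕ) (δ : List Dg), δ.length ≤ n →
    ∃ j, sM^[j + 1] (wL δ) = sM^[j + 1] (wL (List.replicate j .b)) := by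
  intro n
  induction n with
  | zero =>
    intro δ h
    have : δ = [] := List.eq_nil_of_length_eq_zero (by omega)
    subst this
    exact ⟨0, rfl⟩
  | succ n ih =>
    intro δ h
    by_cases hb : Dg.b ∈ δ
    · obtain ⟨η, ε, rfl, hε⟩ := last_b hb
      obtain ⟨j, hj⟩ := ih η (by
        rw [List.length_append, List.length_cons] at h; omega)
      refine ⟨j + 1, ?_⟩
      rw [Function.iterate_succ_apply, sM_wL η ε hε, hj, Function.iterate_succ_apply (n := j + 1)]
      have e1 : List.replicate (j + 1) Dg.b = List.replicate j .b ++ .b :: [] := by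
        rw [List.replicate_succ']
      rw [e1, sM_wL _ _ (by simp)]
    · exact ⟨0, sM_no_b hb⟩

/-- All leaves are eventually equivalent to the standard ones. -/
theorem eventually_std (D : Lf) : ∃ m j n,
    sM^[n] (fT ^ m • D) = sM^[n] (wL (List.replicate j .b)) := by
  obtain ⟨m, δ, h⟩ := exists_wL D
  obtain ⟨j, hj⟩ := sM_iter _ δ le_rfl
  exact ⟨m, j, j + 1, by rw [h, hj]⟩

end Pool.Agent.H41.TF
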