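import Pool.Agent.H41.TF.Words

/-!
# Thompson's group `F` and its combinatorial description
-/

set_option autoImplicit false

namespace Pool.Agent.H41.TF

/-- A real number of the form `a / 2 ^ n`. -/
def IsDyadic (x : ℝ) : Prop := ∃ (a : ℤ) (n : ℕ), x = a / 2 ^ n

/-- Order preserving bijections of the unit interval (these are the orientation preserving
homeomorphisms) which are piecewise linear with finitely many breakpoints, all breakpoints dyadic,
and all slopes integer powers of two. -/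
def IsThompson (g : UI ≃o UI) : Prop :=
  ∃ S : Finset ℝ, (∀ s ∈ S, IsDyadic s) ∧
    ∀ x y : UI, x < y → (∀ s ∈ S, ¬ (x.1 < s ∧ s < y.1)) →
      ∃ k : ℤ, ∀ z : UI, x ≤ z → z ≤ y → (g z : ℝ) = (g x : ℝ) + (2 : ℝ) ^ k * (z.1 - x.1)

/-- `g` maps the interval of `w` affinely onto the interval of `v`. -/
def Maps (g : UI ≃o UI) (w v : Word) : Prop := ∀ x, g (pt w x) = pt v x

theorem Maps.one (w : Word) : Maps 1 w w := fun _ => rfl

theorem Maps.mul {g h : UI ≃o UI} {w v u : Word} (hh : Maps h w v) (hg : Maps g v u) :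
    Maps (g * h) w u := fun x => by
  rw [RelIso.mul_apply, hh x, hg x]

theorem Maps.inv {g : UI ≃o UI} {w v : Word} (h : Maps g w v) : Maps g⁻¹ v w := fun x => by
  rw [← h x, RelIso.inv_apply_self]

theorem Maps.of_inv {g : UI ≃o UI} {w v : Word} (h : Maps g⁻¹ v w) : Maps g w v := by
  have := h.inv
  rwa [inv_inv] at this

theorem Maps.append {g : UI ≃o UI} {w v : Word} (h : Maps g w v) (u : Word) :
    Maps g (w ++ u) (v ++ u) := fun x => by
  rw [pt_append, pt_append, h]

theorem pt_fun_inj {w v : Word} (h : ∀ x, pt w x = pt v x) : w = v := word_ext (h 0) (h 1)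

theorem Maps.unique {g : UI ≃o UI} {w v v' : Word} (h : Maps g w v) (h' : Maps g w v') :
    v = v' := pt_fun_inj fun x => by rw [← h x, h' x]

theorem Maps.inj {g : UI ≃o UI} {w w' v : Word} (h : Maps g w v) (h' : Maps g w' v) :
    w = w' := h.inv.unique h'.inv

/-- The combinatorial form: all long words are mapped affinely to words. -/
def Comb (g : UI ≃o UI) : Prop := ∃ M : ℕ, ∀ w : Word, M ≤ w.length → ∃ v, Maps g w v

theorem Comb.one : Comb 1 := ⟨0, fun w _ => ⟨w, Maps.one w⟩⟩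

theorem Comb.mul {g h : UI ≃o UI} (hg : Comb g) (hh : Comb h) : Comb (g * h) := by
  obtain ⟨M, hM⟩ := hg
  obtain ⟨L, hL⟩ := hh
  refine ⟨L + M, fun w hw => ?_⟩
  obtain ⟨v, hv⟩ := hL (w.take L) (by rw [List.length_take]; omega)
  obtain ⟨v', hv'⟩ := hM (v ++ w.drop L) (by rw [List.length_append, List.length_drop]; omega)
  refine ⟨v', ?_⟩
  have := (hv.append (w.drop L)).mul hv'
  rwa [List.take_append_drop] at this

/-- Uniform bounds over the words of a given length. -/
theorem bound_words : ∀ (M : ℕ) (Q : Word → ℕ → Prop),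
    (∀ w, w.length = M → ∃ n, ∀ m, n ≤ m → Q w m) → ∃ N, ∀ w, w.length = M → ∀ m, N ≤ m → Q w m := by
  intro M
  induction M with
  | zero =>
    intro Q h
    obtain ⟨n, hn⟩ := h [] rfl
    refine ⟨n, fun w hw => ?_⟩
    rw [List.length_eq_zero_iff] at hw
    subst hw
    exact hn
  | succ M ih =>
    intro Q h
    obtain ⟨N0, h0⟩ := ih (fun w n => Q (false :: w) n) (fun w hw => h _ (by simp [hw]))
    obtain ⟨N1, h1⟩ := ih (fun w n => Q (true :: w) n) (fun w hw => h _ (by simp [hw]))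
    refine ⟨max N0 N1, fun w hw m hm => ?_⟩
    cases w with
    | nil => simp at hw
    | cons b w =>
      cases b
      · exact h0 w (by simpa using hw) m ((le_max_left _ _).trans hm)
      · exact h1 w (by simpa using hw) m ((le_max_right _ _).trans hm)

theorem Comb.inv {g : UI ≃o UI} (hg : Comb g) : Comb g⁻¹ := by
  obtain ⟨M, hM⟩ := hg
  obtain ⟨N, hN⟩ := bound_words M (fun w m => ∃ v, Maps g w v ∧ v.length ≤ m) (fun w hw => by
    obtain ⟨v, hv⟩ := hM w hw.ge
    exact ⟨v.length, fun m hm => ⟨v, hv, hm⟩⟩)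
  refine ⟨N, fun v hv => ?_⟩
  have hhalf : (1 / 2 : ℝ) ∈ Set.Icc (0 : ℝ) 1 := by constructor <;> norm_num
  obtain ⟨w, hw, y, hy⟩ := exists_pt M (g⁻¹ (pt v ⟨1 / 2, hhalf⟩))
  obtain ⟨v', hv', hl⟩ := hN w hw N le_rfl
  have h1 : pt v ⟨1 / 2, hhalf⟩ = pt v' y := by
    rw [← hv' y, ← hy, RelIso.apply_inv_self]
  have hne0 : (⟨1 / 2, hhalf⟩ : UI) ≠ 0 := by
    intro h; have := congrArg Subtype.val h; rw [val_zero] at this; norm_num at this
  have hne1 : (⟨1 / 2, hhalf⟩ : UI) ≠ 1 := by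
    intro h; have := congrArg Subtype.val h; rw [val_one] at this; norm_num at this
  rcases common _ _ _ _ h1 with h | ⟨u, hu⟩ | ⟨_, _, _, _, _, h, _⟩ | ⟨_, _, _, _, _, h, _⟩
  · have : v = v' := h.eq_of_length (le_antisymm h.length_le (hl.trans hv))
    subst this
    exact ⟨w, hv'.inv⟩
  · rw [← hu]
    exact ⟨w ++ u, hv'.inv.append u⟩
  · exact absurd h hne1
  · exact absurd h hne0

theorem compact_words : ∀ (M : ℕ) (P : Word → Prop),
    (∀ w, w.length = M → ∃ r, ∀ u : Word, r ≤ u.length → P (w ++ u)) →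
    ∃ R, ∀ w, R ≤ w.length → P w := by
  intro M P h
  obtain ⟨N, hN⟩ := bound_words M (fun w m => ∀ u : Word, m ≤ u.length → P (w ++ u))
    (fun w hw => by
      obtain ⟨r, hr⟩ := h w hw
      exact ⟨r, fun m hm u hu => hr u (hm.trans hu)⟩)
  refine ⟨M + N, fun w hw => ?_⟩
  have := hN (w.take M) (by rw [List.length_take]; omega) N le_rfl (w.drop M)
    (by rw [List.length_drop]; omega)
  rwa [List.take_append_drop] at this

/-- The combinatorial form implies the piecewise linear one. -/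
theorem Comb.isThompson {g : UI ≃o UI} (hg : Comb g) : IsThompson g := by
  obtain ⟨M, hM⟩ := hg
  refine ⟨(Finset.range (2 ^ M + 1)).image (fun j : ℕ => (j : ℝ) / 2 ^ M), ?_, ?_⟩
  · intro s hs
    obtain ⟨j, _, rfl⟩ := Finset.mem_image.1 hs
    exact ⟨j, M, by push_cast; rfl⟩
  · intro x y hxy hS
    obtain ⟨w, hw, a, ha, rfl⟩ := exists_pt_lt M x (hxy.trans_le (le_one y))
    obtain ⟨v, hv⟩ := hM w hw.ge
    have hy : y ≤ pt w 1 := by
      by_contra hlt
      rw [not_le] at hlt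
      obtain ⟨j, hj, hj'⟩ := exists_num w
      have h1 : ((pt w 1 : UI) : ℝ) = ((j + 1 : ℕ) : ℝ) / 2 ^ M := by
        rw [pt_one_val, hj', hw]; push_cast; ring
      refine hS _ (Finset.mem_image.2 ⟨j + 1, ?_, rfl⟩) ⟨?_, ?_⟩
      · rw [hw] at hj; rw [Finset.mem_range]; omega
      · rw [← h1]; exact pt_strictMono w ha
      · rw [← h1]; exact hlt
    obtain ⟨b, rfl⟩ := exists_of_mem w y ((pt_zero_le w a).trans hxy.le) hy
    refine ⟨(w.length : ℤ) - v.length, fun z hz hz' => ?_⟩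
    obtain ⟨c, rfl⟩ := exists_of_mem w z ((pt_zero_le w a).trans hz) (hz'.trans (pt_le_one w b))
    rw [hv, hv, pt_val v c, pt_val v a, pt_val w c, pt_val w a, zpow_sub₀ (by norm_num),
      zpow_natCast, zpow_natCast]
    field_simp
    ring

theorem IsDyadic.add {x y : ℝ} (hx : IsDyadic x) (hy : IsDyadic y) : IsDyadic (x + y) := by
  obtain ⟨a, n, rfl⟩ := hx
  obtain ⟨b, m, rfl⟩ := hy
  refine ⟨a * 2 ^ m + b * 2 ^ n, n + m, ?_⟩
  push_cast
  rw [pow_add]
  field_simp

theorem isDyadic_zpow (k : ℤ) : IsDyadic ((2 : ℝ) ^ k) := by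
  obtain ⟨n, rfl | rfl⟩ := k.eq_nat_or_neg
  · exact ⟨2 ^ n, 0, by push_cast; simp⟩
  · exact ⟨1, n, by rw [zpow_neg, zpow_natCast]; simp⟩

theorem common_den (S : Finset ℝ) (h : ∀ s ∈ S, IsDyadic s) :
    ∃ M : ℕ, ∀ s ∈ S, ∃ a : ℤ, s = a / 2 ^ M := by
  classical
  induction S using Finset.induction_on with
  | empty => exact ⟨0, by simp⟩
  | insert s S _ ih =>
    obtain ⟨M, hM⟩ := ih (fun t ht => h t (Finset.mem_insert_of_mem ht))
    obtain ⟨a, n, ha⟩ := h s (Finset.mem_insert_self _ _)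
    refine ⟨n + M, fun t ht => ?_⟩
    rcases Finset.mem_insert.1 ht with rfl | ht
    · refine ⟨a * 2 ^ M, ?_⟩
      rw [ha]; push_cast; rw [pow_add]; field_simp
    · obtain ⟨b, hb⟩ := hM t ht
      refine ⟨b * 2 ^ n, ?_⟩
      rw [hb]; push_cast; rw [pow_add]; field_simp

theorem map_zero' (g : UI ≃o UI) : g 0 = 0 := by
  apply le_antisymm _ (zero_le _)
  have := g.monotone (zero_le (g.symm 0))
  rwa [g.apply_symm_apply] at this

theorem map_one' (g : UI ≃o UI) : g 1 = 1 := by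
  apply le_antisymm (le_one _)
  have := g.monotone (le_one (g.symm 1))
  rwa [g.apply_symm_apply] at this

/-- The piecewise linear form implies the combinatorial one. -/
theorem IsThompson.comb {g : UI ≃o UI} (hg : IsThompson g) : Comb g := by
  obtain ⟨S, hS, h⟩ := hg
  obtain ⟨M, hM⟩ := common_den S hS
  -- affine on words of length `M`
  have aff : ∀ w : Word, w.length = M → ∃ k : ℤ, ∀ x : UI,
      (g (pt w x) : ℝ) = (g (pt w 0) : ℝ) + (2 : ℝ) ^ k * (x.1 / 2 ^ M) := by
    intro w hw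
    obtain ⟨j, hj, hj'⟩ := exists_num w
    obtain ⟨k, hk⟩ := h (pt w 0) (pt w 1) (pt_zero_lt_pt_one w) (by
      rintro s hs ⟨h1, h2⟩
      obtain ⟨a, rfl⟩ := hM s hs
      rw [hj', hw, div_lt_div_iff_of_pos_right (by positivity)] at h1
      rw [pt_one_val, hj', hw, ← add_div, div_lt_div_iff_of_pos_right (by positivity)] at h2
      have h1' : (j : ℤ) < a := by exact_mod_cast h1
      have h2' : a < (j : ℤ) + 1 := by exact_mod_cast h2
      omega)
    refine ⟨k, fun x => ?_⟩
    rw [hk (pt w x) (pt_zero_le w x) (pt_le_one w x), pt_val w x, hw]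
    ring
  -- the images of the grid points are dyadic
  have dy : ∀ j : ℕ, j ≤ 2 ^ M → ∀ x : UI, x.1 = (j : ℝ) / 2 ^ M → IsDyadic (g x) := by
    intro j
    induction j with
    | zero =>
      intro _ x hx
      have : x = 0 := Subtype.ext (by rw [hx, val_zero]; simp)
      rw [this, map_zero']
      exact ⟨0, 0, by rw [val_zero]; simp⟩
    | succ j ih =>
      intro hj x hx
      obtain ⟨w, hw, hw'⟩ := exists_word M j (by omega)
      obtain ⟨k, hk⟩ := aff w hw
      have hx1 : x = pt w 1 := by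
        apply Subtype.ext
        rw [pt_one_val, hw', hw, hx]; push_cast; ring
      rw [hx1, hk 1]
      refine IsDyadic.add (ih (by omega) _ hw') ?_
      rw [val_one]
      have : (2 : ℝ) ^ k * (1 / 2 ^ M) = (2 : ℝ) ^ (k - M) := by
        rw [zpow_sub₀ (by norm_num), zpow_natCast]; ring
      rw [this]
      exact isDyadic_zpow _
  refine compact_words M _ fun w hw => ?_
  obtain ⟨k, hk⟩ := aff w hw
  obtain ⟨j, hj, hj'⟩ := exists_num w
  obtain ⟨a, N, ha⟩ := dy j (by rw [hw] at hj; exact hj.le) (pt w 0) (by rw [hj', hw])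
  -- the image length is at most one
  have hslope : (2 : ℝ) ^ k * (1 / 2 ^ M) = (2 : ℝ) ^ (k - M) := by
    rw [zpow_sub₀ (by norm_num), zpow_natCast]; ring
  have hle : (2 : ℝ) ^ (k - M) ≤ 1 := by
    have h1 := hk 1
    rw [val_one, hslope] at h1
    have h2 := (g (pt w 1)).2.2
    have h3 := (g (pt w 0)).2.1
    linarith
  have hkM : k - M ≤ 0 := by
    by_contra hpos
    rw [not_le] at hpos
    have : (1 : ℝ) < (2 : ℝ) ^ (k - M) := one_lt_zpow₀ (by norm_num) hpos
    linarith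
  obtain ⟨e, he⟩ := Int.exists_eq_neg_ofNat hkM
  have hslope' : ∀ x : ℝ, (2 : ℝ) ^ k * (x / 2 ^ M) = x / 2 ^ e := by
    intro x
    have : (2 : ℝ) ^ k * (x / 2 ^ M) = x * ((2 : ℝ) ^ k * (1 / 2 ^ M)) := by ring
    rw [this, hslope, he, zpow_neg, zpow_natCast, div_eq_mul_inv]
  refine ⟨N, fun u hu => ?_⟩
  obtain ⟨c, hc, hc'⟩ := exists_num u
  obtain ⟨r, hr⟩ := Nat.exists_eq_add_of_le hu
  -- the image
  have img : ∀ x : UI, (g (pt (w ++ u) x) : ℝ) =
      ((a * 2 ^ (e + r) + c : ℤ) : ℝ) / 2 ^ (e + u.length) + x.1 / 2 ^ (e + u.length) := by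
    intro x
    rw [pt_append, hk, hslope', ha, pt_val u x, hc', hr]
    push_cast
    rw [pow_add, pow_add, pow_add, pow_add]
    field_simp
    ring
  have hJ0 : (0 : ℤ) ≤ a * 2 ^ (e + r) + c := by
    have h1 := img 0
    have h2 := (g (pt (w ++ u) 0)).2.1
    rw [h1, val_zero] at h2
    simp only [zero_div, add_zero] at h2
    have h3 : (0 : ℝ) ≤ ((a * 2 ^ (e + r) + c : ℤ) : ℝ) := by
      have hp : (0 : ℝ) < 2 ^ (e + u.length) := by positivity
      exact (div_nonneg_iff.1 h2).elim (fun h => h.1) (fun h => absurd h.2 (not_le.2 hp))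
    exact_mod_cast h3
  obtain ⟨J, hJ⟩ := Int.eq_ofNat_of_zero_le hJ0
  have hJlt : J < 2 ^ (e + u.length) := by
    have h1 := img 1
    have h2 := (g (pt (w ++ u) 1)).2.2
    rw [h1, val_one, ← add_div, hJ, div_le_one (by positivity)] at h2
    have h3 : ((J + 1 : ℕ) : ℝ) ≤ ((2 ^ (e + u.length) : ℕ) : ℝ) := by push_cast at h2 ⊢; exact h2
    have h4 : J + 1 ≤ 2 ^ (e + u.length) := by exact_mod_cast h3
    omega
  obtain ⟨v, hv, hv'⟩ := exists_word _ J hJlt
  refine ⟨v, fun x => Subtype.ext ?_⟩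
  rw [img x, hJ, pt_val v x, hv', hv]
  push_cast
  rfl

theorem isThompson_iff {g : UI ≃o UI} : IsThompson g ↔ Comb g :=
  ⟨IsThompson.comb, Comb.isThompson⟩

/-- Thompson's group `F`, as a group of homeomorphisms of `[0, 1]` under composition. -/
def ThompsonF : Subgroup (UI ≃o UI) where
  carrier := {g | IsThompson g}
  one_mem' := isThompson_iff.2 Comb.one
  mul_mem' := fun ha hb => isThompson_iff.2 ((isThompson_iff.1 ha).mul (isThompson_iff.1 hb))
  inv_mem' := fun ha => isThompson_iff.2 (isThompson_iff.1 ha).inv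

theorem mem_ThompsonF {g : UI ≃o UI} : g ∈ ThompsonF ↔ Comb g := isThompson_iff

end Pool.Agent.H41.TF
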