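import Pool.Agent.H41.TF.Loc

/-!
# Consecutive tilings by standard dyadic intervals
-/

set_option autoImplicit false

namespace Pool.Agent.H41.TF

/-- The intervals of the words in `L` tile `[x, y]` consecutively. -/
def Tiles : UI → UI → List Word → Prop
  | x, y, [] => x = y
  | x, y, w :: L => x = pt w 0 ∧ Tiles (pt w 1) y L

theorem tiles_nil {x y : UI} : Tiles x y [] ↔ x = y := Iff.rfl

theorem tiles_cons {x y : UI} {w : Word} {L : List Word} :
    Tiles x y (w :: L) ↔ x = pt w 0 ∧ Tiles (pt w 1) y L := Iff.rfl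

theorem tiles_append {L L' : List Word} : ∀ {x y : UI},
    Tiles x y (L ++ L') ↔ ∃ z, Tiles x z L ∧ Tiles z y L' := by
  induction L with
  | nil => intro x y; simp [Tiles]
  | cons w L ih =>
    intro x y
    rw [List.cons_append, tiles_cons, ih]
    constructor
    · rintro ⟨h, z, h1, h2⟩; exact ⟨z, ⟨h, h1⟩, h2⟩
    · rintro ⟨z, ⟨h, h1⟩, h2⟩; exact ⟨h, z, h1, h2⟩

theorem tiles_le {L : List Word} : ∀ {x y : UI}, Tiles x y L → x ≤ y := by
  induction L with
  | nil => intro x y h; exact le_of_eq h
  | cons w L ih =>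
    intro x y h
    exact (le_of_eq h.1).trans ((pt_zero_lt_pt_one w).le.trans (ih h.2))

theorem Tiles.eq_nil {L : List Word} {x : UI} (h : Tiles x x L) : L = [] := by
  cases L with
  | nil => rfl
  | cons w L =>
    have h1 := tiles_le h.2
    rw [h.1] at h1
    exact absurd h1 (not_le.2 (pt_zero_lt_pt_one w))

theorem Tiles.map {g : UI ≃o UI} {L L' : List Word}
    (hL : List.Forall₂ (fun w v => g (pt w 0) = pt v 0 ∧ g (pt w 1) = pt v 1) L L') :
    ∀ {x y : UI}, Tiles x y L → Tiles (g x) (g y) L' := by
  induction hL with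
  | nil => intro x y h; exact congrArg g h
  | cons h1 _ ih =>
    intro x y h
    refine ⟨?_, ?_⟩
    · rw [h.1, h1.1]
    · rw [← h1.2]; exact ih h.2

theorem forall₂_of_forall_exists {α β : Type} {R : α → β → Prop} {L : List α}
    (h : ∀ a ∈ L, ∃ b, R a b) : ∃ L', List.Forall₂ R L L' := by
  induction L with
  | nil => exact ⟨[], List.Forall₂.nil⟩
  | cons a L ih =>
    obtain ⟨b, hb⟩ := h a (by simp)
    obtain ⟨L', hL'⟩ := ih (fun x hx => h x (by simp [hx]))
    exact ⟨b :: L', List.Forall₂.cons hb hL'⟩

theorem forall₂_both {α β : Type} {R S : α → β → Prop} {L : List α} {L' : List β}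
    (h : List.Forall₂ R L L') (h' : List.Forall₂ S L L') : ∀ a ∈ L, ∃ b ∈ L', R a b ∧ S a b := by
  induction h with
  | nil => intro a ha; simp at ha
  | cons h1 _ ih =>
    cases h' with
    | cons h2 h3 =>
      intro a ha
      rcases List.mem_cons.1 ha with rfl | ha
      · exact ⟨_, by simp, h1, h2⟩
      · obtain ⟨b, hb, hb'⟩ := ih h3 a ha
        exact ⟨b, by simp [hb], hb'⟩

theorem exists_length_bound (L : List Word) : ∃ n, ∀ v ∈ L, v.length ≤ n := by
  induction L with
  | nil => exact ⟨0, by simp⟩
  | cons w L ih =>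
    obtain ⟨n, hn⟩ := ih
    refine ⟨max w.length n, fun v hv => ?_⟩
    rcases List.mem_cons.1 hv with rfl | hv
    · exact le_max_left _ _
    · exact (hn v hv).trans (le_max_right _ _)

theorem half_mid : half false 1 = half true 0 := by
  apply Subtype.ext
  rw [half_false, half_true, val_one, val_zero]; norm_num

theorem pt_snoc_mid (w : Word) : pt (w ++ [false]) 1 = pt (w ++ [true]) 0 := by
  rw [pt_append, pt_append, pt_cons, pt_cons, pt_nil, pt_nil, half_mid]

theorem pt_snoc_left (w : Word) : pt (w ++ [false]) 0 = pt w 0 := by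
  rw [pt_append, pt_cons, pt_nil, half_false_zero]

theorem pt_snoc_right (w : Word) : pt (w ++ [true]) 1 = pt w 1 := by
  rw [pt_append, pt_cons, pt_nil, half_true_one]

theorem pt_snoc_lt (w : Word) : pt (w ++ [false]) 1 < pt w 1 := by
  rw [pt_snoc_mid, ← pt_snoc_right w]
  exact pt_zero_lt_pt_one _

/-- A word whose left endpoint is that of a word ending with `1`. -/
theorem same_left_true {w v : Word} (h : pt v 0 = pt (w ++ [true]) 0) :
    ∃ j, v = w ++ [true] ++ List.replicate j false := by
  rcases same_left h.symm with h1 | ⟨j, hj⟩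
  · exact h1
  · cases j with
    | zero =>
      refine ⟨0, ?_⟩
      rw [List.replicate_zero, List.append_nil] at hj ⊢
      exact hj.symm
    | succ j =>
      exfalso
      rw [List.replicate_succ', ← List.append_assoc] at hj
      have := (List.append_inj' hj rfl).2
      simp at this

theorem replicate_append_false (j : ℕ) : ∀ w : Word,
    w ++ List.replicate (j + 1) false = (w ++ [false]) ++ List.replicate j false := by
  intro w
  rw [List.replicate_succ, List.append_assoc]; rfl

end Pool.Agent.H41.TF
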