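import Pool.Agent.H41.TF.Auto

/-!
# Typed trees and rotations
-/

set_option autoImplicit false

namespace Pool.Agent.H41.TF

/-- Typed trees. -/
inductive Tr
  | leaf : Tr
  | node : Tr → Tr → Tr → Tr

namespace Tr

/-- The words of the leaves (relative to a word of state `l`). -/
def lv : Tr → List Word
  | leaf => [[]]
  | node a b d => a.lv.map ([false, false] ++ ·) ++ (b.lv.map ([false, true] ++ ·) ++
      ([true, false] :: d.lv.map ([true, true] ++ ·)))

/-- The types of the leaves, `true` for the state `g`. -/
def seq : Tr → List Bool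
  | leaf => [false]
  | node a b d => a.seq ++ (b.seq ++ (true :: d.seq))

/-- Full trees. -/
def full : ℕ → Tr
  | 0 => leaf
  | n + 1 => node (full n) (full n) (full n)

theorem state_lv (τ : Tr) : ∀ w ∈ τ.lv, go .l w = .l ∨ go .l w = .g := by
  induction τ with
  | leaf => intro w hw; simp [lv] at hw; subst hw; exact Or.inl rfl
  | node a b d iha ihb ihd =>
    intro w hw
    simp only [lv, List.mem_append, List.mem_map, List.mem_cons] at hw
    rcases hw with ⟨v, hv, rfl⟩ | ⟨v, hv, rfl⟩ | rfl | ⟨v, hv, rfl⟩
    · exact iha v hv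
    · exact ihb v hv
    · exact Or.inr rfl
    · exact ihd v hv

theorem length_full (n : ℕ) : ∀ w ∈ (full n).lv, go .l w = .l → n ≤ w.length := by
  induction n with
  | zero => intro w _ _; exact Nat.zero_le _
  | succ n ih =>
    intro w hw h
    simp only [full, lv, List.mem_append, List.mem_map, List.mem_cons] at hw
    rcases hw with ⟨v, hv, rfl⟩ | ⟨v, hv, rfl⟩ | rfl | ⟨v, hv, rfl⟩
    · have := ih v hv h; simp; omega
    · have := ih v hv h; simp; omega
    · exact absurd h (by decide)
    · have := ih v hv h; simp; omega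

/-- The types as computed by the automaton. -/
theorem seq_eq (τ : Tr) : ∀ w : Word, st w = .l →
    (τ.lv.map (w ++ ·)).map (fun v => decide (st v = .g)) = τ.seq := by
  induction τ with
  | leaf => intro w hw; simp [lv, seq, hw]
  | node a b d iha ihb ihd =>
    intro w hw
    have ha := iha (w ++ [false, false]) (by rw [st_append, hw]; rfl)
    have hb := ihb (w ++ [false, true]) (by rw [st_append, hw]; rfl)
    have hd := ihd (w ++ [true, true]) (by rw [st_append, hw]; rfl)
    have hc : st (w ++ [true, false]) = .g := by rw [st_append, hw]; rfl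
    rw [lv, seq, ← ha, ← hb, ← hd]
    simp only [List.map_append, List.map_cons, List.map_map, hc, decide_true]
    simp [Function.comp_def]

theorem map_node (w : Word) (a b d : Tr) : (node a b d).lv.map (w ++ ·) =
    a.lv.map ((w ++ [false, false]) ++ ·) ++ (b.lv.map ((w ++ [false, true]) ++ ·) ++
      ((w ++ [true, false]) :: d.lv.map ((w ++ [true, true]) ++ ·))) := by
  simp [lv, List.map_map, Function.comp_def]

theorem pt00 (w : Word) : pt (w ++ [false, false]) 0 = pt w 0 := by
  have : w ++ [false, false] = (w ++ [false]) ++ [false] := by simp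
  rw [this, pt_snoc_left, pt_snoc_left]

theorem pt00_01 (w : Word) : pt (w ++ [false, false]) 1 = pt (w ++ [false, true]) 0 := by
  have h1 : w ++ [false, false] = (w ++ [false]) ++ [false] := by simp
  have h2 : w ++ [false, true] = (w ++ [false]) ++ [true] := by simp
  rw [h1, h2, pt_snoc_mid]

theorem pt01_10 (w : Word) : pt (w ++ [false, true]) 1 = pt (w ++ [true, false]) 0 := by
  have h1 : w ++ [false, true] = (w ++ [false]) ++ [true] := by simp
  have h2 : w ++ [true, false] = (w ++ [true]) ++ [false] := by simp
  rw [h1, h2, pt_snoc_right, pt_snoc_left, pt_snoc_mid]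

theorem pt10_11 (w : Word) : pt (w ++ [true, false]) 1 = pt (w ++ [true, true]) 0 := by
  have h1 : w ++ [true, false] = (w ++ [true]) ++ [false] := by simp
  have h2 : w ++ [true, true] = (w ++ [true]) ++ [true] := by simp
  rw [h1, h2, pt_snoc_mid]

theorem pt11 (w : Word) : pt (w ++ [true, true]) 1 = pt w 1 := by
  have : w ++ [true, true] = (w ++ [true]) ++ [true] := by simp
  rw [this, pt_snoc_right, pt_snoc_right]

theorem pt00_lt (w : Word) : pt (w ++ [false, false]) 1 < pt w 1 := by
  have h1 : w ++ [false, false] = (w ++ [false]) ++ [false] := by simp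
  rw [h1]
  exact (pt_snoc_lt _).trans (pt_snoc_lt w)

theorem pt01_lt (w : Word) : pt (w ++ [false, true]) 1 < pt w 1 := by
  have h1 : w ++ [false, true] = (w ++ [false]) ++ [true] := by simp
  rw [h1, pt_snoc_right]
  exact pt_snoc_lt w

theorem pt10_lt (w : Word) : pt (w ++ [true, false]) 1 < pt w 1 := by
  have h1 : w ++ [true, false] = (w ++ [true]) ++ [false] := by simp
  rw [h1]
  exact (pt_snoc_lt _).trans_eq (pt_snoc_right w)

theorem tiles (τ : Tr) : ∀ w : Word, Tiles (pt w 0) (pt w 1) (τ.lv.map (w ++ ·)) := by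
  induction τ with
  | leaf => intro w; simp [lv, Tiles]
  | node a b d iha ihb ihd =>
    intro w
    rw [map_node, tiles_append]
    refine ⟨pt (w ++ [false, false]) 1, ?_, ?_⟩
    · have := iha (w ++ [false, false])
      rwa [pt00] at this
    · rw [tiles_append]
      refine ⟨pt (w ++ [false, true]) 1, ?_, ?_⟩
      · have := ihb (w ++ [false, true])
        rwa [← pt00_01] at this
      · refine ⟨pt01_10 w, ?_⟩
        have := ihd (w ++ [true, true])
        rwa [pt11, ← pt10_11] at this

theorem not_nil_of_lt {x y : UI} {L : List Word} (h : Tiles x y L) (hxy : x < y) :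
    ∃ v L', L = v :: L' ∧ pt v 0 = x ∧ Tiles (pt v 1) y L' := by
  cases L with
  | nil => rw [tiles_nil] at h; exact absurd h hxy.ne
  | cons v L => exact ⟨v, L, rfl, h.1.symm, h.2⟩

/-- A word of type `l` or `g` whose left endpoint is that of a leaf `w ++ [1, 0]`. -/
theorem left_leaf {w v : Word} (hw : st w = .l) (hv : st v = .l ∨ st v = .g)
    (h : pt v 0 = pt (w ++ [true, false]) 0) : v = w ++ [true, false] := by
  have h1 : w ++ [true, false] = (w ++ [true]) ++ [false] := by simp
  rw [h1, pt_snoc_left] at h
  obtain ⟨j, hj⟩ := same_left_true h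
  have hs : st v = go .p (List.replicate j false) := by
    rw [hj, st_append, st_append, hw]; rfl
  match j with
  | 0 => rw [hs] at hv; rcases hv with hv | hv <;> exact absurd hv (by decide)
  | 1 => rw [hj]; simp
  | j + 2 =>
    have : go .p (List.replicate (j + 2) false) = .i := by
      rw [List.replicate_succ, List.replicate_succ]; exact go_i _
    rw [hs, this] at hv
    rcases hv with hv | hv <;> exact absurd hv (by decide)

/-- Every typed tiling that begins like `w` (of type `l`) and reaches the right end of `w` begins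
with a typed tree. -/
theorem exists_tree : ∀ (n : ℕ) (w : Word) (L : List Word) (y : UI), st w = .l →
    (∀ v ∈ L, st v = .l ∨ st v = .g) →
    (∀ v ∈ L, v.length ≤ w.length + n) → Tiles (pt w 0) y L → pt w 1 ≤ y →
    (∀ v ∈ L.head?, ∃ j, v = w ++ List.replicate j false) →
    ∃ (τ : Tr) (L' : List Word), L = τ.lv.map (w ++ ·) ++ L' ∧ Tiles (pt w 1) y L' := by
  intro n
  induction n with
  | zero =>
    intro w L y hw hst hlen hT hy hhd
    obtain ⟨v, L, rfl, hv0, hT'⟩ := not_nil_of_lt hT ((pt_zero_lt_pt_one w).trans_le hy)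
    obtain ⟨j, hj⟩ := hhd v rfl
    have h1 := hlen v (by simp)
    rw [hj, List.length_append, List.length_replicate] at h1
    have : j = 0 := by omega
    subst this
    rw [List.replicate_zero, List.append_nil] at hj
    subst hj
    exact ⟨leaf, L, by simp [lv], hT'⟩
  | succ n ih =>
    intro w L y hw hst hlen hT hy hhd
    obtain ⟨v, L, rfl, hv0, hT'⟩ := not_nil_of_lt hT ((pt_zero_lt_pt_one w).trans_le hy)
    obtain ⟨j, hj⟩ := hhd v rfl
    match j, hj with
    | 0, hj =>
      rw [List.replicate_zero, List.append_nil] at hj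
      subst hj
      exact ⟨leaf, L, by simp [lv], hT'⟩
    | 1, hj =>
      exfalso
      have hs : st v = .q := by rw [hj, st_append, hw]; rfl
      have := hst v (by simp)
      rw [hs] at this
      rcases this with h | h <;> exact absurd h (by decide)
    | j + 2, hj =>
      have hj' : v = (w ++ [false, false]) ++ List.replicate j false := by
        rw [hj, List.replicate_succ, List.replicate_succ]; simp
      have s00 : st (w ++ [false, false]) = .l := by rw [st_append, hw]; rfl
      have s01 : st (w ++ [false, true]) = .l := by rw [st_append, hw]; rfl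
      have s11 : st (w ++ [true, true]) = .l := by rw [st_append, hw]; rfl
      obtain ⟨a, L1, h1, h2⟩ := ih (w ++ [false, false]) (v :: L) y s00 hst
        (fun u hu => (hlen u hu).trans (by simp; omega)) (by rwa [pt00])
        ((pt00_lt w).le.trans hy)
        (fun u hu => by
          simp only [List.head?_cons, Option.mem_def, Option.some.injEq] at hu
          exact ⟨j, by rw [← hu]; exact hj'⟩)
      have m1 : ∀ u ∈ L1, u ∈ v :: L := fun u hu => by
        rw [h1]; exact List.mem_append_right _ hu
      obtain ⟨v1, L1', e1, hv1, _⟩ := not_nil_of_lt h2 ((pt00_lt w).trans_le hy)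
      have e1' : ∃ k, v1 = w ++ [false, true] ++ List.replicate k false := by
        have := same_left_true (w := w ++ [false]) (v := v1) (by
          rw [hv1, pt00_01]; simp)
        simpa using this
      obtain ⟨b, L2, h3, h4⟩ := ih (w ++ [false, true]) L1 y s01
        (fun u hu => hst u (m1 u hu))
        (fun u hu => (hlen u (m1 u hu)).trans (by simp; omega)) (by rwa [← pt00_01])
        ((pt01_lt w).le.trans hy)
        (fun u hu => by
          rw [e1] at hu
          simp only [List.head?_cons, Option.mem_def, Option.some.injEq] at hu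
          rw [← hu]; exact e1')
      have m2 : ∀ u ∈ L2, u ∈ v :: L := fun u hu => m1 u (by
        rw [h3]; exact List.mem_append_right _ hu)
      obtain ⟨v2, L3, e2, hv2, h5⟩ := not_nil_of_lt h4 ((pt01_lt w).trans_le hy)
      have e3 : v2 = w ++ [true, false] := left_leaf hw
        (hst v2 (m2 v2 (by rw [e2]; simp))) (by rw [hv2, pt01_10])
      subst e3
      have m3 : ∀ u ∈ L3, u ∈ v :: L := fun u hu => m2 u (by rw [e2]; simp [hu])
      obtain ⟨v3, L3', e4, hv3, _⟩ := not_nil_of_lt h5 ((pt10_lt w).trans_le hy)
      have e4' : ∃ k, v3 = w ++ [true, true] ++ List.replicate k false := by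
        have := same_left_true (w := w ++ [true]) (v := v3) (by
          rw [hv3, pt10_11]; simp)
        simpa using this
      obtain ⟨d, L4, h6, h7⟩ := ih (w ++ [true, true]) L3 y s11
        (fun u hu => hst u (m3 u hu))
        (fun u hu => (hlen u (m3 u hu)).trans (by simp; omega)) (by rwa [← pt10_11])
        (by rwa [pt11])
        (fun u hu => by
          rw [e4] at hu
          simp only [List.head?_cons, Option.mem_def, Option.some.injEq] at hu
          rw [← hu]; exact e4')
      refine ⟨node a b d, L4, ?_, by rwa [pt11] at h7⟩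
      rw [h1, h3, e2, h6, map_node]
      simp

/-- Normal forms: every left child is a leaf. -/
def NF : Tr → Prop
  | leaf => True
  | node a b d => a = leaf ∧ b.NF ∧ d.NF

/-- Grafting at the right end of a comb. -/
def combine : Tr → Tr → Tr → Tr
  | leaf, b, d => node leaf b d
  | node x b1 a, b, d => node x b1 (combine a b d)

/-- Normal form. -/
def nf : Tr → Tr
  | leaf => leaf
  | node a b d => combine (nf a) (nf b) (nf d)

theorem NF_combine {a b d : Tr} (ha : a.NF) (hb : b.NF) (hd : d.NF) : (combine a b d).NF := by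
  induction a with
  | leaf => exact ⟨rfl, hb, hd⟩
  | node x b1 a _ _ ih => exact ⟨ha.1, ha.2.1, ih ha.2.2⟩

theorem NF_nf (τ : Tr) : τ.nf.NF := by
  induction τ with
  | leaf => trivial
  | node a b d iha ihb ihd => exact NF_combine iha ihb ihd

/-- Sequences that are empty or start with the type `g`. -/
def Stop (r : List Bool) : Prop := r = [] ∨ ∃ r', r = true :: r'

theorem seq_head (τ : Tr) : ∃ r, τ.seq = false :: r := by
  induction τ with
  | leaf => exact ⟨[], rfl⟩
  | node a b d iha _ _ =>
    obtain ⟨r, hr⟩ := iha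
    exact ⟨r ++ (b.seq ++ (true :: d.seq)), by rw [seq, hr]; rfl⟩

/-- Unique parsing of normal forms. -/
theorem parse : ∀ {τ τ' : Tr}, τ.NF → τ'.NF → ∀ {r r' : List Bool}, Stop r → Stop r' →
    τ.seq ++ r = τ'.seq ++ r' → τ = τ' ∧ r = r' := by
  intro τ
  induction τ with
  | leaf =>
    intro τ' _ h' r r' hr hr' h
    cases τ' with
    | leaf => exact ⟨rfl, by simpa [seq] using h⟩
    | node a b d =>
      exfalso
      obtain ⟨rfl, _, _⟩ := h'
      obtain ⟨s, hs⟩ := seq_head b
      simp only [seq, hs, List.cons_append, List.nil_append, List.cons.injEq, true_and] at h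
      rcases hr with rfl | ⟨r1, rfl⟩ <;> simp at h
  | node a b d _ ihb ihd =>
    intro τ' h1 h' r r' hr hr' h
    obtain ⟨rfl, hb, hd⟩ := h1
    cases τ' with
    | leaf =>
      exfalso
      obtain ⟨s, hs⟩ := seq_head b
      simp only [seq, hs, List.cons_append, List.nil_append, List.cons.injEq, true_and] at h
      rcases hr' with rfl | ⟨r1, rfl⟩ <;> simp at h
    | node a' b' d' =>
      obtain ⟨rfl, hb', hd'⟩ := h'
      simp only [seq, List.cons_append, List.nil_append, List.append_assoc, List.cons.injEq,
        true_and] at h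
      obtain ⟨e1, e2⟩ := ihb hb hb' (Or.inr ⟨_, rfl⟩) (Or.inr ⟨_, rfl⟩) h
      subst e1
      rw [List.cons.injEq] at e2
      obtain ⟨e3, e4⟩ := ihd hd hd' hr hr' e2.2
      subst e3
      exact ⟨rfl, e4⟩

end Tr

/-- The elements all of whose localisations at words `wl δ` lie in `T`. -/
def T1 : Subgroup (UI ≃o UI) where
  carrier := {s | ∀ δ : List Dg, loc (wl δ) s ∈ TT}
  one_mem' := fun w => by rw [loc_one]; exact TT.one_mem
  mul_mem' := fun ha hb w => by rw [loc_mul]; exact TT.mul_mem (ha w) (hb w)
  inv_mem' := fun ha w => by rw [loc_inv]; exact TT.inv_mem (ha w)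

theorem loc_mem_T1 {s : UI ≃o UI} (h : s ∈ T1) (η : List Dg) : loc (code η) s ∈ T1 := fun δ => by
  rw [← loc_append, ← wl_append]; exact h _

theorem yy_mem_T1 : yy ∈ T1 := fun δ => y_mem δ

/-- Two typed trees related by an element of the group. -/
def Real (τ τ' : Tr) : Prop := ∃ s ∈ T1, List.Forall₂ (Maps s) τ.lv τ'.lv

theorem Real.refl (τ : Tr) : Real τ τ :=
  ⟨1, T1.one_mem, List.forall₂_same.2 fun w _ => Maps.one w⟩

theorem Real.trans {τ1 τ2 τ3 : Tr} (h : Real τ1 τ2) (h' : Real τ2 τ3) : Real τ1 τ3 := by
  obtain ⟨s, hs, h1⟩ := h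
  obtain ⟨t, ht, h2⟩ := h'
  exact ⟨t * s, T1.mul_mem ht hs, forall₂_trans' (fun _ _ _ a b => a.mul b) h1 h2⟩

theorem Real.symm {τ1 τ2 : Tr} (h : Real τ1 τ2) : Real τ2 τ1 := by
  obtain ⟨s, hs, h1⟩ := h
  exact ⟨s⁻¹, T1.inv_mem hs, h1.flip.imp fun _ _ h => Maps.inv h⟩

theorem Real.node {a a' b b' d d' : Tr} (ha : Real a a') (hb : Real b b') (hd : Real d d') :
    Real (Tr.node a b d) (Tr.node a' b' d') := by
  obtain ⟨s, hs, h1⟩ := ha
  obtain ⟨t, ht, h2⟩ := hb
  obtain ⟨u, hu, h3⟩ := hd
  have c1 : loc [false, false] s ∈ T1 := loc_mem_T1 hs [.a]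
  have c2 : loc [false, true] t ∈ T1 := loc_mem_T1 ht [.b]
  have c3 : loc [true, true] u ∈ T1 := loc_mem_T1 hu [.d]
  refine ⟨loc [false, false] s * (loc [false, true] t * loc [true, true] u),
    T1.mul_mem c1 (T1.mul_mem c2 c3), ?_⟩
  rw [Tr.lv, Tr.lv]
  refine List.rel_append ?_ (List.rel_append ?_ (List.Forall₂.cons ?_ ?_))
  · rw [List.forall₂_map_left_iff, List.forall₂_map_right_iff]
    refine h1.imp fun w v h => ?_
    have e1 : Maps (loc [true, true] u) ([false, false] ++ w) ([false, false] ++ w) :=
      Maps.loc_inc ⟨by simp, by simp⟩ u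
    have e2 : Maps (loc [false, true] t) ([false, false] ++ w) ([false, false] ++ w) :=
      Maps.loc_inc ⟨by simp, by simp⟩ t
    exact (e1.mul e2).mul (h.locAt [false, false])
  · rw [List.forall₂_map_left_iff, List.forall₂_map_right_iff]
    refine h2.imp fun w v h => ?_
    have e1 : Maps (loc [true, true] u) ([false, true] ++ w) ([false, true] ++ w) :=
      Maps.loc_inc ⟨by simp, by simp⟩ u
    have e2 : Maps (loc [false, false] s) ([false, true] ++ v) ([false, true] ++ v) :=
      Maps.loc_inc ⟨by simp, by simp⟩ s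
    exact (e1.mul (h.locAt [false, true])).mul e2
  · have e1 : Maps (loc [true, true] u) [true, false] [true, false] :=
      Maps.loc_inc ⟨by simp, by simp⟩ u
    have e2 : Maps (loc [false, true] t) [true, false] [true, false] :=
      Maps.loc_inc ⟨by simp, by simp⟩ t
    have e3 : Maps (loc [false, false] s) [true, false] [true, false] :=
      Maps.loc_inc ⟨by simp, by simp⟩ s
    exact (e1.mul e2).mul e3
  · rw [List.forall₂_map_left_iff, List.forall₂_map_right_iff]
    refine h3.imp fun w v h => ?_
    have e1 : Maps (loc [false, true] t) ([true, true] ++ v) ([true, true] ++ v) :=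
      Maps.loc_inc ⟨by simp, by simp⟩ t
    have e2 : Maps (loc [false, false] s) ([true, true] ++ v) ([true, true] ++ v) :=
      Maps.loc_inc ⟨by simp, by simp⟩ s
    exact ((h.locAt [true, true]).mul e1).mul e2

theorem Real.rotate (a b d b' d' : Tr) :
    Real (Tr.node (Tr.node a b d) b' d') (Tr.node a b (Tr.node d b' d')) := by
  refine ⟨yy, yy_mem_T1, ?_⟩
  simp only [Tr.lv, List.map_append, List.map_cons, List.map_map, List.append_assoc,
    List.cons_append]
  refine List.rel_append ?_ (List.rel_append ?_ (List.Forall₂.cons ?_ (List.rel_append ?_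
    (List.rel_append ?_ (List.Forall₂.cons ?_ ?_)))))
  · rw [List.forall₂_map_left_iff, List.forall₂_map_right_iff]
    exact List.forall₂_same.2 fun w _ => y_aa.append w
  · rw [List.forall₂_map_left_iff, List.forall₂_map_right_iff]
    exact List.forall₂_same.2 fun w _ => y_ab.append w
  · exact y_ac
  · rw [List.forall₂_map_left_iff, List.forall₂_map_right_iff]
    exact List.forall₂_same.2 fun w _ => y_ad.append w
  · rw [List.forall₂_map_left_iff, List.forall₂_map_right_iff]
    exact List.forall₂_same.2 fun w _ => y_b.append w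
  · exact y_c
  · rw [List.forall₂_map_left_iff, List.forall₂_map_right_iff]
    exact List.forall₂_same.2 fun w _ => y_d.append w

theorem Real.combine (a b d : Tr) : Real (Tr.node a b d) (Tr.combine a b d) := by
  induction a with
  | leaf => exact Real.refl _
  | node x b1 a _ _ ih =>
    exact (Real.rotate x b1 a b d).trans ((Real.refl x).node (Real.refl b1) ih)

theorem Real.nf (τ : Tr) : Real τ τ.nf := by
  induction τ with
  | leaf => exact Real.refl _
  | node a b d iha ihb ihd => exact (iha.node ihb ihd).trans (Real.combine _ _ _)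

theorem Tr.seq_combine (a b d : Tr) : (Tr.combine a b d).seq = (Tr.node a b d).seq := by
  induction a with
  | leaf => rfl
  | node x b1 a _ _ ih =>
    rw [Tr.combine, Tr.seq, ih]
    simp [Tr.seq]

theorem Tr.seq_nf (τ : Tr) : τ.nf.seq = τ.seq := by
  induction τ with
  | leaf => rfl
  | node a b d iha ihb ihd =>
    rw [Tr.nf, Tr.seq_combine, Tr.seq, Tr.seq, iha, ihb, ihd]

/-- Trees with the same type sequence are related. -/
theorem Real.of_seq {τ τ' : Tr} (h : τ.seq = τ'.seq) : Real τ τ' := by
  have h1 := Tr.parse (Tr.NF_nf τ) (Tr.NF_nf τ') (r := []) (r' := []) (Or.inl rfl) (Or.inl rfl)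
    (by rw [Tr.seq_nf, Tr.seq_nf, h])
  have h2 := Real.nf τ
  rw [h1.1] at h2
  exact h2.trans (Real.nf τ').symm

/-- A type sequence of a tree is never one of a tree continued by the type `g`. -/
theorem Tr.no_continue {τ τ' : Tr} {r : List Bool} (h : τ.seq = τ'.seq ++ true :: r) : False := by
  have h1 := Tr.parse (Tr.NF_nf τ) (Tr.NF_nf τ') (r := []) (r' := true :: r) (Or.inl rfl)
    (Or.inr ⟨r, rfl⟩) (by rw [Tr.seq_nf, Tr.seq_nf, h, List.append_nil])
  exact absurd h1.2 (by simp)

end Pool.Agent.H41.TF
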