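import Mathlib

/-!
# Dyadic words and standard dyadic intervals of the unit interval
-/

set_option autoImplicit false

namespace Pool.Agent.H41.TF

/-- The closed unit interval. -/
abbrev UI : Type := Set.Icc (0 : ℝ) 1

/-- Finite binary words. -/
abbrev Word : Type := List Bool

/-- `x ↦ x / 2` for `false`, `x ↦ (1 + x) / 2` for `true`. -/
noncomputable def half (b : Bool) (x : UI) : UI :=
  ⟨((if b then 1 else 0) + x.1) / 2, by
    have h0 := x.2.1
    have h1 := x.2.2
    cases b <;> simp <;> constructor <;> linarith⟩

theorem half_false (x : UI) : ((half false x : UI) : ℝ) = x.1 / 2 := by simp [half]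
theorem half_true (x : UI) : ((half true x : UI) : ℝ) = (1 + x.1) / 2 := by simp [half]

/-- The affine parametrization of the standard dyadic interval of a word. -/
noncomputable def pt : Word → UI → UI
  | [], x => x
  | b :: w, x => half b (pt w x)

@[simp] theorem pt_nil (x : UI) : pt [] x = x := rfl
@[simp] theorem pt_cons (b : Bool) (w : Word) (x : UI) : pt (b :: w) x = half b (pt w x) := rfl

theorem pt_append (w u : Word) (x : UI) : pt (w ++ u) x = pt w (pt u x) := by
  induction w with
  | nil => rfl
  | cons b w ih => simp [ih]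

theorem half_strictMono (b : Bool) : StrictMono (half b) := by
  intro x y h
  have h' : x.1 < y.1 := h
  change (half b x).1 < (half b y).1
  cases b
  · rw [half_false, half_false]; linarith
  · rw [half_true, half_true]; linarith

theorem pt_strictMono (w : Word) : StrictMono (pt w) := by
  induction w with
  | nil => intro x y h; exact h
  | cons b w ih => exact (half_strictMono b).comp ih

theorem pt_injective (w : Word) : Function.Injective (pt w) := (pt_strictMono w).injective

theorem val_zero : ((0 : UI) : ℝ) = 0 := rfl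
theorem val_one : ((1 : UI) : ℝ) = 1 := rfl

theorem zero_le (x : UI) : (0 : UI) ≤ x := x.2.1
theorem le_one (x : UI) : x ≤ (1 : UI) := x.2.2
theorem zero_lt_one' : (0 : UI) < 1 := by
  change ((0 : UI) : ℝ) < ((1 : UI) : ℝ)
  rw [val_zero, val_one]; norm_num

/-- Affine formula. -/
theorem pt_val (w : Word) (x : UI) :
    ((pt w x : UI) : ℝ) = (pt w 0 : UI) + x.1 / 2 ^ w.length := by
  induction w with
  | nil => simp
  | cons b w ih =>
    cases b
    · rw [pt_cons, pt_cons, half_false, half_false, ih, List.length_cons, pow_succ]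
      field_simp
    · rw [pt_cons, pt_cons, half_true, half_true, ih, List.length_cons, pow_succ]
      field_simp
      ring

theorem pt_one_val (w : Word) :
    ((pt w 1 : UI) : ℝ) = (pt w 0 : UI) + 1 / 2 ^ w.length := by
  rw [pt_val w 1, val_one]

theorem pt_zero_lt_pt_one (w : Word) : pt w 0 < pt w 1 := pt_strictMono w zero_lt_one'

theorem pt_zero_le (w : Word) (x : UI) : pt w 0 ≤ pt w x := (pt_strictMono w).monotone (zero_le x)
theorem pt_le_one (w : Word) (x : UI) : pt w x ≤ pt w 1 := (pt_strictMono w).monotone (le_one x)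

/-- Left endpoints are dyadic with numerator below the denominator. -/
theorem exists_num (w : Word) :
    ∃ j : ℕ, j < 2 ^ w.length ∧ ((pt w 0 : UI) : ℝ) = j / 2 ^ w.length := by
  induction w with
  | nil => exact ⟨0, by simp, by simp⟩
  | cons b w ih =>
    obtain ⟨j, hj, h⟩ := ih
    cases b
    · refine ⟨j, ?_, ?_⟩
      · rw [List.length_cons, pow_succ]; omega
      · rw [pt_cons, half_false, h, List.length_cons, pow_succ]; field_simp
    · refine ⟨2 ^ w.length + j, ?_, ?_⟩
      · rw [List.length_cons, pow_succ]; omega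
      · rw [pt_cons, half_true, h, List.length_cons, pow_succ]
        push_cast
        field_simp

/-- Every standard dyadic interval is that of a word. -/
theorem exists_word (n : ℕ) : ∀ j : ℕ, j < 2 ^ n →
    ∃ w : Word, w.length = n ∧ ((pt w 0 : UI) : ℝ) = j / 2 ^ n := by
  induction n with
  | zero =>
    intro j hj
    have : j = 0 := by simpa using hj
    subst this
    exact ⟨[], rfl, by simp⟩
  | succ n ih =>
    intro j hj
    by_cases hlt : j < 2 ^ n
    · obtain ⟨w, hw, h⟩ := ih j hlt
      refine ⟨false :: w, by simp [hw], ?_⟩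
      rw [pt_cons, half_false, h, pow_succ]; field_simp
    · obtain ⟨i, rfl⟩ := Nat.exists_eq_add_of_le (not_lt.1 hlt)
      have hi : i < 2 ^ n := by rw [pow_succ] at hj; omega
      obtain ⟨w, hw, h⟩ := ih i hi
      refine ⟨true :: w, by simp [hw], ?_⟩
      rw [pt_cons, half_true, h, pow_succ]
      push_cast
      field_simp

/-- Halving covers the interval. -/
theorem exists_half (x : UI) : ∃ b y, x = half b y := by
  by_cases h : x.1 ≤ 1 / 2
  · refine ⟨false, ⟨2 * x.1, by have := x.2.1; linarith, by linarith⟩, ?_⟩
    apply Subtype.ext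
    rw [half_false]; simp
  · refine ⟨true, ⟨2 * x.1 - 1, by linarith, by have := x.2.2; linarith⟩, ?_⟩
    apply Subtype.ext
    rw [half_true]; simp

theorem exists_half_lt (x : UI) (hx : x < 1) : ∃ b y, y < 1 ∧ x = half b y := by
  have hx' : x.1 < 1 := hx
  by_cases h : x.1 < 1 / 2
  · refine ⟨false, ⟨2 * x.1, by have := x.2.1; linarith, by linarith⟩, ?_, ?_⟩
    · change (2 * x.1) < 1; linarith
    · apply Subtype.ext
      rw [half_false]; simp
  · refine ⟨true, ⟨2 * x.1 - 1, by linarith, by linarith⟩, ?_, ?_⟩
    · change (2 * x.1 - 1) < 1; linarith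
    · apply Subtype.ext
      rw [half_true]; simp

theorem exists_pt (n : ℕ) : ∀ x : UI, ∃ w : Word, w.length = n ∧ ∃ y, x = pt w y := by
  induction n with
  | zero => intro x; exact ⟨[], rfl, x, rfl⟩
  | succ n ih =>
    intro x
    obtain ⟨b, y, rfl⟩ := exists_half x
    obtain ⟨w, hw, z, rfl⟩ := ih y
    exact ⟨b :: w, by simp [hw], z, rfl⟩

theorem exists_pt_lt (n : ℕ) : ∀ x : UI, x < 1 →
    ∃ w : Word, w.length = n ∧ ∃ y, y < 1 ∧ x = pt w y := by
  induction n with
  | zero => intro x hx; exact ⟨[], rfl, x, hx, rfl⟩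
  | succ n ih =>
    intro x hx
    obtain ⟨b, y, hy, rfl⟩ := exists_half_lt x hx
    obtain ⟨w, hw, z, hz, rfl⟩ := ih y hy
    exact ⟨b :: w, by simp [hw], z, hz, rfl⟩

/-- Points between the endpoints are in the interval. -/
theorem exists_of_mem (w : Word) (x : UI) (h0 : pt w 0 ≤ x) (h1 : x ≤ pt w 1) :
    ∃ y, pt w y = x := by
  have h0' : ((pt w 0 : UI) : ℝ) ≤ x.1 := h0
  have h1' : x.1 ≤ ((pt w 1 : UI) : ℝ) := h1
  rw [pt_one_val] at h1'
  have hp : (0 : ℝ) < 2 ^ w.length := by positivity
  refine ⟨⟨(x.1 - (pt w 0 : UI)) * 2 ^ w.length, ?_, ?_⟩, ?_⟩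
  · exact mul_nonneg (by linarith) hp.le
  · have : x.1 - (pt w 0 : UI) ≤ 1 / 2 ^ w.length := by linarith
    calc (x.1 - (pt w 0 : UI)) * 2 ^ w.length ≤ (1 / 2 ^ w.length) * 2 ^ w.length :=
          mul_le_mul_of_nonneg_right this hp.le
      _ = 1 := by field_simp
  · apply Subtype.ext
    rw [pt_val]
    simp only
    field_simp
    ring

theorem half_zero_eq {b : Bool} {x : UI} (h : half b x = 0) : b = false ∧ x = 0 := by
  have h' : (half b x).1 = 0 := congrArg Subtype.val h
  have := x.2.1
  cases b
  · rw [half_false] at h'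
    exact ⟨rfl, Subtype.ext (by rw [val_zero]; linarith)⟩
  · rw [half_true] at h'; linarith

theorem half_one_eq {b : Bool} {x : UI} (h : half b x = 1) : b = true ∧ x = 1 := by
  have h' : (half b x).1 = 1 := congrArg Subtype.val h
  have := x.2.2
  cases b
  · rw [half_false] at h'; linarith
  · rw [half_true] at h'
    exact ⟨rfl, Subtype.ext (by rw [val_one]; linarith)⟩

theorem half_false_zero : half false 0 = 0 := Subtype.ext (by rw [half_false, val_zero]; simp)
theorem half_true_one : half true 1 = 1 := Subtype.ext (by rw [half_true, val_one]; norm_num)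

theorem pt_eq_zero {w : Word} {x : UI} (h : pt w x = 0) :
    w = List.replicate w.length false ∧ x = 0 := by
  induction w with
  | nil => exact ⟨rfl, h⟩
  | cons b w ih =>
    obtain ⟨hb, hx⟩ := half_zero_eq h
    obtain ⟨h1, h2⟩ := ih hx
    refine ⟨?_, h2⟩
    rw [List.length_cons, List.replicate_succ, hb, ← h1]

theorem pt_eq_one {w : Word} {x : UI} (h : pt w x = 1) :
    w = List.replicate w.length true ∧ x = 1 := by
  induction w with
  | nil => exact ⟨rfl, h⟩
  | cons b w ih =>
    obtain ⟨hb, hx⟩ := half_one_eq h
    obtain ⟨h1, h2⟩ := ih hx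
    refine ⟨?_, h2⟩
    rw [List.length_cons, List.replicate_succ, hb, ← h1]

theorem pt_replicate_false (n : ℕ) : pt (List.replicate n false) 0 = 0 := by
  induction n with
  | zero => rfl
  | succ n ih => rw [List.replicate_succ, pt_cons, ih, half_false_zero]

theorem pt_replicate_true (n : ℕ) : pt (List.replicate n true) 1 = 1 := by
  induction n with
  | zero => rfl
  | succ n ih => rw [List.replicate_succ, pt_cons, ih, half_true_one]

theorem half_false_eq_true {x y : UI} (h : half false x = half true y) : x = 1 ∧ y = 0 := by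
  have h' : (half false x).1 = (half true y).1 := congrArg Subtype.val h
  rw [half_false, half_true] at h'
  have h1 := x.2.2
  have h2 := y.2.1
  exact ⟨Subtype.ext (by rw [val_one]; linarith), Subtype.ext (by rw [val_zero]; linarith)⟩

/-- Two standard dyadic intervals with a common point. -/
theorem common : ∀ (w v : Word) (x y : UI), pt w x = pt v y →
    w <+: v ∨ v <+: w ∨
    (∃ u a b, w = u ++ false :: List.replicate a true ∧ v = u ++ true :: List.replicate b false ∧
      x = 1 ∧ y = 0) ∨
    (∃ u a b, v = u ++ false :: List.replicate a true ∧ w = u ++ true :: List.replicate b false ∧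
      x = 0 ∧ y = 1) := by
  intro w
  induction w with
  | nil => intro v x y _; exact Or.inl (List.nil_prefix)
  | cons b w ih =>
    intro v x y h
    cases v with
    | nil => exact Or.inr (Or.inl List.nil_prefix)
    | cons c v =>
      by_cases hbc : b = c
      · subst hbc
        have h' : pt w x = pt v y := (half_strictMono b).injective h
        rcases ih v x y h' with h1 | h1 | ⟨u, a, k, h1, h2, h3⟩ | ⟨u, a, k, h1, h2, h3⟩
        · exact Or.inl (by simpa using h1)
        · exact Or.inr (Or.inl (by simpa using h1))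
        · exact Or.inr (Or.inr (Or.inl ⟨b :: u, a, k, by simp [h1], by simp [h2], h3⟩))
        · exact Or.inr (Or.inr (Or.inr ⟨b :: u, a, k, by simp [h1], by simp [h2], h3⟩))
      · cases b <;> cases c
        · exact absurd rfl hbc
        · have := half_false_eq_true h
          obtain ⟨h1, h2⟩ := this
          obtain ⟨h3, h4⟩ := pt_eq_one h1
          obtain ⟨h5, h6⟩ := pt_eq_zero h2
          refine Or.inr (Or.inr (Or.inl ⟨[], w.length, v.length, ?_, ?_, h4, h6⟩))
          · rw [List.nil_append, ← h3]
          · rw [List.nil_append, ← h5]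
        · have := half_false_eq_true h.symm
          obtain ⟨h1, h2⟩ := this
          obtain ⟨h3, h4⟩ := pt_eq_one h1
          obtain ⟨h5, h6⟩ := pt_eq_zero h2
          refine Or.inr (Or.inr (Or.inr ⟨[], v.length, w.length, ?_, ?_, h6, h4⟩))
          · rw [List.nil_append, ← h3]
          · rw [List.nil_append, ← h5]
        · exact absurd rfl hbc

theorem zero_ne_one' : (0 : UI) ≠ 1 := zero_lt_one'.ne

/-- Words with the same left endpoint. -/
theorem same_left {w v : Word} (h : pt w 0 = pt v 0) :
    (∃ j, v = w ++ List.replicate j false) ∨ (∃ j, w = v ++ List.replicate j false) := by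
  rcases common w v 0 0 h with ⟨u, rfl⟩ | ⟨u, rfl⟩ | ⟨u, a, b, _, _, h1, _⟩ | ⟨u, a, b, _, _, _, h1⟩
  · left
    rw [pt_append] at h
    have := pt_injective w h
    exact ⟨u.length, by rw [← (pt_eq_zero this.symm).1]⟩
  · right
    rw [pt_append] at h
    have := pt_injective v h
    exact ⟨u.length, by rw [← (pt_eq_zero this).1]⟩
  · exact absurd h1 zero_ne_one'
  · exact absurd h1 zero_ne_one'

/-- A word is determined by the endpoints of its interval. -/
theorem word_ext {w v : Word} (h0 : pt w 0 = pt v 0) (h1 : pt w 1 = pt v 1) : w = v := by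
  have key : ∀ {w u : Word}, pt w 1 = pt (w ++ u) 1 → pt w 0 = pt (w ++ u) 0 → u = [] := by
    intro w u h1 h0
    rw [pt_append] at h0 h1
    have e0 := pt_eq_zero (pt_injective w h0).symm
    have e1 := pt_eq_one (pt_injective w h1).symm
    cases u with
    | nil => rfl
    | cons b u =>
      have a1 := e0.1
      have a2 := e1.1
      rw [List.length_cons, List.replicate_succ] at a1 a2
      have := (List.cons.inj a1).1.symm.trans (List.cons.inj a2).1
      exact absurd this (by decide)
  rcases same_left h0 with ⟨j, hj⟩ | ⟨j, hj⟩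
  · rw [hj] at h0 h1 ⊢
    rw [key h1 h0, List.append_nil]
  · rw [hj] at h0 h1 ⊢
    rw [key h1.symm h0.symm, List.append_nil]

end Pool.Agent.H41.TF
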